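import Pool.Agent.Helper57.ED.EdF
import Pool.Agent.Helper57.M.E

/-!
# ED: uniform weight on `[0, T]`
-/

open MeasureTheory Set Filter Topology Complex
open Pool.Agent.Helper57.Zeta Pool.Agent.Helper57.LH Pool.Agent.Helper57.PC

namespace Pool.Agent.Helper57.ED

/-- the bound of `ed_main`. -/
noncomputable def Bn (y : ℝ) : ℝ := 1 / (4 * Real.pi) * Real.log (1 / (1 - Real.exp (-(2 * Real.pi * y))))

lemma Bn_aux {y : ℝ} (hy : 0 < y) : 0 < 1 - Real.exp (-(2 * Real.pi * y)) := by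
  have : Real.exp (-(2 * Real.pi * y)) < 1 := by
    rw [Real.exp_lt_one_iff]
    have := Real.pi_pos
    have : 0 < 2 * Real.pi * y := by positivity
    linarith
  linarith

lemma Bn_nonneg {y : ℝ} (hy : 0 < y) : 0 ≤ Bn y := by
  unfold Bn
  have h1 := Bn_aux hy
  have h2 := Real.exp_pos (-(2 * Real.pi * y))
  have h3 : 1 ≤ 1 / (1 - Real.exp (-(2 * Real.pi * y))) := by
    rw [le_div_iff₀ h1]; linarith
  have := Real.log_nonneg h3
  have := Real.pi_pos
  positivity

lemma Bn_cont {y : ℝ} (hy : 0 < y) : ContinuousAt Bn y := by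
  unfold Bn
  have h1 := Bn_aux hy
  apply ContinuousAt.mul continuousAt_const
  apply ContinuousAt.log
  · have h2 : ContinuousAt (fun x : ℝ => 1 - Real.exp (-(2 * Real.pi * x))) y := by fun_prop
    exact continuousAt_const.div h2 h1.ne'
  · positivity

lemma PW_cont {W : ℝ} (hW : 0 < W) : Continuous (PW W) := by
  unfold PW
  apply Continuous.div continuous_const (by fun_prop)
  intro t
  have := Real.pi_pos
  positivity

lemma integral_PW_ab {W : ℝ} (hW : 0 < W) (a b : ℝ) :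
    ∫ t in a..b, PW W t = (Real.arctan (b / W) - Real.arctan (a / W)) / Real.pi := by
  have hpi := Real.pi_pos
  have h1 : ∀ t ∈ uIcc a b, HasDerivAt (fun t => Real.arctan (t / W) / Real.pi) (PW W t) t := by
    intro t _
    have h2 : HasDerivAt (fun t : ℝ => Real.arctan (t / W) / Real.pi) (1 / (1 + (t / W) ^ 2) * (1 / W) / Real.pi) t :=
      (((hasDerivAt_id t).div_const W).arctan).div_const Real.pi
    have h3 : PW W t = 1 / (1 + (t / W) ^ 2) * (1 / W) / Real.pi := by
      unfold PW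
      field_simp
    rw [h3]
    exact h2
  rw [intervalIntegral.integral_eq_sub_of_hasDerivAt h1 ((PW_cont hW).intervalIntegrable _ _)]
  ring

lemma arctan_ge {x : ℝ} (hx : 0 < x) : Real.pi / 2 - 1 / x ≤ Real.arctan x := by
  have h1 := Real.arctan_inv_of_pos hx
  have h2 : Real.arctan x⁻¹ ≤ x⁻¹ := by
    have h3 : 0 < x⁻¹ := by positivity
    have h4 := Real.arctan_lt_pi_div_two x⁻¹
    have h5 : 0 < Real.arctan x⁻¹ := by
      rw [← Real.arctan_zero]; exact Real.arctan_strictMono h3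
    have h6 := Real.lt_tan h5 h4
    rw [Real.tan_arctan] at h6
    exact h6.le
  rw [one_div]
  linarith

/-- mass of the kernel on a long interval. -/
lemma PW_mass {W H T γ : ℝ} (hW : 0 < W) (hH : 0 < H) (hγ : 0 ≤ γ) (hγT : γ ≤ T) :
    1 - W / H ≤ ∫ τ in (-H)..(T + H), PW W (γ - τ) := by
  have hpi := Real.pi_pos
  rw [intervalIntegral.integral_comp_sub_left (fun t => PW W t) γ, integral_PW_ab hW]
  have h1 : Real.arctan (H / W) ≤ Real.arctan ((γ - -H) / W) :=
    Real.arctan_strictMono.monotone (by gcongr; linarith)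
  have h2 : Real.arctan ((γ - (T + H)) / W) ≤ -Real.arctan (H / W) := by
    rw [← Real.arctan_neg]
    apply Real.arctan_strictMono.monotone
    rw [← neg_div]
    gcongr
    linarith
  have h3 := arctan_ge (show 0 < H / W by positivity)
  have h4 : 1 / (H / W) = W / H := by field_simp
  rw [h4] at h3
  rw [le_div_iff₀ hpi]
  have h5 : 0 ≤ W / H := by positivity
  have h6 : 2 * (W / H) ≤ Real.pi * (W / H) := by
    apply mul_le_mul_of_nonneg_right _ h5
    linarith [Real.pi_gt_three]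
  nlinarith

lemma exists_s {y0 ε : ℝ} (hy0 : 0 < y0) (hε : 0 < ε) :
    ∃ s : ℝ, 0 < s ∧ s < 1 / 2 ∧ (1 + 2 * s) / (1 - s) * (Bn (y0 * (1 - s)) + s) < Bn y0 + ε := by
  have h1 : ContinuousAt (fun s : ℝ => (1 + 2 * s) / (1 - s) * (Bn (y0 * (1 - s)) + s)) 0 := by
    apply ContinuousAt.mul
    · apply ContinuousAt.div (by fun_prop) (by fun_prop) (by norm_num)
    · apply ContinuousAt.add _ continuousAt_id
      have h2 : ContinuousAt (fun s : ℝ => y0 * (1 - s)) 0 := by fun_prop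
      have h3 : ContinuousAt Bn ((fun s : ℝ => y0 * (1 - s)) 0) := by
        simp only [sub_zero, mul_one]
        exact Bn_cont hy0
      exact ContinuousAt.comp (g := Bn) (f := fun s : ℝ => y0 * (1 - s)) h3 h2
  have h2 : Tendsto (fun s : ℝ => (1 + 2 * s) / (1 - s) * (Bn (y0 * (1 - s)) + s)) (𝓝[>] 0) (𝓝 (Bn y0)) := by
    have h3 := h1.tendsto
    simp only [mul_zero, add_zero, sub_zero, mul_one, div_one, one_mul] at h3
    exact h3.mono_left nhdsWithin_le_nhds
  have h3 := h2.eventually (gt_mem_nhds (show Bn y0 < Bn y0 + ε by linarith))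
  have h4 : ∀ᶠ s : ℝ in 𝓝[>] 0, 0 < s := eventually_mem_nhdsWithin
  have h5 : ∀ᶠ s : ℝ in 𝓝[>] 0, s < 1 / 2 := (gt_mem_nhds (by norm_num)).filter_mono nhdsWithin_le_nhds
  obtain ⟨s, h⟩ := (h4.and (h5.and h3)).exists
  exact ⟨s, h.1, h.2.1, h.2.2⟩

/-- averaging `ed_main` over `τ`. -/
lemma avg_step {W T H B y : ℝ} (hW : 1 < W) (hT : 0 ≤ T) (hH : 0 < H) (Z : Finset ZS)
    (hZ : ∀ ρ ∈ Z, 0 ≤ (ρ : ℂ).im ∧ (ρ : ℂ).im ≤ T)
    (h : ∀ τ : ℝ, |τ| ≤ T + H →
      ∑ ρ ∈ Z, mx ρ * (2 * Real.pi / Real.log W * PW W ((ρ : ℂ).im - τ)) * max 0 (yy W ρ - y) ≤ B) :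
    (1 - W / H) * ∑ ρ ∈ Z, mx ρ * max 0 (yy W ρ - y) ≤ Real.log W / (2 * Real.pi) * ((T + 2 * H) * B) := by
  have hpi := Real.pi_pos
  have hW0 : 0 < W := by linarith
  have hL : 0 < Real.log W := Real.log_pos hW
  have hc : ∀ ρ : ZS, Continuous (fun τ : ℝ =>
      mx ρ * (2 * Real.pi / Real.log W * PW W ((ρ : ℂ).im - τ)) * max 0 (yy W ρ - y)) := by
    intro ρ
    have := PW_cont hW0
    fun_prop
  have h1 : ∫ τ in (-H)..(T + H), ∑ ρ ∈ Z, mx ρ * (2 * Real.pi / Real.log W * PW W ((ρ : ℂ).im - τ)) *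
      max 0 (yy W ρ - y) ≤ ∫ τ in (-H)..(T + H), B := by
    apply intervalIntegral.integral_mono_on (by linarith)
    · exact (continuous_finsetSum _ fun ρ _ => hc ρ).intervalIntegrable _ _
    · exact intervalIntegrable_const
    · intro τ hτ
      apply h
      rw [abs_le]
      constructor <;> linarith [hτ.1, hτ.2]
  rw [intervalIntegral.integral_finsetSum (fun ρ _ => (hc ρ).intervalIntegrable _ _)] at h1
  rw [intervalIntegral.integral_const, smul_eq_mul] at h1
  have h2 : ∀ ρ ∈ Z, 2 * Real.pi / Real.log W * ((1 - W / H) * (mx ρ * max 0 (yy W ρ - y))) ≤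
      ∫ τ in (-H)..(T + H), mx ρ * (2 * Real.pi / Real.log W * PW W ((ρ : ℂ).im - τ)) * max 0 (yy W ρ - y) := by
    intro ρ hρ
    have h3 := PW_mass hW0 hH (hZ ρ hρ).1 (hZ ρ hρ).2
    have e : ∀ τ : ℝ, mx ρ * (2 * Real.pi / Real.log W * PW W ((ρ : ℂ).im - τ)) * max 0 (yy W ρ - y) =
        (2 * Real.pi / Real.log W * (mx ρ * max 0 (yy W ρ - y))) * PW W ((ρ : ℂ).im - τ) := fun τ => by ring
    simp only [e]
    rw [intervalIntegral.integral_const_mul]
    have h4 : 0 ≤ 2 * Real.pi / Real.log W * (mx ρ * max 0 (yy W ρ - y)) := by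
      have := mx_nonneg (ρ : ℂ)
      have : 0 ≤ max 0 (yy W ρ - y) := le_max_left _ _
      positivity
    calc _ = 2 * Real.pi / Real.log W * (mx ρ * max 0 (yy W ρ - y)) * (1 - W / H) := by ring
      _ ≤ _ := mul_le_mul_of_nonneg_left h3 h4
  have h5 := (Finset.sum_le_sum h2).trans h1
  rw [← Finset.mul_sum, ← Finset.mul_sum] at h5
  have h6 : (T + H - -H) * B = (T + 2 * H) * B := by ring
  rw [h6] at h5
  calc _ = Real.log W / (2 * Real.pi) * (2 * Real.pi / Real.log W *
        ((1 - W / H) * ∑ ρ ∈ Z, mx ρ * max 0 (yy W ρ - y))) := by field_simp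
    _ ≤ _ := mul_le_mul_of_nonneg_left h5 (by positivity)

/-- **ED, uniform weight**: the mean of `(y_ρ - y₀)₊` over the zeros with `0 ≤ γ ≤ T`. -/
theorem ed_unif {y0 ε : ℝ} (hy0 : 0 < y0) (hε : 0 < ε) :
    ∀ᶠ T : ℝ in atTop, ∑ ρ ∈ Zf T, mx ρ * max 0 (yy T ρ - y0) ≤ (Bn y0 + ε) * SN T := by
  have hpi := Real.pi_pos
  obtain ⟨s, hs0, hs1, hs⟩ := exists_s hy0 hε
  set y1 := y0 * (1 - s) with hy1
  have hy1p : 0 < y1 := mul_pos hy0 (by linarith)
  have h1 := ed_main hy1p (show 0 ≤ (1 + s) / s ^ 2 by positivity) hs0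
  have hsc : Tendsto (fun T : ℝ => s ^ 2 * T) atTop atTop := tendsto_id.const_mul_atTop (by positivity)
  have hl := Real.tendsto_log_atTop.comp hsc
  have h2 : ∀ᶠ T : ℝ in atTop, -Real.log (s ^ 2) / s ≤ Real.log T := Real.tendsto_log_atTop.eventually_ge_atTop _
  filter_upwards [hsc.eventually h1, hl.eventually_gt_atTop 0, eventually_gt_atTop 1, h2] with T hT hLW hT1 hT2
  set W := s ^ 2 * T with hW
  have hT0 : 0 < T := by linarith
  have hW0 : 0 < W := by positivity
  simp only [Function.comp_apply] at hLW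
  rw [← hW] at hLW
  have hW1 : 1 < W := by
    by_contra hh
    have := Real.log_nonpos hW0.le (not_lt.mp hh)
    linarith
  have hLT : 0 < Real.log T := Real.log_pos hT1
  have hlog : Real.log W = Real.log (s ^ 2) + Real.log T := by
    rw [hW, Real.log_mul (by positivity) hT0.ne']
  have hls : Real.log (s ^ 2) < 0 := Real.log_neg (by positivity) (by nlinarith)
  have hLWT : (1 - s) * Real.log T ≤ Real.log W := by
    rw [hlog]
    have := mul_le_mul_of_nonneg_left hT2 hs0.le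
    rw [mul_div_cancel₀ _ hs0.ne'] at this
    linarith
  have hLWT2 : Real.log W ≤ Real.log T := by rw [hlog]; linarith
  set H := s * T with hH
  have hH0 : 0 < H := by positivity
  have hWH : W / H = s := by rw [hW, hH]; field_simp
  have h3 := avg_step (y := y1) (B := Bn y1 + s) hW1 hT0.le hH0 (ZT T) (fun ρ hρ => mem_ZT.mp hρ) (fun τ hτ => by
    apply hT τ _ (ZT T)
    refine hτ.trans (le_of_eq ?_)
    rw [hW, hH]
    field_simp)
  rw [hWH, sum_ZT T (fun ρ => mx ρ * max 0 (yy W ρ - y1))] at h3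
  -- compare the two normalisations
  have h4 : ∀ ρ ∈ Zf T, mx ρ * max 0 (yy T ρ - y0) ≤ Real.log T / Real.log W * (mx ρ * max 0 (yy W ρ - y1)) := by
    intro ρ _
    have hm := mx_nonneg ρ
    have e1 : yy T ρ = Real.log T / Real.log W * yy W ρ := by
      unfold yy
      field_simp
    have h5 : Real.log T / Real.log W * y1 ≤ y0 := by
      rw [hy1, div_mul_eq_mul_div, div_le_iff₀ hLW]
      nlinarith
    have h6 : max 0 (yy T ρ - y0) ≤ Real.log T / Real.log W * max 0 (yy W ρ - y1) := by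
      apply max_le (by positivity)
      calc yy T ρ - y0 ≤ Real.log T / Real.log W * (yy W ρ - y1) := by rw [mul_sub, ← e1]; linarith
        _ ≤ _ := mul_le_mul_of_nonneg_left (le_max_right _ _) (by positivity)
    calc mx ρ * max 0 (yy T ρ - y0) ≤ mx ρ * (Real.log T / Real.log W * max 0 (yy W ρ - y1)) :=
          mul_le_mul_of_nonneg_left h6 hm
      _ = _ := by ring
  refine (Finset.sum_le_sum h4).trans ?_
  rw [← Finset.mul_sum]
  have hB := Bn_nonneg hy1p
  have h7 : ∑ ρ ∈ Zf T, mx ρ * max 0 (yy W ρ - y1) ≤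
      Real.log W / (2 * Real.pi) * T * ((1 + 2 * s) / (1 - s) * (Bn y1 + s)) := by
    have h8 : (0:ℝ) < 1 - s := by linarith
    rw [show Real.log W / (2 * Real.pi) * T * ((1 + 2 * s) / (1 - s) * (Bn y1 + s)) =
      (Real.log W / (2 * Real.pi) * ((T + 2 * H) * (Bn y1 + s))) / (1 - s) by rw [hH]; field_simp]
    rw [le_div_iff₀ h8, mul_comm]
    exact h3
  calc Real.log T / Real.log W * ∑ ρ ∈ Zf T, mx ρ * max 0 (yy W ρ - y1)
      ≤ Real.log T / Real.log W * (Real.log W / (2 * Real.pi) * T * ((1 + 2 * s) / (1 - s) * (Bn y1 + s))) :=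
        mul_le_mul_of_nonneg_left h7 (by positivity)
    _ ≤ Real.log T / Real.log W * (Real.log W / (2 * Real.pi) * T * (Bn y0 + ε)) := by gcongr
    _ = (Bn y0 + ε) * SN T := by
        unfold SN
        field_simp

/-- **Number of zeros far from the critical line**, one side. -/
theorem ed_count {h0 H ε : ℝ} (hh0 : 0 < h0) (hH : h0 < H) (hε : 0 < ε) :
    ∀ᶠ T : ℝ in atTop, ∑ ρ ∈ (Zf T).filter (fun ρ => H ≤ (ρ.re - 1 / 2) * Real.log T), mx ρ ≤
      (1 / (2 * (H - h0)) * Real.log (1 / (1 - Real.exp (-h0))) + ε) * SN T := by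
  have hpi := Real.pi_pos
  have hd : 0 < H - h0 := by linarith
  have h1 := ed_unif (y0 := h0 / (2 * Real.pi)) (ε := ε * (H - h0) / (2 * Real.pi)) (by positivity) (by positivity)
  filter_upwards [h1, eventually_gt_atTop 1] with T hT hT1
  have hLT : 0 < Real.log T := Real.log_pos hT1
  have h2 : (H - h0) / (2 * Real.pi) * ∑ ρ ∈ (Zf T).filter (fun ρ => H ≤ (ρ.re - 1 / 2) * Real.log T), mx ρ ≤
      ∑ ρ ∈ Zf T, mx ρ * max 0 (yy T ρ - h0 / (2 * Real.pi)) := by
    rw [Finset.mul_sum, Finset.sum_filter]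
    refine Finset.sum_le_sum fun ρ _ => ?_
    have hm := mx_nonneg ρ
    split_ifs with h3
    · rw [mul_comm]
      apply mul_le_mul_of_nonneg_left _ hm
      refine le_trans ?_ (le_max_right _ _)
      unfold yy
      rw [← sub_div]
      gcongr
      linarith
    · have : 0 ≤ max 0 (yy T ρ - h0 / (2 * Real.pi)) := le_max_left _ _
      positivity
  have h3 := h2.trans hT
  have e : Bn (h0 / (2 * Real.pi)) + ε * (H - h0) / (2 * Real.pi) =
      (H - h0) / (2 * Real.pi) * (1 / (2 * (H - h0)) * Real.log (1 / (1 - Real.exp (-h0))) + ε) := by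
    unfold Bn
    rw [show 2 * Real.pi * (h0 / (2 * Real.pi)) = h0 by field_simp]
    field_simp
    ring
  rw [e, mul_assoc] at h3
  exact le_of_mul_le_mul_left h3 (by positivity)

end Pool.Agent.Helper57.ED
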