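import Pool.Agent.Helper57.ED.EdF

/-!
# ED: deep zeros, uniform levels
-/

open MeasureTheory Set Filter Topology Complex
open Pool.Agent.Helper57.Zeta Pool.Agent.Helper57.LH

namespace Pool.Agent.Helper57.ED

lemma tele_slope {s x : ℝ} (hs : 0 < s) (hx : 0 < x) :
    s * (x + 1) ^ (-s - 1) ≤ x ^ (-s) - (x + 1) ^ (-s) ∧ x ^ (-s) - (x + 1) ^ (-s) ≤ s * x ^ (-s - 1) := by
  have h1 : ∀ t ∈ Icc x (x + 1), HasDerivAt (fun t : ℝ => -t ^ (-s)) (s * t ^ (-s - 1)) t := by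
    intro t ht
    have h2 := (Real.hasDerivAt_rpow_const (x := t) (p := -s) (Or.inl (by linarith [ht.1]))).neg
    have : -(-s * t ^ (-s - 1)) = s * t ^ (-s - 1) := by ring
    rw [this] at h2
    exact h2
  obtain ⟨c, hc, hc2⟩ := exists_hasDerivAt_eq_slope (fun t : ℝ => -t ^ (-s)) (fun t => s * t ^ (-s - 1))
    (by linarith : x < x + 1) (fun t ht => (h1 t ht).continuousAt.continuousWithinAt)
    (fun t ht => h1 t (Ioo_subset_Icc_self ht))
  have h3 : x ^ (-s) - (x + 1) ^ (-s) = s * c ^ (-s - 1) := by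
    rw [hc2]; ring
  rw [h3]
  constructor
  · apply mul_le_mul_of_nonneg_left _ hs.le
    exact Real.rpow_le_rpow_of_nonpos (by linarith [hc.1]) hc.2.le (by linarith)
  · apply mul_le_mul_of_nonneg_left _ hs.le
    exact Real.rpow_le_rpow_of_nonpos hx hc.1.le (by linarith)

lemma zs_ge {σ : ℝ} (hσ : 1 / 2 < σ) : 1 / (2 * σ - 1) ≤ zs σ := by
  have hs : 0 < 2 * σ - 1 := by linarith
  have h1 : ∀ N : ℕ, (1 - ((N : ℝ) + 1) ^ (-(2 * σ - 1))) / (2 * σ - 1) ≤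
      ∑ n ∈ Finset.range N, ((n : ℝ) + 1) ^ (-2 * σ) := by
    intro N
    induction N with
    | zero => simp
    | succ N ih =>
      rw [Finset.sum_range_succ]
      have h2 := (tele_slope hs (by positivity : (0:ℝ) < (N : ℝ) + 1)).2
      have e : -(2 * σ - 1) - 1 = -2 * σ := by ring
      rw [e] at h2
      push_cast
      have h3 : (((N:ℝ) + 1) ^ (-(2 * σ - 1)) - ((N:ℝ) + 1 + 1) ^ (-(2 * σ - 1))) / (2 * σ - 1) ≤
          ((N:ℝ) + 1) ^ (-2 * σ) := by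
        rw [div_le_iff₀ hs]; linarith
      have h4 : (1 - ((N : ℝ) + 1 + 1) ^ (-(2 * σ - 1))) / (2 * σ - 1) =
          (1 - ((N : ℝ) + 1) ^ (-(2 * σ - 1))) / (2 * σ - 1) +
          (((N:ℝ) + 1) ^ (-(2 * σ - 1)) - ((N:ℝ) + 1 + 1) ^ (-(2 * σ - 1))) / (2 * σ - 1) := by ring
      rw [h4]
      linarith
  have h2 := (summable_zs hσ).hasSum.tendsto_sum_nat
  have h3 : Tendsto (fun N : ℕ => (1 - ((N : ℝ) + 1) ^ (-(2 * σ - 1))) / (2 * σ - 1)) atTop (𝓝 ((1 - 0) / (2 * σ - 1))) := by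
    apply Tendsto.div_const
    apply Tendsto.const_sub
    exact (tendsto_rpow_neg_atTop hs).comp (tendsto_atTop_add_const_right _ _ tendsto_natCast_atTop_atTop)
  rw [sub_zero] at h3
  exact le_of_tendsto_of_tendsto' h3 h2 h1

lemma zs_tail {σ : ℝ} (hσ : 1 / 2 < σ) {X : ℕ} (hX : 1 ≤ X) :
    zs σ ≤ ∑ n ∈ Finset.Icc 1 X, (n : ℝ) ^ (-(2 * σ)) + (X : ℝ) ^ (-(2 * σ - 1)) / (2 * σ - 1) := by
  have hs : 0 < 2 * σ - 1 := by linarith
  have e0 : ∀ N : ℕ, ∑ n ∈ Finset.range N, ((n : ℝ) + 1) ^ (-2 * σ) = ∑ n ∈ Finset.Icc 1 N, (n : ℝ) ^ (-(2 * σ)) := by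
    intro N
    induction N with
    | zero => simp
    | succ N ih =>
      rw [Finset.sum_range_succ, ih, Finset.sum_Icc_succ_top (by omega)]
      push_cast
      rw [neg_mul]
  have h1 : ∀ M : ℕ, ∑ n ∈ Finset.Icc 1 (X + M), (n : ℝ) ^ (-(2 * σ)) ≤
      ∑ n ∈ Finset.Icc 1 X, (n : ℝ) ^ (-(2 * σ)) + ((X : ℝ) ^ (-(2 * σ - 1)) - ((X : ℝ) + M) ^ (-(2 * σ - 1))) / (2 * σ - 1) := by
    intro M
    induction M with
    | zero => simp
    | succ M ih =>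
      rw [← add_assoc, Finset.sum_Icc_succ_top (by omega)]
      have hXM : (0:ℝ) < (X : ℝ) + M := by positivity
      have h2 := (tele_slope hs hXM).1
      have e : -(2 * σ - 1) - 1 = -(2 * σ) := by ring
      rw [e] at h2
      push_cast
      have h3 : ((X : ℝ) + M + 1) ^ (-(2 * σ)) ≤
          (((X : ℝ) + M) ^ (-(2 * σ - 1)) - ((X : ℝ) + M + 1) ^ (-(2 * σ - 1))) / (2 * σ - 1) := by
        rw [le_div_iff₀ hs]; linarith
      rw [← add_assoc]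
      have h4 : ((X : ℝ) ^ (-(2 * σ - 1)) - ((X : ℝ) + M + 1) ^ (-(2 * σ - 1))) / (2 * σ - 1) =
        ((X : ℝ) ^ (-(2 * σ - 1)) - ((X : ℝ) + M) ^ (-(2 * σ - 1))) / (2 * σ - 1) +
        (((X : ℝ) + M) ^ (-(2 * σ - 1)) - ((X : ℝ) + M + 1) ^ (-(2 * σ - 1))) / (2 * σ - 1) := by ring
      rw [h4]
      linarith
  have h2 : ∀ N : ℕ, X ≤ N → ∑ n ∈ Finset.range N, ((n : ℝ) + 1) ^ (-2 * σ) ≤
      ∑ n ∈ Finset.Icc 1 X, (n : ℝ) ^ (-(2 * σ)) + (X : ℝ) ^ (-(2 * σ - 1)) / (2 * σ - 1) := by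
    intro N hN
    obtain ⟨M, rfl⟩ := Nat.exists_eq_add_of_le hN
    rw [e0]
    refine (h1 M).trans ?_
    have : 0 ≤ ((X : ℝ) + M) ^ (-(2 * σ - 1)) := by positivity
    gcongr
    linarith
  have h3 := (summable_zs hσ).hasSum.tendsto_sum_nat
  refine le_of_tendsto h3 ?_
  filter_upwards [eventually_ge_atTop X] with N hN
  exact h2 N hN

lemma zs_ratio2 {σ : ℝ} (hσ : 1 / 2 < σ) {X : ℕ} (hX : 2 ≤ X) :
    zs σ / ∑ n ∈ Finset.Icc 1 X, (n : ℝ) ^ (-(2 * σ)) ≤ 1 / (1 - (X : ℝ) ^ (-(2 * σ - 1))) := by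
  have hs : 0 < 2 * σ - 1 := by linarith
  have h1 := zs_ge hσ
  have h2 := zs_tail hσ (show 1 ≤ X by omega)
  have hV : 0 < ∑ n ∈ Finset.Icc 1 X, (n : ℝ) ^ (-(2 * σ)) := by
    apply Finset.sum_pos
    · intro n hn
      have := (Finset.mem_Icc.mp hn).1
      have : (0:ℝ) < n := by exact_mod_cast this
      positivity
    · exact ⟨1, Finset.mem_Icc.mpr ⟨le_rfl, by omega⟩⟩
  have hX1 : (1:ℝ) < X := by exact_mod_cast (by omega : 1 < X)
  have h3 : (X : ℝ) ^ (-(2 * σ - 1)) < 1 := Real.rpow_lt_one_of_one_lt_of_neg hX1 (by linarith)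
  have h4 : 0 ≤ (X : ℝ) ^ (-(2 * σ - 1)) := by positivity
  rw [div_le_div_iff₀ hV (by linarith)]
  have h5 : (X : ℝ) ^ (-(2 * σ - 1)) / (2 * σ - 1) ≤ (X : ℝ) ^ (-(2 * σ - 1)) * zs σ := by
    rw [div_eq_mul_one_div]
    exact mul_le_mul_of_nonneg_left h1 h4
  nlinarith

/-- uniform levels. -/
theorem level_bd {K : ℝ} (hK : 0 ≤ K) : ∃ C : ℝ, 0 < C ∧ ∀ᶠ W : ℝ in atTop, ∀ a : ℝ, 1 ≤ a → 4 * a ≤ Real.log W →
    ∀ τ : ℝ, |τ| ≤ K * W → ∀ Z : Finset ZS,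
      ∑ ρ ∈ Z, mx ρ * (2 * Real.pi / Real.log W * PW W ((ρ : ℂ).im - τ)) * max 0 (yy W ρ - a / (2 * Real.pi)) ≤
        C * (Real.exp (-(3 / 5 * a)) + W ^ (-(1 / 3 : ℝ))) := by
  refine ⟨5 + 60 * (1 + 2 * K), by positivity, ?_⟩
  have hl := Real.tendsto_log_atTop
  have hlog : ∀ᶠ W : ℝ in atTop, Real.log W ≤ W ^ (1 / 15 : ℝ) := by
    have := (isLittleO_log_rpow_atTop (show (0:ℝ) < 1 / 15 by norm_num)).bound (show (0:ℝ) < 1 by norm_num)
    filter_upwards [this, eventually_ge_atTop 1] with W h1 h2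
    rw [Real.norm_of_nonneg (Real.log_nonneg h2), Real.norm_of_nonneg (by positivity), one_mul] at h1
    exact h1
  filter_upwards [hlog, hl.eventually_ge_atTop 4, eventually_ge_atTop 10] with W hlW hL4 hW10 a ha1 ha4 τ hτ Z
  have hpi := Real.pi_pos
  have hpi3 := Real.pi_gt_three
  set L := Real.log W with hL
  have hL0 : 0 < L := by linarith
  have hW0 : 0 < W := by linarith
  have ha0 : 0 < a := by linarith
  set σ : ℝ := 1 / 2 + a / L with hσd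
  have haL : 0 < a / L := by positivity
  have haL2 : a / L ≤ 1 / 4 := by
    rw [div_le_iff₀ hL0]; linarith
  have hσ : 1 / 2 < σ := by linarith
  have hσ1 : σ ≤ 3 / 4 := by linarith
  have hWθ : 1 < W ^ (3 / 10 : ℝ) := Real.one_lt_rpow (by linarith) (by norm_num)
  set X := ⌈W ^ (3 / 10 : ℝ)⌉₊ with hX
  have hXge : W ^ (3 / 10 : ℝ) ≤ (X : ℝ) := Nat.le_ceil _
  have hX2 : 2 ≤ X := by
    have : (1:ℝ) < X := lt_of_lt_of_le hWθ hXge
    exact_mod_cast this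
  have hXle : (X : ℝ) ≤ 2 * W ^ (3 / 10 : ℝ) := by
    have := (Nat.ceil_lt_add_one (by linarith : 0 ≤ W ^ (3 / 10 : ℝ))).le
    linarith
  obtain ⟨b, hb1, hb, hB⟩ := secmom_raw (show 1 ≤ X by omega) hσ hσ1
  have hlW1 : 1 ≤ W - σ := by linarith
  have hl0 : 0 < W - σ := by linarith
  set x := Real.exp (-(3 / 5 * a)) with hx
  have hx0 : 0 < x := Real.exp_pos _
  have hx1 : x ≤ 3 / 5 := by
    have h1 : x ≤ Real.exp (-(3 / 5)) := Real.exp_le_exp.mpr (by linarith)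
    have h2 : Real.exp (-(3 / 5)) ≤ 3 / 5 := by
      rw [Real.exp_neg]
      have h3 := Real.quadratic_le_exp_of_nonneg (show (0:ℝ) ≤ 3 / 5 by norm_num)
      have h4 : (5 / 3 : ℝ) ≤ Real.exp (3 / 5) := by linarith
      calc (Real.exp (3 / 5))⁻¹ ≤ (5 / 3 : ℝ)⁻¹ := inv_anti₀ (by norm_num) h4
        _ = 3 / 5 := by norm_num
    linarith
  have hs' : 2 * σ - 1 = 2 * (a / L) := by rw [hσd]; ring
  have e1 : (X : ℝ) ^ (-(2 * σ - 1)) ≤ x := by
    rw [hs']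
    calc (X : ℝ) ^ (-(2 * (a / L))) ≤ (W ^ (3 / 10 : ℝ)) ^ (-(2 * (a / L))) :=
          Real.rpow_le_rpow_of_nonpos (by positivity) hXge (by linarith)
      _ = W ^ ((3 / 10 : ℝ) * (-(2 * (a / L)))) := (Real.rpow_mul hW0.le _ _).symm
      _ = x := by
          rw [Real.rpow_def_of_pos hW0, ← hL, hx]
          congr 1
          field_simp
          ring
  have h1 : zs σ / ∑ n ∈ Finset.Icc 1 X, (n : ℝ) ^ (-(2 * σ)) ≤ 1 + 5 / 2 * x := by
    refine (zs_ratio2 hσ hX2).trans ?_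
    rw [div_le_iff₀ (by linarith)]
    nlinarith
  set v := W ^ (-(1 / 3 : ℝ)) with hv
  have hv0 : 0 < v := by positivity
  have h2 : (X : ℝ) ^ 2 * (15 * (1 + |τ| / (W - σ)) / ((W - σ) * (2 * σ - 1))) ≤ 60 * (1 + 2 * K) * v := by
    have hW2 : W / 2 ≤ W - σ := by linarith
    have e3 : |τ| / (W - σ) ≤ 2 * K := by
      rw [div_le_iff₀ hl0]
      calc |τ| ≤ K * W := hτ
        _ = 2 * K * (W / 2) := by ring
        _ ≤ 2 * K * (W - σ) := by gcongr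
    have e4 : (X : ℝ) ^ 2 ≤ 4 * W ^ (3 / 5 : ℝ) := by
      calc (X : ℝ) ^ 2 ≤ (2 * W ^ (3 / 10 : ℝ)) ^ 2 := by gcongr
        _ = 4 * (W ^ (3 / 10 : ℝ)) ^ 2 := by ring
        _ = 4 * W ^ (3 / 5 : ℝ) := by
          rw [← Real.rpow_natCast, ← Real.rpow_mul hW0.le]
          norm_num
    rw [hs']
    calc (X : ℝ) ^ 2 * (15 * (1 + |τ| / (W - σ)) / ((W - σ) * (2 * (a / L))))
        ≤ (4 * W ^ (3 / 5 : ℝ)) * (15 * (1 + 2 * K) / ((W / 2) * (2 * (1 / L)))) := by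
          gcongr
      _ = 60 * (1 + 2 * K) * (L * W ^ (3 / 5 : ℝ) / W) := by field_simp; ring
      _ ≤ 60 * (1 + 2 * K) * v := by
          apply mul_le_mul_of_nonneg_left _ (by positivity)
          rw [div_le_iff₀ hW0]
          calc L * W ^ (3 / 5 : ℝ) ≤ W ^ (1 / 15 : ℝ) * W ^ (3 / 5 : ℝ) := by gcongr
            _ = v * W := by
              rw [hv, ← Real.rpow_add hW0, ← Real.rpow_add_one hW0.ne']
              norm_num
  have h3 := zeros_weigh (τ := τ) (B := 1 + 5 / 2 * x + 60 * (1 + 2 * K) * v) ha0 ha4 (by linarith) hW10 (show 1 ≤ X by omega) hb1 hb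
    (fun R hR => by
      have h := hB (W - σ) τ R hlW1 hR
      rw [sub_add_cancel] at h
      exact h.trans (add_le_add h1 h2)) Z
  refine h3.trans ?_
  have h4 : Real.log (1 + 5 / 2 * x + 60 * (1 + 2 * K) * v) ≤ 5 / 2 * x + 60 * (1 + 2 * K) * v := by
    have := Real.log_le_sub_one_of_pos (show 0 < 1 + 5 / 2 * x + 60 * (1 + 2 * K) * v by positivity)
    linarith
  have h5 : 3 / W ≤ 3 * v := by
    rw [div_eq_mul_inv, ← Real.rpow_neg_one]
    apply mul_le_mul_of_nonneg_left _ (by norm_num)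
    exact Real.rpow_le_rpow_of_exponent_le (by linarith) (by norm_num)
  have h6 : (1 + 1 / W ^ 2) / (2 * Real.pi) ≤ 1 := by
    rw [div_le_one (by positivity)]
    have : 1 / W ^ 2 ≤ 1 := by
      rw [div_le_one (by positivity)]
      nlinarith
    linarith
  have h7 : 0 ≤ 60 * (1 + 2 * K) * v := by positivity
  have h8 : 1 / 2 * Real.log (1 + 5 / 2 * x + 60 * (1 + 2 * K) * v) + 3 / W ≤ 5 / 4 * x + 60 * (1 + 2 * K) * v + 3 * v := by
    linarith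
  calc (1 + 1 / W ^ 2) / (2 * Real.pi) * (1 / 2 * Real.log (1 + 5 / 2 * x + 60 * (1 + 2 * K) * v) + 3 / W)
      ≤ (1 + 1 / W ^ 2) / (2 * Real.pi) * (5 / 4 * x + 60 * (1 + 2 * K) * v + 3 * v) := by gcongr
    _ ≤ 1 * (5 / 4 * x + 60 * (1 + 2 * K) * v + 3 * v) := by gcongr
    _ ≤ (5 + 60 * (1 + 2 * K)) * (x + v) := by
        have : 0 ≤ 60 * (1 + 2 * K) * x := by positivity
        nlinarith

/-- splitting of the exponential. -/
lemma exp_split {c y V : ℝ} (hc : 0 ≤ c) {Y J : ℕ} (hy : (Y : ℝ) ≤ y) (hV : J ≤ y → Real.exp (c * y) ≤ V) (hV0 : 0 ≤ V) :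
    Real.exp (c * y) ≤ ∑ j ∈ Finset.Icc Y J, Real.exp (c * (j + 1)) * (if (j : ℝ) ≤ y then 1 else 0) +
      V * (if (J : ℝ) ≤ y then 1 else 0) := by
  have hy0 : 0 ≤ y := le_trans (Nat.cast_nonneg _) hy
  have hs : ∀ j ∈ Finset.Icc Y J, 0 ≤ Real.exp (c * ((j : ℕ) + 1)) * (if ((j : ℕ) : ℝ) ≤ y then (1:ℝ) else 0) := by
    intro j _
    split_ifs <;> positivity
  by_cases h : (J : ℝ) ≤ y
  · have h1 := hV h
    have h2 := Finset.sum_nonneg hs
    rw [if_pos h]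
    linarith
  · push Not at h
    have hfl : ⌊y⌋₊ ≤ J := by
      have h3 : (⌊y⌋₊ : ℝ) ≤ y := Nat.floor_le hy0
      exact_mod_cast (h3.trans h.le)
    have hYf : Y ≤ ⌊y⌋₊ := Nat.le_floor hy
    have h4 := Finset.single_le_sum hs (Finset.mem_Icc.mpr ⟨hYf, hfl⟩)
    have h5 : Real.exp (c * y) ≤ Real.exp (c * ((⌊y⌋₊ : ℕ) + 1)) := by
      apply Real.exp_le_exp.mpr
      apply mul_le_mul_of_nonneg_left (Nat.lt_floor_add_one y).le hc
    rw [if_pos (Nat.floor_le hy0), mul_one] at h4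
    have h6 : 0 ≤ V * (if (J : ℝ) ≤ y then (1:ℝ) else 0) := by
      split_ifs <;> simp [hV0]
    linarith

/-- **deep zeros**. -/
theorem deep {K ε : ℝ} (hK : 0 ≤ K) (hε : 0 < ε) : ∃ Y : ℝ, 0 < Y ∧ ∀ᶠ W : ℝ in atTop, ∀ τ : ℝ, |τ| ≤ K * W →
    ∀ Z : Finset ZS, (∀ ρ ∈ Z, Y ≤ yy W ρ) →
      ∑ ρ ∈ Z, mx ρ * (2 * Real.pi / Real.log W * PW W ((ρ : ℂ).im - τ)) * Real.exp (Real.pi / 2 * yy W ρ) ≤ ε := by
  have hpi := Real.pi_pos
  have hpi3 := Real.pi_gt_three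
  have hpi4 := Real.pi_lt_d2
  obtain ⟨C, hC, hlev⟩ := level_bd hK
  -- the geometric tail
  set q : ℝ := Real.exp (-(7 / 10 * Real.pi)) with hq
  have hq0 : 0 < q := Real.exp_pos _
  have hq1 : q < 1 := by rw [hq, Real.exp_lt_one_iff]; linarith
  set D : ℝ := Real.exp (Real.pi / 2 + 6 / 5 * Real.pi) with hD
  have hD0 : 0 < D := Real.exp_pos _
  have hgeo : Tendsto (fun Y : ℕ => C * D * (q ^ Y / (1 - q))) atTop (𝓝 0) := by
    have := ((tendsto_pow_atTop_nhds_zero_of_lt_one hq0.le hq1).div_const (1 - q)).const_mul (C * D)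
    simpa using this
  obtain ⟨Y, hYq, hY2⟩ := ((hgeo.eventually (gt_mem_nhds (show (0:ℝ) < ε / 2 by linarith))).and (eventually_ge_atTop 2)).exists
  refine ⟨Y, by positivity, ?_⟩
  have hl := Real.tendsto_log_atTop
  have hlim : Tendsto (fun W : ℝ => C * Real.exp (Real.pi / 2) * (Real.log W * W ^ (-(1 / 4) : ℝ)) +
      (C * Real.exp (24 / 10 * Real.pi) * W ^ (-(1 / 40) : ℝ) + C * W ^ (-(1 / 8) : ℝ))) atTop (𝓝 0) := by
    have h1 : Tendsto (fun W : ℝ => Real.log W * W ^ (-(1 / 4) : ℝ)) atTop (𝓝 0) := by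
      have := (isLittleO_log_rpow_atTop (show (0:ℝ) < 1 / 4 by norm_num)).tendsto_div_nhds_zero
      refine this.congr' ?_
      filter_upwards [eventually_gt_atTop 0] with W hW
      rw [Real.rpow_neg hW.le, div_eq_mul_inv]
    have h2 : Tendsto (fun W : ℝ => W ^ (-(1 / 40) : ℝ)) atTop (𝓝 0) := tendsto_rpow_neg_atTop (by norm_num)
    have h3 : Tendsto (fun W : ℝ => W ^ (-(1 / 8) : ℝ)) atTop (𝓝 0) := tendsto_rpow_neg_atTop (by norm_num)
    have := (h1.const_mul (C * Real.exp (Real.pi / 2))).add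
      ((h2.const_mul (C * Real.exp (24 / 10 * Real.pi))).add (h3.const_mul C))
    simpa using this
  filter_upwards [hlev, hlim.eventually (gt_mem_nhds (show (0:ℝ) < ε / 2 by linarith)), hl.eventually_ge_atTop 100,
    hl.eventually_ge_atTop (8 * Real.pi * (Y + 2)), eventually_gt_atTop 1] with W hlevW hlimW hL hLY hW1 τ hτ Z hZ
  set L := Real.log W with hLd
  have hL0 : 0 < L := by linarith
  have hW0 : 0 < W := by linarith
  have hWexp : ∀ t : ℝ, Real.exp (t * L) = W ^ t := by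
    intro t
    rw [Real.rpow_def_of_pos hW0, mul_comm]
  set J := ⌊L / (8 * Real.pi)⌋₊ with hJ
  have hJle : (J : ℝ) ≤ L / (8 * Real.pi) := Nat.floor_le (by positivity)
  have hJge : L / (8 * Real.pi) - 1 ≤ J := by
    have := (Nat.lt_floor_add_one (L / (8 * Real.pi))).le
    linarith
  have hYJ : (Y : ℝ) + 1 ≤ J := by
    have h1 : (Y : ℝ) + 2 ≤ L / (8 * Real.pi) := by
      rw [le_div_iff₀ (by positivity)]
      linarith
    linarith
  -- weights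
  set w : ZS → ℝ := fun ρ => mx ρ * (2 * Real.pi / L * PW W ((ρ : ℂ).im - τ)) with hw
  have hw0 : ∀ ρ, 0 ≤ w ρ := by
    intro ρ
    have := mx_nonneg (ρ : ℂ)
    have := (PW_pos hW0 ((ρ : ℂ).im - τ)).le
    simp only [hw]
    positivity
  have hN : ∀ j : ℕ, 2 ≤ j → j ≤ J → ∑ ρ ∈ Z, w ρ * (if (j : ℝ) ≤ yy W ρ then 1 else 0) ≤
      C * (Real.exp (-(6 / 5 * Real.pi * (j - 1))) + W ^ (-(1 / 3 : ℝ))) := by
    intro j hj hjJ
    have hjR : (2:ℝ) ≤ j := by exact_mod_cast hj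
    have hjJR : (j:ℝ) ≤ J := by exact_mod_cast hjJ
    have h1 := hlevW (2 * Real.pi * (j - 1)) (by nlinarith) (by
      have : (j : ℝ) * (8 * Real.pi) ≤ L := by
        have := hjJR.trans hJle
        rwa [le_div_iff₀ (by positivity)] at this
      nlinarith) τ hτ Z
    have e1 : 2 * Real.pi * ((j:ℝ) - 1) / (2 * Real.pi) = j - 1 := by field_simp
    have e2 : 3 / 5 * (2 * Real.pi * ((j:ℝ) - 1)) = 6 / 5 * Real.pi * (j - 1) := by ring
    rw [e1, e2] at h1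
    refine le_trans (Finset.sum_le_sum fun ρ _ => ?_) h1
    apply mul_le_mul_of_nonneg_left _ (hw0 ρ)
    split_ifs with h
    · refine le_trans ?_ (le_max_right _ _)
      linarith
    · exact le_max_left _ _
  have hyle : ∀ ρ : ZS, yy W ρ ≤ L / (4 * Real.pi) := by
    intro ρ
    have h1 := (xi_eq_zero_iff.mp ρ.2).2.1
    unfold yy
    rw [← hLd]
    have h2 : L * ((ρ : ℂ).re - 1 / 2) ≤ L * (1 / 2) := by
      apply mul_le_mul_of_nonneg_left _ hL0.le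
      linarith
    calc L * ((ρ : ℂ).re - 1 / 2) / (2 * Real.pi) ≤ L * (1 / 2) / (2 * Real.pi) := by gcongr
      _ = _ := by field_simp; ring
  set V := W ^ (1 / 8 : ℝ) with hV
  have hV0 : 0 < V := by positivity
  set v := W ^ (-(1 / 3 : ℝ)) with hv
  have hv0 : 0 < v := by positivity
  have hsplit : ∀ ρ ∈ Z, w ρ * Real.exp (Real.pi / 2 * yy W ρ) ≤
      w ρ * (∑ j ∈ Finset.Icc Y J, Real.exp (Real.pi / 2 * (j + 1)) * (if (j : ℝ) ≤ yy W ρ then 1 else 0) +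
      V * (if (J : ℝ) ≤ yy W ρ then 1 else 0)) := by
    intro ρ hρ
    apply mul_le_mul_of_nonneg_left _ (hw0 ρ)
    apply exp_split (by positivity) (hZ ρ hρ) _ hV0.le
    intro _
    rw [hV, ← hWexp]
    apply Real.exp_le_exp.mpr
    calc Real.pi / 2 * yy W ρ ≤ Real.pi / 2 * (L / (4 * Real.pi)) := by
          apply mul_le_mul_of_nonneg_left (hyle ρ) (by positivity)
      _ = 1 / 8 * L := by field_simp; ring
  refine (Finset.sum_le_sum hsplit).trans ?_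
  have e3 : ∑ ρ ∈ Z, w ρ * (∑ j ∈ Finset.Icc Y J, Real.exp (Real.pi / 2 * (j + 1)) * (if (j : ℝ) ≤ yy W ρ then 1 else 0) +
      V * (if (J : ℝ) ≤ yy W ρ then 1 else 0)) =
      ∑ j ∈ Finset.Icc Y J, Real.exp (Real.pi / 2 * (j + 1)) * (∑ ρ ∈ Z, w ρ * (if (j : ℝ) ≤ yy W ρ then 1 else 0)) +
      V * ∑ ρ ∈ Z, w ρ * (if (J : ℝ) ≤ yy W ρ then 1 else 0) := by
    simp only [mul_add, Finset.sum_add_distrib, Finset.mul_sum]
    rw [Finset.sum_comm]
    congr 1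
    · refine Finset.sum_congr rfl fun j _ => Finset.sum_congr rfl fun ρ _ => by ring
    · refine Finset.sum_congr rfl fun ρ _ => by ring
  rw [e3]
  have hJ2 : 2 ≤ J := by
    have : (2:ℝ) ≤ J := by
      have : (2:ℝ) ≤ Y := by exact_mod_cast hY2
      linarith
    exact_mod_cast this
  have f1 : ∑ j ∈ Finset.Icc Y J, Real.exp (Real.pi / 2 * (j + 1)) * (∑ ρ ∈ Z, w ρ * (if (j : ℝ) ≤ yy W ρ then 1 else 0)) ≤
      ∑ j ∈ Finset.Icc Y J, (C * D * q ^ j + C * Real.exp (Real.pi / 2) * (W ^ (1 / 16 : ℝ) * v)) := by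
    refine Finset.sum_le_sum fun j hj => ?_
    obtain ⟨hj1, hj2⟩ := Finset.mem_Icc.mp hj
    have h1 := hN j (hY2.trans hj1) hj2
    have h2 : Real.exp (Real.pi / 2 * (j + 1)) * Real.exp (-(6 / 5 * Real.pi * (j - 1))) = D * q ^ j := by
      rw [hD, hq, ← Real.exp_nat_mul, ← Real.exp_add, ← Real.exp_add]
      congr 1
      ring
    have h3 : Real.exp (Real.pi / 2 * (j + 1)) ≤ Real.exp (Real.pi / 2) * W ^ (1 / 16 : ℝ) := by
      rw [← hWexp, ← Real.exp_add]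
      apply Real.exp_le_exp.mpr
      have h4 : (j : ℝ) ≤ L / (8 * Real.pi) := le_trans (by exact_mod_cast hj2) hJle
      calc Real.pi / 2 * ((j : ℝ) + 1) = Real.pi / 2 + Real.pi / 2 * j := by ring
        _ ≤ Real.pi / 2 + Real.pi / 2 * (L / (8 * Real.pi)) := by gcongr
        _ = _ := by field_simp; ring
    calc Real.exp (Real.pi / 2 * (j + 1)) * (∑ ρ ∈ Z, w ρ * (if (j : ℝ) ≤ yy W ρ then 1 else 0))
        ≤ Real.exp (Real.pi / 2 * (j + 1)) * (C * (Real.exp (-(6 / 5 * Real.pi * (j - 1))) + v)) :=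
          mul_le_mul_of_nonneg_left h1 (Real.exp_pos _).le
      _ = C * (Real.exp (Real.pi / 2 * (j + 1)) * Real.exp (-(6 / 5 * Real.pi * (j - 1)))) +
          C * Real.exp (Real.pi / 2 * (j + 1)) * v := by ring
      _ ≤ C * (D * q ^ j) + C * (Real.exp (Real.pi / 2) * W ^ (1 / 16 : ℝ)) * v := by
          rw [h2]; gcongr
      _ = _ := by ring
  have f2 : ∑ j ∈ Finset.Icc Y J, (C * D * q ^ j + C * Real.exp (Real.pi / 2) * (W ^ (1 / 16 : ℝ) * v)) ≤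
      C * D * (q ^ Y / (1 - q)) + C * Real.exp (Real.pi / 2) * (L * W ^ (-(1 / 4) : ℝ)) := by
    rw [Finset.sum_add_distrib, ← Finset.mul_sum, Finset.sum_const, nsmul_eq_mul, Nat.card_Icc]
    have g1 : ∑ j ∈ Finset.Icc Y J, q ^ j ≤ q ^ Y / (1 - q) := by
      have : Finset.Icc Y J = Finset.Ico Y (J + 1) := by ext; simp [Nat.lt_succ_iff]
      rw [this]
      exact geom_sum_Ico_le_of_lt_one hq0.le hq1
    have g2 : ((J + 1 - Y : ℕ) : ℝ) ≤ L := by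
      have h1 : ((J + 1 - Y : ℕ) : ℝ) ≤ J + 1 := by
        have : J + 1 - Y ≤ J + 1 := Nat.sub_le _ _
        exact_mod_cast this
      have h2 : L / (8 * Real.pi) ≤ L / 8 := by
        apply div_le_div_of_nonneg_left hL0.le (by norm_num)
        linarith
      linarith
    have g3 : W ^ (1 / 16 : ℝ) * v ≤ W ^ (-(1 / 4) : ℝ) := by
      rw [hv, ← Real.rpow_add hW0]
      exact Real.rpow_le_rpow_of_exponent_le hW1.le (by norm_num)
    have g4 : (0:ℝ) ≤ ((J + 1 - Y : ℕ) : ℝ) := Nat.cast_nonneg _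
    calc C * D * ∑ j ∈ Finset.Icc Y J, q ^ j + ((J + 1 - Y : ℕ) : ℝ) * (C * Real.exp (Real.pi / 2) * (W ^ (1 / 16 : ℝ) * v))
        ≤ C * D * (q ^ Y / (1 - q)) + L * (C * Real.exp (Real.pi / 2) * (W ^ (-(1 / 4) : ℝ))) := by gcongr
      _ = _ := by ring
  have f3 : V * ∑ ρ ∈ Z, w ρ * (if (J : ℝ) ≤ yy W ρ then 1 else 0) ≤
      C * Real.exp (24 / 10 * Real.pi) * W ^ (-(1 / 40) : ℝ) + C * W ^ (-(1 / 8) : ℝ) := by
    have h1 := hN J hJ2 le_rfl
    have h2 : Real.exp (-(6 / 5 * Real.pi * (J - 1))) ≤ Real.exp (24 / 10 * Real.pi) * W ^ (-(3 / 20) : ℝ) := by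
      rw [← hWexp, ← Real.exp_add]
      apply Real.exp_le_exp.mpr
      have h3 : 6 / 5 * Real.pi * (L / (8 * Real.pi) - 1) ≤ 6 / 5 * Real.pi * J := by
        apply mul_le_mul_of_nonneg_left hJge (by positivity)
      have h4 : 6 / 5 * Real.pi * (L / (8 * Real.pi) - 1) = 3 / 20 * L - 6 / 5 * Real.pi := by field_simp; ring
      rw [h4] at h3
      linarith
    have h5 : V * W ^ (-(3 / 20) : ℝ) = W ^ (-(1 / 40) : ℝ) := by
      rw [hV, ← Real.rpow_add hW0]; norm_num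
    have h6 : V * v ≤ W ^ (-(1 / 8) : ℝ) := by
      rw [hV, hv, ← Real.rpow_add hW0]
      exact Real.rpow_le_rpow_of_exponent_le hW1.le (by norm_num)
    calc V * ∑ ρ ∈ Z, w ρ * (if (J : ℝ) ≤ yy W ρ then 1 else 0)
        ≤ V * (C * (Real.exp (-(6 / 5 * Real.pi * (J - 1))) + v)) := mul_le_mul_of_nonneg_left h1 hV0.le
      _ ≤ V * (C * (Real.exp (24 / 10 * Real.pi) * W ^ (-(3 / 20) : ℝ) + v)) := by gcongr
      _ = C * Real.exp (24 / 10 * Real.pi) * (V * W ^ (-(3 / 20) : ℝ)) + C * (V * v) := by ring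
      _ ≤ _ := by rw [h5]; gcongr
  have f4 := f1.trans f2
  linarith

end Pool.Agent.Helper57.ED
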