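import Pool.Agent.Helper57.ED.Def

/-!
# ED-POA: Poisson formula for bounded analytic functions in a half-plane

Put `s1 = σ + W + iτ`, `s2 = σ - W + iτ`. On the line `s = σ + it`:
`2W / ((s - s1)(s - s2)) = -2W / (W² + (t-τ)²) = -2π PW W (t-τ)`.
Cauchy for `f(s) 2W/(s - s2)` divided by `s - s1` on the rectangle `[σ, σ+R] x [τ-R, τ+R]`, `R > W`:
with `g(s) = (F(s) - F(s1))/(s - s1)` (`dslope F s1`), `F(s) = f(s) 2W/(s - s2)`, `F(s1) = f(s1)`, the rectangle integral of `g` is
`0` (`Complex.integral_boundary_rect_eq_zero_of_differentiableOn`). Or more simply: apply Cauchy to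
`g(s) = (F(s) - F(s1) (2W)/(s - s2)) / (s - s1)` = `2W (f(s) - f(s1))/((s-s1)(s-s2))`, i.e. to `2W dslope f s1 s/(s - s2)`: on the three far
sides `‖g‖ ≤ 2W 2K/((R-W) R)`, so the line integral over `[τ-R, τ+R]` is `O(1/R)`; hence
`∫ PW W (t-τ) (f(σ+it) - f(s1)) dt = 0`, and `∫ PW W t dt = 1`.
-/

open MeasureTheory Set Filter Topology Complex

namespace Pool.Agent.Helper57.ED

private lemma PW_eq54 {W : ℝ} (hW : 0 < W) (t : ℝ) :
    PW W t = 1 / (Real.pi * W) * (1 + (t / W) ^ 2)⁻¹ := by
  unfold PW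
  have := Real.pi_pos
  have h1 : 0 < W ^ 2 + t ^ 2 := by positivity
  have h2 : 0 < 1 + (t / W) ^ 2 := by positivity
  have h3 : 1 + (t / W) ^ 2 = (W ^ 2 + t ^ 2) / W ^ 2 := by field_simp
  rw [h3]
  field_simp

/-- the Poisson kernel has mass one. -/
theorem integral_PW {W : ℝ} (hW : 0 < W) : Integrable (PW W) ∧ ∫ t, PW W t = 1 := by
  have hpi := Real.pi_pos
  have e : PW W = fun t => 1 / (Real.pi * W) * (1 + (t / W) ^ 2)⁻¹ := funext (PW_eq54 hW)
  constructor
  · rw [e]
    exact (integrable_inv_one_add_sq.comp_div hW.ne').const_mul _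
  · rw [e, integral_const_mul,
      Measure.integral_comp_div (fun t : ℝ => (1 + t ^ 2)⁻¹) W, integral_univ_inv_one_add_sq,
      abs_of_pos hW, smul_eq_mul]
    field_simp

/-- Poisson formula for a bounded analytic function. -/
theorem poisson_bdd {f : ℂ → ℂ} {c σ W τ K : ℝ} (hc : c < σ) (hf : DifferentiableOn ℂ f {s : ℂ | c < s.re})
    (hK : ∀ s : ℂ, σ ≤ s.re → ‖f s‖ ≤ K) (hW : 0 < W) :
    f ((σ + W : ℝ) + τ * I) = ∫ t : ℝ, (PW W (t - τ) : ℂ) * f (σ + t * I) := by
  obtain ⟨s₁, hs₁⟩ : ∃ s : ℂ, s = (σ + W : ℝ) + τ * I := ⟨_, rfl⟩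
  obtain ⟨s₂, hs₂⟩ : ∃ s : ℂ, s = (σ - W : ℝ) + τ * I := ⟨_, rfl⟩
  rw [← hs₁]
  have r1 : s₁.re = σ + W := by rw [hs₁]; simp
  have m1 : s₁.im = τ := by rw [hs₁]; simp
  have r2 : s₂.re = σ - W := by rw [hs₂]; simp
  have m2 : s₂.im = τ := by rw [hs₂]; simp
  have hK0 : 0 ≤ K := (norm_nonneg _).trans (hK s₁ (by rw [r1]; linarith))
  have hopen : IsOpen {s : ℂ | c < s.re} := isOpen_lt continuous_const Complex.continuous_re
  have hs₁m : {s : ℂ | c < s.re} ∈ 𝓝 s₁ := hopen.mem_nhds (by simp only [mem_ofPred_eq]; rw [r1]; linarith)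
  have hd : DifferentiableOn ℂ (dslope f s₁) {s : ℂ | c < s.re} :=
    (Complex.differentiableOn_dslope hs₁m).2 hf
  obtain ⟨g, hg⟩ : ∃ g : ℂ → ℂ, g = fun s => 2 * W * dslope f s₁ s / (s - s₂) := ⟨_, rfl⟩
  have hgd : DifferentiableOn ℂ g {s : ℂ | σ ≤ s.re} := by
    rw [hg]
    apply DifferentiableOn.div
    · apply DifferentiableOn.const_mul
      exact hd.mono fun s hs => lt_of_lt_of_le hc hs
    · exact differentiableOn_id.sub_const _
    · intro s hs h0
      have : s.re = s₂.re := by rw [sub_eq_zero.1 h0]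
      have h1 : σ ≤ s.re := hs
      rw [this, r2] at h1
      linarith
  have hgne : ∀ s, σ ≤ s.re → s ≠ s₁ → g s = 2 * W * (f s - f s₁) / ((s - s₁) * (s - s₂)) := by
    intro s _ hne
    rw [hg]
    simp only
    rw [dslope_of_ne _ hne, slope_def_field]
    have h1 : s - s₁ ≠ 0 := sub_ne_zero.2 hne
    rw [← mul_div_assoc, div_div]
  -- bound on the far sides
  have hgb : ∀ (s : ℂ) (R : ℝ), σ ≤ s.re → 2 * W ≤ R → R / 2 ≤ ‖s - s₁‖ → R ≤ ‖s - s₂‖ →
      ‖g s‖ ≤ 8 * W * K / R ^ 2 := by
    intro s R hs hR h1 h2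
    have hR0 : 0 < R := by linarith
    have hne : s ≠ s₁ := by
      intro h
      rw [h, sub_self, norm_zero] at h1
      linarith
    rw [hgne s hs hne, norm_div, norm_mul, norm_mul, norm_mul]
    have h3 : ‖f s - f s₁‖ ≤ 2 * K := by
      refine (norm_sub_le _ _).trans ?_
      have := hK s hs
      have := hK s₁ (by rw [r1]; linarith)
      linarith
    have h4 : ‖(2 : ℂ)‖ = 2 := by simp
    have h5 : ‖(W : ℂ)‖ = W := by
      rw [Complex.norm_real, Real.norm_of_nonneg hW.le]
    rw [h4, h5]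
    have h6 : R ^ 2 / 2 ≤ ‖s - s₁‖ * ‖s - s₂‖ := by
      calc R ^ 2 / 2 = R / 2 * R := by ring
        _ ≤ _ := mul_le_mul h1 h2 hR0.le (norm_nonneg _)
    have h7 : 2 * W * ‖f s - f s₁‖ ≤ 2 * W * (2 * K) := by gcongr
    calc 2 * W * ‖f s - f s₁‖ / (‖s - s₁‖ * ‖s - s₂‖) ≤ 2 * W * (2 * K) / (R ^ 2 / 2) := by
          apply div_le_div₀ (by positivity) h7 (by positivity) h6
      _ = 8 * W * K / R ^ 2 := by field_simp; ring
  -- the line integral
  have hline : ∀ R : ℝ, 2 * W ≤ R →
      ‖∫ y : ℝ in (τ - R)..(τ + R), g (σ + y * I)‖ ≤ 32 * W * K / R := by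
    intro R hR
    have hR0 : 0 < R := by linarith
    have hrect := Complex.integral_boundary_rect_eq_zero_of_differentiableOn g
      ((σ : ℂ) + (τ - R : ℝ) * I) ((σ + R : ℝ) + (τ + R : ℝ) * I) (hgd.mono ?_)
    · have e1 : ((σ : ℂ) + (τ - R : ℝ) * I).re = σ := by simp
      have e2 : ((σ : ℂ) + (τ - R : ℝ) * I).im = τ - R := by simp
      have e3 : (((σ + R : ℝ) : ℂ) + (τ + R : ℝ) * I).re = σ + R := by simp
      have e4 : (((σ + R : ℝ) : ℂ) + (τ + R : ℝ) * I).im = τ + R := by simp
      rw [e1, e2, e3, e4] at hrect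
      have b1 : ‖∫ x : ℝ in σ..(σ + R), g (x + (τ - R : ℝ) * I)‖ ≤
          8 * W * K / R ^ 2 * |σ + R - σ| := by
        apply intervalIntegral.norm_integral_le_of_norm_le_const
        intro x hx
        rw [uIoc_of_le (by linarith)] at hx
        have him : |((x : ℂ) + (τ - R : ℝ) * I - s₁).im| = R := by
          rw [sub_im, m1]
          simp [abs_of_pos hR0]
        have him2 : |((x : ℂ) + (τ - R : ℝ) * I - s₂).im| = R := by
          rw [sub_im, m2]
          simp [abs_of_pos hR0]
        apply hgb _ R _ hR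
        · have := Complex.abs_im_le_norm ((x : ℂ) + (τ - R : ℝ) * I - s₁)
          rw [him] at this
          linarith
        · have := Complex.abs_im_le_norm ((x : ℂ) + (τ - R : ℝ) * I - s₂)
          rwa [him2] at this
        · simp only [add_re, ofReal_re, mul_re, I_re, mul_zero, ofReal_im, I_im, mul_one, sub_self,
            add_zero]
          exact hx.1.le
      have b2 : ‖∫ x : ℝ in σ..(σ + R), g (x + (τ + R : ℝ) * I)‖ ≤
          8 * W * K / R ^ 2 * |σ + R - σ| := by
        apply intervalIntegral.norm_integral_le_of_norm_le_const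
        intro x hx
        rw [uIoc_of_le (by linarith)] at hx
        have him : |((x : ℂ) + (τ + R : ℝ) * I - s₁).im| = R := by
          rw [sub_im, m1]
          simp [abs_of_pos hR0]
        have him2 : |((x : ℂ) + (τ + R : ℝ) * I - s₂).im| = R := by
          rw [sub_im, m2]
          simp [abs_of_pos hR0]
        apply hgb _ R _ hR
        · have := Complex.abs_im_le_norm ((x : ℂ) + (τ + R : ℝ) * I - s₁)
          rw [him] at this
          linarith
        · have := Complex.abs_im_le_norm ((x : ℂ) + (τ + R : ℝ) * I - s₂)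
          rwa [him2] at this
        · simp only [add_re, ofReal_re, mul_re, I_re, mul_zero, ofReal_im, I_im, mul_one, sub_self,
            add_zero]
          exact hx.1.le
      have b3 : ‖∫ y : ℝ in (τ - R)..(τ + R), g ((σ + R : ℝ) + y * I)‖ ≤
          8 * W * K / R ^ 2 * |τ + R - (τ - R)| := by
        apply intervalIntegral.norm_integral_le_of_norm_le_const
        intro y hy
        have hre : (((σ + R : ℝ) : ℂ) + y * I - s₁).re = R - W := by
          rw [sub_re, r1]
          simp only [add_re, ofReal_re, mul_re, I_re, mul_zero, ofReal_im, I_im, mul_one, sub_self,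
            add_zero]
          ring
        have hre2 : (((σ + R : ℝ) : ℂ) + y * I - s₂).re = R + W := by
          rw [sub_re, r2]
          simp only [add_re, ofReal_re, mul_re, I_re, mul_zero, ofReal_im, I_im, mul_one, sub_self,
            add_zero]
          ring
        apply hgb _ R _ hR
        · have := Complex.re_le_norm (((σ + R : ℝ) : ℂ) + y * I - s₁)
          rw [hre] at this
          linarith
        · have := Complex.re_le_norm (((σ + R : ℝ) : ℂ) + y * I - s₂)
          rw [hre2] at this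
          linarith
        · simp only [add_re, ofReal_re, mul_re, I_re, mul_zero, ofReal_im, I_im, mul_one, sub_self,
            add_zero]
          linarith
      have a1 : |σ + R - σ| = R := by rw [show σ + R - σ = R by ring, abs_of_pos hR0]
      have a2 : |τ + R - (τ - R)| = 2 * R := by
        rw [show τ + R - (τ - R) = 2 * R by ring, abs_of_pos (by linarith)]
      rw [a1] at b1 b2
      rw [a2] at b3
      have h5 : I • (∫ y : ℝ in (τ - R)..(τ + R), g (σ + y * I)) =
          (∫ x : ℝ in σ..(σ + R), g (x + (τ - R : ℝ) * I)) -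
          (∫ x : ℝ in σ..(σ + R), g (x + (τ + R : ℝ) * I)) +
          I • (∫ y : ℝ in (τ - R)..(τ + R), g ((σ + R : ℝ) + y * I)) := by
        rw [eq_comm, ← sub_eq_zero]
        exact hrect
      have h6 : ‖∫ y : ℝ in (τ - R)..(τ + R), g (σ + y * I)‖ =
          ‖I • (∫ y : ℝ in (τ - R)..(τ + R), g (σ + y * I))‖ := by
        rw [norm_smul, Complex.norm_I, one_mul]
      rw [h6, h5]
      refine (norm_add_le _ _).trans ?_
      have h7 := norm_sub_le (∫ x : ℝ in σ..(σ + R), g (x + (τ - R : ℝ) * I))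
        (∫ x : ℝ in σ..(σ + R), g (x + (τ + R : ℝ) * I))
      have h8 : ‖I • (∫ y : ℝ in (τ - R)..(τ + R), g ((σ + R : ℝ) + y * I))‖ =
          ‖∫ y : ℝ in (τ - R)..(τ + R), g ((σ + R : ℝ) + y * I)‖ := by
        rw [norm_smul, Complex.norm_I, one_mul]
      rw [h8]
      have h9 : 8 * W * K / R ^ 2 * R + 8 * W * K / R ^ 2 * R + 8 * W * K / R ^ 2 * (2 * R) =
          32 * W * K / R := by
        field_simp
        ring
      linarith
    · intro s hs
      have h1 := hs.1
      simp only [mem_preimage] at h1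
      have e1 : ((σ : ℂ) + (τ - R : ℝ) * I).re = σ := by simp
      have e3 : (((σ + R : ℝ) : ℂ) + (τ + R : ℝ) * I).re = σ + R := by simp
      rw [e1, e3, uIcc_of_le (by linarith)] at h1
      exact h1.1
  -- the function on the line
  have hcont : Continuous fun y : ℝ => f (σ + y * I) := by
    have h1 : Continuous fun y : ℝ => (σ : ℂ) + y * I := by fun_prop
    exact hf.continuousOn.comp_continuous h1 fun y => by simp only [mem_ofPred_eq]; simpa using hc
  have hgl : ∀ y : ℝ, g (σ + y * I) =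
      -(2 * Real.pi : ℝ) * ((PW W (y - τ) : ℂ) * (f (σ + y * I) - f s₁)) := by
    intro y
    have hne : (σ : ℂ) + y * I ≠ s₁ := by
      intro h
      have : ((σ : ℂ) + y * I).re = s₁.re := by rw [h]
      rw [r1] at this
      simp at this
      linarith
    rw [hgne _ (by simp) hne]
    have h1 : ((σ : ℂ) + y * I - s₁) * ((σ : ℂ) + y * I - s₂) =
        -((W ^ 2 + (y - τ) ^ 2 : ℝ) : ℂ) := by
      rw [hs₁, hs₂]
      push_cast
      linear_combination ((y : ℂ) - τ) ^ 2 * Complex.I_sq
    have h2 : (W ^ 2 + (y - τ) ^ 2 : ℝ) ≠ 0 := by positivity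
    have h3 : ((W ^ 2 + (y - τ) ^ 2 : ℝ) : ℂ) ≠ 0 := by exact_mod_cast h2
    have h4 : (Real.pi : ℂ) ≠ 0 := by exact_mod_cast Real.pi_ne_zero
    rw [h1]
    unfold PW
    rw [Complex.ofReal_div, Complex.ofReal_mul, Complex.ofReal_mul]
    field_simp
    push_cast
    ring
  obtain ⟨hi, hone⟩ := integral_PW hW
  have hi' : Integrable fun y : ℝ => PW W (y - τ) := hi.comp_sub_right τ
  have hone' : ∫ y : ℝ, PW W (y - τ) = 1 := by
    rw [integral_sub_right_eq_self (PW W) τ, hone]
  have hint1 : Integrable fun y : ℝ => (PW W (y - τ) : ℂ) * f (σ + y * I) := by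
    refine Integrable.mul_bdd (c := K) ?_ hcont.aestronglyMeasurable ?_
    · exact hi'.ofReal
    · exact Eventually.of_forall fun y => hK _ (by simp)
  have hint2 : Integrable fun y : ℝ => (PW W (y - τ) : ℂ) * f s₁ := hi'.ofReal.mul_const _
  have hint : Integrable fun y : ℝ => g (σ + y * I) := by
    have : (fun y : ℝ => g (σ + y * I)) = fun y : ℝ => (-(2 * Real.pi : ℝ) : ℂ) *
        ((PW W (y - τ) : ℂ) * f (σ + y * I) - (PW W (y - τ) : ℂ) * f s₁) := by
      funext y
      rw [hgl]
      ring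
    rw [this]
    exact (hint1.sub hint2).const_mul _
  have hlim : Tendsto (fun R : ℝ => ∫ y : ℝ in (τ - R)..(τ + R), g (σ + y * I)) atTop
      (𝓝 (∫ y : ℝ, g (σ + y * I))) := by
    apply intervalIntegral_tendsto_integral hint
    · exact tendsto_atBot_add_const_left _ _ tendsto_neg_atTop_atBot
    · exact tendsto_atTop_add_const_left _ _ tendsto_id
  have hlim0 : Tendsto (fun R : ℝ => ∫ y : ℝ in (τ - R)..(τ + R), g (σ + y * I)) atTop (𝓝 0) := by
    apply squeeze_zero_norm' (a := fun R => 32 * W * K / R)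
    · filter_upwards [eventually_ge_atTop (2 * W)] with R hR using hline R hR
    · exact tendsto_const_nhds.div_atTop tendsto_id
  have hzero := tendsto_nhds_unique hlim hlim0
  have h1 : ∫ y : ℝ, g (σ + y * I) =
      -(2 * Real.pi : ℝ) * ((∫ y : ℝ, (PW W (y - τ) : ℂ) * f (σ + y * I)) - f s₁) := by
    simp only [hgl]
    rw [integral_const_mul]
    congr 1
    have : (fun y : ℝ => (PW W (y - τ) : ℂ) * (f (σ + y * I) - f s₁)) =
        fun y => (PW W (y - τ) : ℂ) * f (σ + y * I) - (PW W (y - τ) : ℂ) * f s₁ := by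
      funext y; ring
    rw [this, integral_sub hint1 hint2, integral_mul_const, integral_complex_ofReal, hone']
    simp
  rw [h1] at hzero
  have h2 : (-(2 * Real.pi : ℝ) : ℂ) ≠ 0 := by
    simp [Real.pi_ne_zero]
  rcases mul_eq_zero.1 hzero with h | h
  · exact absurd h h2
  · exact (sub_eq_zero.1 h).symm

end Pool.Agent.Helper57.ED
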