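import Pool.Agent.Helper57.M.Z
import Pool.Agent.Helper57.M.B

/-!
# ED: explicit zero density near the critical line: definitions

`W = l + σ`, `z = l - iτ`: `‖(σ + it) + z‖² = W² + (t - τ)²`, so `PW W (t - τ) = (W/π) / ‖s + z‖²` on
the line `s = σ + it`.
-/

open MeasureTheory Set Filter Topology

namespace Pool.Agent.Helper57.ED

/-- Poisson kernel of the half-plane at distance `W`. -/
noncomputable def PW (W t : ℝ) : ℝ := W / (Real.pi * (W ^ 2 + t ^ 2))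

/-- `ρ_z(x) = ∑_{m ≤ x} (m/x)^z - x/(z+1)`. -/
noncomputable def rho (z : ℂ) (x : ℝ) : ℂ :=
  ∑ m ∈ Finset.Icc 1 ⌊x⌋₊, (((m : ℝ) / x : ℝ) : ℂ) ^ z - (x : ℂ) / (z + 1)

/-- Dirichlet polynomial `∑_{h ≤ X} b_h h^{-s}`. -/
noncomputable def Mo (X : ℕ) (b : ℕ → ℝ) (s : ℂ) : ℂ := ∑ h ∈ Finset.Icc 1 X, (b h : ℂ) * (h : ℂ) ^ (-s)

/-- `∑_{h ≤ X} b_h ρ_z(u/h)`. -/
noncomputable def fu (X : ℕ) (b : ℕ → ℝ) (z : ℂ) (u : ℝ) : ℂ :=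
  ∑ h ∈ Finset.Icc 1 X, (b h : ℂ) * rho z (u / h)

/-- Correlation `∫_0^∞ Re(ρ_z(u/h) conj ρ_z(u/k)) u^{-2σ-1} du`. -/
noncomputable def Cc (z : ℂ) (σ : ℝ) (h k : ℕ) : ℝ :=
  ∫ u in Ioi (0:ℝ), (rho z (u / h) * (starRingEnd ℂ) (rho z (u / k))).re * u ^ (-2 * σ - 1)

/-- `κ(x, y) = (min/max)^l cos(τ log(min/max)) max^{-2σ}`. -/
noncomputable def kap (l τ σ x y : ℝ) : ℝ :=
  (min x y / max x y) ^ l * Real.cos (τ * Real.log (min x y / max x y)) * (max x y) ^ (-2 * σ)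

/-- `q_r(x) = κ(x, x - r)`. -/
noncomputable def qq (l τ σ r x : ℝ) : ℝ :=
  (1 - r / x) ^ l * Real.cos (τ * Real.log (1 - r / x)) * x ^ (-2 * σ)

/-- `Ψ_N(r) = ∫_r^N q_r(x) dx`. -/
noncomputable def Psi (l τ σ N r : ℝ) : ℝ := ∫ x in r..N, qq l τ σ r x

/-- `β = ∫_1^∞ q_1(x) dx = Re B(z+1, 2σ-1)`. -/
noncomputable def bet (l τ σ : ℝ) : ℝ := ∫ x in Ioi (1:ℝ), qq l τ σ 1 x

lemma PW_pos {W : ℝ} (hW : 0 < W) (t : ℝ) : 0 < PW W t := by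
  unfold PW
  have := Real.pi_pos
  positivity

end Pool.Agent.Helper57.ED
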