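import Pool.Agent.Helper57.ED.Def

/-!
# ED-ZRA: comparison of sums and integrals

`s' = 2σ - 1 > 0`: `∑_{n ≥ 1} n^{-2σ} ≤ 1 + 1/s' = 2σ/s'`, `∑_{n ≤ X} n^{-2σ} ≥ ∫_1^{X+1} x^{-2σ} dx = (1 - (X+1)^{-s'})/s'`.
-/

open MeasureTheory Set Filter Topology

namespace Pool.Agent.Helper57.ED

/-- `ζ(2σ)` -/
noncomputable def zs (σ : ℝ) : ℝ := ∑' n : ℕ, ((n : ℝ) + 1) ^ (-2 * σ)

theorem summable_zs {σ : ℝ} (hσ : 1 / 2 < σ) : Summable (fun n : ℕ => ((n : ℝ) + 1) ^ (-2 * σ)) := by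
  have h : Summable (fun n : ℕ => (n : ℝ) ^ (-2 * σ)) := by
    rw [Real.summable_nat_rpow]
    linarith
  have h2 := (summable_nat_add_iff 1).2 h
  refine h2.congr (fun n => ?_)
  push_cast
  rfl

private lemma anti68 {σ : ℝ} (hσ : 1 / 2 < σ) {a b : ℝ} (ha : 0 < a) :
    AntitoneOn (fun x : ℝ => x ^ (-2 * σ)) (Icc a b) := by
  intro x hx y hy hxy
  exact Real.rpow_le_rpow_of_nonpos (lt_of_lt_of_le ha hx.1) hxy (by linarith)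

private lemma int68 {σ : ℝ} (hσ : 1 / 2 < σ) {b : ℝ} (hb : 1 ≤ b) :
    ∫ x in (1:ℝ)..b, x ^ (-2 * σ) = (1 - b ^ (-(2 * σ - 1))) / (2 * σ - 1) := by
  have h0 : (0:ℝ) ∉ uIcc (1:ℝ) b := by
    rw [uIcc_of_le hb]
    intro h
    linarith [h.1]
  rw [integral_rpow (Or.inr ⟨by linarith, h0⟩), Real.one_rpow]
  have e : -2 * σ + 1 = -(2 * σ - 1) := by ring
  rw [e, div_neg, ← neg_div]
  congr 1
  ring

private lemma part68 {σ : ℝ} (hσ : 1 / 2 < σ) (N : ℕ) :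
    ∑ n ∈ Finset.Icc 1 N, (n : ℝ) ^ (-2 * σ) ≤ 1 + 1 / (2 * σ - 1) := by
  have hs : 0 < 2 * σ - 1 := by linarith
  rcases Nat.eq_zero_or_pos N with rfl | hN
  · simp
    positivity
  have h1 : ∑ n ∈ Finset.Icc 1 N, (n : ℝ) ^ (-2 * σ) = 1 + ∑ n ∈ Finset.Ico 1 N, ((n + 1 : ℕ) : ℝ) ^ (-2 * σ) := by
    rw [← Finset.Ico_succ_right_eq_Icc, Finset.sum_Ico_add' (fun n : ℕ => (n : ℝ) ^ (-2 * σ)) 1 N 1]
    rw [Finset.sum_eq_sum_Ico_succ_bot (by simpa using hN)]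
    simp
  have h2 : ∑ n ∈ Finset.Ico 1 N, ((n + 1 : ℕ) : ℝ) ^ (-2 * σ) ≤ ∫ x in ((1:ℕ):ℝ)..(N:ℝ), x ^ (-2 * σ) :=
    AntitoneOn.sum_le_integral_Ico (f := fun x : ℝ => x ^ (-2 * σ)) hN (by
      exact anti68 hσ (by simp))
  rw [Nat.cast_one, int68 hσ (by exact_mod_cast hN)] at h2
  have h3 : (1 - (N : ℝ) ^ (-(2 * σ - 1))) / (2 * σ - 1) ≤ 1 / (2 * σ - 1) := by
    apply div_le_div_of_nonneg_right _ hs.le
    have : 0 ≤ (N : ℝ) ^ (-(2 * σ - 1)) := Real.rpow_nonneg (Nat.cast_nonneg _) _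
    linarith
  linarith

private lemma hasSum68 {σ : ℝ} (hσ : 1 / 2 < σ) :
    Tendsto (fun n : ℕ => ∑ j ∈ Finset.Icc 1 n, (j : ℝ) ^ (-2 * σ)) atTop (𝓝 (zs σ)) := by
  have h := (summable_zs hσ).hasSum.tendsto_sum_nat
  refine h.congr (fun n => ?_)
  have h3 := Finset.sum_Ico_add' (fun n : ℕ => (n : ℝ) ^ (-2 * σ)) 0 n 1
  rw [← Finset.Ico_succ_right_eq_Icc, Finset.range_eq_Ico]
  refine Eq.trans ?_ h3
  apply Finset.sum_congr rfl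
  intro i _
  push_cast
  rfl

theorem zs_le {σ : ℝ} (hσ : 1 / 2 < σ) : zs σ ≤ 1 + 1 / (2 * σ - 1) :=
  le_of_tendsto' (hasSum68 hσ) (fun n => part68 hσ n)

theorem zs_ratio {σ : ℝ} (hσ : 1 / 2 < σ) {X : ℕ} (hX : 1 ≤ X) :
    zs σ / ∑ n ∈ Finset.Icc 1 X, (n : ℝ) ^ (-(2 * σ)) ≤ 2 * σ / (1 - ((X : ℝ) + 1) ^ (-(2 * σ - 1))) := by
  have hs : 0 < 2 * σ - 1 := by linarith
  have hX1 : (1:ℝ) ≤ X := by exact_mod_cast hX
  have hp : ((X : ℝ) + 1) ^ (-(2 * σ - 1)) < 1 :=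
    Real.rpow_lt_one_of_one_lt_of_neg (by linarith) (by linarith)
  have e1 : ∑ n ∈ Finset.Icc 1 X, (n : ℝ) ^ (-(2 * σ)) = ∑ n ∈ Finset.Ico 1 (X + 1), (n : ℝ) ^ (-2 * σ) := by
    rw [← Finset.Ico_succ_right_eq_Icc]
    apply Finset.sum_congr rfl
    intro i _
    congr 1
    ring
  have h2 : ∫ x in ((1:ℕ):ℝ)..((X + 1 : ℕ):ℝ), x ^ (-2 * σ) ≤ ∑ n ∈ Finset.Ico 1 (X + 1), (n : ℝ) ^ (-2 * σ) :=
    AntitoneOn.integral_le_sum_Ico (f := fun x : ℝ => x ^ (-2 * σ)) (by omega) (by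
      exact anti68 hσ (by simp))
  rw [Nat.cast_one, int68 hσ (by push_cast; linarith)] at h2
  push_cast at h2
  have h4 : 0 < (1 - ((X : ℝ) + 1) ^ (-(2 * σ - 1))) / (2 * σ - 1) := by
    apply div_pos _ hs
    linarith
  have h5 : zs σ ≤ 2 * σ / (2 * σ - 1) := by
    refine (zs_le hσ).trans (le_of_eq ?_)
    field_simp
    ring
  rw [e1]
  calc zs σ / ∑ n ∈ Finset.Ico 1 (X + 1), (n : ℝ) ^ (-2 * σ)
      ≤ (2 * σ / (2 * σ - 1)) / ((1 - ((X : ℝ) + 1) ^ (-(2 * σ - 1))) / (2 * σ - 1)) := by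
        apply div_le_div₀ (by positivity) h5 h4 h2
    _ = 2 * σ / (1 - ((X : ℝ) + 1) ^ (-(2 * σ - 1))) := by
        have : 1 - ((X : ℝ) + 1) ^ (-(2 * σ - 1)) ≠ 0 := by linarith
        field_simp

/-- finite sums over `j P`. -/
theorem diag_lim {σ : ℝ} (hσ : 1 / 2 < σ) {P : ℕ} (hP : 1 ≤ P) :
    Tendsto (fun n : ℕ => ∑ j ∈ Finset.Icc 1 n, ((j * P : ℕ) : ℝ) ^ (-2 * σ)) atTop (𝓝 (zs σ * (P : ℝ) ^ (-2 * σ))) := by
  refine ((hasSum68 hσ).mul_const ((P : ℝ) ^ (-2 * σ))).congr (fun n => ?_)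
  rw [Finset.sum_mul]
  apply Finset.sum_congr rfl
  intro i _
  rw [Nat.cast_mul, Real.mul_rpow (Nat.cast_nonneg _) (Nat.cast_nonneg _)]

/-- sums over multiples of `g`. -/
theorem mult_sum_le {σ : ℝ} (hσ : 1 / 2 < σ) (N : ℕ) {g : ℕ} (hg : 1 ≤ g) :
    ∑ r ∈ (Finset.Icc 1 N).filter (fun r => g ∣ r), (r : ℝ) ^ (-2 * σ) ≤ 1 + 1 / (2 * σ - 1) := by
  refine le_trans ?_ (part68 hσ N)
  apply Finset.sum_le_sum_of_subset_of_nonneg (Finset.filter_subset _ _)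
  intro i _ _
  exact Real.rpow_nonneg (Nat.cast_nonneg _) _

end Pool.Agent.Helper57.ED
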