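import Pool.Agent.Helper57.ED.Def

/-!
# ED-QUA: the zeta function times the Dirichlet polynomial, zeros in `Z` reflected in the line `Re s = σ`

`div_finset differentiable_xi xi_two_ne (Z.map Subtype.val)` gives `xi s = ∏ (s-ρ)^{m_ρ} g(s)`; `Zt s = xi s * E(s)`
(definition of `Zt`, `E` entire, see the proof of `differentiable_Zt`), `Zt s = (s-1) ζ(s)` (`Zt_eq`, `0 < Re s`, `s ≠ 1`). Put
`f(s) = g(s) E(s) Mo X b s ∏ (s - ρ*)^{m_ρ} / (s - (2σ-1))`, `ρ* = 2σ - conj ρ`.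
Growth on `σ ≤ Re s`: `‖Zt s‖ ≤ 5 (1 + ‖s‖)²` (`norm_Zt_le`), `‖Mo X b s‖ ≤ ∑ |b h|`, `‖s - (2σ-1)‖ ≥ 1 - σ > 0`.
Let `R0 = 1 + ∑ (‖ρ‖ + ‖ρ*‖) + ...`: for `‖s‖ ≥ R0` each `‖(s - ρ*)/(s - ρ)‖ ≤ ‖s - ρ*‖ ≤ C (1 + ‖s‖)` (as `‖s - ρ‖ ≥ 1`), a
polynomial bound; for `‖s‖ ≤ R0`, `σ ≤ Re s`: compact set, `f` continuous, bounded.
-/

open MeasureTheory Set Filter Topology Complex
open Pool.Agent.Helper57.Zeta Pool.Agent.Helper57.LH

namespace Pool.Agent.Helper57.ED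

private lemma Mo_bound63 (X : ℕ) (b : ℕ → ℝ) {s : ℂ} (hs : 0 ≤ s.re) :
    ‖Mo X b s‖ ≤ ∑ h ∈ Finset.Icc 1 X, |b h| := by
  unfold Mo
  refine (norm_sum_le _ _).trans (Finset.sum_le_sum fun h hh => ?_)
  have h1 : 1 ≤ h := (Finset.mem_Icc.mp hh).1
  have hpos : (0 : ℝ) < h := by exact_mod_cast h1
  rw [norm_mul, Complex.norm_real, Real.norm_eq_abs]
  have e : ‖(h : ℂ) ^ (-s)‖ ≤ 1 := by
    have e1 : ((h : ℕ) : ℂ) = ((h : ℝ) : ℂ) := by simp
    rw [e1, Complex.norm_cpow_eq_rpow_re_of_pos hpos]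
    apply Real.rpow_le_one_of_one_le_of_nonpos
    · exact_mod_cast h1
    · rw [Complex.neg_re]; linarith
  calc |b h| * ‖(h : ℂ) ^ (-s)‖ ≤ |b h| * 1 := mul_le_mul_of_nonneg_left e (abs_nonneg _)
    _ = |b h| := mul_one _

private lemma differentiable_Mo63 (X : ℕ) (b : ℕ → ℝ) : Differentiable ℂ (Mo X b) := by
  unfold Mo
  apply Differentiable.fun_sum
  intro h hh
  have h1 : 1 ≤ h := (Finset.mem_Icc.mp hh).1
  have hne : (h : ℂ) ≠ 0 := by
    have : h ≠ 0 := by omega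
    exact_mod_cast this
  intro s
  exact (differentiableAt_const _).mul ((differentiableAt_id.neg).const_cpow (Or.inl hne))

theorem quot_fun (X : ℕ) (b : ℕ → ℝ) {σ : ℝ} (hσ : 1 / 2 ≤ σ) (hσ1 : σ < 1) (Z : Finset ZS) :
    ∃ f : ℂ → ℂ, DifferentiableOn ℂ f {s : ℂ | 2 * σ - 1 < s.re} ∧
      (∃ K : ℝ, ∃ m : ℕ, ∀ s : ℂ, σ ≤ s.re → ‖f s‖ ≤ K * (1 + ‖s‖) ^ m) ∧
      ∀ s : ℂ, 2 * σ - 1 < s.re → s ≠ 1 →
        f s * ((s - (2 * σ - 1 : ℝ)) * ∏ ρ ∈ Z, (s - (ρ : ℂ)) ^ (analyticOrderNatAt xi (ρ : ℂ))) =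
        riemannZeta s * Mo X b s *
          ((s - 1) * ∏ ρ ∈ Z, (s - ((2 * σ : ℝ) - (starRingEnd ℂ) (ρ : ℂ))) ^ (analyticOrderNatAt xi (ρ : ℂ))) := by
  classical
  obtain ⟨g, hg, hfg, -, -⟩ := div_finset differentiable_xi xi_two_ne (Z.map ⟨Subtype.val, Subtype.val_injective⟩)
  have hfg2 : ∀ z, xi z = (∏ ρ ∈ Z, (z - (ρ : ℂ)) ^ (analyticOrderNatAt xi (ρ : ℂ))) * g z := by
    intro z
    rw [hfg z, Finset.prod_map]
    rfl
  set E : ℂ → ℂ := fun s => (Real.pi : ℂ) ^ (s / 2) * (Gamma (1 + s / 2))⁻¹ / 2 with hE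
  have hEd : Differentiable ℂ E := by
    have h1 : Differentiable ℂ (fun s : ℂ => (Real.pi : ℂ) ^ (s / 2)) := by
      intro s
      exact (differentiableAt_id.div_const 2).const_cpow (Or.inl (by exact_mod_cast Real.pi_ne_zero))
    have h2 : Differentiable ℂ (fun s : ℂ => (Gamma (1 + s / 2))⁻¹) :=
      Complex.differentiable_one_div_Gamma.comp (by fun_prop)
    exact (h1.mul h2).div_const 2
  have hZt : ∀ s, Zt s = xi s * E s := fun s => rfl
  set m : ZS → ℕ := fun ρ => analyticOrderNatAt xi (ρ : ℂ) with hm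
  set st : ZS → ℂ := fun ρ => (2 * σ : ℝ) - (starRingEnd ℂ) (ρ : ℂ) with hst
  set P : ℂ → ℂ := fun s => ∏ ρ ∈ Z, (s - (ρ : ℂ)) ^ m ρ with hP
  set Q : ℂ → ℂ := fun s => ∏ ρ ∈ Z, (s - st ρ) ^ m ρ with hQ
  have hQd : Differentiable ℂ Q := by
    rw [hQ]
    fun_prop
  set f : ℂ → ℂ := fun s => g s * E s * Mo X b s * Q s / (s - (2 * σ - 1 : ℝ)) with hf
  have hden : ∀ s : ℂ, 2 * σ - 1 < s.re → s - (2 * σ - 1 : ℝ) ≠ 0 := by
    intro s hs h0
    have := congrArg Complex.re h0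
    rw [Complex.sub_re, Complex.ofReal_re, Complex.zero_re] at this
    linarith
  have hfd : DifferentiableOn ℂ f {s : ℂ | 2 * σ - 1 < s.re} := by
    intro s hs
    apply DifferentiableAt.differentiableWithinAt
    rw [hf]
    apply DifferentiableAt.div
    · exact ((((hg s).mul (hEd s)).mul (differentiable_Mo63 X b s))).mul (hQd s)
    · fun_prop
    · exact hden s hs
  refine ⟨f, hfd, ?_, ?_⟩
  · -- growth
    set R0 : ℝ := 1 + ∑ ρ ∈ Z, ‖(ρ : ℂ)‖ with hR0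
    have hcomp : IsCompact (Metric.closedBall (0 : ℂ) R0 ∩ {s : ℂ | σ ≤ s.re}) :=
      (isCompact_closedBall 0 R0).inter_right (isClosed_le continuous_const Complex.continuous_re)
    have hcont : ContinuousOn f (Metric.closedBall (0 : ℂ) R0 ∩ {s : ℂ | σ ≤ s.re}) := by
      apply hfd.continuousOn.mono
      rintro s ⟨-, hs⟩
      have hs' : σ ≤ s.re := hs
      change 2 * σ - 1 < s.re
      linarith
    obtain ⟨K2, hK2⟩ := hcomp.exists_bound_of_continuousOn hcont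
    set B : ℝ := ∑ h ∈ Finset.Icc 1 X, |b h| with hB
    have hB0 : 0 ≤ B := Finset.sum_nonneg fun _ _ => abs_nonneg _
    set C : ℝ := ∏ ρ ∈ Z, (1 + ‖st ρ‖) ^ m ρ with hC
    have hC0 : 0 ≤ C := Finset.prod_nonneg fun _ _ => by positivity
    set N : ℕ := ∑ ρ ∈ Z, m ρ with hN
    have hσ1' : 0 < 1 - σ := by linarith
    refine ⟨max K2 (5 * B * C / (1 - σ)), 2 + N, ?_⟩
    intro s hs
    have hone : 1 ≤ (1 + ‖s‖) ^ (2 + N) := one_le_pow₀ (by linarith [norm_nonneg s])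
    have hmax0 : 0 ≤ max K2 (5 * B * C / (1 - σ)) := le_max_of_le_right (by positivity)
    rcases le_or_gt ‖s‖ R0 with hsR | hsR
    · have h1 : ‖f s‖ ≤ K2 := hK2 s ⟨by simpa using hsR, hs⟩
      calc ‖f s‖ ≤ max K2 (5 * B * C / (1 - σ)) := h1.trans (le_max_left _ _)
        _ = max K2 (5 * B * C / (1 - σ)) * 1 := (mul_one _).symm
        _ ≤ _ := mul_le_mul_of_nonneg_left hone hmax0
    · -- far away
      have hP1 : 1 ≤ ‖P s‖ := by
        rw [hP]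
        simp only
        rw [norm_prod]
        have : (1 : ℝ) = ∏ ρ ∈ Z, (1 : ℝ) := by simp
        rw [this]
        apply Finset.prod_le_prod
        · intro _ _; norm_num
        · intro ρ hρ
          rw [norm_pow]
          apply one_le_pow₀
          have h1 : ‖(ρ : ℂ)‖ ≤ ∑ ρ ∈ Z, ‖(ρ : ℂ)‖ :=
            Finset.single_le_sum (f := fun ρ : ZS => ‖(ρ : ℂ)‖) (fun _ _ => norm_nonneg _) hρ
          have h2 := norm_sub_norm_le s (ρ : ℂ)
          linarith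
      have hgE : ‖g s * E s‖ ≤ 5 * (1 + ‖s‖) ^ 2 := by
        have h1 := norm_Zt_le (s := s) (by linarith)
        rw [hZt s, hfg2 s] at h1
        have h2 : ‖P s * (g s * E s)‖ ≤ 5 * (1 + ‖s‖) ^ 2 := by
          have e : P s * (g s * E s) = (∏ ρ ∈ Z, (s - (ρ : ℂ)) ^ (analyticOrderNatAt xi (ρ : ℂ))) * g s * E s := by
            rw [hP]; ring
          rw [e]; exact h1
        rw [norm_mul] at h2
        calc ‖g s * E s‖ = 1 * ‖g s * E s‖ := (one_mul _).symm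
          _ ≤ ‖P s‖ * ‖g s * E s‖ := mul_le_mul_of_nonneg_right hP1 (norm_nonneg _)
          _ ≤ _ := h2
      have hQb : ‖Q s‖ ≤ C * (1 + ‖s‖) ^ N := by
        rw [hQ, hC, hN]
        simp only
        rw [norm_prod, ← Finset.prod_pow_eq_pow_sum, ← Finset.prod_mul_distrib]
        apply Finset.prod_le_prod
        · intro _ _; exact norm_nonneg _
        · intro ρ _
          rw [norm_pow, ← mul_pow]
          apply pow_le_pow_left₀ (norm_nonneg _)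
          have h1 := norm_sub_le s (st ρ)
          nlinarith [norm_nonneg s, norm_nonneg (st ρ), mul_nonneg (norm_nonneg s) (norm_nonneg (st ρ))]
      have hMb : ‖Mo X b s‖ ≤ B := Mo_bound63 X b (by linarith)
      have hdb : 1 - σ ≤ ‖s - (2 * σ - 1 : ℝ)‖ := by
        have h1 := Complex.re_le_norm (s - (2 * σ - 1 : ℝ))
        rw [Complex.sub_re, Complex.ofReal_re] at h1
        linarith
      have hnum : ‖g s * E s * Mo X b s * Q s‖ ≤ (5 * B * C) * (1 + ‖s‖) ^ (2 + N) := by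
        rw [norm_mul, norm_mul]
        have hs0 : 0 ≤ 1 + ‖s‖ := by positivity
        calc ‖g s * E s‖ * ‖Mo X b s‖ * ‖Q s‖
            ≤ (5 * (1 + ‖s‖) ^ 2) * B * (C * (1 + ‖s‖) ^ N) := by gcongr
          _ = _ := by rw [pow_add]; ring
      have hfs : ‖f s‖ = ‖g s * E s * Mo X b s * Q s‖ / ‖s - (2 * σ - 1 : ℝ)‖ := by
        rw [hf]; simp only; rw [norm_div]
      rw [hfs]
      calc ‖g s * E s * Mo X b s * Q s‖ / ‖s - (2 * σ - 1 : ℝ)‖
          ≤ ((5 * B * C) * (1 + ‖s‖) ^ (2 + N)) / (1 - σ) := by gcongr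
        _ = (5 * B * C / (1 - σ)) * (1 + ‖s‖) ^ (2 + N) := by ring
        _ ≤ _ := mul_le_mul_of_nonneg_right (le_max_right _ _) (by positivity)
  · intro s hs h1
    have hs0 : 0 < s.re := by linarith
    have e := Zt_eq hs0 h1
    rw [hZt s, hfg2 s] at e
    have hd := hden s hs
    have e2 : f s * (s - (2 * σ - 1 : ℝ)) = g s * E s * Mo X b s * Q s := by
      rw [hf]; simp only
      exact div_mul_cancel₀ _ hd
    calc f s * ((s - (2 * σ - 1 : ℝ)) * ∏ ρ ∈ Z, (s - (ρ : ℂ)) ^ (analyticOrderNatAt xi (ρ : ℂ)))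
        = (f s * (s - (2 * σ - 1 : ℝ))) * ∏ ρ ∈ Z, (s - (ρ : ℂ)) ^ (analyticOrderNatAt xi (ρ : ℂ)) := by ring
      _ = ((∏ ρ ∈ Z, (s - (ρ : ℂ)) ^ (analyticOrderNatAt xi (ρ : ℂ))) * g s * E s) * Mo X b s * Q s := by
          rw [e2]; ring
      _ = ((s - 1) * riemannZeta s) * Mo X b s * Q s := by rw [e]
      _ = riemannZeta s * Mo X b s * ((s - 1) * Q s) := by ring

end Pool.Agent.Helper57.ED
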