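import Pool.Agent.Helper57.ED.PoB
import Pool.Agent.Helper57.ED.QuA

/-!
# ED-ZEA: weighted sum over the zeros to the right of `Re s = σ`

`f` from `quot_fun`. On the line `s = σ + it`: `‖s - ρ‖ = ‖s - ρ*‖ > 0`, `‖s - (2σ-1)‖ = ‖s - 1‖ > 0`, so `‖f‖ = ‖ζ Mo‖`, and
`halfplane` gives `‖f(s1)‖² ≤ B`, `s1 = σ + W + iτ`. Now
`log ‖f(s1)‖ = log ‖ζ(s1) Mo(s1)‖ + log ‖(s1-1)/(s1-(2σ-1))‖ + ∑ m_ρ log ‖(s1-ρ*)/(s1-ρ)‖`.
* `‖ζ(s1) - 1‖, ‖Mo(s1) - 1‖ ≤ ∑_{n ≥ 2} n^{-W} ≤ 2 * 2^{-W}` (`Re s1 ≥ W ≥ 10`), so the first term is `≥ -1/W`;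
* `‖(s1-1)/(s1-(2σ-1))‖² = 1 - 4W(1-σ)/((W+1-σ)²+τ²) ≥ 1 - 2/W`, so the second is `≥ -2/W`;
* with `d = Re ρ - σ ∈ (0, 1/2]`, `u = Im ρ - τ`, `A = W² + d² + u²`: `‖(s1-ρ*)/(s1-ρ)‖² = (A + 2Wd)/(A - 2Wd)` and
  `(1/2) log ((1+x)/(1-x)) ≥ x` (`Real.abs_log_sub_...` or derivative), `x = 2Wd/A ≥ 2Wd/(W² + 1 + u²)`.
(`Re ρ < 1` for the elements of `ZS`: see `M/Z.lean`, used for `isNontrivialZero_iff`.)
-/

open MeasureTheory Set Filter Topology Complex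
open Pool.Agent.Helper57.Zeta Pool.Agent.Helper57.LH

namespace Pool.Agent.Helper57.ED

private lemma tele31 (N : ℕ) :
    ∑ n ∈ Finset.range N, (8 : ℝ) / ((n : ℝ) + 2) ^ 3 ≤ 2 - 4 / (((N : ℝ) + 1) * ((N : ℝ) + 2)) := by
  induction N with
  | zero => norm_num
  | succ N ih =>
    rw [Finset.sum_range_succ]
    have hN : (0 : ℝ) ≤ N := Nat.cast_nonneg N
    have h : (8 : ℝ) / ((N : ℝ) + 2) ^ 3 ≤
        4 / (((N : ℝ) + 1) * ((N : ℝ) + 2)) - 4 / ((((N + 1 : ℕ) : ℝ) + 1) * (((N + 1 : ℕ) : ℝ) + 2)) := by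
      push_cast
      have e : 4 / (((N : ℝ) + 1) * ((N : ℝ) + 2)) - 4 / (((N : ℝ) + 1 + 1) * ((N : ℝ) + 1 + 2)) =
          8 / (((N : ℝ) + 1) * ((N : ℝ) + 2) * ((N : ℝ) + 3)) := by
        field_simp
        ring
      rw [e]
      apply div_le_div_of_nonneg_left (by norm_num) (by positivity)
      nlinarith [hN]
    linarith

private lemma pow31 {W : ℝ} (hW : 10 ≤ W) (n : ℕ) :
    ((n : ℝ) + 2) ^ (-W) ≤ (2 : ℝ) ^ (-W) * (8 / ((n : ℝ) + 2) ^ 3) := by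
  have hn : (0 : ℝ) < (n : ℝ) + 2 := by positivity
  have e1 : ((n : ℝ) + 2) ^ (-W) = (2 : ℝ) ^ (-W) * (2 / ((n : ℝ) + 2)) ^ W := by
    rw [Real.div_rpow (by norm_num) hn.le, Real.rpow_neg hn.le, Real.rpow_neg (by norm_num)]
    have h2 : (2 : ℝ) ^ W ≠ 0 := (Real.rpow_pos_of_pos (by norm_num) _).ne'
    field_simp
  have e2 : (2 / ((n : ℝ) + 2)) ^ W ≤ 8 / ((n : ℝ) + 2) ^ 3 := by
    have h1 : (2 / ((n : ℝ) + 2)) ^ W ≤ (2 / ((n : ℝ) + 2)) ^ (3 : ℝ) := by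
      apply Real.rpow_le_rpow_of_exponent_ge
      · positivity
      · rw [div_le_one hn]
        have : (0 : ℝ) ≤ n := Nat.cast_nonneg n
        linarith
      · linarith
    refine h1.trans (le_of_eq ?_)
    have h3 : (2 / ((n : ℝ) + 2)) ^ (3 : ℝ) = (2 / ((n : ℝ) + 2)) ^ (3 : ℕ) := by
      rw [← Real.rpow_natCast]; norm_num
    rw [h3, div_pow]
    norm_num
  rw [e1]
  exact mul_le_mul_of_nonneg_left e2 (Real.rpow_nonneg (by norm_num) _)

private lemma sum31 {W : ℝ} (hW : 10 ≤ W) (N : ℕ) :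
    ∑ n ∈ Finset.range N, ((n : ℝ) + 2) ^ (-W) ≤ 2 * (2 : ℝ) ^ (-W) := by
  have h2 : (0 : ℝ) < (2 : ℝ) ^ (-W) := Real.rpow_pos_of_pos (by norm_num) _
  calc ∑ n ∈ Finset.range N, ((n : ℝ) + 2) ^ (-W)
      ≤ ∑ n ∈ Finset.range N, (2 : ℝ) ^ (-W) * (8 / ((n : ℝ) + 2) ^ 3) :=
        Finset.sum_le_sum fun n _ => pow31 hW n
    _ = (2 : ℝ) ^ (-W) * ∑ n ∈ Finset.range N, (8 / ((n : ℝ) + 2) ^ 3) := by rw [Finset.mul_sum]
    _ ≤ (2 : ℝ) ^ (-W) * 2 := by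
        apply mul_le_mul_of_nonneg_left _ h2.le
        refine (tele31 N).trans ?_
        have : (0 : ℝ) ≤ 4 / (((N : ℝ) + 1) * ((N : ℝ) + 2)) := by positivity
        linarith
    _ = _ := mul_comm _ _

private lemma norm_cpow31 (n : ℕ) (s : ℂ) : ‖((n : ℂ) + 2) ^ (-s)‖ = ((n : ℝ) + 2) ^ (-s.re) := by
  have e1 : ((n : ℂ) + 2) = (((n : ℝ) + 2 : ℝ) : ℂ) := by push_cast; rfl
  rw [e1, Complex.norm_cpow_eq_rpow_re_of_pos (by positivity), Complex.neg_re]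

private lemma zeta_near31 {s : ℂ} (hs : 10 ≤ s.re) : ‖riemannZeta s - 1‖ ≤ 2 * (2 : ℝ) ^ (-s.re) := by
  have h1 : (1 : ℝ) < s.re := by linarith
  have hsum : Summable (fun n : ℕ => 1 / ((n : ℂ) + 1) ^ s) := by
    have := (summable_nat_add_iff 1).mpr (Complex.summable_one_div_nat_cpow.mpr h1)
    refine this.congr fun n => ?_
    push_cast
    rfl
  have hz : riemannZeta s - 1 = ∑' n : ℕ, 1 / (((n + 1 : ℕ) : ℂ) + 1) ^ s := by
    rw [zeta_eq_tsum_one_div_nat_add_one_cpow h1, hsum.tsum_eq_zero_add]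
    simp
  have hterm : ∀ n : ℕ, ‖1 / (((n + 1 : ℕ) : ℂ) + 1) ^ s‖ = ((n : ℝ) + 2) ^ (-s.re) := by
    intro n
    rw [← norm_cpow31 n s, Complex.cpow_neg, one_div]
    congr 3
    push_cast
    ring
  have hs2 : Summable (fun n : ℕ => ((n : ℝ) + 2) ^ (-s.re)) :=
    summable_of_sum_range_le (fun n => Real.rpow_nonneg (by positivity) _) (fun N => sum31 hs N)
  rw [hz]
  refine (norm_tsum_le_tsum_norm ?_).trans ?_
  · exact hs2.congr fun n => (hterm n).symm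
  · rw [tsum_congr hterm]
    exact Real.tsum_le_of_sum_range_le (fun n => Real.rpow_nonneg (by positivity) _) (fun N => sum31 hs N)

private lemma Mo_near31 {X : ℕ} (hX : 1 ≤ X) {b : ℕ → ℝ} (hb1 : b 1 = 1) (hb : ∀ h, |b h| ≤ 1) {s : ℂ}
    (hs : 10 ≤ s.re) : ‖Mo X b s - 1‖ ≤ 2 * (2 : ℝ) ^ (-s.re) := by
  have e : Mo X b s = 1 + ∑ n ∈ Finset.range (X - 1), (b (n + 2) : ℂ) * ((n : ℂ) + 2) ^ (-s) := by
    unfold Mo
    have h1 : Finset.Icc 1 X = insert 1 (Finset.Ico 2 (X + 1)) := by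
      ext n
      simp only [Finset.mem_Icc, Finset.mem_insert, Finset.mem_Ico]
      omega
    rw [h1, Finset.sum_insert (by simp), Finset.sum_Ico_eq_sum_range]
    have h2 : X + 1 - 2 = X - 1 := by omega
    rw [h2, hb1]
    congr 1
    · simp
    · apply Finset.sum_congr rfl
      intro n _
      rw [add_comm 2 n]
      push_cast
      rfl
  rw [e, add_sub_cancel_left]
  refine (norm_sum_le _ _).trans ?_
  calc ∑ n ∈ Finset.range (X - 1), ‖(b (n + 2) : ℂ) * ((n : ℂ) + 2) ^ (-s)‖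
      ≤ ∑ n ∈ Finset.range (X - 1), ((n : ℝ) + 2) ^ (-s.re) := by
        apply Finset.sum_le_sum
        intro n _
        rw [norm_mul, norm_cpow31, Complex.norm_real, Real.norm_eq_abs]
        have h0 : (0 : ℝ) ≤ ((n : ℝ) + 2) ^ (-s.re) := Real.rpow_nonneg (by positivity) _
        calc |b (n + 2)| * ((n : ℝ) + 2) ^ (-s.re) ≤ 1 * ((n : ℝ) + 2) ^ (-s.re) :=
              mul_le_mul_of_nonneg_right (hb _) h0
          _ = _ := one_mul _
    _ ≤ _ := sum31 hs _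

private lemma small31 {W : ℝ} (hW : 10 ≤ W) : 2 * (2 : ℝ) ^ (-W) ≤ 1 / (50 * W) := by
  have hW0 : 0 < W := by linarith
  have h1 : (W / 10) ≤ (2 : ℝ) ^ (W - 10) := by
    have h2 : Real.log 2 * (W - 10) + 1 ≤ (2 : ℝ) ^ (W - 10) := by
      rw [Real.rpow_def_of_pos (by norm_num)]
      exact Real.add_one_le_exp _
    have h3 := Real.log_two_gt_d9
    nlinarith
  have h4 : (2 : ℝ) ^ W = 1024 * (2 : ℝ) ^ (W - 10) := by
    have : W = 10 + (W - 10) := by ring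
    rw [this, Real.rpow_add (by norm_num)]
    congr 1
    · have : (2 : ℝ) ^ (10 : ℝ) = (2 : ℝ) ^ (10 : ℕ) := by rw [← Real.rpow_natCast]; norm_num
      rw [this]; norm_num
    · ring_nf
  have h5 : 102 * W ≤ (2 : ℝ) ^ W := by rw [h4]; nlinarith
  rw [Real.rpow_neg (by norm_num), ← div_eq_mul_inv, div_le_div_iff₀ (by linarith) (by positivity)]
  linarith

/-- values far to the right. -/
theorem far_right {X : ℕ} (hX : 1 ≤ X) {b : ℕ → ℝ} (hb1 : b 1 = 1) (hb : ∀ h, |b h| ≤ 1) {s : ℂ} (hs : 10 ≤ s.re) :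
    -(1 / s.re) ≤ Real.log ‖riemannZeta s * Mo X b s‖ ∧ riemannZeta s * Mo X b s ≠ 0 := by
  have hW0 : 0 < s.re := by linarith
  have h1 := zeta_near31 hs
  have h2 := Mo_near31 hX hb1 hb hs
  have h3 := small31 hs
  set δ : ℝ := 1 / (50 * s.re) with hδ
  have hδ1 : δ ≤ 1 / 500 := by
    rw [hδ]
    apply one_div_le_one_div_of_le (by norm_num)
    linarith
  have hδ0 : 0 < δ := by rw [hδ]; positivity
  have key : ∀ z : ℂ, ‖z - 1‖ ≤ 2 * (2 : ℝ) ^ (-s.re) → 1 - δ ≤ ‖z‖ := by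
    intro z hz
    have h4 : ‖(1 : ℂ)‖ - ‖z‖ ≤ ‖(1 : ℂ) - z‖ := norm_sub_norm_le _ _
    rw [norm_one, norm_sub_rev] at h4
    linarith
  have k1 := key _ h1
  have k2 := key _ h2
  have hpos1 : 0 < ‖riemannZeta s‖ := by linarith
  have hpos2 : 0 < ‖Mo X b s‖ := by linarith
  have hlog : ∀ y : ℝ, 1 - δ ≤ y → -(2 * δ) ≤ Real.log y := by
    intro y hy
    have hd : 0 < 1 - δ := by linarith
    have h5 := Real.one_sub_inv_le_log_of_pos hd
    have h6 : Real.log (1 - δ) ≤ Real.log y := Real.log_le_log hd hy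
    have h7 : (1 - δ)⁻¹ ≤ 1 + 2 * δ := by
      rw [inv_le_comm₀ hd (by linarith), inv_eq_one_div, div_le_iff₀ (by linarith)]
      nlinarith
    linarith
  refine ⟨?_, ?_⟩
  · rw [norm_mul, Real.log_mul hpos1.ne' hpos2.ne']
    have a1 := hlog _ k1
    have a2 := hlog _ k2
    have a3 : 4 * δ ≤ 1 / s.re := by
      rw [hδ]
      rw [← mul_div_assoc, div_le_div_iff₀ (by positivity) hW0]
      linarith
    linarith
  · exact mul_ne_zero (norm_pos_iff.mp hpos1) (norm_pos_iff.mp hpos2)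

private lemma log_half31 {x : ℝ} (h0 : 0 ≤ x) (h1 : x < 1) :
    2 * x ≤ Real.log (1 + x) - Real.log (1 - x) := by
  have h := Real.hasSum_log_sub_log_of_abs_lt_one (x := x) (by rw [abs_of_nonneg h0]; exact h1)
  have h2 := sum_le_hasSum (Finset.range 1) (fun i _ => by positivity) h
  simpa using h2

private lemma term31 {W d u : ℝ} (hW : 10 ≤ W) (hd : 0 < d) (hd1 : d ≤ 1) :
    2 * W * d / (W ^ 2 + 1 + u ^ 2) ≤
      1 / 2 * Real.log ((W + d) ^ 2 + u ^ 2) - 1 / 2 * Real.log ((W - d) ^ 2 + u ^ 2) := by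
  set A : ℝ := W ^ 2 + d ^ 2 + u ^ 2 with hA
  have hA0 : 0 < A := by rw [hA]; positivity
  have hWd : 0 < W - d := by linarith
  set x : ℝ := 2 * W * d / A with hx
  have hx0 : 0 ≤ x := by rw [hx]; positivity
  have hx1 : x < 1 := by
    rw [hx, div_lt_one hA0, hA]
    nlinarith [sq_pos_of_pos hWd, sq_nonneg u]
  have h := log_half31 hx0 hx1
  have e1 : (W + d) ^ 2 + u ^ 2 = A * (1 + x) := by
    rw [hx]; field_simp; rw [hA]; ring
  have e2 : (W - d) ^ 2 + u ^ 2 = A * (1 - x) := by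
    rw [hx]; field_simp; rw [hA]; ring
  rw [e1, e2, Real.log_mul hA0.ne' (by linarith), Real.log_mul hA0.ne' (by linarith)]
  have e3 : 2 * W * d / (W ^ 2 + 1 + u ^ 2) ≤ x := by
    rw [hx]
    apply div_le_div_of_nonneg_left (by positivity) hA0
    rw [hA]
    nlinarith
  linarith

private lemma half_log31 (z : ℂ) (a c : ℝ) (h1 : z.re = a) (h2 : z.im = c) :
    Real.log ‖z‖ = 1 / 2 * Real.log (a ^ 2 + c ^ 2) := by
  have e : a ^ 2 + c ^ 2 = ‖z‖ ^ 2 := by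
    rw [← Complex.normSq_eq_norm_sq, Complex.normSq_apply, h1, h2]; ring
  rw [e, Real.log_pow]
  push_cast
  ring

theorem zeros_le {X : ℕ} (hX : 1 ≤ X) {b : ℕ → ℝ} (hb1 : b 1 = 1) (hb : ∀ h, |b h| ≤ 1) {σ W τ B : ℝ}
    (hσ : 1 / 2 ≤ σ) (hσ1 : σ < 1) (hW : 10 ≤ W)
    (hB : ∀ R : ℝ, 0 < R →
      ∫ t in (-R)..R, PW W (t - τ) * ‖riemannZeta (σ + t * I) * Mo X b (σ + t * I)‖ ^ 2 ≤ B)
    (Z : Finset ZS) (hZ : ∀ ρ ∈ Z, σ < (ρ : ℂ).re) :
    ∑ ρ ∈ Z, mx ρ * (2 * W * ((ρ : ℂ).re - σ) / (W ^ 2 + 1 + ((ρ : ℂ).im - τ) ^ 2)) ≤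
      1 / 2 * Real.log B + 3 / W := by
  have hW0 : 0 < W := by linarith
  obtain ⟨f, hf, ⟨K, m, hK⟩, hfe⟩ := quot_fun X b hσ hσ1 Z
  set st : ZS → ℂ := fun ρ => ((2 * σ : ℝ) - (starRingEnd ℂ) (ρ : ℂ)) with hst
  have hst_re : ∀ ρ : ZS, (st ρ).re = 2 * σ - (ρ : ℂ).re := by
    intro ρ
    rw [hst]
    simp
  have hst_im : ∀ ρ : ZS, (st ρ).im = (ρ : ℂ).im := by
    intro ρ
    rw [hst]
    simp
  have hre1 : ∀ ρ : ZS, (ρ : ℂ).re < 1 := fun ρ => (xi_eq_zero_iff.mp ρ.2).2.1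
  -- the line
  have hline : ∀ t : ℝ, ‖f (σ + t * I)‖ = ‖riemannZeta (σ + t * I) * Mo X b (σ + t * I)‖ := by
    intro t
    set s : ℂ := σ + t * I with hs
    have hsre : s.re = σ := by rw [hs]; simp
    have hsim : s.im = t := by rw [hs]; simp
    have hs1 : s ≠ 1 := by
      intro h
      have := congrArg Complex.re h
      rw [hsre, Complex.one_re] at this
      linarith
    have e := congrArg norm (hfe s (by rw [hsre]; linarith) hs1)
    rw [norm_mul, norm_mul, norm_mul (riemannZeta s * Mo X b s), norm_mul (s - 1), norm_prod, norm_prod] at e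
    have n1 : ‖s - (2 * σ - 1 : ℝ)‖ = ‖s - 1‖ := by
      have a1 : ‖s - (2 * σ - 1 : ℝ)‖ ^ 2 = ‖s - 1‖ ^ 2 := by
        rw [← Complex.normSq_eq_norm_sq, ← Complex.normSq_eq_norm_sq, Complex.normSq_apply, Complex.normSq_apply]
        simp only [Complex.sub_re, Complex.sub_im, Complex.ofReal_re, Complex.ofReal_im, Complex.one_re,
          Complex.one_im, hsre, hsim]
        ring
      exact (pow_left_inj₀ (norm_nonneg _) (norm_nonneg _) (by norm_num)).mp a1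
    have n2 : ∀ ρ : ZS, ‖s - (ρ : ℂ)‖ = ‖s - st ρ‖ := by
      intro ρ
      have a1 : ‖s - (ρ : ℂ)‖ ^ 2 = ‖s - st ρ‖ ^ 2 := by
        rw [← Complex.normSq_eq_norm_sq, ← Complex.normSq_eq_norm_sq, Complex.normSq_apply, Complex.normSq_apply]
        simp only [Complex.sub_re, Complex.sub_im, hsre, hsim, hst_re, hst_im]
        ring
      exact (pow_left_inj₀ (norm_nonneg _) (norm_nonneg _) (by norm_num)).mp a1
    have n3 : ∏ ρ ∈ Z, ‖(s - (ρ : ℂ)) ^ (analyticOrderNatAt xi (ρ : ℂ))‖ =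
        ∏ ρ ∈ Z, ‖(s - st ρ) ^ (analyticOrderNatAt xi (ρ : ℂ))‖ := by
      apply Finset.prod_congr rfl
      intro ρ _
      rw [norm_pow, norm_pow, n2]
    have n4 : 0 < ‖s - 1‖ := norm_pos_iff.mpr (sub_ne_zero.mpr hs1)
    have n5 : 0 < ∏ ρ ∈ Z, ‖(s - st ρ) ^ (analyticOrderNatAt xi (ρ : ℂ))‖ := by
      apply Finset.prod_pos
      intro ρ hρ
      rw [norm_pow]
      apply pow_pos
      rw [← n2]
      apply norm_pos_iff.mpr
      intro h
      have := congrArg Complex.re h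
      rw [Complex.sub_re, hsre, Complex.zero_re] at this
      have := hZ ρ hρ
      linarith
    rw [n1, n3] at e
    exact mul_right_cancel₀ (mul_pos n4 n5).ne' e
  -- half-plane inequality
  have hHP : ‖f ((σ + W : ℝ) + τ * I)‖ ^ 2 ≤ B := by
    apply halfplane (c := 2 * σ - 1) (by linarith) hf hK hW0
    intro R hR
    refine le_trans (le_of_eq ?_) (hB R hR)
    apply intervalIntegral.integral_congr
    intro t _
    simp only
    rw [hline t]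
  -- the point s1
  set s1 : ℂ := ((σ + W : ℝ) + τ * I) with hs1
  have hre : s1.re = σ + W := by rw [hs1]; simp
  have him : s1.im = τ := by rw [hs1]; simp
  have hne1 : s1 ≠ 1 := by
    intro h
    have := congrArg Complex.re h
    rw [hre, Complex.one_re] at this
    linarith
  have e := congrArg norm (hfe s1 (by rw [hre]; linarith) hne1)
  obtain ⟨hfr, hfr0⟩ := far_right hX hb1 hb (s := s1) (by rw [hre]; linarith)
  rw [norm_mul, norm_mul, norm_mul (riemannZeta s1 * Mo X b s1), norm_mul (s1 - 1), norm_prod, norm_prod] at e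
  have p1 : 0 < ‖s1 - (2 * σ - 1 : ℝ)‖ := by
    apply norm_pos_iff.mpr
    intro h
    have := congrArg Complex.re h
    rw [Complex.sub_re, hre, Complex.ofReal_re, Complex.zero_re] at this
    linarith
  have p2 : 0 < ‖s1 - 1‖ := norm_pos_iff.mpr (sub_ne_zero.mpr hne1)
  have p3 : ∀ ρ ∈ Z, 0 < ‖s1 - (ρ : ℂ)‖ := by
    intro ρ _
    apply norm_pos_iff.mpr
    intro h
    have := congrArg Complex.re h
    rw [Complex.sub_re, hre, Complex.zero_re] at this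
    have := hre1 ρ
    linarith
  have p4 : ∀ ρ ∈ Z, 0 < ‖s1 - st ρ‖ := by
    intro ρ hρ
    apply norm_pos_iff.mpr
    intro h
    have := congrArg Complex.re h
    rw [Complex.sub_re, hre, Complex.zero_re, hst_re] at this
    have := hZ ρ hρ
    linarith
  have p5 : 0 < ‖riemannZeta s1 * Mo X b s1‖ := norm_pos_iff.mpr hfr0
  have q3 : 0 < ∏ ρ ∈ Z, ‖(s1 - (ρ : ℂ)) ^ (analyticOrderNatAt xi (ρ : ℂ))‖ := by
    apply Finset.prod_pos
    intro ρ hρ
    rw [norm_pow]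
    exact pow_pos (p3 ρ hρ) _
  have q4 : 0 < ∏ ρ ∈ Z, ‖(s1 - st ρ) ^ (analyticOrderNatAt xi (ρ : ℂ))‖ := by
    apply Finset.prod_pos
    intro ρ hρ
    rw [norm_pow]
    exact pow_pos (p4 ρ hρ) _
  have p6 : 0 < ‖f s1‖ := by
    by_contra hcon
    have h0 : ‖f s1‖ = 0 := le_antisymm (not_lt.mp hcon) (norm_nonneg _)
    rw [h0, zero_mul] at e
    have := mul_pos p5 (mul_pos p2 q4)
    linarith
  have el := congrArg Real.log e
  rw [Real.log_mul p6.ne' (mul_pos p1 q3).ne', Real.log_mul p1.ne' q3.ne',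
    Real.log_mul p5.ne' (mul_pos p2 q4).ne', Real.log_mul p2.ne' q4.ne',
    Real.log_prod (fun ρ hρ => by rw [norm_pow]; exact (pow_pos (p3 ρ hρ) _).ne'),
    Real.log_prod (fun ρ hρ => by rw [norm_pow]; exact (pow_pos (p4 ρ hρ) _).ne')] at el
  have hlB : Real.log ‖f s1‖ ≤ 1 / 2 * Real.log B := by
    have h1 : Real.log (‖f s1‖ ^ 2) ≤ Real.log B := Real.log_le_log (by positivity) hHP
    rw [Real.log_pow] at h1
    push_cast at h1
    linarith
  have hr1 : 1 / s1.re ≤ 1 / W := by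
    rw [hre]
    apply one_div_le_one_div_of_le hW0
    linarith
  have hsecond : Real.log ‖s1 - (2 * σ - 1 : ℝ)‖ - Real.log ‖s1 - 1‖ ≤ 2 / W := by
    rw [half_log31 (s1 - (2 * σ - 1 : ℝ)) (W + (1 - σ)) τ (by
        rw [Complex.sub_re, hre, Complex.ofReal_re]; ring) (by
        rw [Complex.sub_im, him, Complex.ofReal_im]; ring),
      half_log31 (s1 - 1) (W - (1 - σ)) τ (by
        rw [Complex.sub_re, hre, Complex.one_re]; ring) (by
        rw [Complex.sub_im, him, Complex.one_im]; ring)]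
    have hD : 0 < (W - (1 - σ)) ^ 2 + τ ^ 2 := by
      have : 0 < W - (1 - σ) := by linarith
      positivity
    have hN : 0 < (W + (1 - σ)) ^ 2 + τ ^ 2 := by
      have : 0 < W + (1 - σ) := by linarith
      positivity
    have h1 : Real.log ((W + (1 - σ)) ^ 2 + τ ^ 2) - Real.log ((W - (1 - σ)) ^ 2 + τ ^ 2) =
        Real.log (((W + (1 - σ)) ^ 2 + τ ^ 2) / ((W - (1 - σ)) ^ 2 + τ ^ 2)) :=
      (Real.log_div hN.ne' hD.ne').symm
    have h2 := Real.log_le_sub_one_of_pos (div_pos hN hD)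
    have h3 : ((W + (1 - σ)) ^ 2 + τ ^ 2) / ((W - (1 - σ)) ^ 2 + τ ^ 2) - 1 ≤ 4 / W := by
      rw [div_sub_one hD.ne', div_le_div_iff₀ hD hW0]
      have h4 : 0 < 1 - σ := by linarith
      have h5 : 1 - σ ≤ 1 / 2 := by linarith
      nlinarith [sq_nonneg τ, mul_nonneg hW0.le h4.le, mul_nonneg (mul_nonneg hW0.le hW0.le) h4.le]
    have h6 : 1 / 2 * (4 / W) = 2 / W := by ring
    linarith
  have hterm : ∑ ρ ∈ Z, mx ρ * (2 * W * ((ρ : ℂ).re - σ) / (W ^ 2 + 1 + ((ρ : ℂ).im - τ) ^ 2)) ≤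
      ∑ ρ ∈ Z, (Real.log ‖(s1 - st ρ) ^ (analyticOrderNatAt xi (ρ : ℂ))‖ -
        Real.log ‖(s1 - (ρ : ℂ)) ^ (analyticOrderNatAt xi (ρ : ℂ))‖) := by
    apply Finset.sum_le_sum
    intro ρ hρ
    rw [norm_pow, norm_pow, Real.log_pow, Real.log_pow, ← mul_sub]
    apply mul_le_mul_of_nonneg_left _ (mx_nonneg _)
    have hd : 0 < (ρ : ℂ).re - σ := by
      have := hZ ρ hρ
      linarith
    have hd1 : (ρ : ℂ).re - σ ≤ 1 := by
      have := hre1 ρ
      linarith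
    rw [half_log31 (s1 - st ρ) (W + ((ρ : ℂ).re - σ)) (-((ρ : ℂ).im - τ)) (by
        rw [Complex.sub_re, hre, hst_re]; ring) (by
        rw [Complex.sub_im, him, hst_im]; ring),
      half_log31 (s1 - (ρ : ℂ)) (W - ((ρ : ℂ).re - σ)) (-((ρ : ℂ).im - τ)) (by
        rw [Complex.sub_re, hre]; ring) (by
        rw [Complex.sub_im, him]; ring)]
    have := term31 (u := -((ρ : ℂ).im - τ)) hW hd hd1
    rw [neg_sq] at this ⊢
    exact this
  rw [Finset.sum_sub_distrib] at hterm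
  have h3W : 3 / W = 1 / W + 2 / W := by ring
  rw [h3W]
  linarith

end Pool.Agent.Helper57.ED
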