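import Pool.Agent.Helper57.ED.SeC
import Pool.Agent.Helper57.ED.ZeA

/-!
# ED: explicit density of the zeros near the critical line
-/

open MeasureTheory Set Filter Topology Complex
open Pool.Agent.Helper57.Zeta Pool.Agent.Helper57.LH

namespace Pool.Agent.Helper57.ED

/-- `y_ρ = log W (Re ρ - 1/2)/(2π)`. -/
noncomputable def yy (W : ℝ) (ρ : ℂ) : ℝ := Real.log W * (ρ.re - 1 / 2) / (2 * Real.pi)

/-- bound for the second moment. -/
noncomputable def Bd (a θ K W : ℝ) : ℝ :=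
  (1 + 2 * (a / Real.log W)) / (1 - Real.exp (-(2 * a * θ))) + 15 * (1 + 2 * K) / a * (Real.log W * W ^ (2 * θ - 1))

lemma Bd_lim {a θ K : ℝ} (hθ1 : θ < 1 / 2) :
    Tendsto (Bd a θ K) atTop (𝓝 (1 / (1 - Real.exp (-(2 * a * θ))))) := by
  unfold Bd
  have h1 : Tendsto (fun W : ℝ => a / Real.log W) atTop (𝓝 0) :=
    tendsto_const_nhds.div_atTop Real.tendsto_log_atTop
  have h2 : Tendsto (fun W : ℝ => Real.log W * W ^ (2 * θ - 1)) atTop (𝓝 0) := by
    have := (isLittleO_log_rpow_atTop (show 0 < 1 - 2 * θ by linarith)).tendsto_div_nhds_zero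
    refine this.congr' ?_
    filter_upwards [eventually_gt_atTop 0] with W hW
    rw [show 2 * θ - 1 = -(1 - 2 * θ) by ring, Real.rpow_neg hW.le, div_eq_mul_inv]
  have h3 := (((h1.const_mul 2).const_add 1).div_const (1 - Real.exp (-(2 * a * θ)))).add
    (h2.const_mul (15 * (1 + 2 * K) / a))
  simpa using h3

lemma secmom_Bd {a θ K : ℝ} (ha : 0 < a) (hθ : 0 < θ) (hK : 0 ≤ K) :
    ∀ᶠ W : ℝ in atTop, ∃ X : ℕ, ∃ b : ℕ → ℝ, 1 ≤ X ∧ b 1 = 1 ∧ (∀ h, |b h| ≤ 1) ∧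
      ∀ τ R : ℝ, |τ| ≤ K * W → 0 < R →
      ∫ t in (-R)..R, PW W (t - τ) * ‖riemannZeta ((1 / 2 + a / Real.log W : ℝ) + t * I) *
        Mo X b ((1 / 2 + a / Real.log W : ℝ) + t * I)‖ ^ 2 ≤ Bd a θ K W := by
  have hl := Real.tendsto_log_atTop
  have h1 : ∀ᶠ W : ℝ in atTop, 4 * a ≤ Real.log W := hl.eventually_ge_atTop _
  filter_upwards [h1, eventually_ge_atTop 4, hl.eventually_ge_atTop 1] with W hW1 hW4 hL1
  set L := Real.log W with hL
  have hL0 : 0 < L := by linarith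
  set σ : ℝ := 1 / 2 + a / L with hσd
  have haL : 0 < a / L := by positivity
  have haL2 : a / L ≤ 1 / 4 := by
    rw [div_le_iff₀ hL0]; linarith
  have hσ : 1 / 2 < σ := by linarith
  have hσ1 : σ ≤ 3 / 4 := by linarith
  have hW0 : 0 < W := by linarith
  have hWθ : 1 ≤ W ^ θ := Real.one_le_rpow (by linarith) hθ.le
  set X := ⌊W ^ θ⌋₊ with hX
  have hX1 : 1 ≤ X := Nat.le_floor (by exact_mod_cast hWθ)
  have hXle : (X : ℝ) ≤ W ^ θ := Nat.floor_le (by linarith)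
  have hXge : W ^ θ ≤ (X : ℝ) + 1 := (Nat.lt_floor_add_one _).le
  obtain ⟨b, hb1, hb, hB⟩ := secmom_fin hX1 hσ hσ1
  refine ⟨X, b, hX1, hb1, hb, fun τ R hτ hR => ?_⟩
  have hlW : 1 ≤ W - σ := by linarith
  have h2 := hB (W - σ) τ R hlW hR
  rw [sub_add_cancel] at h2
  refine h2.trans ?_
  unfold Bd
  rw [← hL]
  have hs' : 2 * σ - 1 = 2 * (a / L) := by rw [hσd]; ring
  apply add_le_add
  · rw [hs', show 2 * σ = 1 + 2 * (a / L) by rw [hσd]; ring]
    have e1 : ((X : ℝ) + 1) ^ (-(2 * (a / L))) ≤ Real.exp (-(2 * a * θ)) := by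
      calc ((X : ℝ) + 1) ^ (-(2 * (a / L))) ≤ (W ^ θ) ^ (-(2 * (a / L))) :=
            Real.rpow_le_rpow_of_nonpos (by positivity) hXge (by linarith)
        _ = W ^ (θ * (-(2 * (a / L)))) := (Real.rpow_mul hW0.le _ _).symm
        _ = Real.exp (-(2 * a * θ)) := by
            rw [Real.rpow_def_of_pos hW0, ← hL]
            congr 1
            field_simp
    have e2 : Real.exp (-(2 * a * θ)) < 1 := by
      rw [Real.exp_lt_one_iff]
      have : 0 < 2 * a * θ := by positivity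
      linarith
    apply div_le_div_of_nonneg_left (by positivity) (by linarith) (by linarith)
  · have hW2 : W / 2 ≤ W - σ := by linarith
    have hl0 : 0 < W - σ := by linarith
    have e3 : |τ| / (W - σ) ≤ 2 * K := by
      rw [div_le_iff₀ hl0]
      calc |τ| ≤ K * W := hτ
        _ = 2 * K * (W / 2) := by ring
        _ ≤ 2 * K * (W - σ) := by gcongr
    have e4 : (X : ℝ) ^ 2 ≤ W ^ (2 * θ) := by
      calc (X : ℝ) ^ 2 ≤ (W ^ θ) ^ 2 := by gcongr
        _ = W ^ (2 * θ) := by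
          rw [← Real.rpow_natCast, ← Real.rpow_mul hW0.le]
          congr 1
          push_cast
          ring
    have e5 : W ^ (2 * θ) = W ^ (2 * θ - 1) * W := by
      rw [← Real.rpow_add_one hW0.ne']
      congr 1
      ring
    rw [hs']
    calc (X : ℝ) ^ 2 * (15 * (1 + |τ| / (W - σ)) / ((W - σ) * (2 * (a / L))))
        ≤ W ^ (2 * θ) * (15 * (1 + 2 * K) / ((W / 2) * (2 * (a / L)))) := by
          gcongr
      _ = _ := by
          rw [e5]
          field_simp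

/-- from `zeros_le` to the normalised weights. -/
lemma zeros_weigh {a W τ B : ℝ} (ha : 0 < a) (hW1 : 4 * a ≤ Real.log W) (hL1 : 1 ≤ Real.log W) (hW10 : 10 ≤ W)
    {X : ℕ} {b : ℕ → ℝ} (hX1 : 1 ≤ X) (hb1 : b 1 = 1) (hb : ∀ h, |b h| ≤ 1)
    (hB : ∀ R : ℝ, 0 < R → ∫ t in (-R)..R, PW W (t - τ) * ‖riemannZeta ((1 / 2 + a / Real.log W : ℝ) + t * I) *
        Mo X b ((1 / 2 + a / Real.log W : ℝ) + t * I)‖ ^ 2 ≤ B) (Z : Finset ZS) :
      ∑ ρ ∈ Z, mx ρ * (2 * Real.pi / Real.log W * PW W ((ρ : ℂ).im - τ)) * max 0 (yy W ρ - a / (2 * Real.pi)) ≤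
        (1 + 1 / W ^ 2) / (2 * Real.pi) * (1 / 2 * Real.log B + 3 / W) := by
  set L := Real.log W with hL
  have hL0 : 0 < L := by linarith
  have hW0 : 0 < W := by linarith
  have hpi := Real.pi_pos
  set σ : ℝ := 1 / 2 + a / L with hσd
  have haL : 0 < a / L := by positivity
  have haL2 : a / L ≤ 1 / 4 := by
    rw [div_le_iff₀ hL0]; linarith
  classical
  set Z' : Finset ZS := Z.filter (fun ρ : ZS => σ < (ρ : ℂ).re) with hZ'
  have h2 := zeros_le hX1 hb1 hb (by linarith : 1 / 2 ≤ σ) (by linarith : σ < 1) hW10 hB Z'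
    (fun ρ hρ => (Finset.mem_filter.mp hρ).2)
  have h3 : ∑ ρ ∈ Z, mx ρ * (2 * Real.pi / L * PW W ((ρ : ℂ).im - τ)) * max 0 (yy W ρ - a / (2 * Real.pi)) ≤
      ∑ ρ ∈ Z', (1 + 1 / W ^ 2) / (2 * Real.pi) *
        (mx ρ * (2 * W * ((ρ : ℂ).re - σ) / (W ^ 2 + 1 + ((ρ : ℂ).im - τ) ^ 2))) := by
    rw [hZ', Finset.sum_filter]
    refine Finset.sum_le_sum fun ρ _ => ?_
    have hm := mx_nonneg (ρ : ℂ)
    have e1 : yy W ρ - a / (2 * Real.pi) = L / (2 * Real.pi) * ((ρ : ℂ).re - σ) := by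
      unfold yy
      rw [← hL, hσd]
      field_simp
      ring
    rw [e1]
    by_cases hρ : σ < (ρ : ℂ).re
    · rw [if_pos hρ]
      have hd : 0 < (ρ : ℂ).re - σ := by linarith
      rw [max_eq_right (by positivity)]
      set u := (ρ : ℂ).im - τ
      set d := (ρ : ℂ).re - σ
      unfold PW
      have e2 : mx ρ * (2 * Real.pi / L * (W / (Real.pi * (W ^ 2 + u ^ 2)))) * (L / (2 * Real.pi) * d) =
          mx ρ * (W * d / Real.pi) * (1 / (W ^ 2 + u ^ 2)) := by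
        field_simp
      have e3 : (1 + 1 / W ^ 2) / (2 * Real.pi) * (mx ρ * (2 * W * d / (W ^ 2 + 1 + u ^ 2))) =
          mx ρ * (W * d / Real.pi) * ((1 + 1 / W ^ 2) / (W ^ 2 + 1 + u ^ 2)) := by
        field_simp
      rw [e2, e3]
      apply mul_le_mul_of_nonneg_left _ (by positivity)
      rw [div_le_div_iff₀ (by positivity) (by positivity)]
      have e4 : 1 ≤ 1 / W ^ 2 * (W ^ 2 + u ^ 2) := by
        rw [mul_add, one_div, inv_mul_cancel₀ (by positivity)]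
        have : 0 ≤ (W ^ 2)⁻¹ * u ^ 2 := by positivity
        linarith
      linarith
    · rw [if_neg hρ, max_eq_left, mul_zero]
      have : (ρ : ℂ).re - σ ≤ 0 := by linarith
      exact mul_nonpos_of_nonneg_of_nonpos (by positivity) this
  refine h3.trans ?_
  rw [← Finset.mul_sum]
  exact mul_le_mul_of_nonneg_left h2 (by positivity)

/-- one level: zeros to the right of `1/2 + a/log W`. -/
lemma zeros_Bd {a θ K : ℝ} (ha : 0 < a) (hθ : 0 < θ) (hK : 0 ≤ K) :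
    ∀ᶠ W : ℝ in atTop, ∀ τ : ℝ, |τ| ≤ K * W → ∀ Z : Finset ZS,
      ∑ ρ ∈ Z, mx ρ * (2 * Real.pi / Real.log W * PW W ((ρ : ℂ).im - τ)) * max 0 (yy W ρ - a / (2 * Real.pi)) ≤
        (1 + 1 / W ^ 2) / (2 * Real.pi) * (1 / 2 * Real.log (Bd a θ K W) + 3 / W) := by
  have hl := Real.tendsto_log_atTop
  have h1 : ∀ᶠ W : ℝ in atTop, 4 * a ≤ Real.log W := hl.eventually_ge_atTop _
  filter_upwards [secmom_Bd ha hθ hK, h1, hl.eventually_ge_atTop 1, eventually_ge_atTop 10] with W hW hW1 hL1 hW10 τ hτ Z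
  obtain ⟨X, b, hX1, hb1, hb, hB⟩ := hW
  exact zeros_weigh ha hW1 hL1 hW10 hX1 hb1 hb (fun R hR => hB τ R hτ hR) Z

/-- **ED**: for all large `W` and all `|τ| ≤ K W`: the mean of `(y_ρ - y₀)₊` over the zeros, with the weight
`(2π/log W) P_W(γ - τ)`, is at most `(1/4π) log(1/(1 - e^{-2πy₀})) + ε`. -/
theorem ed_main {y0 K ε : ℝ} (hy0 : 0 < y0) (hK : 0 ≤ K) (hε : 0 < ε) :
    ∀ᶠ W : ℝ in atTop, ∀ τ : ℝ, |τ| ≤ K * W → ∀ Z : Finset ZS,
      ∑ ρ ∈ Z, mx ρ * (2 * Real.pi / Real.log W * PW W ((ρ : ℂ).im - τ)) * max 0 (yy W ρ - y0) ≤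
        1 / (4 * Real.pi) * Real.log (1 / (1 - Real.exp (-(2 * Real.pi * y0)))) + ε := by
  have hpi := Real.pi_pos
  set a : ℝ := 2 * Real.pi * y0 with had
  have ha : 0 < a := by positivity
  have hEpos : 0 < 1 - Real.exp (-a) := by
    have : Real.exp (-a) < 1 := by rw [Real.exp_lt_one_iff]; linarith
    linarith
  -- choose θ
  have hcont : Tendsto (fun θ : ℝ => 1 / (4 * Real.pi) * Real.log (1 / (1 - Real.exp (-(2 * a * θ)))))
      (𝓝[<] (1 / 2 : ℝ)) (𝓝 (1 / (4 * Real.pi) * Real.log (1 / (1 - Real.exp (-a))))) := by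
    apply Tendsto.mono_left _ nhdsWithin_le_nhds
    have h1 : ContinuousAt (fun θ : ℝ => 1 - Real.exp (-(2 * a * θ))) (1 / 2) := by fun_prop
    have h2 : 1 - Real.exp (-(2 * a * (1 / 2))) = 1 - Real.exp (-a) := by
      rw [show 2 * a * (1 / 2) = a by ring]
    have h3 : ContinuousAt (fun θ : ℝ => 1 / (4 * Real.pi) * Real.log (1 / (1 - Real.exp (-(2 * a * θ))))) (1 / 2) := by
      apply ContinuousAt.mul continuousAt_const
      apply ContinuousAt.log
      · apply ContinuousAt.div continuousAt_const h1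
        rw [h2]; exact hEpos.ne'
      · rw [h2]
        positivity
    have h4 := h3.tendsto
    simp only [h2] at h4
    exact h4
  obtain ⟨θ, hθ1, hθ2, hθ0⟩ : ∃ θ : ℝ, 1 / (4 * Real.pi) * Real.log (1 / (1 - Real.exp (-(2 * a * θ)))) <
      1 / (4 * Real.pi) * Real.log (1 / (1 - Real.exp (-a))) + ε / 2 ∧ θ < 1 / 2 ∧ 0 < θ := by
    have h1 := hcont.eventually (gt_mem_nhds (show 1 / (4 * Real.pi) * Real.log (1 / (1 - Real.exp (-a))) <
      1 / (4 * Real.pi) * Real.log (1 / (1 - Real.exp (-a))) + ε / 2 by linarith))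
    have h2 : ∀ᶠ θ : ℝ in 𝓝[<] (1 / 2 : ℝ), θ < 1 / 2 := eventually_mem_nhdsWithin
    have h3 : ∀ᶠ θ : ℝ in 𝓝[<] (1 / 2 : ℝ), 0 < θ :=
      (eventually_gt_nhds (by norm_num : (0:ℝ) < 1 / 2)).filter_mono nhdsWithin_le_nhds
    obtain ⟨θ, h⟩ := (h1.and (h2.and h3)).exists
    exact ⟨θ, h.1, h.2.1, h.2.2⟩
  have hEθ : 0 < 1 - Real.exp (-(2 * a * θ)) := by
    have : Real.exp (-(2 * a * θ)) < 1 := by
      rw [Real.exp_lt_one_iff]
      have : 0 < 2 * a * θ := by positivity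
      linarith
    linarith
  have hlim : Tendsto (fun W : ℝ => (1 + 1 / W ^ 2) / (2 * Real.pi) * (1 / 2 * Real.log (Bd a θ K W) + 3 / W)) atTop
      (𝓝 ((1 + 0) / (2 * Real.pi) * (1 / 2 * Real.log (1 / (1 - Real.exp (-(2 * a * θ)))) + 0))) := by
    have h1 : Tendsto (fun W : ℝ => 1 / W ^ 2) atTop (𝓝 0) :=
      tendsto_const_nhds.div_atTop (tendsto_pow_atTop (by norm_num))
    have h2 : Tendsto (fun W : ℝ => 3 / W) atTop (𝓝 0) := tendsto_const_nhds.div_atTop tendsto_id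
    have h3 : Tendsto (fun W : ℝ => Real.log (Bd a θ K W)) atTop (𝓝 (Real.log (1 / (1 - Real.exp (-(2 * a * θ)))))) :=
      (Real.continuousAt_log (by positivity)).tendsto.comp (Bd_lim hθ2)
    exact ((h1.const_add 1).div_const _).mul ((h3.const_mul _).add h2)
  have h4 : (1 + 0) / (2 * Real.pi) * (1 / 2 * Real.log (1 / (1 - Real.exp (-(2 * a * θ)))) + 0) <
      1 / (4 * Real.pi) * Real.log (1 / (1 - Real.exp (-a))) + ε := by
    have : (1 + 0) / (2 * Real.pi) * (1 / 2 * Real.log (1 / (1 - Real.exp (-(2 * a * θ)))) + 0) =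
        1 / (4 * Real.pi) * Real.log (1 / (1 - Real.exp (-(2 * a * θ)))) := by
      field_simp
      ring
    rw [this]
    linarith
  filter_upwards [zeros_Bd ha hθ0 hK, hlim.eventually (gt_mem_nhds h4)] with W hW1 hW2 τ hτ Z
  have h5 := hW1 τ hτ Z
  have h6 : a / (2 * Real.pi) = y0 := by rw [had]; field_simp
  rw [h6] at h5
  exact h5.trans hW2.le

end Pool.Agent.Helper57.ED
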