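import Pool.Agent.Helper57.ED.Def

/-!
# ED-APA: sum of a smooth function over a residue class

`∑_{n ≡ c, r < n ≤ N} f(n) = ∑_n ∫_r^n f'(t) dt = ∫_r^N f'(t) #{n ≡ c : t ≤ n ≤ N} dt` (for `n > r`),
`∫_r^N f = ∫_r^N f'(t) (N - t) dt` (by parts, `f(r) = 0`), and `|#{n ∈ (r, N], n ≡ c, t ≤ n} - (N-t)/P| ≤ 1` for `r < t ≤ N`
(`Nat.count_modEq_card` or direct).
-/

open MeasureTheory Set Filter Topology

namespace Pool.Agent.Helper57.ED

private theorem cnt77 {a N P c : ℕ} (hP : 1 ≤ P) (haN : a ≤ N) :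
    ((((Finset.Ioc a N).filter (fun x => x ≡ c [MOD P])).card : ℤ) * P ≤ N - a + P - 1) ∧
    ((N : ℤ) - a ≤ (((Finset.Ioc a N).filter (fun x => x ≡ c [MOD P])).card : ℤ) * P + P - 1) := by
  have hP0 : 0 < P := hP
  have h := Nat.Ioc_filter_modEq_card a N hP0 c
  set n := ((Finset.Ioc a N).filter (fun x => x ≡ c [MOD P])).card with hn
  have hPq : (0:ℚ) < (P:ℚ) := by exact_mod_cast hP0
  set q1 := ⌊((N:ℚ) - (c:ℚ)) / (P:ℚ)⌋ with hq1
  set q2 := ⌊((a:ℚ) - (c:ℚ)) / (P:ℚ)⌋ with hq2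
  have h12 : q2 ≤ q1 := by
    apply Int.floor_le_floor
    have : (a:ℚ) ≤ (N:ℚ) := by exact_mod_cast haN
    gcongr
  have h' : (n:ℤ) = q1 - q2 := by
    rw [h, max_eq_left]; omega
  have a1 : q1 * P ≤ (N:ℤ) - c := by
    have := Int.floor_le (((N:ℚ) - (c:ℚ)) / (P:ℚ))
    rw [← hq1, le_div_iff₀ hPq] at this
    exact_mod_cast this
  have a2 : (N:ℤ) - c < (q1 + 1) * P := by
    have := Int.lt_floor_add_one (((N:ℚ) - (c:ℚ)) / (P:ℚ))
    rw [← hq1, div_lt_iff₀ hPq] at this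
    exact_mod_cast this
  have b1 : q2 * P ≤ (a:ℤ) - c := by
    have := Int.floor_le (((a:ℚ) - (c:ℚ)) / (P:ℚ))
    rw [← hq2, le_div_iff₀ hPq] at this
    exact_mod_cast this
  have b2 : (a:ℤ) - c < (q2 + 1) * P := by
    have := Int.lt_floor_add_one (((a:ℚ) - (c:ℚ)) / (P:ℚ))
    rw [← hq2, div_lt_iff₀ hPq] at this
    exact_mod_cast this
  rw [h']
  have e1 : (q1 - q2) * (P:ℤ) = q1 * P - q2 * P := by ring
  have e2 : (q1 + 1) * (P:ℤ) = q1 * P + P := by ring
  have e3 : (q2 + 1) * (P:ℤ) = q2 * P + P := by ring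
  rw [e1]; rw [e2] at a2; rw [e3] at b2
  constructor <;> omega

private theorem cntR77 {r N P c : ℕ} (hP : 1 ≤ P) {t : ℝ} (ht : (r:ℝ) < t) (htN : t ≤ N) :
    |(∑ x ∈ (Finset.Ioc r N).filter (fun x => x ≡ c [MOD P]), (if t ≤ (x:ℝ) then (1:ℝ) else 0))
      - (N - t) / P| ≤ 1 := by
  have hP0 : (0:ℝ) < (P:ℝ) := by exact_mod_cast hP
  have hP1 : (1:ℝ) ≤ (P:ℝ) := by exact_mod_cast hP
  have ht0 : 0 < t := lt_of_le_of_lt (Nat.cast_nonneg r) ht
  obtain ⟨a, ha⟩ : ∃ a : ℕ, ⌈t⌉₊ = a + 1 := by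
    have : 0 < ⌈t⌉₊ := Nat.ceil_pos.mpr ht0
    exact ⟨⌈t⌉₊ - 1, by omega⟩
  have hra : r ≤ a := by
    have : r < ⌈t⌉₊ := Nat.lt_ceil.mpr ht
    omega
  have haN : a + 1 ≤ N := by rw [← ha]; exact Nat.ceil_le.mpr htN
  have hta : t ≤ a + 1 := by
    have := Nat.le_ceil t
    rw [ha] at this; push_cast at this; exact this
  have hat : (a:ℝ) < t := by
    have : a < ⌈t⌉₊ := by omega
    exact Nat.lt_ceil.mp this
  have hsum : (∑ x ∈ (Finset.Ioc r N).filter (fun x => x ≡ c [MOD P]), (if t ≤ (x:ℝ) then (1:ℝ) else 0))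
      = (((Finset.Ioc a N).filter (fun x => x ≡ c [MOD P])).card : ℝ) := by
    rw [← Finset.sum_filter, Finset.sum_const, nsmul_eq_mul, mul_one]
    congr 2
    ext x
    simp only [Finset.mem_filter, Finset.mem_Ioc]
    constructor
    · rintro ⟨⟨⟨h1, h2⟩, h3⟩, h4⟩
      have : a < x := by
        have h5 : (a:ℝ) < (x:ℝ) := lt_of_lt_of_le hat h4
        exact_mod_cast h5
      exact ⟨⟨this, h2⟩, h3⟩
    · rintro ⟨⟨h1, h2⟩, h3⟩
      refine ⟨⟨⟨lt_of_le_of_lt hra h1, h2⟩, h3⟩, ?_⟩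
      have : ((a + 1 : ℕ):ℝ) ≤ (x:ℝ) := by exact_mod_cast h1
      push_cast at this
      linarith
  rw [hsum]
  obtain ⟨h1, h2⟩ := cnt77 (c := c) hP (by omega : a ≤ N)
  set n := ((Finset.Ioc a N).filter (fun x => x ≡ c [MOD P])).card with hn
  have h1' : (n:ℝ) * P ≤ N - a + P - 1 := by exact_mod_cast h1
  have h2' : (N:ℝ) - a ≤ n * P + P - 1 := by exact_mod_cast h2
  rw [abs_le]
  constructor
  · have : (N - t) / P ≤ n + 1 := by
      rw [div_le_iff₀ hP0]; nlinarith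
    linarith
  · have : (n:ℝ) - 1 ≤ (N - t) / P := by
      rw [le_div_iff₀ hP0]; nlinarith
    linarith

theorem ap_disc {f f' : ℝ → ℝ} {r N P c : ℕ} (hP : 1 ≤ P) (hrN : r ≤ N) (hf0 : f r = 0)
    (hfc : ContinuousOn f (Icc (r:ℝ) N)) (hfd : ∀ x ∈ Ioo (r:ℝ) N, HasDerivAt f (f' x) x)
    (hfi : IntervalIntegrable f' volume r N) :
    |∑ x ∈ (Finset.Ioc r N).filter (fun x => x ≡ c [MOD P]), f x - (∫ x in (r:ℝ)..N, f x) / P| ≤
      ∫ x in (r:ℝ)..N, |f' x| := by
  have hrN' : (r:ℝ) ≤ N := by exact_mod_cast hrN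
  have hP0 : (0:ℝ) < (P:ℝ) := by exact_mod_cast hP
  set S := (Finset.Ioc r N).filter (fun x => x ≡ c [MOD P]) with hS
  -- f x as an integral
  have hmem : ∀ x ∈ S, (r:ℝ) < x ∧ (x:ℝ) ≤ N := by
    intro x hx
    rw [hS, Finset.mem_filter, Finset.mem_Ioc] at hx
    exact ⟨by exact_mod_cast hx.1.1, by exact_mod_cast hx.1.2⟩
  have hind : ∀ x ∈ S, IntervalIntegrable (fun t => (if t ≤ (x:ℝ) then (1:ℝ) else 0) * f' t) volume r N := by
    intro x hx
    have : (fun t => (if t ≤ (x:ℝ) then (1:ℝ) else 0) * f' t) = Set.indicator (Set.Iic (x:ℝ)) f' := by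
      ext t
      simp only [Set.indicator, Set.mem_Iic]
      split_ifs <;> simp
    rw [this, intervalIntegrable_iff]
    exact (intervalIntegrable_iff.mp hfi).indicator measurableSet_Iic
  have hfx : ∀ x ∈ S, f x = ∫ t in (r:ℝ)..N, (if t ≤ (x:ℝ) then (1:ℝ) else 0) * f' t := by
    intro x hx
    obtain ⟨h1, h2⟩ := hmem x hx
    have hi1 : IntervalIntegrable f' volume r x :=
      hfi.mono_set (by rw [uIcc_of_le h1.le, uIcc_of_le hrN']; exact Icc_subset_Icc le_rfl h2)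
    have e1 : ∫ t in (r:ℝ)..x, f' t = f x - f r :=
      intervalIntegral.integral_eq_sub_of_hasDerivAt_of_le h1.le
        (hfc.mono (Icc_subset_Icc le_rfl h2)) (fun y hy => hfd y ⟨hy.1, lt_of_lt_of_le hy.2 h2⟩) hi1
    have hi2 := hind x hx
    have hi2a : IntervalIntegrable (fun t => (if t ≤ (x:ℝ) then (1:ℝ) else 0) * f' t) volume r x :=
      hi2.mono_set (by rw [uIcc_of_le h1.le, uIcc_of_le hrN']; exact Icc_subset_Icc le_rfl h2)
    have hi2b : IntervalIntegrable (fun t => (if t ≤ (x:ℝ) then (1:ℝ) else 0) * f' t) volume x N :=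
      hi2.mono_set (by rw [uIcc_of_le h2, uIcc_of_le hrN']; exact Icc_subset_Icc h1.le le_rfl)
    rw [← intervalIntegral.integral_add_adjacent_intervals hi2a hi2b]
    have e2 : ∫ t in (r:ℝ)..x, (if t ≤ (x:ℝ) then (1:ℝ) else 0) * f' t = ∫ t in (r:ℝ)..x, f' t := by
      apply intervalIntegral.integral_congr
      intro t ht
      rw [uIcc_of_le h1.le] at ht
      simp only
      rw [if_pos ht.2, one_mul]
    have e3 : ∫ t in (x:ℝ)..N, (if t ≤ (x:ℝ) then (1:ℝ) else 0) * f' t = 0 := by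
      rw [intervalIntegral.integral_of_le h2]
      have : ∫ t in Ioc (x:ℝ) N, (if t ≤ (x:ℝ) then (1:ℝ) else 0) * f' t = ∫ t in Ioc (x:ℝ) N, (0:ℝ) := by
        apply setIntegral_congr_fun measurableSet_Ioc
        intro t ht
        simp only
        rw [if_neg (not_le.mpr ht.1), zero_mul]
      rw [this]; simp
    rw [e2, e3, e1, hf0]; ring
  have hsum : ∑ x ∈ S, f x = ∫ t in (r:ℝ)..N, (∑ x ∈ S, (if t ≤ (x:ℝ) then (1:ℝ) else 0)) * f' t := by
    rw [Finset.sum_congr rfl hfx, ← intervalIntegral.integral_finsetSum hind]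
    apply intervalIntegral.integral_congr
    intro t _
    simp only
    rw [Finset.sum_mul]
  -- integration by parts
  have hfi1 : IntervalIntegrable (fun t => f' t * (t - N)) volume r N :=
    hfi.mul_continuousOn (by fun_prop)
  have hfI : IntervalIntegrable f volume r N := by
    apply ContinuousOn.intervalIntegrable
    rw [uIcc_of_le hrN']; exact hfc
  have hparts : ∫ t in (r:ℝ)..N, (f' t * (t - N) + f t) = 0 := by
    have := intervalIntegral.integral_eq_sub_of_hasDerivAt_of_le hrN'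
      (f := fun t => f t * (t - N)) (f' := fun t => f' t * (t - N) + f t)
      (hfc.mul (by fun_prop))
      (fun y hy => by
        have h1 := (hfd y hy).mul ((hasDerivAt_id y).sub_const (N:ℝ))
        have h2 : (f' y * (id y - (N:ℝ)) + f y * 1) = f' y * (y - N) + f y := by simp
        rw [h2] at h1
        exact h1)
      (hfi1.add hfI)
    rw [this, hf0]; simp
  have hint : (∫ t in (r:ℝ)..N, f t) = ∫ t in (r:ℝ)..N, (N - t) * f' t := by
    rw [intervalIntegral.integral_add hfi1 hfI] at hparts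
    have : ∫ t in (r:ℝ)..N, (N - t) * f' t = - ∫ t in (r:ℝ)..N, f' t * (t - N) := by
      rw [← intervalIntegral.integral_neg]
      apply intervalIntegral.integral_congr
      intro t _
      simp only
      ring
    rw [this]; linarith
  have hsumi : IntervalIntegrable (fun t => (∑ x ∈ S, (if t ≤ (x:ℝ) then (1:ℝ) else 0)) * f' t) volume r N := by
    have : (fun t => (∑ x ∈ S, (if t ≤ (x:ℝ) then (1:ℝ) else 0)) * f' t)
        = fun t => ∑ x ∈ S, (if t ≤ (x:ℝ) then (1:ℝ) else 0) * f' t := by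
      ext t; rw [Finset.sum_mul]
    rw [this]
    have := IntervalIntegrable.sum S hind
    have e : (fun t => ∑ x ∈ S, (if t ≤ (x:ℝ) then (1:ℝ) else 0) * f' t)
        = ∑ x ∈ S, fun t => (if t ≤ (x:ℝ) then (1:ℝ) else 0) * f' t := by
      funext t; simp [Finset.sum_apply]
    rw [e]; exact this
  have hfi2 : IntervalIntegrable (fun t => (N - t) * f' t) volume r N :=
    hfi.continuousOn_mul (by fun_prop)
  have hdiff : ∑ x ∈ S, f x - (∫ x in (r:ℝ)..N, f x) / P
      = ∫ t in (r:ℝ)..N, ((∑ x ∈ S, (if t ≤ (x:ℝ) then (1:ℝ) else 0)) - (N - t) / P) * f' t := by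
    rw [hsum, hint, ← intervalIntegral.integral_div, ← intervalIntegral.integral_sub hsumi (hfi2.div_const _)]
    apply intervalIntegral.integral_congr
    intro t _
    simp only
    ring
  rw [hdiff]
  refine (intervalIntegral.abs_integral_le_integral_abs hrN').trans ?_
  have hi3 : IntervalIntegrable (fun t => ((∑ x ∈ S, (if t ≤ (x:ℝ) then (1:ℝ) else 0)) - (N - t) / P) * f' t) volume r N := by
    have := hsumi.sub (hfi2.div_const (P:ℝ))
    refine this.congr ?_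
    intro t _
    simp only
    ring
  apply intervalIntegral.integral_mono_on_of_le_Ioo hrN' hi3.abs hfi.abs
  intro t ht
  rw [abs_mul]
  have := cntR77 (c := c) hP ht.1 ht.2.le
  exact mul_le_of_le_one_left (abs_nonneg _) this

end Pool.Agent.Helper57.ED
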