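import Pool.Agent.Helper57.ED.ApA

/-!
# ED-APB: `ap_disc` for `q_r`

`w = 1 - r/x`, `q = w^l cos(τ log w) x^{-2σ}`,
`q' = (l w^{l-1} cos(τ log w) - τ w^{l-1} sin(τ log w)) (r/x²) x^{-2σ} - 2σ w^l cos(τ log w) x^{-2σ-1}`. With `v = r/x`:
`∫_r^∞ |q'| ≤ r^{-2σ} [(l + |τ|) ∫_0^1 (1-v)^{l-1} v^{2σ} dv + 2σ ∫_0^1 (1-v)^l v^{2σ-1} dv]`, `v^{2σ} ≤ v`,
`∫_0^1 (1-v)^{l-1} v dv = 1/(l(l+1))`, `∫ (1-v)^l = 1/(l+1)`: total `≤ r^{-2σ} (1 + |τ|/l + 2σ)/(l+1)`.
In place of the change of variables: on `[r, N]`, `x^{-2σ} ≤ r^{-2σ} (r/x)` and `x^{-2σ-1} ≤ r^{-2σ} (r/x²)`, and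
`d/dx [w^l/l - w^{l+1}/(l+1)] = w^{l-1} (1-w) r/x² = w^{l-1} (r/x)(r/x²)`, `d/dx [w^{l+1}/(l+1)] = w^l r/x²`.
-/

open MeasureTheory Set Filter Topology

namespace Pool.Agent.Helper57.ED

private lemma bern99 {l w : ℝ} (hl : 1 ≤ l) (hw0 : 0 ≤ w) :
    w ^ l * (1 + l * (1 - w)) ≤ 1 := by
  rcases hw0.eq_or_lt with h | h
  · rw [← h, Real.zero_rpow (by linarith)]
    norm_num
  · have h1 : 1 + l * (1 / w - 1) ≤ (1 + (1 / w - 1)) ^ l := by
      refine one_add_mul_self_le_rpow_one_add ?_ hl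
      have : 0 < 1 / w := by positivity
      linarith
    have h2 : 1 + (1 / w - 1) = w⁻¹ := by
      rw [one_div]
      ring
    rw [h2, Real.inv_rpow h.le] at h1
    have h3 : 1 - w ≤ 1 / w - 1 := by
      rw [one_div]
      have h4 : 0 ≤ (w - 1) ^ 2 / w := by positivity
      have h5 : (w - 1) ^ 2 / w = w - 2 + w⁻¹ := by
        field_simp
        ring
      linarith
    have h6 : 1 + l * (1 - w) ≤ (w ^ l)⁻¹ := by
      have : l * (1 - w) ≤ l * (1 / w - 1) := mul_le_mul_of_nonneg_left h3 (by linarith)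
      linarith
    have h7 : 0 < w ^ l := Real.rpow_pos_of_pos h l
    calc w ^ l * (1 + l * (1 - w)) ≤ w ^ l * (w ^ l)⁻¹ := mul_le_mul_of_nonneg_left h6 h7.le
      _ = 1 := mul_inv_cancel₀ h7.ne'

private noncomputable def qd99 (l τ σ r x : ℝ) : ℝ :=
  (l * (1 - r / x) ^ (l - 1) * Real.cos (τ * Real.log (1 - r / x)) -
      τ * (1 - r / x) ^ (l - 1) * Real.sin (τ * Real.log (1 - r / x))) * (r / x ^ 2) * x ^ (-2 * σ) +
    (1 - r / x) ^ l * Real.cos (τ * Real.log (1 - r / x)) * ((-2 * σ) * x ^ (-2 * σ - 1))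

private noncomputable def gb99 (l τ σ r x : ℝ) : ℝ :=
  r ^ (-2 * σ) * ((l + |τ|) * ((1 - r / x) ^ (l - 1) * (r / x) * (r / x ^ 2)) +
    2 * σ * ((1 - r / x) ^ l * (r / x ^ 2)))

private noncomputable def GG99 (l τ σ r x : ℝ) : ℝ :=
  r ^ (-2 * σ) * ((l + |τ|) * ((1 - r / x) ^ l / l - (1 - r / x) ^ (l + 1) / (l + 1)) +
    2 * σ * ((1 - r / x) ^ (l + 1) / (l + 1)))

private lemma hasDerivAt_w99 (r : ℝ) {x : ℝ} (hx : 0 < x) :
    HasDerivAt (fun y : ℝ => 1 - r / y) (r / x ^ 2) x := by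
  have h := ((hasDerivAt_inv hx.ne').const_mul r).const_sub 1
  refine (h.congr_deriv ?_)
  field_simp

private lemma w_pos99 {r x : ℝ} (hr : 0 < r) (hx : r < x) : 0 < 1 - r / x := by
  have : r / x < 1 := (div_lt_one (hr.trans hx)).2 hx
  linarith

private lemma w_nonneg99 {r x : ℝ} (hr : 0 < r) (hx : r ≤ x) : 0 ≤ 1 - r / x := by
  have : r / x ≤ 1 := (div_le_one (hr.trans_le hx)).2 hx
  linarith

private lemma hasDerivAt_qq99 {l τ σ r x : ℝ} (hr : 0 < r) (hx : r < x) :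
    HasDerivAt (qq l τ σ r) (qd99 l τ σ r x) x := by
  have hx0 : 0 < x := hr.trans hx
  have hw := w_pos99 hr hx
  have h0 := hasDerivAt_w99 r hx0
  have h1 := h0.rpow_const (p := l) (Or.inl hw.ne')
  have h2 := ((h0.log hw.ne').const_mul τ).cos
  have h3 : HasDerivAt (fun y : ℝ => y ^ (-2 * σ)) ((-2 * σ) * x ^ (-2 * σ - 1)) x :=
    Real.hasDerivAt_rpow_const (Or.inl hx0.ne')
  have h4 := (h1.mul h2).mul h3
  refine h4.congr_deriv ?_
  have h5 : (1 - r / x) ^ l = (1 - r / x) ^ (l - 1) * (1 - r / x) := by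
    rw [← Real.rpow_add_one hw.ne']
    congr 1
    ring
  unfold qd99
  simp only [Pi.mul_apply]
  rw [h5]
  have hne := hw.ne'
  generalize Real.cos (τ * Real.log (1 - r / x)) = C
  generalize Real.sin (τ * Real.log (1 - r / x)) = S
  generalize (1 - r / x) ^ (l - 1) = A
  generalize x ^ (-2 * σ) = X
  generalize x ^ (-2 * σ - 1) = Y
  have h6 : ∀ w : ℝ, w ≠ 0 → A * w * (-S * (τ * (r / x ^ 2 / w))) = -(τ * A * S) * (r / x ^ 2) := by
    intro w hw'
    have h7 : r / x ^ 2 / w = r / x ^ 2 * w⁻¹ := div_eq_mul_inv _ _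
    calc A * w * (-S * (τ * (r / x ^ 2 / w))) = -(τ * A * S) * (r / x ^ 2) * (w * w⁻¹) := by
          rw [h7]
          ring
      _ = -(τ * A * S) * (r / x ^ 2) := by rw [mul_inv_cancel₀ hw', mul_one]
  rw [h6 _ hne]
  ring

private lemma xpow99 {σ r x : ℝ} (hσ : 1 / 2 < σ) (hr : 0 < r) (hx : r ≤ x) :
    x ^ (-2 * σ) ≤ r ^ (-2 * σ) * (r / x) := by
  have hx0 : 0 < x := hr.trans_le hx
  have h1 : x ^ (-2 * σ) = r ^ (-2 * σ) * (r / x) ^ (2 * σ) := by
    rw [Real.div_rpow hr.le hx0.le, show (-2 * σ) = -(2 * σ) by ring, Real.rpow_neg hx0.le,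
      Real.rpow_neg hr.le]
    have : r ^ (2 * σ) ≠ 0 := (Real.rpow_pos_of_pos hr _).ne'
    field_simp
  rw [h1]
  refine mul_le_mul_of_nonneg_left ?_ (Real.rpow_nonneg hr.le _)
  have h2 : r / x ≤ 1 := (div_le_one hx0).2 hx
  calc (r / x) ^ (2 * σ) ≤ (r / x) ^ (1 : ℝ) :=
        Real.rpow_le_rpow_of_exponent_ge (by positivity) h2 (by linarith)
    _ = r / x := Real.rpow_one _

private lemma qd_le99 {l τ σ r x : ℝ} (hl : 1 ≤ l) (hσ : 1 / 2 < σ) (hr : 0 < r) (hx : r < x) :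
    |qd99 l τ σ r x| ≤ gb99 l τ σ r x := by
  have hx0 : 0 < x := hr.trans hx
  have hw := w_pos99 hr hx
  have hX := xpow99 hσ hr hx.le
  have hY : x ^ (-2 * σ - 1) ≤ r ^ (-2 * σ) * (r / x ^ 2) := by
    rw [Real.rpow_sub_one hx0.ne']
    calc x ^ (-2 * σ) / x ≤ (r ^ (-2 * σ) * (r / x)) / x := by gcongr
      _ = r ^ (-2 * σ) * (r / x ^ 2) := by field_simp
  have hX0 : 0 < x ^ (-2 * σ) := Real.rpow_pos_of_pos hx0 _
  have hY0 : 0 < x ^ (-2 * σ - 1) := Real.rpow_pos_of_pos hx0 _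
  have hA : 0 < (1 - r / x) ^ (l - 1) := Real.rpow_pos_of_pos hw _
  have hB : 0 < (1 - r / x) ^ l := Real.rpow_pos_of_pos hw _
  have hC := Real.abs_cos_le_one (τ * Real.log (1 - r / x))
  have hS := Real.abs_sin_le_one (τ * Real.log (1 - r / x))
  unfold qd99 gb99
  revert hX hY hX0 hY0 hA hB hC hS
  generalize Real.cos (τ * Real.log (1 - r / x)) = C
  generalize Real.sin (τ * Real.log (1 - r / x)) = S
  generalize (1 - r / x) ^ (l - 1) = A
  generalize (1 - r / x) ^ l = B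
  generalize x ^ (-2 * σ) = X
  generalize x ^ (-2 * σ - 1) = Y
  generalize r ^ (-2 * σ) = R
  intro hX hY hX0 hY0 hA hB hC hS
  have hv : 0 < r / x ^ 2 := by positivity
  have h1 : |(l * A * C - τ * A * S) * (r / x ^ 2) * X| ≤ (l + |τ|) * A * (r / x ^ 2) * (R * (r / x)) := by
    rw [abs_mul, abs_mul, abs_of_pos hv, abs_of_pos hX0]
    have h2 : |l * A * C - τ * A * S| ≤ (l + |τ|) * A := by
      calc |l * A * C - τ * A * S| ≤ |l * A * C| + |τ * A * S| := abs_sub _ _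
        _ = l * A * |C| + |τ| * A * |S| := by
            rw [abs_mul, abs_mul, abs_mul, abs_mul, abs_of_pos hA, abs_of_pos (by linarith : 0 < l)]
        _ ≤ l * A * 1 + |τ| * A * 1 := by gcongr
        _ = (l + |τ|) * A := by ring
    have h3 : 0 ≤ (l + |τ|) * A := by positivity
    gcongr
  have h4 : |B * C * ((-2 * σ) * Y)| ≤ 2 * σ * B * (R * (r / x ^ 2)) := by
    rw [abs_mul, abs_mul, abs_mul, abs_of_pos hB, abs_of_pos hY0,
      abs_of_neg (by linarith : -2 * σ < 0)]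
    have hs : 0 < σ := by linarith
    calc B * |C| * (-(-2 * σ) * Y) = 2 * σ * B * (|C| * Y) := by ring
      _ ≤ 2 * σ * B * (1 * (R * (r / x ^ 2))) := by gcongr
      _ = 2 * σ * B * (R * (r / x ^ 2)) := by ring
  calc _ ≤ |(l * A * C - τ * A * S) * (r / x ^ 2) * X| + |B * C * ((-2 * σ) * Y)| := abs_add_le _ _
    _ ≤ (l + |τ|) * A * (r / x ^ 2) * (R * (r / x)) + 2 * σ * B * (R * (r / x ^ 2)) := add_le_add h1 h4
    _ = _ := by ring

private lemma hasDerivAt_GG99 {l τ σ r x : ℝ} (hl : 1 ≤ l) (hr : 0 < r) (hx : r ≤ x) :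
    HasDerivAt (GG99 l τ σ r) (gb99 l τ σ r x) x := by
  have hx0 : 0 < x := hr.trans_le hx
  have hw := w_nonneg99 hr hx
  have h0 := hasDerivAt_w99 r hx0
  have h1 := (h0.rpow_const (p := l) (Or.inr hl)).div_const l
  have h2 := (h0.rpow_const (p := l + 1) (Or.inr (by linarith))).div_const (l + 1)
  have h3 := (((h1.sub h2).const_mul (l + |τ|)).add (h2.const_mul (2 * σ))).const_mul (r ^ (-2 * σ))
  refine h3.congr_deriv ?_
  have h5 : (1 - r / x) ^ l = (1 - r / x) ^ (l - 1) * (1 - r / x) := by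
    rw [← Real.rpow_add_one' hw (by linarith)]
    congr 1
    ring
  have h6 : (1 - r / x) ^ (l + 1 - 1) = (1 - r / x) ^ l := by
    congr 1
    ring
  unfold gb99
  rw [h6, h5]
  have hl0 : l ≠ 0 := by linarith
  have hl1 : l + 1 ≠ 0 := by linarith
  generalize (1 - r / x) ^ (l - 1) = A
  field_simp
  ring

theorem qq_disc {l τ σ : ℝ} (hl : 1 ≤ l) (hσ : 1 / 2 < σ) (hσ1 : σ ≤ 1) {r N P c : ℕ} (hr : 1 ≤ r) (hrN : r ≤ N)
    (hP : 1 ≤ P) :
    |∑ x ∈ (Finset.Ioc r N).filter (fun x => x ≡ c [MOD P]), qq l τ σ r x - Psi l τ σ N r / P| ≤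
      (3 + |τ| / l) * (r : ℝ) ^ (-2 * σ) / l := by
  have hr0 : (0:ℝ) < r := by exact_mod_cast hr
  have hrN' : (r:ℝ) ≤ N := by exact_mod_cast hrN
  have hl0 : 0 < l := by linarith
  have hf0 : qq l τ σ r r = 0 := by
    unfold qq
    rw [div_self hr0.ne', sub_self, Real.zero_rpow hl0.ne']
    simp
  have hfc : ContinuousOn (qq l τ σ r) (Icc (r:ℝ) N) := by
    intro x hx
    rcases hx.1.eq_or_lt with h | h
    · subst h
      rw [ContinuousWithinAt, hf0]
      have h1 : Tendsto (fun x : ℝ => (1 - (r:ℝ) / x) ^ l * x ^ (-2 * σ)) (𝓝[Icc (r:ℝ) N] (r:ℝ)) (𝓝 0) := by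
        have h2 : ContinuousAt (fun x : ℝ => (1 - (r:ℝ) / x) ^ l * x ^ (-2 * σ)) (r:ℝ) := by
          refine ContinuousAt.mul ?_ ?_
          · refine ContinuousAt.rpow_const ?_ (Or.inr hl0.le)
            exact (continuousAt_const.sub (continuousAt_const.div continuousAt_id hr0.ne'))
          · exact Real.continuousAt_rpow_const _ _ (Or.inl hr0.ne')
        have h3 := h2.tendsto
        simp only [div_self hr0.ne', sub_self, Real.zero_rpow hl0.ne', zero_mul] at h3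
        exact h3.mono_left nhdsWithin_le_nhds
      refine squeeze_zero_norm' ?_ h1
      filter_upwards [self_mem_nhdsWithin] with y hy
      have hy0 : 0 < y := hr0.trans_le hy.1
      have hw := w_nonneg99 hr0 hy.1
      unfold qq
      rw [Real.norm_eq_abs, abs_mul, abs_mul, abs_of_nonneg (Real.rpow_nonneg hw l),
        abs_of_pos (Real.rpow_pos_of_pos hy0 _)]
      have hC := Real.abs_cos_le_one (τ * Real.log (1 - r / y))
      have h4 : 0 ≤ (1 - (r:ℝ) / y) ^ l := Real.rpow_nonneg hw l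
      have h5 : 0 ≤ y ^ (-2 * σ) := Real.rpow_nonneg hy0.le _
      calc (1 - (r:ℝ) / y) ^ l * |Real.cos (τ * Real.log (1 - r / y))| * y ^ (-2 * σ)
          ≤ (1 - (r:ℝ) / y) ^ l * 1 * y ^ (-2 * σ) := by gcongr
        _ = _ := by ring
    · exact (hasDerivAt_qq99 hr0 h).continuousAt.continuousWithinAt
  have hgc : ContinuousOn (gb99 l τ σ r) (Icc (r:ℝ) N) := by
    have hne : ∀ x ∈ Icc (r:ℝ) N, x ≠ 0 := fun x hx => (hr0.trans_le hx.1).ne'
    have h1 : ContinuousOn (fun x : ℝ => 1 - (r:ℝ) / x) (Icc (r:ℝ) N) :=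
      continuousOn_const.sub (continuousOn_const.div continuousOn_id hne)
    have h2 : ContinuousOn (fun x : ℝ => (r:ℝ) / x) (Icc (r:ℝ) N) :=
      continuousOn_const.div continuousOn_id hne
    have h3 : ContinuousOn (fun x : ℝ => (r:ℝ) / x ^ 2) (Icc (r:ℝ) N) :=
      continuousOn_const.div (continuousOn_id.pow 2) (fun x hx => pow_ne_zero 2 (hne x hx))
    have h4 : ContinuousOn (fun x : ℝ => (1 - (r:ℝ) / x) ^ (l - 1)) (Icc (r:ℝ) N) :=
      h1.rpow_const (fun x _ => Or.inr (by linarith))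
    have h5 : ContinuousOn (fun x : ℝ => (1 - (r:ℝ) / x) ^ l) (Icc (r:ℝ) N) :=
      h1.rpow_const (fun x _ => Or.inr hl0.le)
    exact continuousOn_const.mul ((continuousOn_const.mul ((h4.mul h2).mul h3)).add
      (continuousOn_const.mul (h5.mul h3)))
  have hgi : IntervalIntegrable (gb99 l τ σ r) volume r N := by
    apply ContinuousOn.intervalIntegrable
    rwa [uIcc_of_le hrN']
  have hmeas : Measurable (qd99 l τ σ r) := by
    unfold qd99
    fun_prop
  have hfi : IntervalIntegrable (qd99 l τ σ r) volume r N := by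
    refine hgi.mono_fun hmeas.aestronglyMeasurable ?_
    rw [uIoc_of_le hrN']
    filter_upwards [ae_restrict_mem measurableSet_Ioc] with x hx
    rw [Real.norm_eq_abs, Real.norm_eq_abs]
    exact (qd_le99 hl hσ hr0 hx.1).trans (le_abs_self _)
  have h1 := ap_disc (f := qq l τ σ r) (f' := qd99 l τ σ r) (c := c) hP hrN hf0 hfc
    (fun x hx => hasDerivAt_qq99 hr0 hx.1) hfi
  have h2 : ∫ x in (r:ℝ)..N, |qd99 l τ σ r x| ≤ ∫ x in (r:ℝ)..N, gb99 l τ σ r x := by
    refine intervalIntegral.integral_mono_on_of_le_Ioo hrN' hfi.abs hgi ?_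
    intro x hx
    exact qd_le99 hl hσ hr0 hx.1
  have h3 : ∫ x in (r:ℝ)..N, gb99 l τ σ r x = GG99 l τ σ r N - GG99 l τ σ r r := by
    refine intervalIntegral.integral_eq_sub_of_hasDerivAt ?_ hgi
    intro x hx
    rw [uIcc_of_le hrN'] at hx
    exact hasDerivAt_GG99 hl hr0 hx.1
  have h4 : GG99 l τ σ r r = 0 := by
    unfold GG99
    rw [div_self hr0.ne', sub_self, Real.zero_rpow hl0.ne', Real.zero_rpow (by linarith)]
    simp
  have h5 : GG99 l τ σ r N ≤ (3 + |τ| / l) * (r : ℝ) ^ (-2 * σ) / l := by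
    unfold GG99
    have hw := w_nonneg99 hr0 hrN'
    have hw1 : 1 - (r:ℝ) / N ≤ 1 := by
      have : 0 ≤ (r:ℝ) / N := by positivity
      linarith
    have hb := bern99 hl hw
    have h6 : (1 - (r:ℝ) / N) ^ (l + 1) = (1 - (r:ℝ) / N) ^ l * (1 - (r:ℝ) / N) :=
      Real.rpow_add_one' hw (by linarith)
    have h7 : (1 - (r:ℝ) / N) ^ l ≤ 1 := Real.rpow_le_one hw hw1 hl0.le
    have h8 : 0 ≤ (1 - (r:ℝ) / N) ^ l := Real.rpow_nonneg hw l
    rw [h6]
    generalize (1 - (r:ℝ) / N) ^ l = A at hb h7 h8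
    generalize 1 - (r:ℝ) / N = w at hb hw hw1
    have hR : 0 < (r:ℝ) ^ (-2 * σ) := Real.rpow_pos_of_pos hr0 _
    have h9 : A / l - A * w / (l + 1) ≤ 1 / l ^ 2 := by
      have h10 : A / l - A * w / (l + 1) = (A * (1 + l * (1 - w))) / (l * (l + 1)) := by
        field_simp
        ring
      rw [h10, div_le_div_iff₀ (by positivity) (by positivity)]
      nlinarith
    have h11 : A * w / (l + 1) ≤ 1 / l := by
      rw [div_le_div_iff₀ (by positivity) hl0]
      have : A * w ≤ 1 := by nlinarith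
      nlinarith
    have h12 : (l + |τ|) * (A / l - A * w / (l + 1)) + 2 * σ * (A * w / (l + 1)) ≤
        (l + |τ|) * (1 / l ^ 2) + 2 * (1 / l) := by
      have h13 : 0 ≤ l + |τ| := by positivity
      have h14 : 0 ≤ A * w / (l + 1) := by positivity
      have h15 : 2 * σ * (A * w / (l + 1)) ≤ 2 * (A * w / (l + 1)) := by nlinarith
      have h16 := mul_le_mul_of_nonneg_left h9 h13
      linarith
    calc _ ≤ (r:ℝ) ^ (-2 * σ) * ((l + |τ|) * (1 / l ^ 2) + 2 * (1 / l)) :=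
          mul_le_mul_of_nonneg_left h12 hR.le
      _ = (3 + |τ| / l) * (r : ℝ) ^ (-2 * σ) / l := by
          field_simp
          ring
  have h6 : (∫ x in (r:ℝ)..N, qq l τ σ r x) = Psi l τ σ N r := rfl
  rw [h6] at h1
  linarith

end Pool.Agent.Helper57.ED
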