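import Pool.Agent.Helper57.ED.Def

/-!
# ED-BEA: `β ≥ 0`

`x^α = (1 - w)^{-α} = ∑ c_n w^n` with `w = 1 - 1/x`, `c_n ≥ 0`, `α = 2 - 2σ`, and
`∫_1^∞ w^{l+n} cos(τ log w) x^{-2} dx = (l+n+1)/((l+n+1)²+τ²) ≥ 0`.
-/

open MeasureTheory Set Filter Topology

namespace Pool.Agent.Helper57.ED

lemma bea_co {α : ℝ} (hα : 0 < α) (n : ℕ) : 0 ≤ Ring.choose (α + n - 1) n := by
  have h := Ring.factorial_nsmul_multichoose_eq_ascPochhammer α n
  have e : Ring.choose (α + n - 1) n = Ring.multichoose α n := by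
    rw [Ring.choose]
    congr 1
    ring
  rw [e]
  rw [Polynomial.ascPochhammer_smeval_eq_eval] at h
  have h2 : 0 < (ascPochhammer ℝ n).eval α := ascPochhammer_pos n α hα
  rw [← h, nsmul_eq_mul] at h2
  have h3 : (0 : ℝ) < n.factorial := by exact_mod_cast n.factorial_pos
  exact (pos_of_mul_pos_right h2 h3.le).le

lemma bea_sum {α w : ℝ} (h0 : 0 ≤ w) (h1 : w < 1) :
    HasSum (fun n : ℕ => Ring.choose (α + n - 1) n * w ^ n) (1 / (1 - w) ^ α) := by
  have h := (Real.one_div_one_sub_rpow_hasFPowerSeriesOnBall_zero α).hasSum (y := w) (by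
    rw [← ENNReal.ofReal_one, Metric.eball_ofReal]
    simp [abs_of_nonneg h0, h1])
  simpa [FormalMultilinearSeries.ofScalars_apply_eq, smul_eq_mul, mul_comm] using h

/-- the antiderivative -/
noncomputable def beaG (m τ w : ℝ) : ℝ :=
  w ^ (m + 1) * ((m + 1) * Real.cos (τ * Real.log w) + τ * Real.sin (τ * Real.log w)) /
    ((m + 1) ^ 2 + τ ^ 2)

lemma bea_deriv {m τ w : ℝ} (hm : 1 ≤ m) (hw : 0 < w) :
    HasDerivAt (beaG m τ) (w ^ m * Real.cos (τ * Real.log w)) w := by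
  have hd : (m + 1) ^ 2 + τ ^ 2 ≠ 0 := by positivity
  have h1 : HasDerivAt (fun w : ℝ => τ * Real.log w) (τ * w⁻¹) w :=
    (Real.hasDerivAt_log hw.ne').const_mul τ
  have h2 := (h1.cos.const_mul (m + 1)).add (h1.sin.const_mul τ)
  have h3 : HasDerivAt (fun w : ℝ => w ^ (m + 1)) ((m + 1) * w ^ (m + 1 - 1)) w :=
    Real.hasDerivAt_rpow_const (Or.inl hw.ne')
  have h4 := (h3.mul h2).div_const ((m + 1) ^ 2 + τ ^ 2)
  refine HasDerivAt.congr_deriv (f' := _) h4 ?_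
  have e : w ^ (m + 1) = w ^ m * w := by rw [Real.rpow_add hw, Real.rpow_one]
  rw [e, add_sub_cancel_right]
  simp only [Pi.add_apply]
  field_simp
  ring

lemma bea_cont0 {m τ : ℝ} (hm : 1 ≤ m) : ContinuousAt (beaG m τ) 0 := by
  have h0 : beaG m τ 0 = 0 := by
    unfold beaG
    rw [Real.zero_rpow (by linarith)]
    ring
  have hD : 0 < (m + 1) ^ 2 + τ ^ 2 := by positivity
  rw [ContinuousAt, h0]
  have h1 : Tendsto (fun w : ℝ => |w ^ (m + 1)| * (((m + 1) + |τ|) / ((m + 1) ^ 2 + τ ^ 2))) (𝓝 0)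
      (𝓝 0) := by
    have h2 : Tendsto (fun w : ℝ => w ^ (m + 1)) (𝓝 0) (𝓝 0) := by
      have := (Real.continuousAt_rpow_const (0 : ℝ) (m + 1) (Or.inr (by linarith))).tendsto
      rwa [Real.zero_rpow (by linarith)] at this
    simpa using h2.abs.mul_const (((m + 1) + |τ|) / ((m + 1) ^ 2 + τ ^ 2))
  refine squeeze_zero_norm (fun w => ?_) h1
  unfold beaG
  rw [Real.norm_eq_abs, abs_div, abs_mul, abs_of_pos hD, mul_div_assoc]
  refine mul_le_mul_of_nonneg_left ?_ (abs_nonneg _)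
  refine div_le_div_of_nonneg_right ?_ hD.le
  refine (abs_add_le _ _).trans ?_
  rw [abs_mul, abs_mul, abs_of_nonneg (by linarith : 0 ≤ m + 1)]
  have h5 := Real.abs_cos_le_one (τ * Real.log w)
  have h6 := Real.abs_sin_le_one (τ * Real.log w)
  have h7 := mul_le_mul_of_nonneg_left h5 (by linarith : 0 ≤ m + 1)
  have h8 := mul_le_mul_of_nonneg_left h6 (abs_nonneg τ)
  linarith

lemma bea_meas (m τ s : ℝ) : Measurable fun x : ℝ =>
    (1 - 1 / x) ^ m * Real.cos (τ * Real.log (1 - 1 / x)) * x ^ s := by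
  fun_prop

lemma bea_w {x : ℝ} (hx : 1 < x) : 0 < 1 - 1 / x ∧ 1 - 1 / x < 1 := by
  have h0 : 0 < x := by linarith
  have h1 : 0 < 1 / x := by positivity
  have h2 : 1 / x < 1 := by rw [div_lt_one h0]; exact hx
  exact ⟨by linarith, by linarith⟩

lemma bea_abs {m τ s x : ℝ} (hx : 1 < x) :
    ‖(1 - 1 / x) ^ m * Real.cos (τ * Real.log (1 - 1 / x)) * x ^ s‖ ≤ (1 - 1 / x) ^ m * x ^ s := by
  have h0 : 0 < x := by linarith
  have h1 := (bea_w hx).1
  have h2 : 0 ≤ (1 - 1 / x) ^ m := Real.rpow_nonneg h1.le m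
  have h3 : 0 ≤ x ^ s := Real.rpow_nonneg h0.le s
  rw [Real.norm_eq_abs, abs_mul, abs_mul, abs_of_nonneg h2, abs_of_nonneg h3]
  refine mul_le_mul_of_nonneg_right ?_ h3
  have := mul_le_mul_of_nonneg_left (Real.abs_cos_le_one (τ * Real.log (1 - 1 / x))) h2
  linarith

lemma bea_int {m τ : ℝ} (hm : 1 ≤ m) : IntegrableOn (fun x : ℝ =>
    (1 - 1 / x) ^ m * Real.cos (τ * Real.log (1 - 1 / x)) * x ^ (-2 : ℝ)) (Ioi 1) := by
  refine Integrable.mono' (integrableOn_Ioi_rpow_of_lt (by norm_num : (-2 : ℝ) < -1) one_pos)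
    (bea_meas m τ (-2)).aestronglyMeasurable ?_
  refine (ae_restrict_iff' measurableSet_Ioi).2 (Eventually.of_forall fun x hx => ?_)
  refine (bea_abs hx).trans ?_
  have h1 := bea_w hx
  have h2 : (1 - 1 / x) ^ m ≤ 1 := Real.rpow_le_one h1.1.le h1.2.le (by linarith)
  have h3 : 0 ≤ x ^ (-2 : ℝ) := Real.rpow_nonneg (by linarith [mem_Ioi.1 hx]) _
  nlinarith

lemma bea_term {m τ : ℝ} (hm : 1 ≤ m) :
    0 ≤ ∫ x in Ioi (1:ℝ), (1 - 1 / x) ^ m * Real.cos (τ * Real.log (1 - 1 / x)) * x ^ (-2 : ℝ) := by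
  have hcw : ∀ x : ℝ, 1 ≤ x → ContinuousAt (fun x : ℝ => 1 - 1 / x) x := by
    intro x hx
    have : x ≠ 0 := by linarith
    fun_prop (disch := assumption)
  have hcont : ContinuousWithinAt (fun x : ℝ => beaG m τ (1 - 1 / x)) (Ici 1) 1 := by
    refine ContinuousAt.continuousWithinAt ?_
    have h1 : ContinuousAt (beaG m τ) ((fun x : ℝ => 1 - 1 / x) 1) := by
      simpa using bea_cont0 hm
    exact ContinuousAt.comp (f := fun x : ℝ => 1 - 1 / x) (x := 1) h1 (hcw 1 le_rfl)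
  have hderiv : ∀ x ∈ Ioi (1 : ℝ), HasDerivAt (fun x : ℝ => beaG m τ (1 - 1 / x))
      ((1 - 1 / x) ^ m * Real.cos (τ * Real.log (1 - 1 / x)) * x ^ (-2 : ℝ)) x := by
    intro x hx
    have h0 : 0 < x := by linarith [mem_Ioi.1 hx]
    have h1 : HasDerivAt (fun x : ℝ => 1 - 1 / x) (x ^ (-2 : ℝ)) x := by
      have h2 : HasDerivAt (fun x : ℝ => 1 - x⁻¹) (-(-(x ^ 2)⁻¹)) x :=
        (hasDerivAt_inv h0.ne').const_sub 1
      have e : x ^ (-2 : ℝ) = (x ^ 2)⁻¹ := by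
        rw [Real.rpow_neg h0.le]
        norm_num
      rw [e]
      simpa using h2
    exact (bea_deriv hm (bea_w hx).1).comp x h1
  have hlim : Tendsto (fun x : ℝ => beaG m τ (1 - 1 / x)) atTop (𝓝 (beaG m τ 1)) := by
    have h1 : ContinuousAt (beaG m τ) 1 := (bea_deriv hm one_pos).continuousAt
    have h2 : Tendsto (fun x : ℝ => 1 - 1 / x) atTop (𝓝 1) := by
      have := (tendsto_const_nhds (x := (1 : ℝ))).sub (tendsto_inv_atTop_zero (𝕜 := ℝ))
      simpa using this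
    exact h1.tendsto.comp h2
  rw [integral_Ioi_of_hasDerivAt_of_tendsto hcont hderiv (bea_int hm) hlim]
  have e0 : beaG m τ (1 - 1 / 1) = 0 := by
    unfold beaG
    rw [div_one, sub_self, Real.zero_rpow (by linarith)]
    ring
  rw [e0, sub_zero]
  unfold beaG
  rw [Real.one_rpow, Real.log_one, mul_zero, Real.cos_zero, Real.sin_zero]
  have h5 : 0 < m + 1 := by linarith
  simp only [mul_one, mul_zero, add_zero, one_mul]
  positivity

theorem bet_nonneg {l τ σ : ℝ} (hl : 1 ≤ l) (hσ : 1 / 2 < σ) (hσ1 : σ < 1) : 0 ≤ bet l τ σ := by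
  obtain ⟨α, hα⟩ : ∃ α, α = 2 - 2 * σ := ⟨_, rfl⟩
  have hα0 : 0 < α := by linarith
  set c : ℕ → ℝ := fun n => Ring.choose (α + n - 1) n with hc
  -- the expansion
  have hx : ∀ x ∈ Ioi (1 : ℝ), HasSum (fun n : ℕ => c n * ((1 - 1 / x) ^ (l + n) * x ^ (-2 : ℝ)))
      ((1 - 1 / x) ^ l * x ^ (-2 * σ)) := by
    intro x hx
    have h0 : 0 < x := by linarith [mem_Ioi.1 hx]
    obtain ⟨w0, w1⟩ := bea_w hx
    have h1 := (bea_sum (α := α) w0.le w1).mul_left ((1 - 1 / x) ^ l * x ^ (-2 : ℝ))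
    have e2 : (fun n : ℕ => c n * ((1 - 1 / x) ^ (l + n) * x ^ (-2 : ℝ))) = fun n : ℕ =>
        (1 - 1 / x) ^ l * x ^ (-2 : ℝ) * (Ring.choose (α + n - 1) n * (1 - 1 / x) ^ n) := by
      funext n
      rw [Real.rpow_add w0, Real.rpow_natCast]
      ring
    have e3 : (1 - 1 / x) ^ l * x ^ (-2 * σ) =
        (1 - 1 / x) ^ l * x ^ (-2 : ℝ) * (1 / (1 - (1 - 1 / x)) ^ α) := by
      have e1 : 1 - (1 - 1 / x) = x⁻¹ := by rw [sub_sub_cancel, one_div]
      rw [e1, Real.inv_rpow h0.le, one_div (x ^ α)⁻¹, inv_inv, mul_assoc, ← Real.rpow_add h0]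
      congr 2
      linarith
    rw [e2, e3]
    exact h1
  have hsum := hasSum_integral_of_dominated_convergence (μ := volume.restrict (Ioi (1 : ℝ)))
    (F := fun (n : ℕ) (x : ℝ) => c n *
      ((1 - 1 / x) ^ (l + n) * Real.cos (τ * Real.log (1 - 1 / x)) * x ^ (-2 : ℝ)))
    (f := fun x => qq l τ σ 1 x)
    (fun (n : ℕ) (x : ℝ) => c n * ((1 - 1 / x) ^ (l + n) * x ^ (-2 : ℝ))) ?_ ?_ ?_ ?_ ?_
  · refine hsum.nonneg fun n => ?_
    rw [integral_const_mul]
    exact mul_nonneg (bea_co hα0 n) (bea_term (by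
      have : (0 : ℝ) ≤ n := n.cast_nonneg
      linarith))
  · intro n
    exact ((bea_meas (l + n) τ (-2)).const_mul (c n)).aestronglyMeasurable
  · intro n
    refine (ae_restrict_iff' measurableSet_Ioi).2 (Eventually.of_forall fun x hx => ?_)
    rw [norm_mul, Real.norm_eq_abs, abs_of_nonneg (bea_co hα0 n)]
    exact mul_le_mul_of_nonneg_left (bea_abs hx) (bea_co hα0 n)
  · refine (ae_restrict_iff' measurableSet_Ioi).2 (Eventually.of_forall fun x hx' => ?_)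
    exact (hx x hx').summable
  · have h1 : IntegrableOn (fun x : ℝ => (1 - 1 / x) ^ l * x ^ (-2 * σ)) (Ioi 1) := by
      refine Integrable.mono' (integrableOn_Ioi_rpow_of_lt (by linarith : -2 * σ < -1) one_pos)
        (by fun_prop : Measurable fun x : ℝ => (1 - 1 / x) ^ l * x ^ (-2 * σ)).aestronglyMeasurable ?_
      refine (ae_restrict_iff' measurableSet_Ioi).2 (Eventually.of_forall fun x hx => ?_)
      have h0 : 0 < x := by linarith [mem_Ioi.1 hx]
      have h1 := bea_w hx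
      have h2 : (1 - 1 / x) ^ l ≤ 1 := Real.rpow_le_one h1.1.le h1.2.le (by linarith)
      have h2' : 0 ≤ (1 - 1 / x) ^ l := Real.rpow_nonneg h1.1.le l
      have h3 : 0 ≤ x ^ (-2 * σ) := Real.rpow_nonneg h0.le _
      rw [Real.norm_eq_abs, abs_of_nonneg (mul_nonneg h2' h3)]
      nlinarith
    refine Integrable.congr h1 ?_
    refine (ae_restrict_iff' measurableSet_Ioi).2 (Eventually.of_forall fun x hx' => ?_)
    exact ((hx x hx').tsum_eq).symm
  · refine (ae_restrict_iff' measurableSet_Ioi).2 (Eventually.of_forall fun x hx' => ?_)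
    have h1 := (hx x hx').mul_left (Real.cos (τ * Real.log (1 - 1 / x)))
    have e2 : (fun n : ℕ => c n *
        ((1 - 1 / x) ^ (l + n) * Real.cos (τ * Real.log (1 - 1 / x)) * x ^ (-2 : ℝ))) =
        fun n : ℕ => Real.cos (τ * Real.log (1 - 1 / x)) *
          (c n * ((1 - 1 / x) ^ (l + n) * x ^ (-2 : ℝ))) := by
      funext n
      ring
    have e3 : qq l τ σ 1 x =
        Real.cos (τ * Real.log (1 - 1 / x)) * ((1 - 1 / x) ^ l * x ^ (-2 * σ)) := by
      unfold qq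
      ring
    simp only [e2, e3]
    exact h1

end Pool.Agent.Helper57.ED
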