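import Pool.Agent.Helper57.ED.PsA

/-!
# ED-PSB: the discrepancy of `Ψ_N` over the multiples of `g`

Scaling `x = r y`: `Ψ_N(r) = r^{1-2σ} ∫_1^{N/r} q_1(y) dy = r^{1-2σ} β - R_N(r)` for `0 < r ≤ N`, with (`x = N y`)
`R_N(r) = ∫_N^∞ q_r(x) dx = N^{1-2σ} R(r/N)`, `R(v) = ∫_1^∞ (1-v/y)^l cos(τ log(1-v/y)) y^{-2σ} dy`, `0 ≤ v ≤ 1`.
First part: `∑_{j ≤ n} (gj)^{1-2σ} - (1/g) ∫_0^{gn} r^{1-2σ} dr = -g^{1-2σ} (n^{2-2σ}/(2-2σ) - ∑_{j≤n} j^{1-2σ})`.
Second part: `R` is Lipschitz on `[0, 1]`: `|d/dv| ≤ (l + |τ|) y^{-1}` inside, `l ≥ 1`, and `∫_1^∞ y^{-2σ-1} dy < ∞`; so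
`|∑_{j ≤ n} R(j/n) - n ∫_0^1 R| ≤ Lip` and the second part is `O((gn)^{1-2σ}) → 0`.
`exists_cs`: the sequence is increasing (`∫_n^{n+1} x^{-s'} dx ≥ (n+1)^{-s'}`), bounded (`cn_bds` of TrA; prove it again here in short
or by the same comparison), and starts at `0` for `n = 0`.
-/

open MeasureTheory Set Filter Topology

namespace Pool.Agent.Helper57.ED

private lemma steplow85 {p : ℝ} (h0 : 0 < p) (h1 : p < 1) {x : ℝ} (hx : 0 ≤ x) :
    x ^ p + p * (x + 1) ^ (p - 1) ≤ (x + 1) ^ p := by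
  have hx1 : 0 < x + 1 := by linarith
  have hb := rpow_one_add_le_one_add_mul_self (s := -(1 / (x + 1))) (by
    rw [neg_le_neg_iff, div_le_one hx1]; linarith) h0.le h1.le
  have e1 : x = (x + 1) * (1 + -(1 / (x + 1))) := by field_simp; ring
  have e2 : 0 ≤ 1 + -(1 / (x + 1)) := by
    have : 1 / (x + 1) ≤ 1 := by rw [div_le_one hx1]; linarith
    linarith
  have e3 : x ^ p = (x + 1) ^ p * (1 + -(1 / (x + 1))) ^ p := by
    conv_lhs => rw [e1]
    rw [Real.mul_rpow hx1.le e2]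
  have e4 : (x + 1) ^ (p - 1) = (x + 1) ^ p / (x + 1) := Real.rpow_sub_one hx1.ne' p
  have e5 : 0 ≤ (x + 1) ^ p := Real.rpow_nonneg hx1.le _
  rw [e3, e4]
  calc (x + 1) ^ p * (1 + -(1 / (x + 1))) ^ p + p * ((x + 1) ^ p / (x + 1))
      ≤ (x + 1) ^ p * (1 + p * -(1 / (x + 1))) + p * ((x + 1) ^ p / (x + 1)) := by gcongr
    _ = (x + 1) ^ p := by field_simp; ring

private lemma stepup85 {p : ℝ} (h0 : 0 < p) (h1 : p < 1) {x : ℝ} (hx : 0 < x) :
    (x + 1) ^ p ≤ x ^ p + p * x ^ (p - 1) := by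
  have hb := rpow_one_add_le_one_add_mul_self (s := 1 / x) (by
    have : 0 < 1 / x := by positivity
    linarith) h0.le h1.le
  have e1 : x + 1 = x * (1 + 1 / x) := by field_simp
  have e2 : (0:ℝ) ≤ 1 + 1 / x := by positivity
  have e4 : x ^ (p - 1) = x ^ p / x := Real.rpow_sub_one hx.ne' p
  rw [e1, Real.mul_rpow hx.le e2, e4]
  calc x ^ p * (1 + 1 / x) ^ p ≤ x ^ p * (1 + p * (1 / x)) := by gcongr
    _ = x ^ p + p * (x ^ p / x) := by field_simp

theorem exists_cs {σ : ℝ} (hσ : 1 / 2 < σ) (hσ1 : σ < 1) :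
    ∃ cs : ℝ, 0 ≤ cs ∧ Tendsto (fun n : ℕ =>
      (n : ℝ) ^ (2 - 2 * σ) / (2 - 2 * σ) - ∑ j ∈ Finset.Icc 1 n, (j : ℝ) ^ (1 - 2 * σ)) atTop (𝓝 cs) := by
  set c : ℕ → ℝ := fun n : ℕ =>
      (n : ℝ) ^ (2 - 2 * σ) / (2 - 2 * σ) - ∑ j ∈ Finset.Icc 1 n, (j : ℝ) ^ (1 - 2 * σ) with hc
  have h0 : 0 < 2 - 2 * σ := by linarith
  have h1 : 2 - 2 * σ < 1 := by linarith
  have hexp : 1 - 2 * σ = (2 - 2 * σ) - 1 := by ring
  have hsucc : ∀ n : ℕ, c (n + 1) = c n + ((((n:ℝ) + 1) ^ (2 - 2 * σ) - (n:ℝ) ^ (2 - 2 * σ)) / (2 - 2 * σ)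
      - ((n:ℝ) + 1) ^ (1 - 2 * σ)) := by
    intro n
    simp only [hc]
    rw [Finset.sum_Icc_succ_top (by omega : 1 ≤ n + 1)]
    push_cast
    ring
  have hmono : Monotone c := by
    apply monotone_nat_of_le_succ
    intro n
    have := steplow85 h0 h1 (Nat.cast_nonneg n (α := ℝ))
    rw [hsucc n, hexp]
    have h2 : ((n:ℝ) + 1) ^ ((2 - 2 * σ) - 1) ≤ (((n:ℝ) + 1) ^ (2 - 2 * σ) - (n:ℝ) ^ (2 - 2 * σ)) / (2 - 2 * σ) := by
      rw [le_div_iff₀ h0]; linarith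
    linarith
  have hc1 : ∀ n : ℕ, c (n + 1) + ((n:ℝ) + 1) ^ (1 - 2 * σ) ≤ 1 / (2 - 2 * σ) := by
    intro n
    induction n with
    | zero =>
      simp only [hc]
      simp
    | succ n ih =>
      have hn : (0:ℝ) < (n:ℝ) + 1 := by positivity
      have := stepup85 h0 h1 hn
      rw [hsucc (n + 1)]
      push_cast at ih ⊢
      rw [hexp] at ih ⊢
      have h2 : (((n:ℝ) + 1 + 1) ^ (2 - 2 * σ) - ((n:ℝ) + 1) ^ (2 - 2 * σ)) / (2 - 2 * σ) ≤
          ((n:ℝ) + 1) ^ ((2 - 2 * σ) - 1) := by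
        rw [div_le_iff₀ h0]; linarith
      linarith
  have hbdd : BddAbove (range c) := by
    refine ⟨1 / (2 - 2 * σ), ?_⟩
    rintro _ ⟨n, rfl⟩
    have h2 := hc1 n
    have h3 : c n ≤ c (n + 1) := hmono (Nat.le_succ n)
    have h4 : 0 ≤ ((n:ℝ) + 1) ^ (1 - 2 * σ) := by positivity
    linarith
  refine ⟨⨆ n, c n, ?_, tendsto_atTop_ciSup hmono hbdd⟩
  have h5 : c 0 = 0 := by
    simp only [hc]
    simp [Real.zero_rpow h0.ne']
  calc (0:ℝ) = c 0 := h5.symm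
    _ ≤ ⨆ n, c n := le_ciSup hbdd 0

private lemma lipG85 {l τ : ℝ} (hl : 1 ≤ l) {a b : ℝ} (ha : a ∈ Ioc (0:ℝ) 1) (hb : b ∈ Ioc (0:ℝ) 1) :
    |a ^ l * Real.cos (τ * Real.log a) - b ^ l * Real.cos (τ * Real.log b)| ≤ (l + |τ|) * |a - b| := by
  have hd : ∀ x ∈ Ioc (0:ℝ) 1, HasDerivWithinAt (fun x : ℝ => x ^ l * Real.cos (τ * Real.log x))
      (l * x ^ (l - 1) * Real.cos (τ * Real.log x) + x ^ l * (-Real.sin (τ * Real.log x) * (τ * x⁻¹)))
      (Ioc 0 1) x := by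
    intro x hx
    have h1 : HasDerivAt (fun x : ℝ => x ^ l) (l * x ^ (l - 1)) x :=
      Real.hasDerivAt_rpow_const (Or.inl hx.1.ne')
    have h2 : HasDerivAt (fun x : ℝ => τ * Real.log x) (τ * x⁻¹) x :=
      (Real.hasDerivAt_log hx.1.ne').const_mul τ
    exact (h1.mul h2.cos).hasDerivWithinAt
  have hbd : ∀ x ∈ Ioc (0:ℝ) 1, ‖l * x ^ (l - 1) * Real.cos (τ * Real.log x) +
      x ^ l * (-Real.sin (τ * Real.log x) * (τ * x⁻¹))‖ ≤ l + |τ| := by
    intro x hx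
    have hx1 : x ^ (l - 1) ≤ 1 := Real.rpow_le_one hx.1.le hx.2 (by linarith)
    have hx0 : 0 ≤ x ^ (l - 1) := Real.rpow_nonneg hx.1.le _
    have e : x ^ l * (-Real.sin (τ * Real.log x) * (τ * x⁻¹)) =
        -(x ^ (l - 1) * Real.sin (τ * Real.log x) * τ) := by
      rw [Real.rpow_sub_one hx.1.ne' l]
      field_simp
    rw [e]
    refine (norm_add_le _ _).trans ?_
    rw [norm_neg]
    simp only [Real.norm_eq_abs, abs_mul]
    rw [abs_of_nonneg hx0, abs_of_nonneg (by linarith : (0:ℝ) ≤ l)]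
    have hc := Real.abs_cos_le_one (τ * Real.log x)
    have hs := Real.abs_sin_le_one (τ * Real.log x)
    have a1 : l * x ^ (l - 1) * |Real.cos (τ * Real.log x)| ≤ l * 1 * 1 := by gcongr
    have a2 : x ^ (l - 1) * |Real.sin (τ * Real.log x)| * |τ| ≤ 1 * 1 * |τ| := by gcongr
    linarith
  have := Convex.norm_image_sub_le_of_norm_hasDerivWithin_le hd hbd (convex_Ioc 0 1) hb ha
  simpa [Real.norm_eq_abs] using this

private lemma lip85 {l τ : ℝ} (hl : 1 ≤ l) {a b : ℝ} (ha : a ∈ Icc (0:ℝ) 1) (hb : b ∈ Icc (0:ℝ) 1) :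
    |a ^ l * Real.cos (τ * Real.log a) - b ^ l * Real.cos (τ * Real.log b)| ≤ (l + |τ|) * |a - b| := by
  have hl0 : l ≠ 0 := by linarith
  have key : ∀ x ∈ Icc (0:ℝ) 1, |x ^ l * Real.cos (τ * Real.log x)| ≤ (l + |τ|) * x := by
    intro x hx
    have h1 : x ^ l ≤ x := by
      rcases hx.1.eq_or_lt with h | h
      · rw [← h, Real.zero_rpow hl0]
      · calc x ^ l ≤ x ^ (1:ℝ) := Real.rpow_le_rpow_of_exponent_ge h hx.2 hl
          _ = x := Real.rpow_one x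
    have h0 : 0 ≤ x ^ l := Real.rpow_nonneg hx.1 _
    rw [abs_mul, abs_of_nonneg h0]
    calc x ^ l * |Real.cos (τ * Real.log x)| ≤ x * 1 := by
          gcongr
          · exact hx.1
          · exact Real.abs_cos_le_one _
      _ = 1 * x := by ring
      _ ≤ (l + |τ|) * x := by
          gcongr
          · exact hx.1
          · have := abs_nonneg τ; linarith
  rcases ha.1.eq_or_lt with h | h
  · rw [← h, Real.zero_rpow hl0, zero_mul, zero_sub, zero_sub, abs_neg, abs_neg, abs_of_nonneg hb.1]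
    exact key b hb
  · rcases hb.1.eq_or_lt with h' | h'
    · rw [← h', Real.zero_rpow hl0, zero_mul, sub_zero, sub_zero, abs_of_nonneg ha.1]
      exact key a ha
    · exact lipG85 hl ⟨h, ha.2⟩ ⟨h', hb.2⟩

private lemma meas85 (l τ σ r : ℝ) : Measurable (qq l τ σ r) := by
  unfold qq
  fun_prop

private lemma pint85 {σ a : ℝ} (hσ : 1 / 2 < σ) (ha : 0 < a) :
    IntegrableOn (fun x : ℝ => x ^ (-2 * σ)) (Ioi a) :=
  integrableOn_Ioi_rpow_of_lt (by linarith) ha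

private lemma int85 {l τ σ r a : ℝ} (hl : 1 ≤ l) (hσ : 1 / 2 < σ) (hr : 0 ≤ r) (ha : 0 < a) (hra : r ≤ a) :
    IntegrableOn (qq l τ σ r) (Ioi a) := by
  refine Integrable.mono' (pint85 hσ ha) (meas85 l τ σ r).aestronglyMeasurable ?_
  filter_upwards [ae_restrict_mem measurableSet_Ioi] with x hx
  have hx : a < x := hx
  have hx0 : 0 < x := ha.trans hx
  have h1 : r / x ≤ 1 := by rw [div_le_one hx0]; linarith
  have h2 : 0 ≤ r / x := by positivity
  unfold qq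
  rw [Real.norm_eq_abs, abs_mul, abs_mul, abs_of_nonneg (Real.rpow_nonneg hx0.le _),
    abs_of_nonneg (Real.rpow_nonneg (by linarith) _)]
  calc (1 - r / x) ^ l * |Real.cos (τ * Real.log (1 - r / x))| * x ^ (-2 * σ)
      ≤ 1 * 1 * x ^ (-2 * σ) := by
        gcongr
        · exact Real.rpow_le_one (by linarith) (by linarith) (by linarith)
        · exact Real.abs_cos_le_one _
    _ = x ^ (-2 * σ) := by ring

private noncomputable def R85 (l τ σ v : ℝ) : ℝ := ∫ x in Ioi (1:ℝ), qq l τ σ v x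

private lemma tail85 (l τ σ r : ℝ) {b : ℝ} (hb : 0 < b) :
    ∫ x in Ioi b, qq l τ σ r x = b ^ (1 - 2 * σ) * R85 l τ σ (r / b) := by
  have h := integral_comp_mul_left_Ioi (qq l τ σ r) 1 hb
  have h2 : ∫ x in Ioi (1:ℝ), qq l τ σ r (b * x) = b ^ (-2 * σ) * R85 l τ σ (r / b) := by
    unfold R85
    rw [← integral_const_mul]
    refine setIntegral_congr_fun measurableSet_Ioi (fun x hx => ?_)
    have hx : 1 < x := hx
    have hx0 : (0:ℝ) < x := by linarith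
    simp only [qq]
    rw [Real.mul_rpow hb.le hx0.le, div_div]
    ring
  rw [h2, mul_one, smul_eq_mul] at h
  have e : b ^ (1 - 2 * σ) = b * b ^ (-2 * σ) := by
    rw [show 1 - 2 * σ = 1 + -2 * σ by ring, Real.rpow_add hb, Real.rpow_one]
  rw [e, mul_assoc, h, ← mul_assoc, mul_inv_cancel₀ hb.ne', one_mul]

private lemma psi85 {l τ σ N r : ℝ} (hl : 1 ≤ l) (hσ : 1 / 2 < σ) (hr : 0 < r) (hrN : r ≤ N) :
    Psi l τ σ N r = r ^ (1 - 2 * σ) * bet l τ σ - N ^ (1 - 2 * σ) * R85 l τ σ (r / N) := by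
  have hN : 0 < N := hr.trans_le hrN
  unfold Psi
  rw [← intervalIntegral.integral_Ioi_sub_Ioi (int85 hl hσ hr.le hr le_rfl) hrN,
    tail85 l τ σ r hr, tail85 l τ σ r hN, div_self hr.ne']
  rfl

private lemma Rlip85 {l τ σ : ℝ} (hl : 1 ≤ l) (hσ : 1 / 2 < σ) {a b : ℝ} (ha : a ∈ Icc (0:ℝ) 1)
    (hb : b ∈ Icc (0:ℝ) 1) :
    |R85 l τ σ a - R85 l τ σ b| ≤ ((l + |τ|) * ∫ x in Ioi (1:ℝ), x ^ (-2 * σ)) * |a - b| := by
  unfold R85
  rw [← integral_sub (int85 hl hσ ha.1 one_pos ha.2) (int85 hl hσ hb.1 one_pos hb.2)]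
  have hg : IntegrableOn (fun x : ℝ => ((l + |τ|) * |a - b|) * x ^ (-2 * σ)) (Ioi 1) :=
    (pint85 hσ one_pos).const_mul _
  have := norm_integral_le_of_norm_le (f := fun x => qq l τ σ a x - qq l τ σ b x)
    (μ := volume.restrict (Ioi (1:ℝ))) hg (by
      filter_upwards [ae_restrict_mem measurableSet_Ioi] with x hx
      have hx : (1:ℝ) < x := hx
      have hx0 : (0:ℝ) < x := by linarith
      have hpos : 0 ≤ x ^ (-2 * σ) := Real.rpow_nonneg hx0.le _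
      have hmem : ∀ v ∈ Icc (0:ℝ) 1, 1 - v / x ∈ Icc (0:ℝ) 1 := by
        intro v hv
        have h1 : v / x ≤ 1 := by rw [div_le_one hx0]; linarith [hv.2]
        have h2 : 0 ≤ v / x := div_nonneg hv.1 hx0.le
        exact ⟨by linarith, by linarith⟩
      have h3 := lip85 (τ := τ) hl (hmem a ha) (hmem b hb)
      have h4 : |(1 - a / x) - (1 - b / x)| ≤ |a - b| := by
        rw [show (1 - a / x) - (1 - b / x) = -((a - b) / x) by ring, abs_neg, abs_div, abs_of_pos hx0]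
        exact div_le_self (abs_nonneg _) hx.le
      simp only [qq]
      rw [← sub_mul, Real.norm_eq_abs, abs_mul, abs_of_nonneg hpos]
      gcongr
      refine h3.trans ?_
      have : 0 ≤ l + |τ| := by have := abs_nonneg τ; linarith
      gcongr)
  rw [integral_const_mul] at this
  rw [Real.norm_eq_abs] at this
  calc _ ≤ _ := this
    _ = _ := by ring

private lemma riem85 {h : ℝ → ℝ} {C : ℝ} {n : ℕ}
    (hh : ∀ a ∈ Icc (0:ℝ) n, ∀ b ∈ Icc (0:ℝ) n, |h a - h b| ≤ C * |a - b|) (hC : 0 ≤ C) :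
    IntervalIntegrable h volume 0 n ∧
      |∑ j ∈ Finset.Icc 1 n, h j - ∫ x in (0:ℝ)..n, h x| ≤ C * n := by
  have hcont : ContinuousOn h (Icc (0:ℝ) n) := by
    have : LipschitzOnWith (Real.toNNReal C) h (Icc (0:ℝ) n) := by
      apply LipschitzOnWith.of_dist_le_mul
      intro a ha b hb
      rw [Real.dist_eq, Real.dist_eq, Real.coe_toNNReal _ hC]
      exact hh a ha b hb
    exact this.continuousOn
  have hsub : ∀ i : ℕ, i < n → Icc (i:ℝ) ((i + 1 : ℕ) : ℝ) ⊆ Icc (0:ℝ) n := by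
    intro i hi
    apply Icc_subset_Icc (Nat.cast_nonneg i)
    exact_mod_cast hi
  have hii : ∀ i : ℕ, i < n → IntervalIntegrable h volume (i:ℝ) ((i + 1 : ℕ) : ℝ) := by
    intro i hi
    apply ContinuousOn.intervalIntegrable_of_Icc (by push_cast; linarith)
    exact hcont.mono (hsub i hi)
  refine ⟨hcont.intervalIntegrable_of_Icc (Nat.cast_nonneg n), ?_⟩
  have hs : ∑ i ∈ Finset.range n, ∫ x in (i:ℝ)..((i + 1 : ℕ) : ℝ), h x = ∫ x in (0:ℝ)..n, h x := by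
    have := intervalIntegral.sum_integral_adjacent_intervals (f := h) (μ := volume)
      (a := fun k : ℕ => (k:ℝ)) (n := n) (fun k hk => hii k hk)
    simpa using this
  have hr : ∑ j ∈ Finset.Icc 1 n, h j = ∑ i ∈ Finset.range n, h ((i + 1 : ℕ) : ℝ) := by
    rw [Finset.range_eq_Ico, Finset.sum_Ico_add' (fun k : ℕ => h (k:ℝ)) 0 n 1]
    rfl
  rw [← hs, hr, ← Finset.sum_sub_distrib]
  refine (Finset.abs_sum_le_sum_abs _ _).trans ?_
  have hb : ∀ i ∈ Finset.range n, |h ((i + 1 : ℕ) : ℝ) - ∫ x in (i:ℝ)..((i + 1 : ℕ) : ℝ), h x| ≤ C := by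
    intro i hi
    have hi := Finset.mem_range.mp hi
    have h1 : h ((i + 1 : ℕ) : ℝ) = ∫ x in (i:ℝ)..((i + 1 : ℕ) : ℝ), h ((i + 1 : ℕ) : ℝ) := by
      rw [intervalIntegral.integral_const]; simp
    rw [h1, ← intervalIntegral.integral_sub (by simp) (hii i hi), ← Real.norm_eq_abs]
    have := intervalIntegral.norm_integral_le_of_norm_le_const (a := (i:ℝ)) (b := ((i + 1 : ℕ) : ℝ))
      (f := fun x => h ((i + 1 : ℕ) : ℝ) - h x) (C := C) (by
        intro x hx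
        rw [uIoc_of_le (by push_cast; linarith)] at hx
        have hxm : x ∈ Icc (0:ℝ) n := hsub i hi ⟨hx.1.le, hx.2⟩
        have hnm : ((i + 1 : ℕ) : ℝ) ∈ Icc (0:ℝ) n := hsub i hi ⟨by push_cast; linarith, le_rfl⟩
        have h2 := hh _ hnm x hxm
        rw [Real.norm_eq_abs]
        refine h2.trans ?_
        have h3 : |((i + 1 : ℕ) : ℝ) - x| ≤ 1 := by
          have := hx.1
          have := hx.2
          push_cast at *
          rw [abs_le]; constructor <;> linarith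
        calc C * |((i + 1 : ℕ) : ℝ) - x| ≤ C * 1 := by gcongr
          _ = C := mul_one C)
    simpa using this
  calc _ ≤ ∑ i ∈ Finset.range n, C := Finset.sum_le_sum hb
    _ = C * n := by simp [mul_comm]

theorem psi_lim {l τ σ cs : ℝ} (hl : 1 ≤ l) (hσ : 1 / 2 < σ) (hσ1 : σ < 1)
    (hcs : Tendsto (fun n : ℕ =>
      (n : ℝ) ^ (2 - 2 * σ) / (2 - 2 * σ) - ∑ j ∈ Finset.Icc 1 n, (j : ℝ) ^ (1 - 2 * σ)) atTop (𝓝 cs))
    {g : ℕ} (hg : 1 ≤ g) :
    Tendsto (fun n : ℕ => ∑ j ∈ Finset.Icc 1 n, Psi l τ σ ((g * n : ℕ) : ℝ) ((g * j : ℕ) : ℝ) -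
      (∫ r in (0:ℝ)..((g * n : ℕ) : ℝ), Psi l τ σ ((g * n : ℕ) : ℝ) r) / g) atTop
      (𝓝 (-(bet l τ σ * cs * (g : ℝ) ^ (1 - 2 * σ)))) := by
  have hg0 : (0:ℝ) < g := by exact_mod_cast hg
  have hs0 : 0 < 2 - 2 * σ := by linarith
  set Lp : ℝ := (l + |τ|) * ∫ x in Ioi (1:ℝ), x ^ (-2 * σ) with hLp
  have hLp0 : 0 ≤ Lp := by
    have h1 : 0 ≤ ∫ x in Ioi (1:ℝ), x ^ (-2 * σ) :=
      setIntegral_nonneg measurableSet_Ioi (fun x hx => Real.rpow_nonneg (by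
        have : (1:ℝ) < x := hx
        linarith) _)
    have := abs_nonneg τ
    exact mul_nonneg (by linarith) h1
  set c : ℕ → ℝ := fun n : ℕ =>
      (n : ℝ) ^ (2 - 2 * σ) / (2 - 2 * σ) - ∑ j ∈ Finset.Icc 1 n, (j : ℝ) ^ (1 - 2 * σ) with hc
  set S : ℕ → ℝ := fun n : ℕ => ∑ j ∈ Finset.Icc 1 n, R85 l τ σ ((j:ℝ) / n) -
    ∫ x in (0:ℝ)..n, R85 l τ σ (x / n) with hS
  have hR : ∀ n : ℕ, 1 ≤ n → IntervalIntegrable (fun x => R85 l τ σ (x / n)) volume 0 n ∧ |S n| ≤ Lp := by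
    intro n hn
    have hn0 : (0:ℝ) < n := by exact_mod_cast hn
    have h := riem85 (h := fun x => R85 l τ σ (x / n)) (C := Lp / n) (n := n) (by
      intro a ha b hb
      have hm : ∀ v ∈ Icc (0:ℝ) n, v / n ∈ Icc (0:ℝ) 1 := fun v hv =>
        ⟨div_nonneg hv.1 hn0.le, by rw [div_le_one hn0]; exact hv.2⟩
      have h1 := Rlip85 (τ := τ) hl hσ (hm a ha) (hm b hb)
      refine h1.trans_eq ?_
      rw [← sub_div, abs_div, abs_of_pos hn0]
      ring) (by positivity)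
    refine ⟨h.1, h.2.trans_eq ?_⟩
    field_simp
  have hmain : ∀ n : ℕ, 1 ≤ n → ∑ j ∈ Finset.Icc 1 n, Psi l τ σ ((g * n : ℕ) : ℝ) ((g * j : ℕ) : ℝ) -
      (∫ r in (0:ℝ)..((g * n : ℕ) : ℝ), Psi l τ σ ((g * n : ℕ) : ℝ) r) / g =
      -(bet l τ σ * c n * (g : ℝ) ^ (1 - 2 * σ)) - ((g * n : ℕ) : ℝ) ^ (1 - 2 * σ) * S n := by
    intro n hn
    have hn0 : (0:ℝ) < n := by exact_mod_cast hn
    have hN : ((g * n : ℕ) : ℝ) = g * n := by push_cast; ring
    have hN0 : (0:ℝ) < g * n := by positivity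
    rw [hN]
    -- the sum
    have e1 : ∑ j ∈ Finset.Icc 1 n, Psi l τ σ (g * n) ((g * j : ℕ) : ℝ) =
        (g:ℝ) ^ (1 - 2 * σ) * bet l τ σ * ∑ j ∈ Finset.Icc 1 n, (j:ℝ) ^ (1 - 2 * σ) -
        ((g:ℝ) * n) ^ (1 - 2 * σ) * ∑ j ∈ Finset.Icc 1 n, R85 l τ σ ((j:ℝ) / n) := by
      rw [Finset.mul_sum, Finset.mul_sum, ← Finset.sum_sub_distrib]
      apply Finset.sum_congr rfl
      intro j hj
      obtain ⟨hj1, hj2⟩ := Finset.mem_Icc.mp hj
      have hj0 : (0:ℝ) < j := by exact_mod_cast hj1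
      have hjn : (j:ℝ) ≤ n := by exact_mod_cast hj2
      push_cast
      rw [psi85 hl hσ (by positivity) (by gcongr), Real.mul_rpow hg0.le hj0.le,
        mul_div_mul_left _ _ hg0.ne']
      ring
    -- the integral, by scaling
    have e2 : ∫ r in (0:ℝ)..(g * n : ℝ), Psi l τ σ (g * n) r =
        g * ∫ x in (0:ℝ)..n, Psi l τ σ (g * n) (g * x) := by
      rw [intervalIntegral.mul_integral_comp_mul_left]
      simp
    have e3 : ∫ x in (0:ℝ)..n, Psi l τ σ (g * n) (g * x) =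
        ∫ x in (0:ℝ)..n, ((g:ℝ) ^ (1 - 2 * σ) * bet l τ σ * x ^ (1 - 2 * σ) -
          ((g:ℝ) * n) ^ (1 - 2 * σ) * R85 l τ σ (x / n)) := by
      apply intervalIntegral.integral_congr_ae
      refine Eventually.of_forall (fun x hx => ?_)
      rw [uIoc_of_le hn0.le] at hx
      have hx0 := hx.1
      have hxn := hx.2
      rw [psi85 hl hσ (by positivity) (by gcongr), Real.mul_rpow hg0.le hx0.le,
        mul_div_mul_left _ _ hg0.ne']
      ring
    have hi1 : IntervalIntegrable (fun x : ℝ => x ^ (1 - 2 * σ)) volume 0 n :=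
      intervalIntegral.intervalIntegrable_rpow' (by linarith)
    have e4 : ∫ x in (0:ℝ)..n, x ^ (1 - 2 * σ) = (n:ℝ) ^ (2 - 2 * σ) / (2 - 2 * σ) := by
      rw [integral_rpow (Or.inl (by linarith))]
      rw [show 1 - 2 * σ + 1 = 2 - 2 * σ by ring, Real.zero_rpow hs0.ne', sub_zero]
    rw [e1, e2, e3, intervalIntegral.integral_sub (hi1.const_mul _) ((hR n hn).1.const_mul _),
      intervalIntegral.integral_const_mul, intervalIntegral.integral_const_mul, e4,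
      mul_div_cancel_left₀ _ hg0.ne']
    simp only [hc, hS]
    ring
  have hlim0 : Tendsto (fun n : ℕ => ((g * n : ℕ) : ℝ) ^ (1 - 2 * σ) * S n) atTop (𝓝 0) := by
    have ht : Tendsto (fun n : ℕ => ((g * n : ℕ) : ℝ) ^ (1 - 2 * σ) * Lp) atTop (𝓝 0) := by
      have h1 : Tendsto (fun n : ℕ => ((g * n : ℕ) : ℝ)) atTop atTop := by
        apply tendsto_natCast_atTop_atTop.comp
        exact tendsto_id.const_mul_atTop' (by omega)
      have h2 := (tendsto_rpow_neg_atTop (y := 2 * σ - 1) (by linarith)).comp h1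
      have h3 := h2.mul_const Lp
      rw [zero_mul] at h3
      refine h3.congr (fun n => ?_)
      simp only [Function.comp]
      rw [show -(2 * σ - 1) = 1 - 2 * σ by ring]
    refine squeeze_zero_norm' ?_ ht
    filter_upwards [eventually_ge_atTop 1] with n hn
    rw [Real.norm_eq_abs, abs_mul, abs_of_nonneg (Real.rpow_nonneg (Nat.cast_nonneg _) _)]
    gcongr
    exact (hR n hn).2
  have hlim1 : Tendsto (fun n : ℕ => -(bet l τ σ * c n * (g : ℝ) ^ (1 - 2 * σ))) atTop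
      (𝓝 (-(bet l τ σ * cs * (g : ℝ) ^ (1 - 2 * σ)))) :=
    ((hcs.const_mul _).mul_const _).neg
  have := hlim1.sub hlim0
  rw [sub_zero] at this
  refine this.congr' ?_
  filter_upwards [eventually_ge_atTop 1] with n hn
  exact (hmain n hn).symm

end Pool.Agent.Helper57.ED
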