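import Pool.Agent.Helper57.ED.Def

/-!
# ED-REA: regrouping the double sum by the difference `r = a - b`, and the residue class

Split into `a = b` (multiples of `lcm h k`), `a > b` (`x = a`, `r = a - b`) and `a < b` (`x = b`, `r = b - a`); if
`h ∣ x`, `k ∣ x - r`, then `gcd h k ∣ r`. (`Finset.sum_bij'`, `Finset.sum_sigma'`.) `crt`: `Nat.chineseRemainder'`.
-/

namespace Pool.Agent.Helper57.ED

private lemma split38 (F : ℕ → ℕ → ℝ) (P : Finset (ℕ × ℕ)) :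
    ∑ p ∈ P, F p.1 p.2 = ∑ p ∈ P.filter (fun p => p.1 = p.2), F p.1 p.2 +
      (∑ p ∈ P.filter (fun p => p.2 < p.1), F p.1 p.2 + ∑ p ∈ P.filter (fun p => p.1 < p.2), F p.1 p.2) := by
  rw [← Finset.sum_filter_add_sum_filter_not P (fun p => p.1 = p.2)]
  congr 1
  rw [← Finset.sum_filter_add_sum_filter_not (P.filter (fun p => ¬ p.1 = p.2)) (fun p => p.2 < p.1),
    Finset.filter_filter, Finset.filter_filter]
  congr 1
  · refine Finset.sum_congr ?_ fun _ _ => rfl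
    refine Finset.filter_congr fun p _ => ?_
    omega
  · refine Finset.sum_congr ?_ fun _ _ => rfl
    refine Finset.filter_congr fun p _ => ?_
    omega

private lemma gcd38 {h k x r : ℕ} (hr : r ≤ x) (h1 : h ∣ x) (h2 : k ∣ x - r) : Nat.gcd h k ∣ r := by
  have h3 : Nat.gcd h k ∣ x := (Nat.gcd_dvd_left h k).trans h1
  have h4 : Nat.gcd h k ∣ x - r := (Nat.gcd_dvd_right h k).trans h2
  have h5 : r = x - (x - r) := by omega
  rw [h5]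
  exact Nat.dvd_sub h3 h4

private lemma upper38 (F : ℕ → ℕ → ℝ) (N : ℕ) {h k : ℕ} :
    ∑ p ∈ (((Finset.Icc 1 N).filter (fun a => h ∣ a)) ×ˢ ((Finset.Icc 1 N).filter (fun b => k ∣ b))).filter
      (fun p => p.2 < p.1), F p.1 p.2 = ∑ r ∈ (Finset.Icc 1 N).filter (fun r => Nat.gcd h k ∣ r),
        ∑ x ∈ (Finset.Ioc r N).filter (fun x => h ∣ x ∧ k ∣ (x - r)), F x (x - r) := by
  rw [Finset.sum_sigma']
  refine Finset.sum_bij' (fun p _ => ⟨p.1 - p.2, p.1⟩) (fun q _ => (q.2, q.2 - q.1)) ?_ ?_ ?_ ?_ ?_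
  · rintro ⟨a, b⟩ hp
    simp only [Finset.mem_filter, Finset.mem_product, Finset.mem_Icc] at hp
    obtain ⟨⟨⟨⟨ha1, ha2⟩, ha3⟩, ⟨hb1, hb2⟩, hb3⟩, hab⟩ := hp
    have h1 : a - (a - b) = b := by omega
    simp only [Finset.mem_sigma, Finset.mem_filter, Finset.mem_Icc, Finset.mem_Ioc]
    refine ⟨⟨by omega, gcd38 (x := a) (by omega) ha3 (by rw [h1]; exact hb3)⟩, by omega, ha3, ?_⟩
    rw [h1]
    exact hb3
  · rintro ⟨r, x⟩ hq
    simp only [Finset.mem_sigma, Finset.mem_filter, Finset.mem_Icc, Finset.mem_Ioc] at hq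
    obtain ⟨⟨⟨hr1, hr2⟩, -⟩, ⟨hx1, hx2⟩, hx3, hx4⟩ := hq
    simp only [Finset.mem_filter, Finset.mem_product, Finset.mem_Icc]
    exact ⟨⟨⟨⟨by omega, by omega⟩, hx3⟩, ⟨by omega, by omega⟩, hx4⟩, by omega⟩
  · rintro ⟨a, b⟩ hp
    simp only [Finset.mem_filter, Finset.mem_product, Finset.mem_Icc] at hp
    have h1 : a - (a - b) = b := by omega
    simp only [h1]
  · rintro ⟨r, x⟩ hq
    simp only [Finset.mem_sigma, Finset.mem_filter, Finset.mem_Icc, Finset.mem_Ioc] at hq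
    have h1 : x - (x - r) = r := by omega
    simp only [h1]
  · rintro ⟨a, b⟩ hp
    simp only [Finset.mem_filter, Finset.mem_product, Finset.mem_Icc] at hp
    have h1 : a - (a - b) = b := by omega
    simp only [h1]

private lemma lower38 (F : ℕ → ℕ → ℝ) (N : ℕ) {h k : ℕ} :
    ∑ p ∈ (((Finset.Icc 1 N).filter (fun a => h ∣ a)) ×ˢ ((Finset.Icc 1 N).filter (fun b => k ∣ b))).filter
      (fun p => p.1 < p.2), F p.1 p.2 = ∑ r ∈ (Finset.Icc 1 N).filter (fun r => Nat.gcd h k ∣ r),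
        ∑ x ∈ (Finset.Ioc r N).filter (fun x => k ∣ x ∧ h ∣ (x - r)), F (x - r) x := by
  rw [Finset.sum_sigma']
  refine Finset.sum_bij' (fun p _ => ⟨p.2 - p.1, p.2⟩) (fun q _ => (q.2 - q.1, q.2)) ?_ ?_ ?_ ?_ ?_
  · rintro ⟨a, b⟩ hp
    simp only [Finset.mem_filter, Finset.mem_product, Finset.mem_Icc] at hp
    obtain ⟨⟨⟨⟨ha1, ha2⟩, ha3⟩, ⟨hb1, hb2⟩, hb3⟩, hab⟩ := hp
    have h1 : b - (b - a) = a := by omega
    simp only [Finset.mem_sigma, Finset.mem_filter, Finset.mem_Icc, Finset.mem_Ioc]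
    refine ⟨⟨by omega, ?_⟩, by omega, hb3, ?_⟩
    · rw [Nat.gcd_comm]
      exact gcd38 (x := b) (by omega) hb3 (by rw [h1]; exact ha3)
    · rw [h1]
      exact ha3
  · rintro ⟨r, x⟩ hq
    simp only [Finset.mem_sigma, Finset.mem_filter, Finset.mem_Icc, Finset.mem_Ioc] at hq
    obtain ⟨⟨⟨hr1, hr2⟩, -⟩, ⟨hx1, hx2⟩, hx3, hx4⟩ := hq
    simp only [Finset.mem_filter, Finset.mem_product, Finset.mem_Icc]
    exact ⟨⟨⟨⟨by omega, by omega⟩, hx4⟩, ⟨by omega, by omega⟩, hx3⟩, by omega⟩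
  · rintro ⟨a, b⟩ hp
    simp only [Finset.mem_filter, Finset.mem_product, Finset.mem_Icc] at hp
    have h1 : b - (b - a) = a := by omega
    simp only [h1]
  · rintro ⟨r, x⟩ hq
    simp only [Finset.mem_sigma, Finset.mem_filter, Finset.mem_Icc, Finset.mem_Ioc] at hq
    have h1 : x - (x - r) = r := by omega
    simp only [h1]
  · rintro ⟨a, b⟩ hp
    simp only [Finset.mem_filter, Finset.mem_product, Finset.mem_Icc] at hp
    have h1 : b - (b - a) = a := by omega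
    simp only [h1]

private lemma diag38 (F : ℕ → ℕ → ℝ) (N : ℕ) {h k : ℕ} (hh : 1 ≤ h) (hk : 1 ≤ k) :
    ∑ p ∈ (((Finset.Icc 1 N).filter (fun a => h ∣ a)) ×ˢ ((Finset.Icc 1 N).filter (fun b => k ∣ b))).filter
      (fun p => p.1 = p.2), F p.1 p.2 =
      ∑ j ∈ Finset.Icc 1 (N / Nat.lcm h k), F (j * Nat.lcm h k) (j * Nat.lcm h k) := by
  have hL : 0 < Nat.lcm h k := Nat.lcm_pos hh hk
  refine Finset.sum_bij' (fun p _ => p.1 / Nat.lcm h k)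
    (fun j _ => (j * Nat.lcm h k, j * Nat.lcm h k)) ?_ ?_ ?_ ?_ ?_
  · rintro ⟨a, b⟩ hp
    simp only [Finset.mem_filter, Finset.mem_product, Finset.mem_Icc] at hp
    obtain ⟨⟨⟨⟨ha1, ha2⟩, ha3⟩, ⟨hb1, hb2⟩, hb3⟩, hab⟩ := hp
    subst hab
    have h1 : Nat.lcm h k ∣ a := Nat.lcm_dvd ha3 hb3
    rw [Finset.mem_Icc]
    exact ⟨Nat.div_pos (Nat.le_of_dvd (by omega) h1) hL, Nat.div_le_div_right ha2⟩
  · intro j hj
    rw [Finset.mem_Icc] at hj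
    have h1 : j * Nat.lcm h k ≤ N := (Nat.le_div_iff_mul_le hL).1 hj.2
    have h2 : 1 ≤ j * Nat.lcm h k := Nat.mul_pos hj.1 hL
    simp only [Finset.mem_filter, Finset.mem_product, Finset.mem_Icc]
    exact ⟨⟨⟨⟨h2, h1⟩, Dvd.dvd.mul_left (Nat.dvd_lcm_left h k) j⟩,
      ⟨h2, h1⟩, Dvd.dvd.mul_left (Nat.dvd_lcm_right h k) j⟩, trivial⟩
  · rintro ⟨a, b⟩ hp
    simp only [Finset.mem_filter, Finset.mem_product, Finset.mem_Icc] at hp
    obtain ⟨⟨⟨⟨ha1, ha2⟩, ha3⟩, ⟨hb1, hb2⟩, hb3⟩, hab⟩ := hp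
    subst hab
    have h1 : Nat.lcm h k ∣ a := Nat.lcm_dvd ha3 hb3
    simp only [Nat.div_mul_cancel h1]
  · intro j _
    exact Nat.mul_div_cancel j hL
  · rintro ⟨a, b⟩ hp
    simp only [Finset.mem_filter, Finset.mem_product, Finset.mem_Icc] at hp
    obtain ⟨⟨⟨⟨ha1, ha2⟩, ha3⟩, ⟨hb1, hb2⟩, hb3⟩, hab⟩ := hp
    subst hab
    have h1 : Nat.lcm h k ∣ a := Nat.lcm_dvd ha3 hb3
    simp only [Nat.div_mul_cancel h1]

theorem regroup (F : ℕ → ℕ → ℝ) (N : ℕ) {h k : ℕ} (hh : 1 ≤ h) (hk : 1 ≤ k) :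
    ∑ a ∈ (Finset.Icc 1 N).filter (fun a => h ∣ a), ∑ b ∈ (Finset.Icc 1 N).filter (fun b => k ∣ b), F a b =
      ∑ j ∈ Finset.Icc 1 (N / Nat.lcm h k), F (j * Nat.lcm h k) (j * Nat.lcm h k) +
      ∑ r ∈ (Finset.Icc 1 N).filter (fun r => Nat.gcd h k ∣ r),
        (∑ x ∈ (Finset.Ioc r N).filter (fun x => h ∣ x ∧ k ∣ (x - r)), F x (x - r) +
         ∑ x ∈ (Finset.Ioc r N).filter (fun x => k ∣ x ∧ h ∣ (x - r)), F (x - r) x) := by
  rw [← Finset.sum_product' _ _ (fun a b => F a b), split38 F, diag38 F N hh hk, upper38, lower38,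
    Finset.sum_add_distrib]

theorem crt {h k r : ℕ} (hh : 1 ≤ h) (hk : 1 ≤ k) (hr : Nat.gcd h k ∣ r) :
    ∃ c : ℕ, ∀ x : ℕ, r ≤ x → ((h ∣ x ∧ k ∣ (x - r)) ↔ x ≡ c [MOD Nat.lcm h k]) := by
  have h0 : (0 : ℕ) ≡ r [MOD Nat.gcd h k] := ((Nat.modEq_zero_iff_dvd).2 hr).symm
  obtain ⟨c, hc1, hc2⟩ := Nat.chineseRemainder' h0
  refine ⟨c, fun x hx => ?_⟩
  have e1 : h ∣ x ↔ x ≡ c [MOD h] := by
    rw [← Nat.modEq_zero_iff_dvd]
    exact ⟨fun h1 => h1.trans hc1.symm, fun h1 => h1.trans hc1⟩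
  have e2 : k ∣ (x - r) ↔ x ≡ c [MOD k] := by
    have e3 : k ∣ (x - r) ↔ r ≡ x [MOD k] := (Nat.modEq_iff_dvd' hx).symm
    rw [e3]
    exact ⟨fun h1 => h1.symm.trans hc2.symm, fun h1 => (h1.trans hc2).symm⟩
  rw [e1, e2]
  constructor
  · rintro ⟨h1, h2⟩
    rw [Nat.modEq_iff_dvd] at h1 h2 ⊢
    rw [Int.natCast_dvd] at h1 h2 ⊢
    exact Nat.lcm_dvd h1 h2
  · intro h1
    exact ⟨h1.of_dvd (Nat.dvd_lcm_left h k), h1.of_dvd (Nat.dvd_lcm_right h k)⟩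

end Pool.Agent.Helper57.ED
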