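import Pool.Agent.Helper57.ED.RhA

/-!
# ED-TRA: the truncated correlation as a double sum of `κ`

`z = l - iτ`, `s' = 2σ - 1 ∈ (0, 1/2]`, `2W = 2l + 2σ = (z̄+1) + (z+s')`, `A_h(u) = ∑_{a ≤ u, h∣a} (a/u)^z`, so
`ρ_z(u/h) = A_h(u) - (u/h)/(z+1)` (`0 < u ≤ N`). Expand the product; `LHS = Re(T1 + T2 + T3 + T4)`:
* `T1 = 2W ∫_0^N A_h conj A_k u^{-2σ-1} du + A_h(N) conj A_k(N) N^{-2σ} = ∑_{a,b} a^z b^{z̄} max(a,b)^{-2l-2σ}`
  (for each pair: `2W ∫_{max}^N u^{-2l-2σ-1} du = max^{-2W} - N^{-2W}`), real part `∑∑ κ(a,b)`.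
* `T2 = -(1/(k(z̄+1))) ∑_a a^z [2W ∫_a^N u^{-z-2σ} du + N^{1-2σ-z}]
     = -(1/k) ∑_a (1/(z+s') + 1/(z̄+1)) a^{-s'} + (1/k)(1/(z+s')) N^{-s'} ∑_a (a/N)^z` (`a ≤ N`, `h ∣ a`); `T3` the same with `h, k`
  exchanged and conjugated.
* `T4 = (N^{1-s'}/(hk)) (2W + 1 - s') / (|z+1|² (1-s'))`, and `2W + 1 - s' = 2(l+1)`.
* `∑_{a ≤ N, h∣a} a^{-s'} = h^{-s'} ((N/h)^{1-s'}/(1-s') - c)`, `0 ≤ c ≤ 1/(1-s') ≤ 2` (monotone comparison), and
  `∑_a (a/N)^z = ρ_z(N/h) + (N/h)/(z+1)`.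
With `m = Re(1/(z+s') + 1/(z+1)) ∈ [0, 2/l]` the terms with `N^{1-s'}/(hk)` add up to
`-2m/(1-s') + 2 Re 1/((z+s')(z+1)) + 2(l+1)/(|z+1|²(1-s')) = -2 Re(1/(z+1))/(1-s')`
(use `1/((z+s')(z+1)) = (1/(z+s') - 1/(z+1))/(1-s')`), and `Re 1/(z+1) = (l+1)/((l+1)²+τ²)`, `1 - s' = 2 (1 - σ)`.
The rest: `m (h^{-s'} c/k + k^{-s'} c'/h) ≤ 8/l`, `N^{-s'}/|z+s'| (|ρ|/k + |ρ|/h) ≤ (2/l)(2 + |τ|/l)`.
(Checked numerically.)
-/

open MeasureTheory Set Filter Topology Complex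

namespace Pool.Agent.Helper57.ED

private lemma cn_step33 {e : ℝ} (he : 0 < e) (he1 : e < 1) {n : ℕ} :
    ((n + 1 : ℕ) : ℝ) ^ (e - 1) ≤ (((n + 1 : ℕ) : ℝ) ^ e - (n : ℝ) ^ e) / e := by
  have hn : (0:ℝ) ≤ n := Nat.cast_nonneg n
  have h1 : (0:ℝ) < (n:ℝ) + 1 := by linarith
  push_cast
  rw [le_div_iff₀ he]
  have h2 := rpow_one_add_le_one_add_mul_self (s := -1 / ((n:ℝ) + 1)) (p := e) (by
    rw [le_div_iff₀ h1]; linarith) he.le he1.le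
  have h3 : 1 + -1 / ((n:ℝ) + 1) = n / (n + 1) := by field_simp; ring
  rw [h3, Real.div_rpow hn h1.le, div_le_iff₀ (Real.rpow_pos_of_pos h1 e)] at h2
  have h4 : ((n:ℝ) + 1) ^ (e - 1) = ((n:ℝ) + 1) ^ e / (n + 1) := by
    rw [Real.rpow_sub_one h1.ne']
  rw [h4]
  have h5 : (1 + e * (-1 / ((n:ℝ) + 1))) * ((n:ℝ) + 1) ^ e = ((n:ℝ) + 1) ^ e - ((n:ℝ) + 1) ^ e / (n + 1) * e := by
    field_simp
    ring
  linarith

private lemma cn_step33' {e : ℝ} (he : 0 < e) (he1 : e < 1) {n : ℕ} (hn : 1 ≤ n) :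
    (((n + 1 : ℕ) : ℝ) ^ e - (n : ℝ) ^ e) / e ≤ (n : ℝ) ^ (e - 1) := by
  have h1 : (0:ℝ) < (n:ℝ) := by exact_mod_cast hn
  push_cast
  rw [div_le_iff₀ he]
  have h2 := rpow_one_add_le_one_add_mul_self (s := 1 / (n:ℝ)) (p := e) (by
    have : 0 ≤ 1 / (n:ℝ) := by positivity
    linarith) he.le he1.le
  have h3 : 1 + 1 / (n:ℝ) = (n + 1) / n := by field_simp
  rw [h3, Real.div_rpow (by positivity) h1.le, div_le_iff₀ (Real.rpow_pos_of_pos h1 e)] at h2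
  have h4 : (n:ℝ) ^ (e - 1) = (n:ℝ) ^ e / n := by rw [Real.rpow_sub_one h1.ne']
  rw [h4]
  have h5 : (1 + e * (1 / (n:ℝ))) * (n:ℝ) ^ e = (n:ℝ) ^ e + (n:ℝ) ^ e / n * e := by
    field_simp
  linarith

/-- `n^{1-s'}/(1-s') - ∑_{j ≤ n} j^{-s'} ∈ [0, 1/(1-s')]`, `s' = 2σ - 1`. -/
theorem cn_bds {σ : ℝ} (hσ : 1 / 2 < σ) (hσ1 : σ < 1) (n : ℕ) :
    0 ≤ (n : ℝ) ^ (2 - 2 * σ) / (2 - 2 * σ) - ∑ j ∈ Finset.Icc 1 n, (j : ℝ) ^ (1 - 2 * σ) ∧
    (n : ℝ) ^ (2 - 2 * σ) / (2 - 2 * σ) - ∑ j ∈ Finset.Icc 1 n, (j : ℝ) ^ (1 - 2 * σ) ≤ 1 / (2 - 2 * σ) := by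
  set e : ℝ := 2 - 2 * σ with he
  have he0 : 0 < e := by linarith
  have he1 : e < 1 := by linarith
  have hs : 1 - 2 * σ = e - 1 := by linarith
  rw [hs]
  constructor
  · induction n with
    | zero => simp [Real.zero_rpow he0.ne']
    | succ n ih =>
      rw [Finset.sum_Icc_succ_top (by omega)]
      have := cn_step33 he0 he1 (n := n)
      rw [sub_div] at this
      linarith
  · rcases Nat.eq_zero_or_pos n with rfl | hn
    · simp [Real.zero_rpow he0.ne']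
      exact he0.le
    · have key : (n : ℝ) ^ e / e - ∑ j ∈ Finset.Icc 1 n, (j : ℝ) ^ (e - 1) ≤ 1 / e - (n:ℝ) ^ (e - 1) := by
        induction n, hn using Nat.le_induction with
        | base => simp
        | succ n hn ih =>
          rw [Finset.sum_Icc_succ_top (by omega)]
          have := cn_step33' he0 he1 hn
          rw [sub_div] at this
          linarith
      have : 0 ≤ (n:ℝ) ^ (e - 1) := Real.rpow_nonneg (Nat.cast_nonneg n) _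
      linarith

/-! ### complex powers of positive reals -/

private lemma cpc33 {u : ℝ} (hu : 0 < u) (w : ℂ) :
    (starRingEnd ℂ) ((u : ℂ) ^ w) = (u : ℂ) ^ ((starRingEnd ℂ) w) := by
  have h := Complex.cpow_conj (u : ℂ) w (by rw [Complex.arg_ofReal_of_nonneg hu.le]; exact Real.pi_ne_zero.symm)
  rw [Complex.conj_ofReal] at h
  exact h.symm

private lemma div_cpow33 {a u : ℝ} (ha : 0 ≤ a) (hu : 0 < u) (w : ℂ) :
    (((a / u : ℝ)) : ℂ) ^ w = (a : ℂ) ^ w * (u : ℂ) ^ (-w) := by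
  rw [div_eq_mul_inv, Complex.ofReal_mul, Complex.mul_cpow_ofReal_nonneg ha (by positivity), Complex.cpow_neg,
    Complex.ofReal_inv, Complex.inv_cpow]
  rw [Complex.arg_ofReal_of_nonneg hu.le]; exact Real.pi_ne_zero.symm

/-- the multiples of `h` up to `N` -/
private def mul33 (h N : ℕ) : Finset ℕ := (Finset.Icc 1 N).filter (fun a => h ∣ a)

private lemma rho_exp33 (z : ℂ) {h N : ℕ} (hh : 1 ≤ h) {u : ℝ} (hu : 0 < u) (huN : u ≤ N) :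
    rho z (u / h) = (u : ℂ) ^ (-z) * (∑ a ∈ mul33 h N, if (a : ℝ) ≤ u then (a : ℂ) ^ z else 0) -
      (u : ℂ) / (h * (z + 1)) := by
  have hh0 : (0:ℝ) < h := by exact_mod_cast hh
  unfold rho
  congr 1
  · rw [← Finset.sum_filter, Finset.mul_sum]
    symm
    refine Finset.sum_nbij' (fun a => a / h) (fun m => m * h) ?_ ?_ ?_ ?_ ?_
    · intro a ha
      simp only [mul33, Finset.mem_filter, Finset.mem_Icc] at ha
      obtain ⟨⟨⟨ha1, haN⟩, c, rfl⟩, hau⟩ := ha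
      rw [Nat.mul_div_cancel_left c (by omega), Finset.mem_Icc]
      constructor
      · rcases Nat.eq_zero_or_pos c with rfl | hc
        · simp at ha1
        · exact hc
      · rw [Nat.le_floor_iff (by positivity), le_div_iff₀ hh0]
        push_cast at hau
        linarith
    · intro m hm
      rw [Finset.mem_Icc] at hm
      have h1 : (m:ℝ) ≤ u / h := (Nat.le_floor_iff (by positivity)).mp hm.2
      rw [le_div_iff₀ hh0] at h1
      simp only [mul33, Finset.mem_filter, Finset.mem_Icc]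
      refine ⟨⟨⟨?_, ?_⟩, Dvd.intro_left m rfl⟩, by push_cast; exact h1⟩
      · exact Nat.one_le_iff_ne_zero.mpr (by
          have := hm.1
          positivity)
      · have : ((m * h : ℕ) : ℝ) ≤ N := by push_cast; linarith
        exact_mod_cast this
    · intro a ha
      simp only [mul33, Finset.mem_filter, Finset.mem_Icc] at ha
      exact Nat.div_mul_cancel ha.1.2
    · intro m hm
      exact Nat.mul_div_cancel m (by omega)
    · intro a ha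
      simp only [mul33, Finset.mem_filter, Finset.mem_Icc] at ha
      obtain ⟨⟨⟨ha1, haN⟩, c, rfl⟩, hau⟩ := ha
      rw [Nat.mul_div_cancel_left c (by omega)]
      have e1 : ((c:ℝ) / (u / h) : ℝ) = ((h * c : ℕ) : ℝ) / u := by
        push_cast; field_simp
      rw [e1, div_cpow33 (Nat.cast_nonneg _) hu]
      rw [mul_comm]
      push_cast
      rfl
  · push_cast
    rw [div_div]


private lemma int_ind33 {a N : ℝ} (ha : 0 < a) (haN : a ≤ N) {w : ℂ} (hw : w ≠ 0) :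
    IntegrableOn (fun u : ℝ => if a ≤ u then (u : ℂ) ^ (-w - 1) else 0) (Ioc 0 N) ∧
    ∫ u in Ioc (0:ℝ) N, (if a ≤ u then (u : ℂ) ^ (-w - 1) else 0) = ((a : ℂ) ^ (-w) - (N : ℂ) ^ (-w)) / w := by
  have e1 : (fun u : ℝ => if a ≤ u then (u : ℂ) ^ (-w - 1) else 0) =
      (Ici a).indicator (fun u : ℝ => (u : ℂ) ^ (-w - 1)) := by
    ext u
    simp only [indicator, mem_Ici]
  have e2 : Ioc (0:ℝ) N ∩ Ici a = Icc a N := by
    ext u
    simp only [mem_inter_iff, mem_Ioc, mem_Ici, mem_Icc]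
    constructor
    · rintro ⟨⟨h1, h2⟩, h3⟩; exact ⟨h3, h2⟩
    · rintro ⟨h1, h2⟩; exact ⟨⟨lt_of_lt_of_le ha h1, h2⟩, h1⟩
  have hc : IntegrableOn (fun u : ℝ => (u : ℂ) ^ (-w - 1)) (Icc a N) := by
    apply ContinuousOn.integrableOn_Icc
    intro u hu
    exact (Complex.continuousAt_ofReal_cpow_const u _ (Or.inr (lt_of_lt_of_le ha hu.1).ne')).continuousWithinAt
  rw [e1]
  constructor
  · rw [IntegrableOn, integrable_indicator_iff measurableSet_Ici, IntegrableOn, Measure.restrict_restrict measurableSet_Ici,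
      inter_comm, e2]
    exact hc
  · rw [setIntegral_indicator measurableSet_Ici, e2, integral_Icc_eq_integral_Ioc,
      ← intervalIntegral.integral_of_le haN, integral_cpow]
    · rw [sub_add_cancel, div_neg, ← neg_div, neg_sub]
    · right
      constructor
      · intro h
        apply hw
        have : -w = 0 := by
          have := congrArg (· + 1) h
          simpa using this
        simpa using this
      · rw [uIcc_of_le haN]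
        intro h
        exact absurd h.1 (not_le.mpr ha)

private lemma int_pow33 {σ : ℝ} (hσ1 : σ < 1) {N : ℝ} (hN : 0 < N) :
    IntegrableOn (fun u : ℝ => ((u ^ (1 - 2 * σ) : ℝ) : ℂ)) (Ioc 0 N) ∧
    ∫ u in Ioc (0:ℝ) N, ((u ^ (1 - 2 * σ) : ℝ) : ℂ) = ((N ^ (2 - 2 * σ) / (2 - 2 * σ) : ℝ) : ℂ) := by
  have h1 : IntervalIntegrable (fun u : ℝ => u ^ (1 - 2 * σ)) volume 0 N :=
    intervalIntegral.intervalIntegrable_rpow' (by linarith)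
  rw [intervalIntegrable_iff_integrableOn_Ioc_of_le hN.le] at h1
  constructor
  · exact h1.ofReal
  · rw [integral_complex_ofReal, ← intervalIntegral.integral_of_le hN.le, integral_rpow (Or.inl (by linarith))]
    rw [show 1 - 2 * σ + 1 = 2 - 2 * σ by ring, Real.zero_rpow (by linarith), sub_zero]

/-- the sum over the multiples `a ≤ u` -/
private lemma prod33 (l τ σ : ℝ) {h k N : ℕ} (hh : 1 ≤ h) (hk : 1 ≤ k) {z zc y yc x xc W2 : ℂ}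
    (hz : z = l - τ * I) (hzc : zc = l + τ * I) (hy : y = z + 1) (hyc : yc = zc + 1)
    (hx : x = z + (2 * σ - 1)) (hxc : xc = zc + (2 * σ - 1)) (hW : W2 = 2 * (l + σ))
    (hy0 : y ≠ 0) (hyc0 : yc ≠ 0) {u : ℝ} (hu : 0 < u) (huN : u ≤ N) :
    rho z (u / h) * (starRingEnd ℂ) (rho z (u / k)) * ((u ^ (-2 * σ - 1) : ℝ) : ℂ) =
      (∑ a ∈ mul33 h N, ∑ b ∈ mul33 k N, (a : ℂ) ^ z * (b : ℂ) ^ zc *
        (if ((max a b : ℕ) : ℝ) ≤ u then (u : ℂ) ^ (-W2 - 1) else 0)) -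
      (∑ a ∈ mul33 h N, 1 / (k * yc) * (a : ℂ) ^ z * (if (a : ℝ) ≤ u then (u : ℂ) ^ (-x - 1) else 0)) -
      (∑ b ∈ mul33 k N, 1 / (h * y) * (b : ℂ) ^ zc * (if (b : ℝ) ≤ u then (u : ℂ) ^ (-xc - 1) else 0)) +
      1 / (h * k * y * yc) * ((u ^ (1 - 2 * σ) : ℝ) : ℂ) := by
  have hu0 : (u : ℂ) ≠ 0 := by exact_mod_cast hu.ne'
  have hh0 : (h : ℂ) ≠ 0 := by exact_mod_cast (by omega : h ≠ 0)
  have hk0 : (k : ℂ) ≠ 0 := by exact_mod_cast (by omega : k ≠ 0)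
  have hconj : (starRingEnd ℂ) z = zc := by
    rw [hz, hzc]; simp
  rw [rho_exp33 z hh hu huN, rho_exp33 z hk hu huN]
  rw [map_sub, map_mul, cpc33 hu, map_neg, hconj, map_sum, map_div₀, map_mul, map_add, map_one, hconj,
    Complex.conj_ofReal, map_natCast]
  have e1 : ∑ b ∈ mul33 k N, (starRingEnd ℂ) (if (b : ℝ) ≤ u then (b : ℂ) ^ z else 0) =
      ∑ b ∈ mul33 k N, if (b : ℝ) ≤ u then (b : ℂ) ^ zc else 0 := by
    refine Finset.sum_congr rfl fun b hb => ?_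
    simp only [mul33, Finset.mem_filter, Finset.mem_Icc] at hb
    split_ifs with hbu
    · have := cpc33 (u := (b : ℝ)) (by exact_mod_cast hb.1.1) z
      rw [hconj] at this
      exact_mod_cast this
    · simp
  rw [e1, ← hy, ← hyc]
  set A := ∑ a ∈ mul33 h N, if (a : ℝ) ≤ u then (a : ℂ) ^ z else 0 with hA
  set B := ∑ b ∈ mul33 k N, if (b : ℝ) ≤ u then (b : ℂ) ^ zc else 0 with hB
  have p1 : (u : ℂ) ^ (-z) * (u : ℂ) ^ (-zc) * ((u ^ (-2 * σ - 1) : ℝ) : ℂ) = (u : ℂ) ^ (-W2 - 1) := by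
    rw [Complex.ofReal_cpow hu.le, ← Complex.cpow_add _ _ hu0, ← Complex.cpow_add _ _ hu0]
    congr 1
    rw [hz, hzc, hW]; push_cast; ring
  have p2 : (u : ℂ) ^ (-z) * (u : ℂ) * ((u ^ (-2 * σ - 1) : ℝ) : ℂ) = (u : ℂ) ^ (-x - 1) := by
    nth_rewrite 2 [← Complex.cpow_one (u : ℂ)]
    rw [Complex.ofReal_cpow hu.le, ← Complex.cpow_add _ _ hu0, ← Complex.cpow_add _ _ hu0]
    congr 1
    rw [hx]; push_cast; ring
  have p3 : (u : ℂ) ^ (-zc) * (u : ℂ) * ((u ^ (-2 * σ - 1) : ℝ) : ℂ) = (u : ℂ) ^ (-xc - 1) := by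
    nth_rewrite 2 [← Complex.cpow_one (u : ℂ)]
    rw [Complex.ofReal_cpow hu.le, ← Complex.cpow_add _ _ hu0, ← Complex.cpow_add _ _ hu0]
    congr 1
    rw [hxc]; push_cast; ring
  have p4 : (u : ℂ) * (u : ℂ) * ((u ^ (-2 * σ - 1) : ℝ) : ℂ) = ((u ^ (1 - 2 * σ) : ℝ) : ℂ) := by
    rw [← Complex.ofReal_mul, ← Complex.ofReal_mul]
    congr 1
    rw [show 1 - 2 * σ = 1 + 1 + (-2 * σ - 1) by ring, Real.rpow_add hu, Real.rpow_add hu, Real.rpow_one]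
  have q1 : ∑ a ∈ mul33 h N, ∑ b ∈ mul33 k N, (a : ℂ) ^ z * (b : ℂ) ^ zc *
        (if ((max a b : ℕ) : ℝ) ≤ u then (u : ℂ) ^ (-W2 - 1) else 0) = A * B * (u : ℂ) ^ (-W2 - 1) := by
    rw [hA, hB, Finset.sum_mul_sum, Finset.sum_mul]
    refine Finset.sum_congr rfl fun a _ => ?_
    rw [Finset.sum_mul]
    refine Finset.sum_congr rfl fun b _ => ?_
    have hmax : ((max a b : ℕ) : ℝ) ≤ u ↔ (a : ℝ) ≤ u ∧ (b : ℝ) ≤ u := by
      rw [Nat.cast_max, max_le_iff]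
    by_cases ha : (a : ℝ) ≤ u <;> by_cases hb : (b : ℝ) ≤ u <;> simp [ha, hb]
  have q2 : ∑ a ∈ mul33 h N, 1 / (k * yc) * (a : ℂ) ^ z * (if (a : ℝ) ≤ u then (u : ℂ) ^ (-x - 1) else 0) =
      1 / (k * yc) * A * (u : ℂ) ^ (-x - 1) := by
    rw [hA, Finset.mul_sum, Finset.sum_mul]
    refine Finset.sum_congr rfl fun a _ => ?_
    by_cases ha : (a : ℝ) ≤ u <;> simp [ha]
  have q3 : ∑ b ∈ mul33 k N, 1 / (h * y) * (b : ℂ) ^ zc * (if (b : ℝ) ≤ u then (u : ℂ) ^ (-xc - 1) else 0) =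
      1 / (h * y) * B * (u : ℂ) ^ (-xc - 1) := by
    rw [hB, Finset.mul_sum, Finset.sum_mul]
    refine Finset.sum_congr rfl fun b _ => ?_
    by_cases hb : (b : ℝ) ≤ u <;> simp [hb]
  rw [q1, q2, q3, ← p1, ← p2, ← p3, ← p4]
  field_simp
  ring

private lemma psum33 {σ : ℝ} (hσ : 1 / 2 < σ) (hσ1 : σ ≤ 3 / 4) {h N : ℕ} (hh : 1 ≤ h) (hhN : h ∣ N) :
    ∃ p : ℝ, 0 ≤ p ∧ p ≤ 2 ∧
      ∑ a ∈ mul33 h N, (a : ℝ) ^ (1 - 2 * σ) = (N : ℝ) ^ (2 - 2 * σ) / (h * (2 - 2 * σ)) - p := by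
  obtain ⟨n, rfl⟩ := hhN
  have hh0 : (0:ℝ) < h := by exact_mod_cast hh
  have he : 0 < 2 - 2 * σ := by linarith
  have h1 : ∑ a ∈ mul33 h (h * n), (a : ℝ) ^ (1 - 2 * σ) =
      (h : ℝ) ^ (1 - 2 * σ) * ∑ j ∈ Finset.Icc 1 n, (j : ℝ) ^ (1 - 2 * σ) := by
    rw [Finset.mul_sum]
    refine Finset.sum_nbij' (fun a => a / h) (fun m => m * h) ?_ ?_ ?_ ?_ ?_
    · intro a ha
      simp only [mul33, Finset.mem_filter, Finset.mem_Icc] at ha
      obtain ⟨⟨ha1, haN⟩, c, rfl⟩ := ha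
      rw [Nat.mul_div_cancel_left c (by omega), Finset.mem_Icc]
      constructor
      · rcases Nat.eq_zero_or_pos c with rfl | hc
        · simp at ha1
        · exact hc
      · exact Nat.le_of_mul_le_mul_left haN (by omega)
    · intro m hm
      rw [Finset.mem_Icc] at hm
      simp only [mul33, Finset.mem_filter, Finset.mem_Icc]
      refine ⟨⟨Nat.one_le_iff_ne_zero.mpr (by have := hm.1; positivity), ?_⟩, Dvd.intro_left m rfl⟩
      rw [mul_comm m h]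
      exact Nat.mul_le_mul_left h hm.2
    · intro a ha
      simp only [mul33, Finset.mem_filter, Finset.mem_Icc] at ha
      exact Nat.div_mul_cancel ha.2
    · intro m hm
      exact Nat.mul_div_cancel m (by omega)
    · intro a ha
      simp only [mul33, Finset.mem_filter, Finset.mem_Icc] at ha
      obtain ⟨⟨ha1, haN⟩, c, rfl⟩ := ha
      rw [Nat.mul_div_cancel_left c (by omega)]
      push_cast
      rw [Real.mul_rpow hh0.le (Nat.cast_nonneg c)]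
  obtain ⟨c1, c2⟩ := cn_bds hσ (by linarith : σ < 1) n
  set c := (n : ℝ) ^ (2 - 2 * σ) / (2 - 2 * σ) - ∑ j ∈ Finset.Icc 1 n, (j : ℝ) ^ (1 - 2 * σ) with hc
  have hp0 : 0 ≤ (h : ℝ) ^ (1 - 2 * σ) := Real.rpow_nonneg hh0.le _
  have hp1 : (h : ℝ) ^ (1 - 2 * σ) ≤ 1 :=
    Real.rpow_le_one_of_one_le_of_nonpos (by exact_mod_cast hh) (by linarith)
  refine ⟨(h : ℝ) ^ (1 - 2 * σ) * c, mul_nonneg hp0 c1, ?_, ?_⟩
  · have h2 : 1 / (2 - 2 * σ) ≤ 2 := by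
      rw [div_le_iff₀ he]; linarith
    calc (h : ℝ) ^ (1 - 2 * σ) * c ≤ 1 * c := mul_le_mul_of_nonneg_right hp1 c1
      _ ≤ 2 := by linarith
  · rw [h1, hc]
    push_cast
    rw [Real.mul_rpow hh0.le (Nat.cast_nonneg n)]
    have h3 : (h : ℝ) ^ (2 - 2 * σ) = (h : ℝ) ^ (1 - 2 * σ) * h := by
      rw [show 2 - 2 * σ = (1 - 2 * σ) + 1 by ring, Real.rpow_add_one hh0.ne']
    rw [h3]
    field_simp
    ring

private lemma re_cpow33 {r : ℝ} (hr : 0 < r) (l τ : ℝ) :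
    ((r : ℂ) ^ ((l : ℂ) - τ * I)).re = r ^ l * Real.cos (τ * Real.log r) ∧
    ((r : ℂ) ^ ((l : ℂ) + τ * I)).re = r ^ l * Real.cos (τ * Real.log r) := by
  have hr0 : (r : ℂ) ≠ 0 := by exact_mod_cast hr.ne'
  rw [Complex.cpow_def_of_ne_zero hr0, Complex.cpow_def_of_ne_zero hr0, ← Complex.ofReal_log hr.le, Complex.exp_re,
    Complex.exp_re, Real.rpow_def_of_pos hr]
  constructor
  · have h1 : ((Real.log r : ℂ) * ((l : ℂ) - τ * I)).re = Real.log r * l := by simp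
    have h2 : ((Real.log r : ℂ) * ((l : ℂ) - τ * I)).im = -(τ * Real.log r) := by simp; ring
    rw [h1, h2, Real.cos_neg]
  · have h1 : ((Real.log r : ℂ) * ((l : ℂ) + τ * I)).re = Real.log r * l := by simp
    have h2 : ((Real.log r : ℂ) * ((l : ℂ) + τ * I)).im = (τ * Real.log r) := by simp; ring
    rw [h1, h2]

private lemma kap33 (l τ σ : ℝ) {a b : ℝ} (ha : 0 < a) (hb : 0 < b) {z zc W2 : ℂ}
    (hz : z = l - τ * I) (hzc : zc = l + τ * I) (hW : W2 = 2 * (l + σ)) :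
    ((a : ℂ) ^ z * (b : ℂ) ^ zc * ((max a b : ℝ) : ℂ) ^ (-W2)).re = kap l τ σ a b := by
  have ha0 : (a : ℂ) ≠ 0 := by exact_mod_cast ha.ne'
  have hb0 : (b : ℂ) ≠ 0 := by exact_mod_cast hb.ne'
  unfold kap
  rcases le_total a b with hab | hab
  · rw [max_eq_right hab, min_eq_left hab]
    have e : (a : ℂ) ^ z * (b : ℂ) ^ zc * (b : ℂ) ^ (-W2) = ((a / b : ℝ) : ℂ) ^ z * ((b ^ (-2 * σ) : ℝ) : ℂ) := by
      rw [div_cpow33 ha.le hb, Complex.ofReal_cpow hb.le, mul_assoc, mul_assoc, ← Complex.cpow_add _ _ hb0,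
        ← Complex.cpow_add _ _ hb0]
      congr 2
      rw [hz, hzc, hW]; push_cast; ring
    rw [e, Complex.re_mul_ofReal, hz, (re_cpow33 (div_pos ha hb) l τ).1]
  · rw [max_eq_left hab, min_eq_right hab]
    have e : (a : ℂ) ^ z * (b : ℂ) ^ zc * (a : ℂ) ^ (-W2) = ((b / a : ℝ) : ℂ) ^ zc * ((a ^ (-2 * σ) : ℝ) : ℂ) := by
      rw [div_cpow33 hb.le ha, Complex.ofReal_cpow ha.le, mul_comm ((a : ℂ) ^ z), mul_assoc, mul_assoc,
        ← Complex.cpow_add _ _ ha0, ← Complex.cpow_add _ _ ha0]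
      congr 2
      rw [hz, hzc, hW]; push_cast; ring
    rw [e, Complex.re_mul_ofReal, hzc, (re_cpow33 (div_pos hb ha) l τ).2]

private lemma alg33 {x xc y yc e h k Ne pa pb r rc D W2 : ℂ} (hx : x ≠ 0) (hxc : xc ≠ 0) (hy : y ≠ 0) (hyc : yc ≠ 0)
    (he : e ≠ 0) (hh : h ≠ 0) (hk : k ≠ 0) (hyx : y = x + e) (hycx : yc = xc + e) (hW : W2 = xc + e + x) :
    D - 1 / (k * yc) * (W2 * (((Ne / (h * e) - pa) - (r + Ne / (h * y))) / x) + (r + Ne / (h * y))) -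
      1 / (h * y) * (W2 * (((Ne / (k * e) - pb) - (rc + Ne / (k * yc))) / xc) + (rc + Ne / (k * yc))) +
      1 / (h * k * y * yc) * (W2 * (Ne / e) + Ne) =
    D - Ne / (h * k * e) * (1 / y + 1 / yc) +
      (1 / k * (1 / x + 1 / yc) * pa + 1 / h * (1 / xc + 1 / y) * pb + (r / (k * x) + rc / (h * xc))) := by
  subst hW
  field_simp
  rw [hyx, hycx]
  ring

private lemma mem_mul33 {h N a : ℕ} (ha : a ∈ mul33 h N) : (1 : ℝ) ≤ a ∧ (a : ℝ) ≤ N := by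
  simp only [mul33, Finset.mem_filter, Finset.mem_Icc] at ha
  exact ⟨by exact_mod_cast ha.1.1, by exact_mod_cast ha.1.2⟩

private lemma main33 (l τ σ : ℝ) (hσ1 : σ ≤ 3 / 4) {h k N : ℕ} (hh : 1 ≤ h) (hk : 1 ≤ k)
    (hN : 1 ≤ N) {z zc y yc x xc W2 : ℂ}
    (hz : z = l - τ * I) (hzc : zc = l + τ * I) (hy : y = z + 1) (hyc : yc = zc + 1)
    (hx : x = z + (2 * σ - 1)) (hxc : xc = zc + (2 * σ - 1)) (hW : W2 = 2 * (l + σ))
    (hy0 : y ≠ 0) (hyc0 : yc ≠ 0) (hx0 : x ≠ 0) (hxc0 : xc ≠ 0) (hW0 : W2 ≠ 0) :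
    ∫ u in Ioc (0:ℝ) N, (rho z (u / h) * (starRingEnd ℂ) (rho z (u / k))).re * u ^ (-2 * σ - 1) =
      ((∑ a ∈ mul33 h N, ∑ b ∈ mul33 k N, (a : ℂ) ^ z * (b : ℂ) ^ zc *
        (((((max a b : ℕ) : ℝ) : ℂ) ^ (-W2) - ((N : ℝ) : ℂ) ^ (-W2)) / W2)) -
      (∑ a ∈ mul33 h N, 1 / (k * yc) * (a : ℂ) ^ z * ((((a : ℝ) : ℂ) ^ (-x) - ((N : ℝ) : ℂ) ^ (-x)) / x)) -
      (∑ b ∈ mul33 k N, 1 / (h * y) * (b : ℂ) ^ zc * ((((b : ℝ) : ℂ) ^ (-xc) - ((N : ℝ) : ℂ) ^ (-xc)) / xc)) +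
      1 / (h * k * y * yc) * (((N : ℝ) ^ (2 - 2 * σ) / (2 - 2 * σ) : ℝ) : ℂ)).re := by
  have hN0 : (0:ℝ) < N := by exact_mod_cast hN
  have i1 : ∀ a ∈ mul33 h N, ∀ b ∈ mul33 k N, IntegrableOn (fun u : ℝ => (a : ℂ) ^ z * (b : ℂ) ^ zc *
        (if ((max a b : ℕ) : ℝ) ≤ u then (u : ℂ) ^ (-W2 - 1) else 0)) (Ioc (0:ℝ) N) := by
    intro a ha b hb
    apply Integrable.const_mul
    refine (int_ind33 ?_ ?_ hW0).1
    · rw [Nat.cast_max]; exact lt_of_lt_of_le one_pos (le_trans (mem_mul33 ha).1 (le_max_left _ _))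
    · rw [Nat.cast_max]; exact max_le (mem_mul33 ha).2 (mem_mul33 hb).2
  have i2 : ∀ a ∈ mul33 h N, IntegrableOn (fun u : ℝ => 1 / (k * yc) * (a : ℂ) ^ z *
        (if (a : ℝ) ≤ u then (u : ℂ) ^ (-x - 1) else 0)) (Ioc (0:ℝ) N) := by
    intro a ha
    apply Integrable.const_mul
    exact (int_ind33 (lt_of_lt_of_le one_pos (mem_mul33 ha).1) (mem_mul33 ha).2 hx0).1
  have i3 : ∀ b ∈ mul33 k N, IntegrableOn (fun u : ℝ => 1 / (h * y) * (b : ℂ) ^ zc *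
        (if (b : ℝ) ≤ u then (u : ℂ) ^ (-xc - 1) else 0)) (Ioc (0:ℝ) N) := by
    intro b hb
    apply Integrable.const_mul
    exact (int_ind33 (lt_of_lt_of_le one_pos (mem_mul33 hb).1) (mem_mul33 hb).2 hxc0).1
  have i4 : IntegrableOn (fun u : ℝ => 1 / (h * k * y * yc) * ((u ^ (1 - 2 * σ) : ℝ) : ℂ)) (Ioc (0:ℝ) N) :=
    (int_pow33 (by linarith : σ < 1) hN0).1.const_mul _
  have I1 : IntegrableOn (fun u : ℝ => ∑ a ∈ mul33 h N, ∑ b ∈ mul33 k N, (a : ℂ) ^ z * (b : ℂ) ^ zc *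
        (if ((max a b : ℕ) : ℝ) ≤ u then (u : ℂ) ^ (-W2 - 1) else 0)) (Ioc (0:ℝ) N) :=
    integrable_finsetSum _ fun a ha => integrable_finsetSum _ fun b hb => i1 a ha b hb
  have I2 : IntegrableOn (fun u : ℝ => ∑ a ∈ mul33 h N, 1 / (k * yc) * (a : ℂ) ^ z *
        (if (a : ℝ) ≤ u then (u : ℂ) ^ (-x - 1) else 0)) (Ioc (0:ℝ) N) := integrable_finsetSum _ fun a ha => i2 a ha
  have I3 : IntegrableOn (fun u : ℝ => ∑ b ∈ mul33 k N, 1 / (h * y) * (b : ℂ) ^ zc *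
        (if (b : ℝ) ≤ u then (u : ℂ) ^ (-xc - 1) else 0)) (Ioc (0:ℝ) N) := integrable_finsetSum _ fun b hb => i3 b hb
  have hcong : ∫ u in Ioc (0:ℝ) N, (rho z (u / h) * (starRingEnd ℂ) (rho z (u / k))).re * u ^ (-2 * σ - 1) =
      ∫ u in Ioc (0:ℝ) N, ((∑ a ∈ mul33 h N, ∑ b ∈ mul33 k N, (a : ℂ) ^ z * (b : ℂ) ^ zc *
        (if ((max a b : ℕ) : ℝ) ≤ u then (u : ℂ) ^ (-W2 - 1) else 0)) -
      (∑ a ∈ mul33 h N, 1 / (k * yc) * (a : ℂ) ^ z * (if (a : ℝ) ≤ u then (u : ℂ) ^ (-x - 1) else 0)) -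
      (∑ b ∈ mul33 k N, 1 / (h * y) * (b : ℂ) ^ zc * (if (b : ℝ) ≤ u then (u : ℂ) ^ (-xc - 1) else 0)) +
      1 / (h * k * y * yc) * ((u ^ (1 - 2 * σ) : ℝ) : ℂ)).re := by
    refine setIntegral_congr_fun measurableSet_Ioc fun u hu => ?_
    have := prod33 l τ σ hh hk hz hzc hy hyc hx hxc hW hy0 hyc0 hu.1 hu.2
    rw [← this, Complex.re_mul_ofReal]
  rw [hcong]
  have hre := integral_re (𝕜 := ℂ) (((I1.sub I2).sub I3).add i4)
  simp only [RCLike.re_eq_complex_re] at hre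
  refine hre.trans ?_
  congr 1
  rw [integral_add' ((I1.sub I2).sub I3) i4, integral_sub' (I1.sub I2) I3, integral_sub' I1 I2,
    integral_finsetSum _ (fun a ha => integrable_finsetSum _ fun b hb => i1 a ha b hb),
    integral_finsetSum _ (fun a ha => i2 a ha), integral_finsetSum _ (fun b hb => i3 b hb), integral_const_mul,
    (int_pow33 (by linarith : σ < 1) hN0).2]
  congr 1
  congr 1
  · congr 1
    · refine Finset.sum_congr rfl fun a ha => ?_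
      rw [integral_finsetSum _ (fun b hb => i1 a ha b hb)]
      refine Finset.sum_congr rfl fun b hb => ?_
      rw [integral_const_mul, (int_ind33 ?_ ?_ hW0).2]
      · rw [Nat.cast_max]; exact lt_of_lt_of_le one_pos (le_trans (mem_mul33 ha).1 (le_max_left _ _))
      · rw [Nat.cast_max]; exact max_le (mem_mul33 ha).2 (mem_mul33 hb).2
    · refine Finset.sum_congr rfl fun a ha => ?_
      rw [integral_const_mul, (int_ind33 (lt_of_lt_of_le one_pos (mem_mul33 ha).1) (mem_mul33 ha).2 hx0).2]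
  · refine Finset.sum_congr rfl fun b hb => ?_
    rw [integral_const_mul, (int_ind33 (lt_of_lt_of_le one_pos (mem_mul33 hb).1) (mem_mul33 hb).2 hxc0).2]

private lemma bsum33 (z : ℂ) {σ : ℝ} {h N : ℕ} (hh : 1 ≤ h) (hN : 1 ≤ N) {y x : ℂ} (hy : y = z + 1)
    (hx : x = z + (2 * σ - 1)) :
    ∑ a ∈ mul33 h N, (a : ℂ) ^ z * ((N : ℝ) : ℂ) ^ (-x) =
      (((N : ℝ) ^ (1 - 2 * σ) : ℝ) : ℂ) * rho z (N / h) + (((N : ℝ) ^ (2 - 2 * σ) : ℝ) : ℂ) / (h * y) := by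
  have hN0 : (0:ℝ) < N := by exact_mod_cast hN
  have hNc : ((N : ℝ) : ℂ) ≠ 0 := by exact_mod_cast hN0.ne'
  have e1 := rho_exp33 z hh hN0 le_rfl
  have e2 : ∑ a ∈ mul33 h N, (if (a : ℝ) ≤ N then (a : ℂ) ^ z else 0) = ∑ a ∈ mul33 h N, (a : ℂ) ^ z := by
    refine Finset.sum_congr rfl fun a ha => ?_
    rw [if_pos (mem_mul33 ha).2]
  rw [e2, ← hy] at e1
  have e3 : ((N : ℝ) : ℂ) ^ (-x) = ((N : ℝ) : ℂ) ^ (-z) * (((N : ℝ) ^ (1 - 2 * σ) : ℝ) : ℂ) := by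
    rw [Complex.ofReal_cpow hN0.le, ← Complex.cpow_add _ _ hNc]
    congr 1
    rw [hx]; push_cast; ring
  have e4 : (((N : ℝ) ^ (2 - 2 * σ) : ℝ) : ℂ) = (((N : ℝ) ^ (1 - 2 * σ) : ℝ) : ℂ) * ((N : ℝ) : ℂ) := by
    rw [← Complex.ofReal_mul, ← Real.rpow_add_one hN0.ne']
    congr 2
    ring
  rw [e3, e4, e1, ← Finset.sum_mul]
  ring

private lemma nn33 {N : ℕ} (hN : 1 ≤ N) (w : ℂ) : ((N : ℝ) : ℂ) * ((N : ℝ) : ℂ) ^ (-w - 1) = ((N : ℝ) : ℂ) ^ (-w) := by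
  have hNc : ((N : ℝ) : ℂ) ≠ 0 := by
    have : (0:ℝ) < N := by exact_mod_cast hN
    exact_mod_cast this.ne'
  rw [Complex.cpow_sub _ _ hNc, Complex.cpow_one]
  field_simp

private lemma part33 (z : ℂ) {h N : ℕ} {x C W : ℂ} (hN : 1 ≤ N) :
    W * (∑ a ∈ mul33 h N, C * (a : ℂ) ^ z * ((((a : ℝ) : ℂ) ^ (-x) - ((N : ℝ) : ℂ) ^ (-x)) / x)) +
      ((N : ℝ) : ℂ) * (∑ a ∈ mul33 h N, C * (a : ℂ) ^ z * (if (a : ℝ) ≤ N then ((N : ℝ) : ℂ) ^ (-x - 1) else 0)) =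
    C * (W * ((∑ a ∈ mul33 h N, (a : ℂ) ^ z * ((a : ℝ) : ℂ) ^ (-x) -
        ∑ a ∈ mul33 h N, (a : ℂ) ^ z * ((N : ℝ) : ℂ) ^ (-x)) / x) +
      ∑ a ∈ mul33 h N, (a : ℂ) ^ z * ((N : ℝ) : ℂ) ^ (-x)) := by
  rw [← Finset.sum_sub_distrib, Finset.sum_div, Finset.mul_sum, Finset.mul_sum, Finset.mul_sum, ← Finset.sum_add_distrib,
    ← Finset.sum_add_distrib, Finset.mul_sum]
  refine Finset.sum_congr rfl fun a ha => ?_
  rw [if_pos (mem_mul33 ha).2, ← nn33 hN x]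
  ring

private lemma part33' (z zc : ℂ) {h k N : ℕ} {W : ℂ} (hW : W ≠ 0) (hN : 1 ≤ N) :
    W * (∑ a ∈ mul33 h N, ∑ b ∈ mul33 k N, (a : ℂ) ^ z * (b : ℂ) ^ zc *
        (((((max a b : ℕ) : ℝ) : ℂ) ^ (-W) - ((N : ℝ) : ℂ) ^ (-W)) / W)) +
      ((N : ℝ) : ℂ) * (∑ a ∈ mul33 h N, ∑ b ∈ mul33 k N, (a : ℂ) ^ z * (b : ℂ) ^ zc *
        (if ((max a b : ℕ) : ℝ) ≤ N then ((N : ℝ) : ℂ) ^ (-W - 1) else 0)) =
    ∑ a ∈ mul33 h N, ∑ b ∈ mul33 k N, (a : ℂ) ^ z * (b : ℂ) ^ zc * (((max a b : ℕ) : ℝ) : ℂ) ^ (-W) := by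
  rw [Finset.mul_sum, Finset.mul_sum, ← Finset.sum_add_distrib]
  refine Finset.sum_congr rfl fun a ha => ?_
  rw [Finset.mul_sum, Finset.mul_sum, ← Finset.sum_add_distrib]
  refine Finset.sum_congr rfl fun b hb => ?_
  have h1 : ((max a b : ℕ) : ℝ) ≤ N := by
    rw [Nat.cast_max]; exact max_le (mem_mul33 ha).2 (mem_mul33 hb).2
  rw [if_pos h1]
  have h2 := nn33 hN W
  have h3 : ((N : ℝ) : ℂ) * ((a : ℂ) ^ z * (b : ℂ) ^ zc * ((N : ℝ) : ℂ) ^ (-W - 1)) =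
      (a : ℂ) ^ z * (b : ℂ) ^ zc * ((N : ℝ) : ℂ) ^ (-W) := by
    rw [← h2]; ring
  rw [h3]
  field_simp
  ring

private lemma pw33 (z : ℂ) {σ : ℝ} {x : ℂ} (hx : x = z + (2 * σ - 1)) {h N : ℕ} :
    ∑ a ∈ mul33 h N, (a : ℂ) ^ z * ((a : ℝ) : ℂ) ^ (-x) = ((∑ a ∈ mul33 h N, (a : ℝ) ^ (1 - 2 * σ) : ℝ) : ℂ) := by
  rw [Complex.ofReal_sum]
  refine Finset.sum_congr rfl fun a ha => ?_
  have ha0 : (0:ℝ) < a := lt_of_lt_of_le one_pos (mem_mul33 ha).1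
  have hac : (a : ℂ) ≠ 0 := by exact_mod_cast ha0.ne'
  rw [Complex.ofReal_cpow ha0.le, Complex.ofReal_natCast, ← Complex.cpow_add _ _ hac]
  congr 1
  rw [hx]; push_cast; ring

theorem trunc {l τ σ : ℝ} (hl : 1 ≤ l) (hσ : 1 / 2 < σ) (hσ1 : σ ≤ 3 / 4) {h k N : ℕ} (hh : 1 ≤ h) (hk : 1 ≤ k)
    (hN : 1 ≤ N) (hhN : h ∣ N) (hkN : k ∣ N) :
    |2 * (l + σ) * (∫ u in Ioc (0:ℝ) N,
          (rho (l - τ * I) (u / h) * (starRingEnd ℂ) (rho (l - τ * I) (u / k))).re * u ^ (-2 * σ - 1)) +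
        (rho (l - τ * I) (N / h) * (starRingEnd ℂ) (rho (l - τ * I) (N / k))).re * (N : ℝ) ^ (-2 * σ) -
      (∑ a ∈ (Finset.Icc 1 N).filter (fun a => h ∣ a), ∑ b ∈ (Finset.Icc 1 N).filter (fun b => k ∣ b),
          kap l τ σ a b -
        (N : ℝ) ^ (2 - 2 * σ) * ((l + 1) / ((l + 1) ^ 2 + τ ^ 2)) / ((1 - σ) * (h * k)))| ≤
      12 * (1 + |τ| / l) / l := by
  obtain ⟨z, hz⟩ : ∃ z : ℂ, z = l - τ * I := ⟨_, rfl⟩
  obtain ⟨zc, hzc⟩ : ∃ zc : ℂ, zc = l + τ * I := ⟨_, rfl⟩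
  obtain ⟨y, hy⟩ : ∃ y : ℂ, y = z + 1 := ⟨_, rfl⟩
  obtain ⟨yc, hyc⟩ : ∃ yc : ℂ, yc = zc + 1 := ⟨_, rfl⟩
  obtain ⟨x, hx⟩ : ∃ x : ℂ, x = z + (2 * σ - 1) := ⟨_, rfl⟩
  obtain ⟨xc, hxc⟩ : ∃ xc : ℂ, xc = zc + (2 * σ - 1) := ⟨_, rfl⟩
  obtain ⟨W2, hW⟩ : ∃ W2 : ℂ, W2 = 2 * (l + σ) := ⟨_, rfl⟩
  have hN0 : (0:ℝ) < N := by exact_mod_cast hN
  have hN1 : (1:ℝ) ≤ N := by exact_mod_cast hN
  have hh0 : (h : ℂ) ≠ 0 := by exact_mod_cast (by omega : h ≠ 0)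
  have hk0 : (k : ℂ) ≠ 0 := by exact_mod_cast (by omega : k ≠ 0)
  have hl0 : 0 < l := by linarith
  -- real parts
  have rz : z.re = l := by rw [hz]; simp
  have rzc : zc.re = l := by rw [hzc]; simp
  have rx : l ≤ x.re := by
    have : x.re = l + (2 * σ - 1) := by rw [hx, Complex.add_re, rz]; simp
    rw [this]; linarith
  have rxc : l ≤ xc.re := by
    have : xc.re = l + (2 * σ - 1) := by rw [hxc, Complex.add_re, rzc]; simp
    rw [this]; linarith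
  have ry : l ≤ y.re := by
    rw [hy, Complex.add_re, rz, Complex.one_re]; linarith
  have ryc : l ≤ yc.re := by
    rw [hyc, Complex.add_re, rzc, Complex.one_re]; linarith
  have nrm : ∀ w : ℂ, l ≤ w.re → l ≤ ‖w‖ := fun w hw => hw.trans (Complex.re_le_norm w)
  have ne0 : ∀ w : ℂ, l ≤ w.re → w ≠ 0 := by
    intro w hw h0
    rw [h0, Complex.zero_re] at hw
    linarith
  have hx0 := ne0 x rx
  have hxc0 := ne0 xc rxc
  have hy0 := ne0 y ry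
  have hyc0 := ne0 yc ryc
  have hW0 : W2 ≠ 0 := by
    apply ne0
    rw [hW]
    have : (2 * ((l:ℂ) + σ)).re = 2 * (l + σ) := by simp
    rw [this]; linarith
  set e : ℝ := 2 - 2 * σ with he
  have he0 : 0 < e := by linarith
  have hec : (e : ℂ) ≠ 0 := by exact_mod_cast he0.ne'
  obtain ⟨pa, pa0, pa2, hpa⟩ := psum33 hσ hσ1 hh hhN
  obtain ⟨pb, pb0, pb2, hpb⟩ := psum33 hσ hσ1 hk hkN
  rw [← he] at hpa hpb
  have hS := main33 l τ σ hσ1 hh hk hN hz hzc hy hyc hx hxc hW hy0 hyc0 hx0 hxc0 hW0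
  have hB := prod33 l τ σ hh hk hz hzc hy hyc hx hxc hW hy0 hyc0 hN0 (le_refl (N:ℝ))
  rw [← hz]
  set D : ℂ := ∑ a ∈ mul33 h N, ∑ b ∈ mul33 k N, (a : ℂ) ^ z * (b : ℂ) ^ zc * (((max a b : ℕ) : ℝ) : ℂ) ^ (-W2) with hD
  set Ne : ℂ := (((N : ℝ) ^ e : ℝ) : ℂ) with hNe
  set n' : ℂ := (((N : ℝ) ^ (1 - 2 * σ) : ℝ) : ℂ) with hn'
  have hW2r : W2 = ((2 * (l + σ) : ℝ) : ℂ) := by rw [hW]; push_cast; ring
  -- the boundary term
  have hbd : (rho z (N / h) * (starRingEnd ℂ) (rho z (N / k))).re * (N : ℝ) ^ (-2 * σ) =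
      (((N : ℝ) : ℂ) * (rho z (N / h) * (starRingEnd ℂ) (rho z (N / k)) * (((N : ℝ) ^ (-2 * σ - 1) : ℝ) : ℂ))).re := by
    rw [Complex.re_ofReal_mul, Complex.re_mul_ofReal]
    have : (N : ℝ) ^ (-2 * σ) = (N : ℝ) ^ (-2 * σ - 1) * N := by
      rw [← Real.rpow_add_one hN0.ne']; congr 1; ring
    rw [this]; ring
  have hS2 : ∀ V : ℂ, 2 * (l + σ) * V.re = (W2 * V).re := by
    intro V; rw [hW2r, Complex.re_ofReal_mul]
  rw [hbd, hB, hS, hS2, ← Complex.add_re]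
  have hq4 : (((N : ℝ)) : ℂ) * n' = Ne := by
    rw [hn', hNe, ← Complex.ofReal_mul]
    congr 1
    rw [mul_comm, ← Real.rpow_add_one hN0.ne']
    congr 1
    rw [he]; ring
  have e2 : (((N : ℝ) ^ e / e : ℝ) : ℂ) = Ne / e := by
    rw [hNe]; push_cast; ring
  rw [e2]
  have hPA := pw33 z hx (h := h) (N := N)
  have hPB := pw33 zc hxc (h := k) (N := N)
  rw [hpa] at hPA
  rw [hpb] at hPB
  have hQA := bsum33 z hh hN hy hx
  have hQB := bsum33 zc hk hN hyc hxc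
  rw [← hn', ← he, ← hNe] at hQA hQB
  have t1 := part33' z zc (h := h) (k := k) hW0 hN
  have t2 := part33 z (h := h) (x := x) (C := 1 / (k * yc)) (W := W2) hN
  have t3 := part33 zc (h := k) (x := xc) (C := 1 / (h * y)) (W := W2) hN
  rw [hPA, hQA] at t2
  rw [hPB, hQB] at t3
  rw [← hD] at t1
  set R : ℂ := 1 / (k:ℂ) * (1 / x + 1 / yc) * pa + 1 / (h:ℂ) * (1 / xc + 1 / y) * pb +
    (n' * rho z (N / h) / (k * x) + n' * rho zc (N / k) / (h * xc)) with hR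
  have alg := alg33 (x := x) (xc := xc) (y := y) (yc := yc) (e := (e : ℂ)) (h := (h : ℂ)) (k := (k : ℂ)) (Ne := Ne)
    (pa := pa) (pb := pb) (r := n' * rho z (N / h)) (rc := n' * rho zc (N / k)) (D := D) (W2 := W2)
    hx0 hxc0 hy0 hyc0 hec hh0 hk0 (by rw [hy, hx, he]; push_cast; ring) (by rw [hyc, hxc, he]; push_cast; ring)
    (by rw [hW, hxc, hx, hz, hzc, he]; push_cast; ring)
  have tot : ∀ V1 V2 V3 U1 U2 U3 c : ℂ, W2 * V1 + ((N : ℝ) : ℂ) * U1 = D →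
      W2 * V2 + ((N : ℝ) : ℂ) * U2 = 1 / (k * yc) * (W2 * (((((N : ℝ) ^ e / (h * e) - pa : ℝ) : ℂ) -
        (n' * rho z (N / h) + Ne / (h * y))) / x) + (n' * rho z (N / h) + Ne / (h * y))) →
      W2 * V3 + ((N : ℝ) : ℂ) * U3 = 1 / (h * y) * (W2 * (((((N : ℝ) ^ e / (k * e) - pb : ℝ) : ℂ) -
        (n' * rho zc (N / k) + Ne / (k * yc))) / xc) + (n' * rho zc (N / k) + Ne / (k * yc))) →
      c = 1 / (h * k * y * yc) →
      W2 * (V1 - V2 - V3 + c * (Ne / e)) + ((N : ℝ) : ℂ) * (U1 - U2 - U3 + c * n') =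
        D - Ne / (h * k * e) * (1 / y + 1 / yc) + R := by
    intro V1 V2 V3 U1 U2 U3 c h1 h2 h3 hc
    rw [← alg, ← h1]
    have k1 : (((N : ℝ) ^ e / (h * e) - pa : ℝ) : ℂ) = Ne / (h * e) - pa := by rw [hNe]; push_cast; ring
    have k2 : (((N : ℝ) ^ e / (k * e) - pb : ℝ) : ℂ) = Ne / (k * e) - pb := by rw [hNe]; push_cast; ring
    rw [k1] at h2
    rw [k2] at h3
    rw [← h2, ← h3, ← hc, ← hq4]
    ring
  rw [tot _ _ _ _ _ _ _ t1 t2 t3 rfl]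
  have hDre : D.re = ∑ a ∈ (Finset.Icc 1 N).filter (fun a => h ∣ a), ∑ b ∈ (Finset.Icc 1 N).filter (fun b => k ∣ b),
      kap l τ σ a b := by
    rw [hD, Complex.re_sum]
    refine Finset.sum_congr rfl fun a ha => ?_
    rw [Complex.re_sum]
    refine Finset.sum_congr rfl fun b hb => ?_
    have ha0 : (0:ℝ) < a := lt_of_lt_of_le one_pos (mem_mul33 (h := h) ha).1
    have hb0 : (0:ℝ) < b := lt_of_lt_of_le one_pos (mem_mul33 (h := k) hb).1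
    have := kap33 l τ σ ha0 hb0 hz hzc hW
    rw [← this, Nat.cast_max, Complex.ofReal_natCast, Complex.ofReal_natCast]
  have hyv : y = (l + 1) - τ * I := by rw [hy, hz]; ring
  have hycv : yc = (l + 1) + τ * I := by rw [hyc, hzc]; ring
  have hq0 : (0:ℝ) < (l + 1) ^ 2 + τ ^ 2 := by positivity
  have hyy : y * yc = (((l + 1) ^ 2 + τ ^ 2 : ℝ) : ℂ) := by
    rw [hyv, hycv]; push_cast
    have := Complex.I_sq
    linear_combination (-(τ:ℂ)^2) * this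
  have hsum : 1 / y + 1 / yc = ((2 * ((l + 1) / ((l + 1) ^ 2 + τ ^ 2)) : ℝ) : ℂ) := by
    have h1 : 1 / y + 1 / yc = (y + yc) / (y * yc) := by field_simp; ring
    rw [h1, hyy, hyv, hycv]; push_cast; ring
  have hM : Ne / (h * k * e) * (1 / y + 1 / yc) =
      (((N : ℝ) ^ e * ((l + 1) / ((l + 1) ^ 2 + τ ^ 2)) / ((1 - σ) * (h * k)) : ℝ) : ℂ) := by
    rw [hsum, hNe]
    have h1 : (h:ℝ) ≠ 0 := by exact_mod_cast hh0
    have h2 : (k:ℝ) ≠ 0 := by exact_mod_cast hk0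
    have h3 : (1 - σ) ≠ 0 := by linarith
    have h4 : (N : ℝ) ^ e / (h * k * e) * (2 * ((l + 1) / ((l + 1) ^ 2 + τ ^ 2))) =
        (N : ℝ) ^ e * ((l + 1) / ((l + 1) ^ 2 + τ ^ 2)) / ((1 - σ) * (h * k)) := by
      have h5 : e = 2 * (1 - σ) := by rw [he]; ring
      rw [div_mul_eq_mul_div, div_eq_div_iff (by positivity) (by positivity)]
      rw [show (h:ℝ) * k * e = h * k * (2 * (1 - σ)) by rw [h5]]
      ring
    rw [← h4]; push_cast; ring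
  rw [Complex.add_re, Complex.sub_re, hM, hDre, Complex.ofReal_re]
  have e5 : ∀ A B C : ℝ, A - B + C - (A - B) = C := fun A B C => by ring
  rw [e5]
  refine (Complex.abs_re_le_norm R).trans ?_
  have inv : ∀ w : ℂ, l ≤ w.re → ‖1 / w‖ ≤ 1 / l := by
    intro w hw
    rw [norm_div, norm_one]
    exact one_div_le_one_div_of_le hl0 (nrm w hw)
  have natinv : ∀ m : ℕ, 1 ≤ m → ‖1 / (m:ℂ)‖ ≤ 1 := by
    intro m hm
    rw [norm_div, norm_one, Complex.norm_natCast, div_le_one (by exact_mod_cast hm)]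
    exact_mod_cast hm
  have b1 : ∀ (m : ℕ) (w v : ℂ) (p : ℝ), 1 ≤ m → l ≤ w.re → l ≤ v.re → 0 ≤ p → p ≤ 2 →
      ‖1 / (m:ℂ) * (1 / w + 1 / v) * p‖ ≤ 4 / l := by
    intro m w v p hm hw hv hp0 hp2
    rw [norm_mul, norm_mul, Complex.norm_real, Real.norm_of_nonneg hp0]
    have h1 : ‖1 / w + 1 / v‖ ≤ 1 / l + 1 / l := (norm_add_le _ _).trans (add_le_add (inv w hw) (inv v hv))
    calc ‖1 / (m:ℂ)‖ * ‖1 / w + 1 / v‖ * p ≤ 1 * (1 / l + 1 / l) * 2 := by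
          apply mul_le_mul (mul_le_mul (natinv m hm) h1 (norm_nonneg _) zero_le_one) hp2 hp0 (by positivity)
      _ = 4 / l := by ring
  have nz : ‖z‖ ≤ l + |τ| := by
    rw [hz]
    refine (norm_sub_le _ _).trans ?_
    rw [norm_mul, Complex.norm_I, mul_one, Complex.norm_real, Complex.norm_real, Real.norm_of_nonneg hl0.le, Real.norm_eq_abs]
  have nzc : ‖zc‖ ≤ l + |τ| := by
    rw [hzc]
    refine (norm_add_le _ _).trans ?_
    rw [norm_mul, Complex.norm_I, mul_one, Complex.norm_real, Complex.norm_real, Real.norm_of_nonneg hl0.le, Real.norm_eq_abs]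
  have nn : ‖n'‖ ≤ 1 := by
    rw [hn', Complex.norm_real, Real.norm_of_nonneg (Real.rpow_nonneg hN0.le _)]
    exact Real.rpow_le_one_of_one_le_of_nonpos hN1 (by linarith)
  have b2 : ∀ (m m' : ℕ) (w v : ℂ), 1 ≤ m → 1 ≤ m' → v.re = l → ‖v‖ ≤ l + |τ| → l ≤ w.re →
      ‖n' * rho v (N / m) / (m' * w)‖ ≤ (2 + |τ| / l) / l := by
    intro m m' w v hm hm' hv hvn hw
    have hm0 : (0:ℝ) < m := by exact_mod_cast hm
    have h1 := norm_rho_le (z := v) (by rw [hv]; exact hl0) (x := (N:ℝ) / m) (by positivity)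
    rw [hv] at h1
    have h2 : ‖rho v ((N:ℝ) / m)‖ ≤ 2 + |τ| / l := by
      refine h1.trans ?_
      have : ‖v‖ / l ≤ (l + |τ|) / l := div_le_div_of_nonneg_right hvn hl0.le
      rw [add_div, div_self hl0.ne'] at this
      linarith
    have h3 : l ≤ ‖(m':ℂ) * w‖ := by
      rw [norm_mul, Complex.norm_natCast]
      have h4 : (1:ℝ) ≤ m' := by exact_mod_cast hm'
      nlinarith [nrm w hw, norm_nonneg w]
    rw [norm_div, norm_mul]
    have h5 : 0 ≤ 2 + |τ| / l := by positivity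
    apply div_le_div₀ h5 _ hl0 h3
    calc ‖n'‖ * ‖rho v ((N:ℝ) / m)‖ ≤ 1 * (2 + |τ| / l) := mul_le_mul nn h2 (norm_nonneg _) zero_le_one
      _ = _ := one_mul _
  have c1 := b1 k x yc pa hk rx ryc pa0 pa2
  have c2 := b1 h xc y pb hh rxc ry pb0 pb2
  have c3 := b2 h k x z hh hk rz nz rx
  have c4 := b2 k h xc zc hk hh rzc nzc rxc
  have hfin : ‖R‖ ≤ 4 / l + 4 / l + ((2 + |τ| / l) / l + (2 + |τ| / l) / l) := by
    rw [hR]
    refine (norm_add_le _ _).trans (add_le_add ((norm_add_le _ _).trans (add_le_add c1 c2)) ((norm_add_le _ _).trans (add_le_add c3 c4)))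
  refine hfin.trans ?_
  have hτ : 0 ≤ |τ| / l := by positivity
  have e6 : 4 / l + 4 / l + ((2 + |τ| / l) / l + (2 + |τ| / l) / l) = (12 + 2 * (|τ| / l)) / l := by ring
  rw [e6]
  apply div_le_div_of_nonneg_right _ hl0.le
  linarith

end Pool.Agent.Helper57.ED
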