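import Pool.Agent.Helper57.ED.SmB
import Pool.Agent.Helper57.ED.TrA
import Pool.Agent.Helper57.ED.ReA
import Pool.Agent.Helper57.ED.ApB
import Pool.Agent.Helper57.ED.PsB
import Pool.Agent.Helper57.ED.BeA
import Pool.Agent.Helper57.ED.ZrA

/-!
# ED-COA: the correlations `Cc`
-/

open MeasureTheory Set Filter Topology Complex

namespace Pool.Agent.Helper57.ED

lemma kap_diag {l τ σ x : ℝ} (hx : 0 < x) : kap l τ σ x x = x ^ (-2 * σ) := by
  unfold kap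
  rw [min_self, max_self, div_self hx.ne', Real.one_rpow, Real.log_one, mul_zero, Real.cos_zero]
  ring

lemma kap_qq {l τ σ r x : ℝ} (hr : 0 ≤ r) (hx : 0 < x) : kap l τ σ x (x - r) = qq l τ σ r x := by
  unfold kap qq
  rw [min_eq_right (by linarith), max_eq_left (by linarith), sub_div, div_self hx.ne']

lemma kap_comm {l τ σ x y : ℝ} : kap l τ σ x y = kap l τ σ y x := by
  unfold kap
  rw [min_comm, max_comm]

/-- the finite form at `N = g P n`. -/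
lemma fin_corr {l τ σ : ℝ} (hl : 1 ≤ l) (hσ : 1 / 2 < σ) (hσ1 : σ ≤ 3 / 4) {h k n : ℕ} (hh : 1 ≤ h) (hk : 1 ≤ k)
    (hn : 1 ≤ n) {N : ℕ} (hN : N = Nat.gcd h k * (Nat.lcm h k * n)) :
    |2 * (l + σ) * (∫ u in Ioc (0:ℝ) N,
          (rho (l - τ * I) (u / h) * (starRingEnd ℂ) (rho (l - τ * I) (u / k))).re * u ^ (-2 * σ - 1)) +
        (rho (l - τ * I) (N / h) * (starRingEnd ℂ) (rho (l - τ * I) (N / k))).re * (N : ℝ) ^ (-2 * σ) -
      (∑ j ∈ Finset.Icc 1 (Nat.gcd h k * n), ((j * Nat.lcm h k : ℕ) : ℝ) ^ (-2 * σ) +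
        2 / (Nat.lcm h k : ℝ) * (∑ j ∈ Finset.Icc 1 (Nat.lcm h k * n), Psi l τ σ ((Nat.gcd h k * (Nat.lcm h k * n) : ℕ) : ℝ) ((Nat.gcd h k * j : ℕ) : ℝ) -
          (∫ r in (0:ℝ)..((Nat.gcd h k * (Nat.lcm h k * n) : ℕ) : ℝ), Psi l τ σ ((Nat.gcd h k * (Nat.lcm h k * n) : ℕ) : ℝ) r) / (Nat.gcd h k : ℕ)))| ≤
      15 * (1 + |τ| / l) / (l * (2 * σ - 1)) := by
  set g := Nat.gcd h k with hg
  set P := Nat.lcm h k with hP
  have hg1 : 1 ≤ g := Nat.gcd_pos_of_pos_left _ hh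
  have hP1 : 1 ≤ P := Nat.lcm_pos hh hk
  have hgP : g * P = h * k := Nat.gcd_mul_lcm h k
  have hN1 : 1 ≤ N := by rw [hN]; exact Nat.mul_pos hg1 (Nat.mul_pos hP1 hn)
  have hNhk : N = h * k * n := by rw [hN, ← mul_assoc, hgP]
  have hhN : h ∣ N := by rw [hNhk, mul_assoc]; exact Dvd.intro _ rfl
  have hkN : k ∣ N := by rw [hNhk, mul_comm h k, mul_assoc]; exact Dvd.intro _ rfl
  have hl0 : 0 < l := by linarith
  have ht0 : 0 ≤ |τ| / l := by positivity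
  have hs' : 0 < 2 * σ - 1 := by linarith
  have hNR : (0:ℝ) < N := by exact_mod_cast hN1
  have hgR : (0:ℝ) < g := by exact_mod_cast hg1
  have hPR : (0:ℝ) < P := by exact_mod_cast hP1
  have hhkR : (h:ℝ) * k = g * P := by exact_mod_cast hgP.symm
  have h1 := trunc (l := l) (τ := τ) hl hσ hσ1 hh hk hN1 hhN hkN
  rw [regroup (fun a b => kap l τ σ a b) N hh hk, ← hg, ← hP] at h1
  have e1 : ∑ j ∈ Finset.Icc 1 (N / P), kap l τ σ ((j * P : ℕ) : ℝ) ((j * P : ℕ) : ℝ) =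
      ∑ j ∈ Finset.Icc 1 (g * n), ((j * P : ℕ) : ℝ) ^ (-2 * σ) := by
    have : N / P = g * n := by
      rw [hN, show g * (P * n) = g * n * P by ring]
      exact Nat.mul_div_cancel _ hP1
    rw [this]
    refine Finset.sum_congr rfl fun j hj => ?_
    have hj1 := (Finset.mem_Icc.mp hj).1
    exact kap_diag (by exact_mod_cast Nat.mul_pos hj1 hP1)
  rw [e1] at h1
  -- the inner sums
  have e2 : ∀ r ∈ (Finset.Icc 1 N).filter (fun r => g ∣ r),
      |(∑ x ∈ (Finset.Ioc r N).filter (fun x => h ∣ x ∧ k ∣ (x - r)), kap l τ σ (x : ℕ) ((x - r : ℕ) : ℝ) +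
         ∑ x ∈ (Finset.Ioc r N).filter (fun x => k ∣ x ∧ h ∣ (x - r)), kap l τ σ ((x - r : ℕ) : ℝ) (x : ℕ)) -
        2 / (P:ℝ) * Psi l τ σ N r| ≤ 2 * (3 + |τ| / l) / l * (r : ℝ) ^ (-2 * σ) := by
    intro r hr
    obtain ⟨hr1, hgr⟩ := Finset.mem_filter.mp hr
    obtain ⟨hr1, hrN⟩ := Finset.mem_Icc.mp hr1
    obtain ⟨c1, hc1⟩ := crt hh hk hgr
    obtain ⟨c2, hc2⟩ := crt hk hh (r := r) (by rw [Nat.gcd_comm]; exact hgr)
    rw [← hP] at hc1
    rw [Nat.lcm_comm k h, ← hP] at hc2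
    have f1 : ∑ x ∈ (Finset.Ioc r N).filter (fun x => h ∣ x ∧ k ∣ (x - r)), kap l τ σ (x : ℕ) ((x - r : ℕ) : ℝ) =
        ∑ x ∈ (Finset.Ioc r N).filter (fun x => x ≡ c1 [MOD P]), qq l τ σ r x := by
      have : (Finset.Ioc r N).filter (fun x => h ∣ x ∧ k ∣ (x - r)) = (Finset.Ioc r N).filter (fun x => x ≡ c1 [MOD P]) := by
        apply Finset.filter_congr
        intro x hx
        exact hc1 x (Finset.mem_Ioc.mp hx).1.le
      rw [this]
      refine Finset.sum_congr rfl fun x hx => ?_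
      have hx1 := (Finset.mem_Ioc.mp (Finset.mem_filter.mp hx).1).1
      rw [Nat.cast_sub hx1.le]
      exact kap_qq (by positivity) (by exact_mod_cast (by omega : 0 < x))
    have f2 : ∑ x ∈ (Finset.Ioc r N).filter (fun x => k ∣ x ∧ h ∣ (x - r)), kap l τ σ ((x - r : ℕ) : ℝ) (x : ℕ) =
        ∑ x ∈ (Finset.Ioc r N).filter (fun x => x ≡ c2 [MOD P]), qq l τ σ r x := by
      have : (Finset.Ioc r N).filter (fun x => k ∣ x ∧ h ∣ (x - r)) = (Finset.Ioc r N).filter (fun x => x ≡ c2 [MOD P]) := by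
        apply Finset.filter_congr
        intro x hx
        exact hc2 x (Finset.mem_Ioc.mp hx).1.le
      rw [this]
      refine Finset.sum_congr rfl fun x hx => ?_
      have hx1 := (Finset.mem_Ioc.mp (Finset.mem_filter.mp hx).1).1
      rw [Nat.cast_sub hx1.le, kap_comm]
      exact kap_qq (by positivity) (by exact_mod_cast (by omega : 0 < x))
    rw [f1, f2]
    have g1 := qq_disc (τ := τ) hl hσ (by linarith) hr1 hrN hP1 (c := c1)
    have g2 := qq_disc (τ := τ) hl hσ (by linarith) hr1 hrN hP1 (c := c2)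
    have g3 : 2 / (P:ℝ) * Psi l τ σ N r = Psi l τ σ N r / P + Psi l τ σ N r / P := by ring
    rw [g3]
    calc _ = |(∑ x ∈ (Finset.Ioc r N).filter (fun x => x ≡ c1 [MOD P]), qq l τ σ r x - Psi l τ σ N r / P) +
          (∑ x ∈ (Finset.Ioc r N).filter (fun x => x ≡ c2 [MOD P]), qq l τ σ r x - Psi l τ σ N r / P)| := by
            congr 1; ring
      _ ≤ _ := abs_add_le _ _
      _ ≤ (3 + |τ| / l) * (r : ℝ) ^ (-2 * σ) / l + (3 + |τ| / l) * (r : ℝ) ^ (-2 * σ) / l := add_le_add g1 g2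
      _ = _ := by ring
  have e3 : |∑ r ∈ (Finset.Icc 1 N).filter (fun r => g ∣ r),
        (∑ x ∈ (Finset.Ioc r N).filter (fun x => h ∣ x ∧ k ∣ (x - r)), kap l τ σ (x : ℕ) ((x - r : ℕ) : ℝ) +
         ∑ x ∈ (Finset.Ioc r N).filter (fun x => k ∣ x ∧ h ∣ (x - r)), kap l τ σ ((x - r : ℕ) : ℝ) (x : ℕ)) -
        2 / (P:ℝ) * ∑ r ∈ (Finset.Icc 1 N).filter (fun r => g ∣ r), Psi l τ σ N r| ≤
        2 * (3 + |τ| / l) / l * (1 + 1 / (2 * σ - 1)) := by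
    rw [Finset.mul_sum, ← Finset.sum_sub_distrib]
    refine (Finset.abs_sum_le_sum_abs _ _).trans ?_
    refine (Finset.sum_le_sum e2).trans ?_
    rw [← Finset.mul_sum]
    exact mul_le_mul_of_nonneg_left (mult_sum_le hσ N hg1) (by positivity)
  have e4 : ∑ r ∈ (Finset.Icc 1 N).filter (fun r => g ∣ r), Psi l τ σ N r =
      ∑ j ∈ Finset.Icc 1 (P * n), Psi l τ σ ((g * (P * n) : ℕ) : ℝ) ((g * j : ℕ) : ℝ) := by
    rw [← hN]
    symm
    apply Finset.sum_bij (fun j _ => g * j)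
    · intro j hj
      have := Finset.mem_Icc.mp hj
      rw [Finset.mem_filter, Finset.mem_Icc]
      refine ⟨⟨Nat.mul_pos hg1 this.1, ?_⟩, Dvd.intro _ rfl⟩
      rw [hN]
      exact Nat.mul_le_mul_left _ this.2
    · intro j1 _ j2 _ h
      exact Nat.eq_of_mul_eq_mul_left hg1 h
    · intro r hr
      obtain ⟨h1, j, rfl⟩ := Finset.mem_filter.mp hr
      obtain ⟨h1, h2⟩ := Finset.mem_Icc.mp h1
      refine ⟨j, ?_, rfl⟩
      rw [Finset.mem_Icc]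
      constructor
      · exact Nat.pos_of_mul_pos_left h1
      · rw [hN] at h2
        exact Nat.le_of_mul_le_mul_left h2 hg1
    · intro j _; rfl
  have e5 : (N : ℝ) ^ (2 - 2 * σ) * ((l + 1) / ((l + 1) ^ 2 + τ ^ 2)) / ((1 - σ) * (h * k)) =
      2 / (P:ℝ) * ((∫ r in (0:ℝ)..((g * (P * n) : ℕ) : ℝ), Psi l τ σ ((g * (P * n) : ℕ) : ℝ) r) / (g : ℕ)) := by
    rw [← hN, (psi_int (τ := τ) hl hσ (by linarith : σ < 1) hNR).2, hhkR]
    have : (1 - σ) ≠ 0 := by linarith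
    field_simp
  rw [e5] at h1
  rw [e4] at e3
  set A := 2 * (l + σ) * (∫ u in Ioc (0:ℝ) N,
          (rho (l - τ * I) (u / h) * (starRingEnd ℂ) (rho (l - τ * I) (u / k))).re * u ^ (-2 * σ - 1)) +
        (rho (l - τ * I) (N / h) * (starRingEnd ℂ) (rho (l - τ * I) (N / k))).re * (N : ℝ) ^ (-2 * σ)
  set D := ∑ j ∈ Finset.Icc 1 (g * n), ((j * P : ℕ) : ℝ) ^ (-2 * σ)
  set S := ∑ r ∈ (Finset.Icc 1 N).filter (fun r => g ∣ r),
        (∑ x ∈ (Finset.Ioc r N).filter (fun x => h ∣ x ∧ k ∣ (x - r)), kap l τ σ (x : ℕ) ((x - r : ℕ) : ℝ) +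
         ∑ x ∈ (Finset.Ioc r N).filter (fun x => k ∣ x ∧ h ∣ (x - r)), kap l τ σ ((x - r : ℕ) : ℝ) (x : ℕ))
  set Q := ∑ j ∈ Finset.Icc 1 (P * n), Psi l τ σ ((g * (P * n) : ℕ) : ℝ) ((g * j : ℕ) : ℝ)
  set J := (∫ r in (0:ℝ)..((g * (P * n) : ℕ) : ℝ), Psi l τ σ ((g * (P * n) : ℕ) : ℝ) r) / (g : ℕ)
  have h2 : |A - (D + 2 / (P:ℝ) * (Q - J))| ≤ 12 * (1 + |τ| / l) / l + 2 * (3 + |τ| / l) / l * (1 + 1 / (2 * σ - 1)) := by
    calc |A - (D + 2 / (P:ℝ) * (Q - J))| = |(A - (D + S - 2 / (P:ℝ) * J)) + (S - 2 / (P:ℝ) * Q)| := by congr 1; ring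
      _ ≤ _ := abs_add_le _ _
      _ ≤ _ := add_le_add h1 e3
  refine h2.trans ?_
  have hs2 : 2 * σ - 1 ≤ 1 / 2 := by linarith
  have h3 : 12 * (1 + |τ| / l) / l ≤ 6 * (1 + |τ| / l) / (l * (2 * σ - 1)) := by
    rw [div_le_div_iff₀ hl0 (by positivity)]
    have h31 : 0 ≤ (1 + |τ| / l) * l := by positivity
    nlinarith
  have h4 : 2 * (3 + |τ| / l) / l * (1 + 1 / (2 * σ - 1)) ≤ 9 * (1 + |τ| / l) / (l * (2 * σ - 1)) := by
    have h41 : 1 + 1 / (2 * σ - 1) ≤ 3 / 2 / (2 * σ - 1) := by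
      rw [le_div_iff₀ hs', add_mul, one_div, inv_mul_cancel₀ hs'.ne']
      linarith
    calc 2 * (3 + |τ| / l) / l * (1 + 1 / (2 * σ - 1)) ≤ 2 * (3 + 3 * (|τ| / l)) / l * (3 / 2 / (2 * σ - 1)) := by
          gcongr
          linarith
      _ = _ := by field_simp; ring
  calc _ ≤ 6 * (1 + |τ| / l) / (l * (2 * σ - 1)) + 9 * (1 + |τ| / l) / (l * (2 * σ - 1)) := add_le_add h3 h4
    _ = _ := by ring

theorem corr {l τ σ : ℝ} (hl : 1 ≤ l) (hσ : 1 / 2 < σ) (hσ1 : σ ≤ 3 / 4) :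
    ∃ c : ℝ, 0 ≤ c ∧ ∀ h k : ℕ, 1 ≤ h → 1 ≤ k →
      |2 * (l + σ) * Cc (l - τ * I) σ h k -
        (zs σ * (Nat.lcm h k : ℝ) ^ (-2 * σ) - c * ((Nat.gcd h k : ℝ) ^ (1 - 2 * σ) / Nat.lcm h k))| ≤
      15 * (1 + |τ| / l) / (l * (2 * σ - 1)) := by
  obtain ⟨cs, hcs0, hcs⟩ := exists_cs hσ (by linarith : σ < 1)
  have hb := bet_nonneg (τ := τ) hl hσ (by linarith : σ < 1)
  refine ⟨2 * (bet l τ σ * cs), by positivity, fun h k hh hk => ?_⟩
  set g := Nat.gcd h k with hg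
  set P := Nat.lcm h k with hP
  have hg1 : 1 ≤ g := Nat.gcd_pos_of_pos_left _ hh
  have hP1 : 1 ≤ P := Nat.lcm_pos hh hk
  have hz : 0 < ((l : ℂ) - τ * I).re := by simp; linarith
  have t1 := cc_lim hz (by linarith : 0 < σ) (by linarith : σ < 1) hh hk (l + σ)
  have s1 : Tendsto (fun n : ℕ => g * (P * n)) atTop atTop := by
    apply tendsto_atTop_mono (fun n => ?_) tendsto_id
    calc n = 1 * (1 * n) := by ring
      _ ≤ g * (P * n) := Nat.mul_le_mul hg1 (Nat.mul_le_mul hP1 le_rfl)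
  have s2 : Tendsto (fun n : ℕ => g * n) atTop atTop := by
    apply tendsto_atTop_mono (fun n => ?_) tendsto_id
    calc n = 1 * n := by ring
      _ ≤ g * n := Nat.mul_le_mul hg1 le_rfl
  have s3 : Tendsto (fun n : ℕ => P * n) atTop atTop := by
    apply tendsto_atTop_mono (fun n => ?_) tendsto_id
    calc n = 1 * n := by ring
      _ ≤ P * n := Nat.mul_le_mul hP1 le_rfl
  have t2 := (diag_lim hσ hP1).comp s2
  have t3 := (psi_lim (τ := τ) hl hσ (by linarith : σ < 1) hcs hg1).comp s3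
  have t4 := (t1.comp s1).sub (t2.add (t3.const_mul (2 / (P:ℝ))))
  have t5 := t4.abs
  have t6 := le_of_tendsto t5 (b := 15 * (1 + |τ| / l) / (l * (2 * σ - 1))) ?_
  · refine le_trans (le_of_eq ?_) t6
    congr 1
    have : (P:ℝ) ≠ 0 := by positivity
    field_simp
    ring
  · filter_upwards [eventually_ge_atTop 1] with n hn
    exact fin_corr hl hσ hσ1 hh hk hn rfl

end Pool.Agent.Helper57.ED
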