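import Pool.Agent.Helper57.ED.Def

/-!
# ED-GCA: `gcd(h,k)^α` is a nonnegative form

`n^α = ∑_{d ∣ n} J(d)` with `J = μ * id^α`, `J(d) = ∏_{p^a ∥ d} (p^{αa} - p^{α(a-1)}) ≥ 0`; then the form is
`∑_d J(d) (∑_{h ≤ X, d ∣ h} x_h)²`.
-/

namespace Pool.Agent.Helper57.ED

open ArithmeticFunction in
/-- Jordan type function with real exponent. -/
theorem exists_jordan (α : ℝ) (hα : 0 ≤ α) : ∃ J : ℕ → ℝ, (∀ d, 0 ≤ J d) ∧
    ∀ n : ℕ, 1 ≤ n → (n : ℝ) ^ α = ∑ d ∈ n.divisors, J d := by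
  classical
  let g : ArithmeticFunction ℝ := ⟨fun n => if n = 0 then 0 else (n : ℝ) ^ α, by simp⟩
  have hg : ∀ n : ℕ, n ≠ 0 → g n = (n : ℝ) ^ α := fun n hn => by
    show (if n = 0 then (0 : ℝ) else (n : ℝ) ^ α) = _
    rw [if_neg hn]
  have hgm : g.IsMultiplicative := by
    refine ArithmeticFunction.IsMultiplicative.iff_ne_zero.mpr ⟨?_, ?_⟩
    · rw [hg 1 one_ne_zero]
      simp
    · intro m n hm hn _
      rw [hg _ (Nat.mul_ne_zero hm hn), hg _ hm, hg _ hn]
      push_cast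
      exact Real.mul_rpow (Nat.cast_nonneg _) (Nat.cast_nonneg _)
  let J : ArithmeticFunction ℝ := ((ArithmeticFunction.moebius : ArithmeticFunction ℤ) : ArithmeticFunction ℝ) * g
  have hJm : J.IsMultiplicative := ArithmeticFunction.isMultiplicative_moebius.intCast.mul hgm
  have hzJ : ((ArithmeticFunction.zeta : ArithmeticFunction ℕ) : ArithmeticFunction ℝ) * J = g := by
    show ((ArithmeticFunction.zeta : ArithmeticFunction ℕ) : ArithmeticFunction ℝ) *
      (((ArithmeticFunction.moebius : ArithmeticFunction ℤ) : ArithmeticFunction ℝ) * g) = g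
    rw [← mul_assoc, ArithmeticFunction.coe_zeta_mul_coe_moebius, one_mul]
  have hsum : ∀ n : ℕ, ∑ d ∈ n.divisors, J d = g n := fun n => by
    rw [← hzJ, ArithmeticFunction.coe_zeta_mul_apply]
  have hpp : ∀ p k : ℕ, p.Prime → 0 ≤ J (p ^ k) := by
    intro p k hp
    rcases k with _ | k
    · rw [pow_zero, hJm.map_one]
      exact zero_le_one
    · have h1 := hsum (p ^ (k + 1))
      have h2 := hsum (p ^ k)
      rw [Nat.sum_divisors_prime_pow hp, Finset.sum_range_succ] at h1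
      rw [Nat.sum_divisors_prime_pow hp] at h2
      rw [h2, hg _ (pow_ne_zero _ hp.ne_zero), hg _ (pow_ne_zero _ hp.ne_zero)] at h1
      have h3 : ((p ^ k : ℕ) : ℝ) ^ α ≤ ((p ^ (k + 1) : ℕ) : ℝ) ^ α := by
        refine Real.rpow_le_rpow (Nat.cast_nonneg _) ?_ hα
        exact_mod_cast Nat.pow_le_pow_right hp.pos (Nat.le_succ k)
      linarith
  refine ⟨fun d => J d, fun d => ?_, fun n hn => ?_⟩
  · rcases Nat.eq_zero_or_pos d with rfl | hd
    · simp
    · show 0 ≤ J d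
      rw [hJm.multiplicative_factorization J hd.ne']
      exact Finset.prod_nonneg fun p hp => hpp p _ (Nat.prime_of_mem_primeFactors hp)
  · rw [← hg n (by omega)]
    exact (hsum n).symm

theorem gcd_form_nonneg {α : ℝ} (hα : 0 ≤ α) (X : ℕ) (x : ℕ → ℝ) :
    0 ≤ ∑ h ∈ Finset.Icc 1 X, ∑ k ∈ Finset.Icc 1 X, x h * x k * (Nat.gcd h k : ℝ) ^ α := by
  classical
  obtain ⟨J, hJ, hn⟩ := exists_jordan α hα
  have key : ∑ h ∈ Finset.Icc 1 X, ∑ k ∈ Finset.Icc 1 X, x h * x k * (Nat.gcd h k : ℝ) ^ α =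
      ∑ d ∈ Finset.Icc 1 X, J d * (∑ h ∈ Finset.Icc 1 X, if d ∣ h then x h else 0) ^ 2 := by
    have h1 : ∀ h ∈ Finset.Icc 1 X, ∀ k ∈ Finset.Icc 1 X,
        x h * x k * (Nat.gcd h k : ℝ) ^ α =
          ∑ d ∈ Finset.Icc 1 X, J d * ((if d ∣ h then x h else 0) * (if d ∣ k then x k else 0)) := by
      intro h hh k hk
      rw [Finset.mem_Icc] at hh hk
      have hpos : 0 < Nat.gcd h k := Nat.gcd_pos_of_pos_left k (by omega)
      rw [hn _ hpos, Finset.mul_sum]
      have hsub : (Nat.gcd h k).divisors ⊆ Finset.Icc 1 X := by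
        intro d hd
        have hd1 := Nat.dvd_of_mem_divisors hd
        have hd2 : d ∣ h := hd1.trans (Nat.gcd_dvd_left h k)
        exact Finset.mem_Icc.mpr ⟨Nat.pos_of_mem_divisors hd, (Nat.le_of_dvd (by omega) hd2).trans hh.2⟩
      rw [← Finset.sum_subset hsub]
      · refine Finset.sum_congr rfl fun d hd => ?_
        have hd1 := Nat.dvd_of_mem_divisors hd
        rw [if_pos (hd1.trans (Nat.gcd_dvd_left h k)), if_pos (hd1.trans (Nat.gcd_dvd_right h k))]
        ring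
      · intro d _ hd
        by_cases ha : d ∣ h
        · by_cases hb : d ∣ k
          · exact absurd (Nat.mem_divisors.mpr ⟨Nat.dvd_gcd ha hb, hpos.ne'⟩) hd
          · rw [if_neg hb]; ring
        · rw [if_neg ha]; ring
    rw [Finset.sum_congr rfl fun h hh => Finset.sum_congr rfl fun k hk => h1 h hh k hk]
    rw [Finset.sum_congr rfl fun h _ => Finset.sum_comm, Finset.sum_comm]
    refine Finset.sum_congr rfl fun d _ => ?_
    rw [sq, Finset.sum_mul_sum, Finset.mul_sum]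
    refine Finset.sum_congr rfl fun h _ => ?_
    rw [Finset.mul_sum]
  rw [key]
  exact Finset.sum_nonneg fun d _ => mul_nonneg (hJ d) (sq_nonneg _)

end Pool.Agent.Helper57.ED
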