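import Pool.Agent.Helper57.ED.PoA

/-!
# ED-POB: the half-plane inequality

For `δ > 0` the function `f_δ(s) = f(s) / (1 + δ(s - σ))^m` is bounded on `σ ≤ Re s`
(`1 + ‖s‖ ≤ C_δ ‖1 + δ(s - σ)‖` there), `‖f_δ‖ ≤ ‖f‖` on the line, analytic on `c' < Re s` with `c' < σ` close to `σ`
(take `c' = max c (σ - 1/(2δ))`). `poisson_bdd`, Cauchy-Schwarz with the probability density `PW W (t-τ)`:
`‖f_δ(s1)‖² ≤ ∫ PW W (t-τ) ‖f_δ(σ+it)‖² dt = lim_R ∫_{-R}^R ≤ B`
(`intervalIntegral_tendsto_integral`, `le_of_tendsto`). Let `δ → 0`.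
-/

open MeasureTheory Set Filter Topology Complex

namespace Pool.Agent.Helper57.ED

private lemma csDens88 {p : ℝ → ℝ} {g : ℝ → ℂ} {K : ℝ} (hp : Integrable p) (hp0 : ∀ t, 0 ≤ p t)
    (h1 : ∫ t, p t = 1) (hg : Continuous g) (hK : ∀ t, ‖g t‖ ≤ K) :
    Integrable (fun t => p t * ‖g t‖ ^ 2) ∧ ‖∫ t, (p t : ℂ) * g t‖ ^ 2 ≤ ∫ t, p t * ‖g t‖ ^ 2 := by
  have hK0 : 0 ≤ K := (norm_nonneg _).trans (hK 0)
  have i1 : Integrable (fun t => p t * ‖g t‖) :=
    hp.mul_bdd (c := K) hg.norm.aestronglyMeasurable (Eventually.of_forall fun t => by simpa using hK t)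
  have i2 : Integrable (fun t => p t * ‖g t‖ ^ 2) :=
    hp.mul_bdd (c := K ^ 2) (hg.norm.pow 2).aestronglyMeasurable
      (Eventually.of_forall fun t => by
        simp only [norm_pow, norm_norm]
        exact pow_le_pow_left₀ (norm_nonneg _) (hK t) 2)
  refine ⟨i2, ?_⟩
  set a : ℝ := ∫ t, p t * ‖g t‖ with ha
  have hle : ‖∫ t, (p t : ℂ) * g t‖ ≤ a := by
    refine (norm_integral_le_integral_norm _).trans (le_of_eq ?_)
    refine integral_congr_ae (Eventually.of_forall fun t => ?_)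
    simp only [norm_mul, Complex.norm_real, Real.norm_eq_abs, abs_of_nonneg (hp0 t)]
  have hsq : 0 ≤ ∫ t, p t * (‖g t‖ - a) ^ 2 := integral_nonneg fun t => mul_nonneg (hp0 t) (sq_nonneg _)
  have hexp : ∫ t, p t * (‖g t‖ - a) ^ 2 = (∫ t, p t * ‖g t‖ ^ 2) - 2 * a * a + a ^ 2 := by
    have e1 : ∫ t, p t * (‖g t‖ - a) ^ 2 =
        ∫ t, ((p t * ‖g t‖ ^ 2 - 2 * a * (p t * ‖g t‖)) + a ^ 2 * p t) := by
      congr 1; funext t; ring
    have i3 : Integrable (fun t => p t * ‖g t‖ ^ 2 - 2 * a * (p t * ‖g t‖)) :=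
      i2.sub (i1.const_mul (2 * a))
    rw [e1, integral_add i3 (hp.const_mul _), integral_sub i2 (i1.const_mul _),
      integral_const_mul, integral_const_mul, h1, ← ha, mul_one]
  have h3 : a ^ 2 ≤ ∫ t, p t * ‖g t‖ ^ 2 := by rw [hexp] at hsq; linarith [sq a]
  exact (pow_le_pow_left₀ (norm_nonneg _) hle 2).trans h3

private lemma oneDelta88 {f : ℂ → ℂ} {c σ W τ K B : ℝ} {m : ℕ} (hc : c < σ)
    (hf : DifferentiableOn ℂ f {s : ℂ | c < s.re})
    (hK : ∀ s : ℂ, σ ≤ s.re → ‖f s‖ ≤ K * (1 + ‖s‖) ^ m) (hW : 0 < W)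
    (hB : ∀ R : ℝ, 0 < R → ∫ t in (-R)..R, PW W (t - τ) * ‖f (σ + t * I)‖ ^ 2 ≤ B) {δ : ℝ}
    (hδ : 0 < δ) :
    ‖f ((σ + W : ℝ) + τ * I) / (1 + (δ : ℂ) * (((σ + W : ℝ) + τ * I) - σ)) ^ m‖ ^ 2 ≤ B := by
  have hK0 : 0 ≤ K := by
    have h := (norm_nonneg _).trans (hK (σ : ℂ) (by simp))
    have h2 : (0:ℝ) < (1 + ‖(σ : ℂ)‖) ^ m := by positivity
    by_contra hneg
    push Not at hneg
    nlinarith [mul_neg_of_neg_of_pos hneg h2]
  set g : ℂ → ℂ := fun s => f s / (1 + (δ : ℂ) * (s - σ)) ^ m with hgdef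
  have hre : ∀ s : ℂ, (1 + (δ : ℂ) * (s - σ)).re = 1 + δ * (s.re - σ) := by
    intro s; simp
  have hden : ∀ s : ℂ, σ ≤ s.re → 1 ≤ ‖1 + (δ : ℂ) * (s - σ)‖ := by
    intro s hs
    refine le_trans ?_ (Complex.re_le_norm _)
    rw [hre]
    nlinarith [mul_nonneg hδ.le (sub_nonneg.2 hs)]
  set c' : ℝ := max c (σ - 1 / (2 * δ)) with hc'
  have hc'σ : c' < σ := by
    have : 0 < 1 / (2 * δ) := by positivity
    exact max_lt hc (by linarith)
  have hne : ∀ s : ℂ, c' < s.re → 1 + (δ : ℂ) * (s - σ) ≠ 0 := by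
    intro s hs h0
    have h1 : σ - 1 / (2 * δ) < s.re := lt_of_le_of_lt (le_max_right _ _) hs
    have h2 := hre s
    rw [h0] at h2
    have h3 : δ * (σ - 1 / (2 * δ)) < δ * s.re := mul_lt_mul_of_pos_left h1 hδ
    have h4 : δ * (1 / (2 * δ)) = 1 / 2 := by field_simp
    simp only [Complex.zero_re] at h2
    nlinarith
  have hg : DifferentiableOn ℂ g {s : ℂ | c' < s.re} := by
    have hsub : {s : ℂ | c' < s.re} ⊆ {s : ℂ | c < s.re} := fun s hs =>
      show c < s.re from lt_of_le_of_lt (le_max_left _ _) hs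
    refine DifferentiableOn.div (hf.mono hsub) ?_ ?_
    · exact ((differentiableOn_const _).add ((differentiableOn_const _).mul
        (differentiableOn_id.sub (differentiableOn_const _)))).pow m
    · intro s hs
      exact pow_ne_zero _ (hne s hs)
  have hle : ∀ s : ℂ, σ ≤ s.re → ‖g s‖ ≤ ‖f s‖ := by
    intro s hs
    simp only [hgdef, norm_div, norm_pow]
    exact div_le_self (norm_nonneg _) (one_le_pow₀ (hden s hs))
  set C : ℝ := 1 + |σ| + 2 / δ with hC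
  have hC0 : 0 ≤ C := by positivity
  have hgK : ∀ s : ℂ, σ ≤ s.re → ‖g s‖ ≤ K * C ^ m := by
    intro s hs
    have hd1 := hden s hs
    set D : ℝ := ‖1 + (δ : ℂ) * (s - σ)‖ with hD
    have hs1 : ‖s‖ ≤ |σ| + ‖s - σ‖ := by
      have h := norm_add_le (σ : ℂ) (s - σ)
      simpa using h
    have hs2 : δ * ‖s - σ‖ ≤ D + 1 := by
      have h := norm_sub_le (1 + (δ : ℂ) * (s - σ)) 1
      have e : (1 + (δ : ℂ) * (s - σ)) - 1 = (δ : ℂ) * (s - σ) := by ring
      rw [e, norm_mul, norm_one, Complex.norm_real, Real.norm_eq_abs, abs_of_pos hδ] at h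
      exact h
    have hs3 : ‖s - σ‖ ≤ 2 / δ * D := by
      rw [div_mul_eq_mul_div, le_div_iff₀ hδ]
      nlinarith
    have hs4 : 1 + ‖s‖ ≤ C * D := by
      have h1 : 1 + |σ| ≤ (1 + |σ|) * D := le_mul_of_one_le_right (by positivity) hd1
      calc 1 + ‖s‖ ≤ (1 + |σ|) + ‖s - σ‖ := by linarith
        _ ≤ (1 + |σ|) * D + 2 / δ * D := by linarith
        _ = C * D := by rw [hC]; ring
    have hD0 : 0 < D ^ m := by positivity
    simp only [hgdef, norm_div, norm_pow]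
    rw [div_le_iff₀ hD0]
    calc ‖f s‖ ≤ K * (1 + ‖s‖) ^ m := hK s hs
      _ ≤ K * (C * D) ^ m := by
        refine mul_le_mul_of_nonneg_left ?_ hK0
        exact pow_le_pow_left₀ (by positivity) hs4 m
      _ = K * C ^ m * D ^ m := by rw [mul_pow]; ring
  have hP := poisson_bdd (τ := τ) hc'σ hg hgK hW
  have hline : Continuous (fun t : ℝ => g (σ + t * I)) := by
    refine hg.continuousOn.comp_continuous (by fun_prop) fun t => ?_
    simpa using hc'σ
  have hliner : ∀ t : ℝ, σ ≤ ((σ : ℂ) + t * I).re := fun t => by simp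
  obtain ⟨hPi, hP1⟩ := integral_PW hW
  have hpi : Integrable (fun t : ℝ => PW W (t - τ)) := hPi.comp_sub_right τ
  have hp1 : ∫ t : ℝ, PW W (t - τ) = 1 := by rw [integral_sub_right_eq_self (fun t => PW W t) τ, hP1]
  obtain ⟨i2, hcs⟩ := csDens88 hpi (fun t => (PW_pos hW _).le) hp1 hline (fun t => hgK _ (hliner t))
  have hlim := intervalIntegral_tendsto_integral (μ := volume) i2 tendsto_neg_atTop_atBot tendsto_id
  have hfline : Continuous (fun t : ℝ => f (σ + t * I)) := by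
    refine hf.continuousOn.comp_continuous (by fun_prop) fun t => ?_
    simpa using hc
  have hPWc : Continuous (fun t : ℝ => PW W (t - τ)) := by
    unfold PW
    refine continuous_const.div (by fun_prop) fun t => ?_
    have := Real.pi_pos
    positivity
  have hle2 : ∫ t : ℝ, PW W (t - τ) * ‖g (σ + t * I)‖ ^ 2 ≤ B := by
    refine le_of_tendsto hlim ?_
    filter_upwards [eventually_gt_atTop (0:ℝ)] with R hR
    refine le_trans ?_ (hB R hR)
    refine intervalIntegral.integral_mono_on (by simp only [id]; linarith) ?_ ?_ ?_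
    · exact (hPWc.mul (hline.norm.pow 2)).intervalIntegrable _ _
    · exact (hPWc.mul (hfline.norm.pow 2)).intervalIntegrable _ _
    · intro t _
      refine mul_le_mul_of_nonneg_left ?_ (PW_pos hW _).le
      exact pow_le_pow_left₀ (norm_nonneg _) (hle _ (hliner t)) 2
  have : ‖g ((σ + W : ℝ) + τ * I)‖ ^ 2 ≤ B := by
    rw [hP]
    exact hcs.trans hle2
  exact this

/-- `log ‖f‖` at `s1` against the mean square on the line. -/
theorem halfplane {f : ℂ → ℂ} {c σ W τ K B : ℝ} {m : ℕ} (hc : c < σ)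
    (hf : DifferentiableOn ℂ f {s : ℂ | c < s.re})
    (hK : ∀ s : ℂ, σ ≤ s.re → ‖f s‖ ≤ K * (1 + ‖s‖) ^ m) (hW : 0 < W)
    (hB : ∀ R : ℝ, 0 < R → ∫ t in (-R)..R, PW W (t - τ) * ‖f (σ + t * I)‖ ^ 2 ≤ B) :
    ‖f ((σ + W : ℝ) + τ * I)‖ ^ 2 ≤ B := by
  have hcont : Tendsto (fun δ : ℝ => ‖f ((σ + W : ℝ) + τ * I) /
      (1 + (δ : ℂ) * (((σ + W : ℝ) + τ * I) - σ)) ^ m‖ ^ 2) (𝓝[>] 0)
      (𝓝 (‖f ((σ + W : ℝ) + τ * I)‖ ^ 2)) := by
    have h1 : ContinuousAt (fun δ : ℝ => ‖f ((σ + W : ℝ) + τ * I) /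
      (1 + (δ : ℂ) * (((σ + W : ℝ) + τ * I) - σ)) ^ m‖ ^ 2) 0 := by
      refine ContinuousAt.pow (ContinuousAt.norm (ContinuousAt.div continuousAt_const ?_ ?_)) 2
      · fun_prop
      · simp
    have h2 := h1.tendsto
    simp only [Complex.ofReal_zero, zero_mul, add_zero, one_pow, div_one] at h2
    exact h2.mono_left nhdsWithin_le_nhds
  refine le_of_tendsto hcont ?_
  filter_upwards [self_mem_nhdsWithin] with δ hδ
  exact oneDelta88 hc hf hK hW hB hδ

end Pool.Agent.Helper57.ED
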