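import Pool.Agent.Helper57.ED.Def

/-!
# ED-PSA: the integral of `Ψ_N`

Fubini on `0 < r < x ≤ N`: `∫_0^N Ψ_N(r) dr = ∫_0^N (∫_0^x (1-r/x)^l cos(τ log(1-r/x)) dr) x^{-2σ} dx`, the inner integral is
`x ∫_0^1 w^l cos(τ log w) dw = x Re ∫_0^1 w^{l-iτ} dw = x (l+1)/((l+1)²+τ²)`, and `∫_0^N x^{1-2σ} dx = N^{2-2σ}/(2-2σ)`.
Continuity of `Psi l τ σ N` on `[0, N]` is not needed; `(r, x) ↦ q_r(x)` is bounded by `x^{-2σ}` on `0 < r < x`, and
`∫_0^N x * x^{-2σ} dx < ∞`, which gives integrability of the product indicator.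
-/

open MeasureTheory Set Filter Topology

namespace Pool.Agent.Helper57.ED

private lemma re_cpow_h4 {l τ w : ℝ} (hw : 0 < w) :
    ((w : ℂ) ^ ((l : ℂ) - Complex.I * (τ : ℂ))).re = w ^ l * Real.cos (τ * Real.log w) := by
  rw [Complex.cpow_def_of_ne_zero (by exact_mod_cast hw.ne'), ← Complex.ofReal_log hw.le,
    Complex.exp_re, Real.rpow_def_of_pos hw]
  have h1 : ((Real.log w : ℂ) * ((l : ℂ) - Complex.I * (τ : ℂ))).re = Real.log w * l := by
    simp [Complex.mul_re]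
  have h2 : ((Real.log w : ℂ) * ((l : ℂ) - Complex.I * (τ : ℂ))).im = -(τ * Real.log w) := by
    simp [Complex.mul_im]
    ring
  rw [h1, h2, Real.cos_neg]

private lemma int01_h4 {l τ : ℝ} (hl : 1 ≤ l) :
    ∫ w in (0:ℝ)..1, w ^ l * Real.cos (τ * Real.log w) = (l + 1) / ((l + 1) ^ 2 + τ ^ 2) := by
  set z : ℂ := (l : ℂ) - Complex.I * (τ : ℂ) with hz
  have hre : z.re = l := by simp [hz]
  have him : z.im = -τ := by simp [hz]
  have hz1 : z + 1 ≠ 0 := by
    intro h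
    have := congrArg Complex.re h
    simp [hre] at this
    linarith
  have h1 : ∫ w in (0:ℝ)..1, (w : ℂ) ^ z = 1 / (z + 1) := by
    rw [integral_cpow (Or.inl (by rw [hre]; linarith))]
    rw [Complex.ofReal_zero, Complex.zero_cpow hz1, Complex.ofReal_one, Complex.one_cpow, sub_zero]
  have hint : IntervalIntegrable (fun w : ℝ => (w : ℂ) ^ z) volume 0 1 :=
    intervalIntegral.intervalIntegrable_cpow' (by rw [hre]; linarith)
  have h2 := Complex.reCLM.intervalIntegral_comp_comm hint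
  have h3 : ∫ w in (0:ℝ)..1, w ^ l * Real.cos (τ * Real.log w)
      = ∫ w in (0:ℝ)..1, Complex.reCLM ((w : ℂ) ^ z) := by
    apply intervalIntegral.integral_congr_ae
    refine Eventually.of_forall fun w hw => ?_
    rw [uIoc_of_le zero_le_one] at hw
    exact (re_cpow_h4 hw.1).symm
  rw [h3, h2, h1]
  have h4 : (z + 1).re = l + 1 := by simp [hre]
  have h5 : (z + 1).im = -τ := by simp [him]
  rw [Complex.reCLM_apply, one_div, Complex.inv_re, Complex.normSq_apply, h4, h5]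
  congr 1
  ring

private lemma qq_abs_h4 {l τ σ r x : ℝ} (hl : 1 ≤ l) (hr : 0 ≤ r) (hrx : r ≤ x) (hx : 0 < x) :
    ‖qq l τ σ r x‖ ≤ x ^ (-2 * σ) := by
  unfold qq
  rw [norm_mul, norm_mul, Real.norm_of_nonneg (Real.rpow_nonneg hx.le _)]
  have h0 : 0 ≤ 1 - r / x := by
    rw [sub_nonneg]; exact (div_le_one hx).2 hrx
  have h1 : 1 - r / x ≤ 1 := by
    have : 0 ≤ r / x := by positivity
    linarith
  have h2 : ‖(1 - r / x) ^ l‖ ≤ 1 := by
    rw [Real.norm_of_nonneg (Real.rpow_nonneg h0 _)]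
    exact Real.rpow_le_one h0 h1 (by linarith)
  have h3 : ‖Real.cos (τ * Real.log (1 - r / x))‖ ≤ 1 := Real.abs_cos_le_one _
  have h4 : 0 ≤ x ^ (-2 * σ) := Real.rpow_nonneg hx.le _
  calc ‖(1 - r / x) ^ l‖ * ‖Real.cos (τ * Real.log (1 - r / x))‖ * x ^ (-2 * σ)
      ≤ 1 * 1 * x ^ (-2 * σ) := by
        gcongr
    _ = x ^ (-2 * σ) := by ring

private lemma qq_meas_h4 (l τ σ : ℝ) : Measurable (fun p : ℝ × ℝ => qq l τ σ p.1 p.2) := by
  unfold qq
  have h1 : Measurable (fun p : ℝ × ℝ => 1 - p.1 / p.2) :=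
    measurable_const.sub (measurable_fst.div measurable_snd)
  exact ((h1.pow_const l).mul (Real.measurable_cos.comp
    (measurable_const.mul (Real.measurable_log.comp h1)))).mul (measurable_snd.pow_const _)

private noncomputable def FF_h4 (l τ σ : ℝ) (p : ℝ × ℝ) : ℝ :=
  {p : ℝ × ℝ | p.1 < p.2}.indicator (fun p => qq l τ σ p.1 p.2) p

private lemma FF_meas_h4 (l τ σ : ℝ) : Measurable (FF_h4 l τ σ) :=
  (qq_meas_h4 l τ σ).indicator (measurableSet_lt measurable_fst measurable_snd)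

private lemma FF_slice_r_h4 (l τ σ N : ℝ) {x : ℝ} (hx : x ∈ Ioc 0 N) (φ : ℝ → ℝ) (hφ : φ 0 = 0) :
    ∫ r in Ioc 0 N, φ (FF_h4 l τ σ (r, x)) = ∫ r in Ioo 0 x, φ (qq l τ σ r x) := by
  have h1 : (fun r => φ (FF_h4 l τ σ (r, x))) = (Iio x).indicator (fun r => φ (qq l τ σ r x)) := by
    funext r
    unfold FF_h4
    by_cases h : r < x
    · rw [indicator_of_mem (show (r, x) ∈ {p : ℝ × ℝ | p.1 < p.2} from h), indicator_of_mem (show r ∈ Iio x from h)]
    · rw [indicator_of_notMem (show (r, x) ∉ {p : ℝ × ℝ | p.1 < p.2} from h), indicator_of_notMem (show r ∉ Iio x from h), hφ]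
  rw [h1, setIntegral_indicator measurableSet_Iio]
  congr 2
  ext r
  simp only [mem_inter_iff, mem_Ioc, mem_Iio, mem_Ioo]
  constructor
  · rintro ⟨⟨a, b⟩, c⟩
    exact ⟨a, c⟩
  · rintro ⟨a, c⟩
    exact ⟨⟨a, c.le.trans hx.2⟩, c⟩

private lemma FF_slice_x_h4 (l τ σ N : ℝ) {r : ℝ} (hr : r ∈ Ioc 0 N) :
    ∫ x in Ioc 0 N, FF_h4 l τ σ (r, x) = Psi l τ σ N r := by
  have h1 : (fun x => FF_h4 l τ σ (r, x)) = (Ioi r).indicator (fun x => qq l τ σ r x) := by
    funext x
    unfold FF_h4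
    by_cases h : r < x
    · rw [indicator_of_mem (show (r, x) ∈ {p : ℝ × ℝ | p.1 < p.2} from h), indicator_of_mem (show x ∈ Ioi r from h)]
    · rw [indicator_of_notMem (show (r, x) ∉ {p : ℝ × ℝ | p.1 < p.2} from h), indicator_of_notMem (show x ∉ Ioi r from h)]
  rw [h1, setIntegral_indicator measurableSet_Ioi]
  unfold Psi
  rw [intervalIntegral.integral_of_le hr.2]
  congr 2
  ext x
  simp only [mem_inter_iff, mem_Ioc, mem_Ioi]
  constructor
  · rintro ⟨⟨a, b⟩, c⟩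
    exact ⟨c, b⟩
  · rintro ⟨a, c⟩
    exact ⟨⟨hr.1.trans a, c⟩, a⟩

private lemma FF_int_h4 {l τ σ N : ℝ} (hl : 1 ≤ l) (hσ1 : σ < 1) (hN : 0 < N) :
    Integrable (FF_h4 l τ σ) ((volume.restrict (Ioc 0 N)).prod (volume.restrict (Ioc 0 N))) := by
  rw [integrable_prod_iff' (FF_meas_h4 l τ σ).aestronglyMeasurable]
  constructor
  · refine (ae_restrict_mem measurableSet_Ioc).mono fun x hx => ?_
    refine Integrable.of_bound (C := x ^ (-2 * σ))
      ((FF_meas_h4 l τ σ).comp (measurable_id.prodMk measurable_const)).aestronglyMeasurable ?_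
    refine (ae_restrict_mem measurableSet_Ioc).mono fun r hr => ?_
    unfold FF_h4
    by_cases h : r < x
    · rw [indicator_of_mem (show (r, x) ∈ {p : ℝ × ℝ | p.1 < p.2} from h)]
      exact qq_abs_h4 hl hr.1.le h.le hx.1
    · rw [indicator_of_notMem (show (r, x) ∉ {p : ℝ × ℝ | p.1 < p.2} from h), norm_zero]
      exact Real.rpow_nonneg hx.1.le _
  · have hi : IntegrableOn (fun x : ℝ => x ^ (1 - 2 * σ)) (Ioc 0 N) := by
      rw [← intervalIntegrable_iff_integrableOn_Ioc_of_le hN.le]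
      exact intervalIntegral.intervalIntegrable_rpow' (by linarith)
    refine Integrable.mono' hi ?_ ?_
    · exact ((FF_meas_h4 l τ σ).norm.aestronglyMeasurable.prod_swap).integral_prod_right'
    · refine (ae_restrict_mem measurableSet_Ioc).mono fun x hx => ?_
      rw [FF_slice_r_h4 l τ σ N hx (fun a => ‖a‖) norm_zero]
      have hx0 : 0 < x := hx.1
      have hb : ‖∫ r in Ioo 0 x, ‖qq l τ σ r x‖‖ ≤ x ^ (-2 * σ) * volume.real (Ioo 0 x) := by
        refine norm_setIntegral_le_of_norm_le_const (by simp) fun r hr => ?_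
        rw [norm_norm]
        exact qq_abs_h4 hl hr.1.le hr.2.le hx0
      refine hb.trans (le_of_eq ?_)
      rw [Real.volume_real_Ioo_of_le hx0.le, sub_zero]
      rw [show (1 - 2 * σ) = -2 * σ + 1 by ring, Real.rpow_add hx0, Real.rpow_one]

theorem psi_int {l τ σ N : ℝ} (hl : 1 ≤ l) (hσ : 1 / 2 < σ) (hσ1 : σ < 1) (hN : 0 < N) :
    IntervalIntegrable (Psi l τ σ N) volume 0 N ∧
    ∫ r in (0:ℝ)..N, Psi l τ σ N r = N ^ (2 - 2 * σ) * ((l + 1) / ((l + 1) ^ 2 + τ ^ 2)) / (2 - 2 * σ) := by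
  have hF := FF_int_h4 (l := l) (τ := τ) (σ := σ) (N := N) hl hσ1 hN
  have hs : (fun r => ∫ x in Ioc 0 N, FF_h4 l τ σ (r, x)) =ᵐ[volume.restrict (Ioc 0 N)] Psi l τ σ N :=
    (ae_restrict_mem measurableSet_Ioc).mono fun r hr => FF_slice_x_h4 l τ σ N hr
  constructor
  · rw [intervalIntegrable_iff_integrableOn_Ioc_of_le hN.le]
    exact hF.integral_prod_left.congr hs
  · rw [intervalIntegral.integral_of_le hN.le, ← integral_congr_ae hs,
      integral_integral_swap (f := fun r x => FF_h4 l τ σ (r, x)) hF]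
    have h1 : ∫ x in Ioc 0 N, ∫ r in Ioc 0 N, FF_h4 l τ σ (r, x)
        = ∫ x in Ioc 0 N, ((l + 1) / ((l + 1) ^ 2 + τ ^ 2)) * x ^ (1 - 2 * σ) := by
      refine setIntegral_congr_fun measurableSet_Ioc fun x hx => ?_
      have hx0 : 0 < x := hx.1
      have h2 : ∫ r in Ioc 0 N, FF_h4 l τ σ (r, x) = ∫ r in Ioo 0 x, qq l τ σ r x :=
        FF_slice_r_h4 l τ σ N hx (fun a => a) rfl
      rw [h2, ← integral_Ioc_eq_integral_Ioo, ← intervalIntegral.integral_of_le hx0.le]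
      have h3 : (fun r => qq l τ σ r x)
          = fun r => (fun w : ℝ => w ^ l * Real.cos (τ * Real.log w)) (1 - r / x) * x ^ (-2 * σ) := by
        funext r; rfl
      rw [h3, intervalIntegral.integral_mul_const,
        intervalIntegral.integral_comp_sub_div (fun w : ℝ => w ^ l * Real.cos (τ * Real.log w)) hx0.ne' 1,
        div_self hx0.ne', zero_div, sub_self, sub_zero, int01_h4 hl, smul_eq_mul,
        show (1 - 2 * σ) = -2 * σ + 1 by ring, Real.rpow_add hx0, Real.rpow_one]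
      ring
    rw [h1, integral_const_mul, ← intervalIntegral.integral_of_le hN.le,
      integral_rpow (Or.inl (by linarith)), show 1 - 2 * σ + 1 = 2 - 2 * σ by ring,
      Real.zero_rpow (by linarith), sub_zero]
    ring

end Pool.Agent.Helper57.ED
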