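import Pool.Agent.Helper57.ED.Def

/-!
# ED-RHA: elementary facts on `ρ_z`

Abel summation: `∑_{m ≤ x} m^z = x^z ⌊x⌋ - z ∫_0^x ⌊y⌋ y^{z-1} dy`, hence
`ρ_z(x) = -{x} + z x^{-z} ∫_0^x {y} y^{z-1} dy` (`x > 0`, `Re z > 0`), and
`‖ρ_z(x)‖ ≤ 1 + ‖z‖/Re z`. (`sum_mul_eq_sub_integral_mul` in Mathlib, on `[1, x]`; or induction on `⌊x⌋₊`.)
Measurability: `⌊x⌋₊` is measurable with countable range.
-/

open MeasureTheory Set Filter Topology Complex

namespace Pool.Agent.Helper57.ED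

private theorem gm77 {z : ℂ} (hz : 0 < z.re) {x : ℝ} {m : ℕ} (hm : 1 ≤ m) (hmx : (m:ℝ) ≤ x) :
    IntegrableOn (fun y : ℝ => if (m:ℝ) ≤ y then (y : ℂ) ^ (z - 1) else 0) (Ioc (0:ℝ) x) ∧
    ∫ y in Ioc (0:ℝ) x, (if (m:ℝ) ≤ y then (y : ℂ) ^ (z - 1) else 0) = ((x:ℂ) ^ z - (m:ℂ) ^ z) / z := by
  have hm1 : (1:ℝ) ≤ m := by exact_mod_cast hm
  have hx : 0 < x := by linarith
  have hr : -1 < (z - 1).re := by simp; exact hz
  have h1 : IntegrableOn (fun y : ℝ => (y : ℂ) ^ (z - 1)) (Ioc (0:ℝ) x) := by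
    have := intervalIntegral.intervalIntegrable_cpow' (a := 0) (b := x) hr
    rw [intervalIntegrable_iff_integrableOn_Ioc_of_le hx.le] at this
    exact this
  have e : (fun y : ℝ => if (m:ℝ) ≤ y then (y : ℂ) ^ (z - 1) else 0)
      = Set.indicator (Ici (m:ℝ)) (fun y : ℝ => (y : ℂ) ^ (z - 1)) := by
    funext y
    simp only [Set.indicator, Set.mem_Ici]
  have h2 : IntegrableOn (fun y : ℝ => if (m:ℝ) ≤ y then (y : ℂ) ^ (z - 1) else 0) (Ioc (0:ℝ) x) := by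
    rw [e]; exact h1.indicator measurableSet_Ici
  refine ⟨h2, ?_⟩
  rw [e, setIntegral_indicator measurableSet_Ici]
  have e2 : (Ioc (0:ℝ) x ∩ Ici (m:ℝ)) = Icc (m:ℝ) x := by
    ext y
    simp only [mem_inter_iff, mem_Ioc, mem_Ici, mem_Icc]
    constructor
    · rintro ⟨⟨_, h2⟩, h3⟩; exact ⟨h3, h2⟩
    · rintro ⟨h2, h3⟩; exact ⟨⟨by linarith, h3⟩, h2⟩
  rw [e2, integral_Icc_eq_integral_Ioc, ← intervalIntegral.integral_of_le hmx]
  rw [integral_cpow (Or.inl hr)]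
  simp

theorem rho_eq {z : ℂ} (hz : 0 < z.re) {x : ℝ} (hx : 0 < x) :
    rho z x = -((Int.fract x : ℝ) : ℂ) +
      z * (x : ℂ) ^ (-z) * ∫ y in Ioc (0:ℝ) x, ((Int.fract y : ℝ) : ℂ) * (y : ℂ) ^ (z - 1) := by
  have hz0 : z ≠ 0 := by intro h; rw [h] at hz; simp at hz
  have hz1 : z + 1 ≠ 0 := by
    intro h
    have : (z + 1).re = 0 := by rw [h]; simp
    simp at this; linarith
  have hxc : (x:ℂ) ≠ 0 := by exact_mod_cast hx.ne'
  set k := ⌊x⌋₊ with hk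
  have hmk : ∀ m ∈ Finset.Icc 1 k, 1 ≤ m ∧ (m:ℝ) ≤ x := by
    intro m hm
    rw [Finset.mem_Icc] at hm
    exact ⟨hm.1, le_trans (by exact_mod_cast hm.2) (Nat.floor_le hx.le)⟩
  have hzr : -1 < z.re := by linarith
  have hI0 : IntegrableOn (fun y : ℝ => (y : ℂ) ^ z) (Ioc (0:ℝ) x) := by
    have := intervalIntegral.intervalIntegrable_cpow' (a := 0) (b := x) hzr
    rw [intervalIntegrable_iff_integrableOn_Ioc_of_le hx.le] at this
    exact this
  have hpt : ∀ y ∈ Ioc (0:ℝ) x, ((Int.fract y : ℝ) : ℂ) * (y : ℂ) ^ (z - 1) =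
      (y : ℂ) ^ z - ∑ m ∈ Finset.Icc 1 k, (if (m:ℝ) ≤ y then (y : ℂ) ^ (z - 1) else 0) := by
    intro y hy
    have hy0 : 0 < y := hy.1
    have hyc : (y:ℂ) ≠ 0 := by exact_mod_cast hy0.ne'
    have hfl : ∑ m ∈ Finset.Icc 1 k, (if (m:ℝ) ≤ y then (y : ℂ) ^ (z - 1) else 0)
        = (⌊y⌋₊ : ℂ) * (y : ℂ) ^ (z - 1) := by
      rw [← Finset.sum_filter, Finset.sum_const, nsmul_eq_mul]
      congr 1
      have : (Finset.Icc 1 k).filter (fun m : ℕ => (m:ℝ) ≤ y) = Finset.Icc 1 ⌊y⌋₊ := by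
        ext m
        simp only [Finset.mem_filter, Finset.mem_Icc]
        constructor
        · rintro ⟨⟨h1, _⟩, h3⟩
          exact ⟨h1, Nat.le_floor h3⟩
        · rintro ⟨h1, h2⟩
          have h3 : (m:ℝ) ≤ y := le_trans (by exact_mod_cast h2) (Nat.floor_le hy0.le)
          exact ⟨⟨h1, h2.trans (Nat.floor_le_floor hy.2)⟩, h3⟩
      rw [this]; simp
    rw [hfl]
    have hf : Int.fract y = y - ⌊y⌋₊ := by
      rw [Int.fract, natCast_floor_eq_intCast_floor hy0.le]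
    rw [hf, cpow_sub _ _ hyc, cpow_one]
    push_cast
    field_simp
  have hint : ∫ y in Ioc (0:ℝ) x, ((Int.fract y : ℝ) : ℂ) * (y : ℂ) ^ (z - 1)
      = (x:ℂ) ^ (z + 1) / (z + 1) - ∑ m ∈ Finset.Icc 1 k, ((x:ℂ) ^ z - (m:ℂ) ^ z) / z := by
    rw [setIntegral_congr_fun measurableSet_Ioc hpt]
    rw [integral_sub hI0 (integrable_finsetSum _ fun m hm => (gm77 hz (hmk m hm).1 (hmk m hm).2).1)]
    rw [integral_finsetSum _ fun m hm => (gm77 hz (hmk m hm).1 (hmk m hm).2).1]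
    congr 1
    · rw [← intervalIntegral.integral_of_le hx.le, integral_cpow (Or.inl hzr)]
      rw [ofReal_zero, zero_cpow hz1, sub_zero]
    · exact Finset.sum_congr rfl fun m hm => (gm77 hz (hmk m hm).1 (hmk m hm).2).2
  rw [hint, rho]
  have hsum : ∑ m ∈ Finset.Icc 1 k, (((m : ℝ) / x : ℝ) : ℂ) ^ z = (x:ℂ) ^ (-z) * ∑ m ∈ Finset.Icc 1 k, (m:ℂ) ^ z := by
    rw [Finset.mul_sum]
    apply Finset.sum_congr rfl
    intro m hm
    have hm0 : (0:ℝ) ≤ m := Nat.cast_nonneg m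
    rw [ofReal_div, div_eq_mul_inv, ← ofReal_inv, mul_cpow_ofReal_nonneg hm0 (inv_nonneg.mpr hx.le)]
    rw [ofReal_inv, inv_cpow, cpow_neg, mul_comm]
    · simp
    · rw [arg_ofReal_of_nonneg hx.le]; exact Real.pi_pos.ne
  rw [hsum]
  have hS : ∑ m ∈ Finset.Icc 1 k, ((x:ℂ) ^ z - (m:ℂ) ^ z) / z
      = ((k:ℂ) * (x:ℂ) ^ z - ∑ m ∈ Finset.Icc 1 k, (m:ℂ) ^ z) / z := by
    rw [← Finset.sum_div, Finset.sum_sub_distrib]
    simp
  rw [hS]
  have hf : Int.fract x = x - k := by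
    rw [Int.fract, natCast_floor_eq_intCast_floor hx.le]
  have hp1 : (x:ℂ) ^ (z + 1) = (x:ℂ) ^ z * x := by rw [cpow_add _ _ hxc, cpow_one]
  have hp0 : (x:ℂ) ^ (-z) * (x:ℂ) ^ z = 1 := by
    rw [← cpow_add _ _ hxc]; simp
  set S := ∑ m ∈ Finset.Icc 1 k, (m:ℂ) ^ z with hSd
  rw [hf, hp1]
  set A := (x:ℂ) ^ (-z) with hA
  set B := (x:ℂ) ^ z with hB
  have e : -(((x - (k:ℝ) : ℝ)) : ℂ) + z * A * (B * x / (z + 1) - ((k:ℂ) * B - S) / z)
      = -((x:ℂ) - k) + z * (A * B) * x / (z + 1) - (A * B) * k + A * S := by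
    push_cast
    field_simp
    ring
  rw [e, hp0]
  field_simp
  ring

theorem norm_rho_le {z : ℂ} (hz : 0 < z.re) {x : ℝ} (hx : 0 < x) : ‖rho z x‖ ≤ 1 + ‖z‖ / z.re := by
  rw [rho_eq hz hx]
  have h1 : ‖-((Int.fract x : ℝ) : ℂ)‖ ≤ 1 := by
    rw [norm_neg, norm_real, Real.norm_eq_abs, abs_of_nonneg (Int.fract_nonneg x)]
    exact (Int.fract_lt_one x).le
  have hr : -1 < z.re - 1 := by linarith
  have hI : IntegrableOn (fun y : ℝ => y ^ (z.re - 1)) (Ioc (0:ℝ) x) := by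
    have := intervalIntegral.intervalIntegrable_rpow' (a := 0) (b := x) hr
    rw [intervalIntegrable_iff_integrableOn_Ioc_of_le hx.le] at this
    exact this
  have h2 : ‖∫ y in Ioc (0:ℝ) x, ((Int.fract y : ℝ) : ℂ) * (y : ℂ) ^ (z - 1)‖ ≤ x ^ z.re / z.re := by
    have e : ∫ y in Ioc (0:ℝ) x, y ^ (z.re - 1) = x ^ z.re / z.re := by
      rw [← intervalIntegral.integral_of_le hx.le, integral_rpow (Or.inl hr)]
      rw [sub_add_cancel, Real.zero_rpow hz.ne', sub_zero]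
    rw [← e]
    refine norm_integral_le_of_norm_le hI ?_
    filter_upwards [ae_restrict_mem measurableSet_Ioc] with y hy
    rw [norm_mul, norm_real, Real.norm_eq_abs, abs_of_nonneg (Int.fract_nonneg y),
      norm_cpow_eq_rpow_re_of_pos hy.1]
    have : (z - 1).re = z.re - 1 := by simp
    rw [this]
    have h3 : 0 ≤ y ^ (z.re - 1) := Real.rpow_nonneg hy.1.le _
    exact mul_le_of_le_one_left h3 (Int.fract_lt_one y).le
  have h4 : ‖(x:ℂ) ^ (-z)‖ = x ^ (-z.re) := by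
    rw [norm_cpow_eq_rpow_re_of_pos hx]; simp
  refine (norm_add_le _ _).trans (add_le_add h1 ?_)
  rw [norm_mul, norm_mul, h4]
  calc ‖z‖ * x ^ (-z.re) * ‖∫ y in Ioc (0:ℝ) x, ((Int.fract y : ℝ) : ℂ) * (y : ℂ) ^ (z - 1)‖
      ≤ ‖z‖ * x ^ (-z.re) * (x ^ z.re / z.re) := by
        apply mul_le_mul_of_nonneg_left h2
        exact mul_nonneg (norm_nonneg _) (Real.rpow_nonneg hx.le _)
    _ = ‖z‖ / z.re := by
        have : x ^ (-z.re) * x ^ z.re = 1 := by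
          rw [← Real.rpow_add hx]; simp
        calc ‖z‖ * x ^ (-z.re) * (x ^ z.re / z.re) = ‖z‖ * (x ^ (-z.re) * x ^ z.re) / z.re := by ring
          _ = ‖z‖ / z.re := by rw [this, mul_one]

theorem rho_small (z : ℂ) {x : ℝ} (hx1 : x < 1) : rho z x = -((x : ℂ) / (z + 1)) := by
  have : ⌊x⌋₊ = 0 := Nat.floor_eq_zero.mpr hx1
  rw [rho, this]; simp

theorem measurable_rho (z : ℂ) : Measurable (rho z) := by
  have h1 : Measurable (fun p : ℕ × ℝ => ∑ m ∈ Finset.Icc 1 p.1, (((m : ℝ) / p.2 : ℝ) : ℂ) ^ z) := by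
    apply measurable_from_prod_countable_right
    intro n
    have h0 : Measurable (fun y : ℝ => ∑ m ∈ Finset.Icc 1 n, (((m : ℝ) / y : ℝ) : ℂ) ^ z) := by
      apply Finset.measurable_sum
      intro m _
      exact (Complex.measurable_ofReal.comp (measurable_const.div measurable_id)).pow_const z
    exact h0
  have h2 : Measurable (fun x : ℝ => (⌊x⌋₊, x)) := Nat.measurable_floor.prodMk measurable_id
  have h3 := h1.comp h2
  exact h3.sub ((Complex.measurable_ofReal).div_const _)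

end Pool.Agent.Helper57.ED
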