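import Pool.Agent.Helper57.ED.RhA

/-!
# ED-RHB: Mellin transform of `ρ_z`

* `fract_mellin`: `∫_0^∞ {x} x^{-s-1} dx = -ζ(s)/s` for `0 < Re s < 1`. Split at `1`: `∫_0^1 x^{-s} dx = 1/(1-s)`,
  `∫_1^∞ = Jf1 s`, and `Zt_eq_J : Zt s = s - s(s-1) Jf1 s` (`0 < Re s`), `Zt_eq : Zt s = (s-1) ζ(s)`.
* `mellin_rho`: by `rho_eq` and Fubini:
  `∫_0^∞ z x^{-z} (∫_0^x {y} y^{z-1} dy) x^{-s-1} dx = ∫_0^∞ {y} y^{z-1} z (∫_y^∞ x^{-z-s-1} dx) dy = z/(z+s) ∫ {y} y^{-s-1} dy`,
  total `-ζ(s)/s * (-1 + z/(z+s)) = ζ(s)/(s+z)`.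
-/

open MeasureTheory Set Filter Topology Complex
open Pool.Agent.Helper57.Zeta Pool.Agent.Helper57.LH

namespace Pool.Agent.Helper57.ED

private lemma ne_one_64 {s : ℂ} (hs1 : s.re < 1) : s ≠ 1 := by
  rintro rfl
  simp at hs1

private lemma ne_zero_64 {s : ℂ} (hs : 0 < s.re) : s ≠ 0 := by
  rintro rfl
  simp at hs

private lemma low_64 {s : ℂ} (hs1 : s.re < 1) :
    IntegrableOn (fun x : ℝ => ((Int.fract x : ℝ) : ℂ) * (x : ℂ) ^ (-s - 1)) (Ioc 0 1) ∧
    ∫ x in Ioc (0:ℝ) 1, ((Int.fract x : ℝ) : ℂ) * (x : ℂ) ^ (-s - 1) = 1 / (1 - s) := by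
  have hre : -1 < (-s).re := by rw [Complex.neg_re]; linarith
  have hI : IntervalIntegrable (fun x : ℝ => (x : ℂ) ^ (-s)) volume 0 1 :=
    intervalIntegral.intervalIntegrable_cpow' hre
  have hI' : IntegrableOn (fun x : ℝ => (x : ℂ) ^ (-s)) (Ioc 0 1) :=
    (intervalIntegrable_iff_integrableOn_Ioc_of_le zero_le_one).mp hI
  have hae : (fun x : ℝ => (x : ℂ) ^ (-s)) =ᵐ[volume.restrict (Ioc (0:ℝ) 1)]
      (fun x : ℝ => ((Int.fract x : ℝ) : ℂ) * (x : ℂ) ^ (-s - 1)) := by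
    have h1 : ∀ᵐ x : ℝ ∂volume.restrict (Ioc (0:ℝ) 1), x ≠ 1 :=
      ae_restrict_of_ae (Measure.ae_ne volume 1)
    filter_upwards [h1, ae_restrict_mem measurableSet_Ioc] with x hx hx'
    have hx0 : 0 < x := hx'.1
    have hx1 : x < 1 := lt_of_le_of_ne hx'.2 hx
    have e : Int.fract x = x := Int.fract_eq_self.mpr ⟨hx0.le, hx1⟩
    rw [e]
    have hxc : (x : ℂ) ≠ 0 := by exact_mod_cast hx0.ne'
    rw [show -s = 1 + (-s - 1) by ring, Complex.cpow_add _ _ hxc, Complex.cpow_one]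
    congr 2
    ring
  refine ⟨hI'.congr hae, ?_⟩
  rw [← integral_congr_ae hae, ← intervalIntegral.integral_of_le zero_le_one,
    integral_cpow (Or.inl hre)]
  have hne : -s + 1 ≠ 0 := by
    intro h
    exact ne_one_64 hs1 (by linear_combination -h)
  rw [Complex.ofReal_one, Complex.one_cpow, Complex.ofReal_zero, Complex.zero_cpow hne, sub_zero]
  congr 1
  ring

theorem fract_mellin {s : ℂ} (hs : 0 < s.re) (hs1 : s.re < 1) :
    IntegrableOn (fun x : ℝ => ((Int.fract x : ℝ) : ℂ) * (x : ℂ) ^ (-s - 1)) (Ioi 0) ∧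
    ∫ x in Ioi (0:ℝ), ((Int.fract x : ℝ) : ℂ) * (x : ℂ) ^ (-s - 1) = -(riemannZeta s / s) := by
  obtain ⟨h1, h2⟩ := low_64 hs1
  have h3 : IntegrableOn (fun x : ℝ => ((Int.fract x : ℝ) : ℂ) * (x : ℂ) ^ (-s - 1)) (Ioi 1) := by
    have := integrableOn_fr hs
    rwa [show -(s + 1) = -s - 1 by ring] at this
  have hU : Ioc (0:ℝ) 1 ∪ Ioi 1 = Ioi 0 := Ioc_union_Ioi_eq_Ioi zero_le_one
  refine ⟨hU ▸ h1.union h3, ?_⟩
  rw [← hU, setIntegral_union (Ioc_disjoint_Ioi le_rfl) measurableSet_Ioi h1 h3, h2]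
  have h4 : ∫ x in Ioi (1:ℝ), ((Int.fract x : ℝ) : ℂ) * (x : ℂ) ^ (-s - 1) = Jf1 s := by
    unfold Jf1
    rw [show -(s + 1) = -s - 1 by ring]
  rw [h4]
  have hs0 := ne_zero_64 hs
  have hs1' := ne_one_64 hs1
  have e1 := Zt_eq_J hs
  rw [Zt_eq hs hs1'] at e1
  have h5 : s - 1 ≠ 0 := sub_ne_zero.mpr hs1'
  have h6 : 1 - s ≠ 0 := sub_ne_zero.mpr (Ne.symm hs1')
  have h7 : Jf1 s = 1 / (s - 1) - riemannZeta s / s := by
    field_simp
    linear_combination e1
  rw [h7]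
  field_simp
  ring

/-- the kernel of the double integral -/
private noncomputable def fk64 (z s : ℂ) (p : ℝ × ℝ) : ℂ :=
  {p : ℝ × ℝ | p.2 ≤ p.1}.indicator
    (fun p => ((Int.fract p.2 : ℝ) : ℂ) * (p.2 : ℂ) ^ (z - 1) * (z * (p.1 : ℂ) ^ (-z - s - 1))) p

private lemma fk64_y (z s : ℂ) (y : ℝ) : (fun x : ℝ => fk64 z s (x, y)) =
    (Ici y).indicator (fun x : ℝ => ((Int.fract y : ℝ) : ℂ) * (y : ℂ) ^ (z - 1) * (z * (x : ℂ) ^ (-z - s - 1))) := by
  funext x
  by_cases h : y ≤ x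
  · rw [indicator_of_mem (show x ∈ Ici y from h), fk64, indicator_of_mem]
    exact h
  · rw [indicator_of_notMem (show x ∉ Ici y from h), fk64, indicator_of_notMem]
    exact h

private lemma fk64_x (z s : ℂ) (x : ℝ) : (fun y : ℝ => fk64 z s (x, y)) =
    (Iic x).indicator (fun y : ℝ => ((Int.fract y : ℝ) : ℂ) * (y : ℂ) ^ (z - 1) * (z * (x : ℂ) ^ (-z - s - 1))) := by
  funext y
  by_cases h : y ≤ x
  · rw [indicator_of_mem (show y ∈ Iic x from h), fk64, indicator_of_mem]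
    exact h
  · rw [indicator_of_notMem (show y ∉ Iic x from h), fk64, indicator_of_notMem]
    exact h

private lemma measurable_fk64 (z s : ℂ) : Measurable (fk64 z s) := by
  unfold fk64
  apply Measurable.indicator
  · apply Measurable.mul
    · apply Measurable.mul
      · exact Complex.measurable_ofReal.comp (measurable_fract.comp measurable_snd)
      · exact (Complex.measurable_ofReal.comp measurable_snd).pow_const _
    · exact ((Complex.measurable_ofReal.comp measurable_fst).pow_const _).const_mul _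
  · exact measurableSet_le measurable_snd measurable_fst

private lemma int_pow_64 {z s : ℂ} (hz : 0 < z.re) (hs : 0 < s.re) {y : ℝ} (hy : 0 < y) :
    IntegrableOn (fun x : ℝ => (x : ℂ) ^ (-z - s - 1)) (Ici y) ∧
    ∫ x in Ici y, (x : ℂ) ^ (-z - s - 1) = (y : ℂ) ^ (-(z + s)) / (z + s) ∧
    ∫ x in Ici y, ‖(x : ℂ) ^ (-z - s - 1)‖ = y ^ (-(z.re + s.re)) / (z.re + s.re) := by
  have hre : (-z - s - 1).re < -1 := by
    simp only [Complex.sub_re, Complex.neg_re, Complex.one_re]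
    linarith
  refine ⟨?_, ?_, ?_⟩
  · rw [integrableOn_Ici_iff_integrableOn_Ioi]
    exact integrableOn_Ioi_cpow_of_lt hre hy
  · rw [integral_Ici_eq_integral_Ioi, integral_Ioi_cpow_of_lt hre hy,
      show -z - s - 1 + 1 = -(z + s) by ring, neg_div_neg_eq]
  · rw [integral_Ici_eq_integral_Ioi]
    have e : ∫ x in Ioi y, ‖(x : ℂ) ^ (-z - s - 1)‖ = ∫ x in Ioi y, x ^ (-z.re - s.re - 1) := by
      refine setIntegral_congr_fun measurableSet_Ioi (fun x hx => ?_)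
      have hx0 : 0 < x := lt_trans hy hx
      rw [Complex.norm_cpow_eq_rpow_re_of_pos hx0]
      simp
    rw [e, integral_Ioi_rpow_of_lt (by linarith) hy,
      show -z.re - s.re - 1 + 1 = -(z.re + s.re) by ring, neg_div_neg_eq]

private lemma integrable_fk64 {z : ℂ} (hz : 0 < z.re) {s : ℂ} (hs : 0 < s.re) (hs1 : s.re < 1) :
    Integrable (fk64 z s) ((volume.restrict (Ioi (0:ℝ))).prod (volume.restrict (Ioi (0:ℝ)))) := by
  rw [integrable_prod_iff' (measurable_fk64 z s).aestronglyMeasurable]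
  constructor
  · filter_upwards [ae_restrict_mem measurableSet_Ioi] with y hy
    rw [fk64_y, integrable_indicator_iff measurableSet_Ici]
    apply IntegrableOn.mono_measure _ Measure.restrict_le_self
    exact ((int_pow_64 hz hs hy).1.const_mul z).const_mul _
  · have h1 := ((fract_mellin hs hs1).1.norm.const_mul (‖z‖ / (z.re + s.re)))
    refine h1.congr ?_
    filter_upwards [ae_restrict_mem measurableSet_Ioi] with y hy
    have hy0 : 0 < y := hy
    have e1 : (fun x : ℝ => ‖fk64 z s (x, y)‖) = (Ici y).indicator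
        (fun x : ℝ => (‖((Int.fract y : ℝ) : ℂ) * (y : ℂ) ^ (z - 1)‖ * ‖z‖) * ‖(x : ℂ) ^ (-z - s - 1)‖) := by
      funext x
      have := congrFun (fk64_y z s y) x
      rw [this, norm_indicator_eq_indicator_norm]
      by_cases h : x ∈ Ici y
      · rw [indicator_of_mem h, indicator_of_mem h, norm_mul, norm_mul z, mul_assoc]
      · rw [indicator_of_notMem h, indicator_of_notMem h]
    rw [e1, integral_indicator measurableSet_Ici, Measure.restrict_restrict measurableSet_Ici,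
      show Ici y ∩ Ioi (0:ℝ) = Ici y from inter_eq_left.mpr (fun x hx => lt_of_lt_of_le hy0 hx),
      integral_const_mul, (int_pow_64 hz hs hy0).2.2, norm_mul, norm_mul,
      Complex.norm_cpow_eq_rpow_re_of_pos hy0, Complex.norm_cpow_eq_rpow_re_of_pos hy0]
    have e2 : y ^ (-s - 1).re = y ^ (z - 1).re * y ^ (-(z.re + s.re)) := by
      rw [← Real.rpow_add hy0]
      congr 1
      simp only [Complex.sub_re, Complex.neg_re, Complex.one_re]
      ring
    rw [e2]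
    ring

private lemma inner_y_64 {z : ℂ} (s : ℂ) {x : ℝ} (hx : 0 < x) :
    ∫ y in Ioi (0:ℝ), fk64 z s (x, y) =
      z * (x : ℂ) ^ (-z) * (∫ y in Ioc (0:ℝ) x, ((Int.fract y : ℝ) : ℂ) * (y : ℂ) ^ (z - 1)) * (x : ℂ) ^ (-s - 1) := by
  rw [fk64_x, integral_indicator measurableSet_Iic, Measure.restrict_restrict measurableSet_Iic,
    show Iic x ∩ Ioi (0:ℝ) = Ioc 0 x by ext y; simp [and_comm], integral_mul_const]
  have hxc : (x : ℂ) ≠ 0 := by exact_mod_cast hx.ne'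
  rw [show -z - s - 1 = -z + (-s - 1) by ring, Complex.cpow_add _ _ hxc]
  ring

private lemma inner_x_64 {z : ℂ} (hz : 0 < z.re) {s : ℂ} (hs : 0 < s.re) {y : ℝ} (hy : 0 < y) :
    ∫ x in Ioi (0:ℝ), fk64 z s (x, y) =
      z / (z + s) * (((Int.fract y : ℝ) : ℂ) * (y : ℂ) ^ (-s - 1)) := by
  rw [fk64_y, integral_indicator measurableSet_Ici, Measure.restrict_restrict measurableSet_Ici,
    show Ici y ∩ Ioi (0:ℝ) = Ici y from inter_eq_left.mpr (fun x hx => lt_of_lt_of_le hy hx),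
    integral_const_mul, integral_const_mul, (int_pow_64 hz hs hy).2.1]
  have hyc : (y : ℂ) ≠ 0 := by exact_mod_cast hy.ne'
  have e : (y : ℂ) ^ (-s - 1) = (y : ℂ) ^ (z - 1) * (y : ℂ) ^ (-(z + s)) := by
    rw [← Complex.cpow_add _ _ hyc]
    congr 1
    ring
  rw [e]
  ring

private lemma rho_split_64 {z : ℂ} (hz : 0 < z.re) (s : ℂ) :
    (fun x : ℝ => rho z x * (x : ℂ) ^ (-s - 1)) =ᵐ[volume.restrict (Ioi (0:ℝ))]
      (fun x : ℝ => -(((Int.fract x : ℝ) : ℂ) * (x : ℂ) ^ (-s - 1)) + ∫ y in Ioi (0:ℝ), fk64 z s (x, y)) := by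
  filter_upwards [ae_restrict_mem measurableSet_Ioi] with x hx
  rw [inner_y_64 s hx, rho_eq hz hx]
  ring

theorem integrable_rho {z : ℂ} (hz : 0 < z.re) {s : ℂ} (hs : 0 < s.re) (hs1 : s.re < 1) :
    IntegrableOn (fun x : ℝ => rho z x * (x : ℂ) ^ (-s - 1)) (Ioi 0) := by
  refine Integrable.congr ?_ (rho_split_64 hz s).symm
  exact (fract_mellin hs hs1).1.neg.add (integrable_fk64 hz hs hs1).integral_prod_left

theorem mellin_rho {z : ℂ} (hz : 0 < z.re) {s : ℂ} (hs : 0 < s.re) (hs1 : s.re < 1) :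
    ∫ x in Ioi (0:ℝ), rho z x * (x : ℂ) ^ (-s - 1) = riemannZeta s / (s + z) := by
  have hsz : z + s ≠ 0 := by
    intro h
    have := congrArg Complex.re h
    simp only [Complex.add_re, Complex.zero_re] at this
    linarith
  have hsz' : s + z ≠ 0 := by rwa [add_comm]
  have hs0 := ne_zero_64 hs
  have hA : Integrable (fun x : ℝ => -(((Int.fract x : ℝ) : ℂ) * (x : ℂ) ^ (-s - 1)))
      (volume.restrict (Ioi (0:ℝ))) := (fract_mellin hs hs1).1.neg
  rw [integral_congr_ae (rho_split_64 hz s), integral_add hA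
    (integrable_fk64 hz hs hs1).integral_prod_left, integral_neg, (fract_mellin hs hs1).2]
  have h1 : ∫ x in Ioi (0:ℝ), ∫ y in Ioi (0:ℝ), fk64 z s (x, y) =
      ∫ y in Ioi (0:ℝ), ∫ x in Ioi (0:ℝ), fk64 z s (x, y) :=
    integral_integral_swap (f := fun x y => fk64 z s (x, y)) (integrable_fk64 hz hs hs1)
  have h2 : ∫ y in Ioi (0:ℝ), ∫ x in Ioi (0:ℝ), fk64 z s (x, y) =
      ∫ y in Ioi (0:ℝ), z / (z + s) * (((Int.fract y : ℝ) : ℂ) * (y : ℂ) ^ (-s - 1)) :=
    setIntegral_congr_fun measurableSet_Ioi (fun y hy => inner_x_64 hz hs hy)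
  rw [h1, h2, integral_const_mul, (fract_mellin hs hs1).2]
  field_simp
  ring

end Pool.Agent.Helper57.ED
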