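import Pool.Agent.Helper57.ED.Def

/-!
# ED-SEA: Selberg weights for the exponent `s > 1`

`J(d) = ∏_{p ∣ d} (p^s - 1)` for squarefree `d`, `V = ∑_{d ≤ X} μ²(d)/J(d)`,
`b_h = μ(h) h^s/V ∑_{d ≤ X, h ∣ d} μ²(d)/J(d)` (`= 0` for `h > X` and for `h` not squarefree), `b_1 = 1`. For squarefree `h, k`:
`[h,k]^{-s} = (hk)^{-s} ∑_{e ∣ (h,k)} J(e)`, the form is `∑_{e ≤ X} μ²(e) J(e) y_e²`, `y_e = ∑_{e ∣ h} b_h h^{-s} = μ(e)/(J(e) V)`,
value `1/V`. `V ≥ ∑_{n ≤ X} n^{-s}` (group `n` by its radical: `1/J(d) = ∑_{rad n = d} n^{-s}`; or: `1/J(d) = ∏_{p∣d} ∑_{j≥1} p^{-js}`).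
`|b_h| ≤ 1`: `V ≥ ∑_{t ∣ h} ∑_{d : (d,h) = t} = ∑_{t∣h} (1/J(t)) ∑_{m ≤ X/t, (m,h)=1} μ²(m)/J(m) ≥
(∑_{t ∣ h} 1/J(t)) ∑_{m ≤ X/h, (m,h) = 1} μ²(m)/J(m)`, and `∑_{t∣h} 1/J(t) = h^s/J(h)`, `|b_h| V = (h^s/J(h)) ∑_{m ≤ X/h, (m,h)=1} μ²(m)/J(m)`.
-/

namespace Pool.Agent.Helper57.ED

open Finset

private noncomputable def J32 (s : ℝ) : ArithmeticFunction ℝ :=
  ArithmeticFunction.prodPrimeFactors (fun p => (p:ℝ)^s - 1)

private noncomputable def g32 (s : ℝ) (n : ℕ) : ℝ := if Squarefree n then (J32 s n)⁻¹ else 0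

private lemma J_mul32 (s : ℝ) : (J32 s).IsMultiplicative :=
  ArithmeticFunction.IsMultiplicative.prodPrimeFactors _

private lemma pf32 {s : ℝ} (hs : 1 < s) {p : ℕ} (hp : p.Prime) : 0 < (p:ℝ)^s - 1 := by
  have := Real.one_lt_rpow (x := (p:ℝ)) (by exact_mod_cast hp.one_lt) (z := s) (by linarith)
  linarith

private lemma J_pos32 {s : ℝ} (hs : 1 < s) {n : ℕ} (hn : n ≠ 0) : 0 < J32 s n := by
  unfold J32
  rw [ArithmeticFunction.prodPrimeFactors_apply hn]
  exact Finset.prod_pos fun p hp => pf32 hs (Nat.prime_of_mem_primeFactors hp)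

private lemma g_nonneg32 {s : ℝ} (hs : 1 < s) (n : ℕ) : 0 ≤ g32 s n := by
  unfold g32
  split_ifs with h
  · exact (inv_pos.2 (J_pos32 hs h.ne_zero)).le
  · exact le_rfl

private lemma g_one32 (s : ℝ) : g32 s 1 = 1 := by
  simp [g32, (J_mul32 s).map_one]

private lemma g_mul32 (s : ℝ) {m n : ℕ} (h : m.Coprime n) : g32 s (m * n) = g32 s m * g32 s n := by
  unfold g32
  rw [(J_mul32 s).map_mul_of_coprime h]
  by_cases hm : Squarefree m
  · by_cases hn : Squarefree n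
    · rw [if_pos ((Nat.squarefree_mul h).2 ⟨hm, hn⟩), if_pos hm, if_pos hn, mul_inv]
    · rw [if_neg (fun h2 => hn ((Nat.squarefree_mul h).1 h2).2), if_neg hn, mul_zero]
  · rw [if_neg (fun h2 => hm ((Nat.squarefree_mul h).1 h2).1), if_neg hm, zero_mul]

private noncomputable def gA32 (s : ℝ) : ArithmeticFunction ℝ := ⟨g32 s, by simp [g32]⟩

private lemma gA_mult32 (s : ℝ) : (gA32 s).IsMultiplicative :=
  ⟨g_one32 s, fun h => g_mul32 s h⟩

/-- `h^s = ∑_{e ∣ h} J(e)` for squarefree `h`. -/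
private lemma sum_J32 {s : ℝ} {h : ℕ} (hh : Squarefree h) : ∑ e ∈ h.divisors, J32 s e = (h:ℝ)^s := by
  rw [← (J_mul32 s).prodPrimeFactors_one_add_of_squarefree hh]
  have h1 : ∀ p ∈ h.primeFactors, 1 + J32 s p = (p:ℝ)^s := by
    intro p hp
    have hp' := Nat.prime_of_mem_primeFactors hp
    unfold J32
    rw [ArithmeticFunction.prodPrimeFactors_apply hp'.ne_zero, hp'.primeFactors, Finset.prod_singleton]
    ring
  rw [Finset.prod_congr rfl h1, Real.finsetProd_rpow _ _ (fun i _ => Nat.cast_nonneg i), ← Nat.cast_prod,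
    Nat.prod_primeFactors_of_squarefree hh]

private lemma sum_g32 {s : ℝ} (hs : 1 < s) {h : ℕ} (hh : Squarefree h) :
    ∑ e ∈ h.divisors, g32 s e = (h:ℝ)^s * g32 s h := by
  have h0 : ∑ e ∈ h.divisors, g32 s e = ∑ e ∈ h.divisors, gA32 s e := rfl
  rw [h0, ← (gA_mult32 s).prodPrimeFactors_one_add_of_squarefree hh]
  have h1 : ∀ p ∈ h.primeFactors, 1 + gA32 s p = (p:ℝ)^s * ((p:ℝ)^s - 1)⁻¹ := by
    intro p hp
    have hp' := Nat.prime_of_mem_primeFactors hp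
    have h2 := pf32 hs hp'
    show 1 + g32 s p = _
    unfold g32 J32
    rw [if_pos hp'.prime.squarefree, ArithmeticFunction.prodPrimeFactors_apply hp'.ne_zero, hp'.primeFactors,
      Finset.prod_singleton]
    field_simp
    ring
  rw [Finset.prod_congr rfl h1, Finset.prod_mul_distrib,
    Real.finsetProd_rpow _ _ (fun i _ => Nat.cast_nonneg i), ← Nat.cast_prod,
    Nat.prod_primeFactors_of_squarefree hh]
  congr 1
  unfold g32 J32
  rw [if_pos hh, ArithmeticFunction.prodPrimeFactors_apply hh.ne_zero, Finset.prod_inv_distrib]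

private noncomputable def V32 (s : ℝ) (X : ℕ) : ℝ := ∑ n ∈ Icc 1 X, g32 s n

private lemma V_pos32 {X : ℕ} (hX : 1 ≤ X) {s : ℝ} (hs : 1 < s) : 0 < V32 s X := by
  unfold V32
  refine lt_of_lt_of_le ?_ (Finset.single_le_sum (f := g32 s) (fun i _ => g_nonneg32 hs i) (Finset.mem_Icc.2 ⟨le_rfl, hX⟩))
  rw [g_one32]; norm_num

private lemma sumA32 {X : ℕ} {s : ℝ} {h : ℕ} (h0 : 0 < h) :
    ∑ d ∈ (Icc 1 X).filter (fun d => h ∣ d), g32 s d =
      g32 s h * ∑ m ∈ (Icc 1 (X / h)).filter (fun m => Nat.Coprime h m), g32 s m := by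
  have e1 : ∑ d ∈ (Icc 1 X).filter (fun d => h ∣ d), g32 s d = ∑ m ∈ Icc 1 (X / h), g32 s (h * m) := by
    symm
    refine Finset.sum_nbij' (fun m => h * m) (fun d => d / h) ?_ ?_ ?_ ?_ ?_
    · intro m hm
      rw [Finset.mem_Icc] at hm
      rw [Finset.mem_filter, Finset.mem_Icc]
      refine ⟨⟨Nat.mul_pos h0 hm.1, ?_⟩, Dvd.intro _ rfl⟩
      exact le_trans (Nat.mul_le_mul_left h hm.2) (Nat.mul_div_le X h)
    · intro d hd
      rw [Finset.mem_filter, Finset.mem_Icc] at hd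
      rw [Finset.mem_Icc]
      exact ⟨Nat.div_pos (Nat.le_of_dvd hd.1.1 hd.2) h0, Nat.div_le_div_right hd.1.2⟩
    · intro m _
      exact Nat.mul_div_cancel_left m h0
    · intro d hd
      rw [Finset.mem_filter] at hd
      exact Nat.mul_div_cancel' hd.2
    · intro m _; rfl
  rw [e1, Finset.mul_sum, Finset.sum_filter]
  refine Finset.sum_congr rfl fun m _ => ?_
  split_ifs with hc
  · exact g_mul32 s hc
  · unfold g32
    rw [if_neg]
    intro h2
    exact hc (Nat.coprime_of_squarefree_mul h2)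

private lemma sumB32 {X : ℕ} {s : ℝ} (hs : 1 < s) {h : ℕ} (h0 : 0 < h) :
    (∑ t ∈ h.divisors, g32 s t) * ∑ m ∈ (Icc 1 (X / h)).filter (fun m => Nat.Coprime h m), g32 s m ≤ V32 s X := by
  rw [Finset.sum_mul_sum, ← Finset.sum_product']
  have e1 : ∀ x ∈ h.divisors ×ˢ (Icc 1 (X / h)).filter (fun m => Nat.Coprime h m),
      g32 s x.1 * g32 s x.2 = g32 s (x.1 * x.2) := by
    intro x hx
    rw [Finset.mem_product, Nat.mem_divisors, Finset.mem_filter] at hx
    exact (g_mul32 s (Nat.Coprime.coprime_dvd_left hx.1.1 hx.2.2)).symm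
  rw [Finset.sum_congr rfl e1]
  have hinj : Set.InjOn (fun x : ℕ × ℕ => x.1 * x.2)
      (h.divisors ×ˢ (Icc 1 (X / h)).filter (fun m => Nat.Coprime h m) : Finset (ℕ × ℕ)) := by
    intro x hx y hy hxy
    rw [Finset.mem_coe, Finset.mem_product, Nat.mem_divisors, Finset.mem_filter, Finset.mem_Icc] at hx hy
    have key : ∀ z : ℕ × ℕ, z.1 ∣ h → Nat.Coprime h z.2 → Nat.gcd h (z.1 * z.2) = z.1 := by
      intro z hz1 hz2
      rw [Nat.Coprime.gcd_mul_right_cancel_right z.1 hz2.symm]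
      exact Nat.gcd_eq_right hz1
    have k1 := key x hx.1.1 hx.2.2
    have k2 := key y hy.1.1 hy.2.2
    have hxy' : x.1 * x.2 = y.1 * y.2 := hxy
    rw [hxy', k2] at k1
    have hp : 0 < x.1 := Nat.pos_of_dvd_of_pos hx.1.1 h0
    rw [k1] at hxy'
    exact Prod.ext k1.symm (Nat.eq_of_mul_eq_mul_left hp hxy')
  rw [← Finset.sum_image (f := g32 s) hinj]
  unfold V32
  refine Finset.sum_le_sum_of_subset_of_nonneg ?_ (fun i _ _ => g_nonneg32 hs i)
  intro n hn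
  rw [Finset.mem_image] at hn
  obtain ⟨x, hx, rfl⟩ := hn
  rw [Finset.mem_product, Nat.mem_divisors, Finset.mem_filter, Finset.mem_Icc] at hx
  rw [Finset.mem_Icc]
  refine ⟨Nat.mul_pos (Nat.pos_of_dvd_of_pos hx.1.1 h0) hx.2.1.1, ?_⟩
  calc x.1 * x.2 ≤ h * (X / h) := Nat.mul_le_mul (Nat.le_of_dvd h0 hx.1.1) hx.2.1.2
    _ ≤ X := Nat.mul_div_le X h

private noncomputable def F32 (s : ℝ) : ℕ →* ℝ where
  toFun n := (n:ℝ) ^ (-s)
  map_one' := by simp
  map_mul' m n := by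
    push_cast
    rw [Real.mul_rpow (Nat.cast_nonneg m) (Nat.cast_nonneg n)]

private lemma fiber32 {X : ℕ} {s : ℝ} (hs : 1 < s) (d : ℕ) :
    ∑ n ∈ (Icc 1 X).filter (fun n => ∏ p ∈ n.primeFactors, p = d), (n:ℝ) ^ (-s) ≤ g32 s d := by
  by_cases hd : Squarefree d
  swap
  · rw [Finset.filter_eq_empty_iff.2, Finset.sum_empty]
    · exact g_nonneg32 hs d
    · intro n hn h1
      rw [Finset.mem_Icc] at hn
      apply hd
      rw [← h1]
      exact Finset.squarefree_prod_of_pairwise_isCoprime (by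
        intro p hp q hq hpq
        exact Nat.coprime_iff_isRelPrime.1 ((Nat.coprime_primes (Nat.prime_of_mem_primeFactors hp)
          (Nat.prime_of_mem_primeFactors hq)).2 hpq)) (fun p hp => (Nat.prime_of_mem_primeFactors hp).prime.squarefree)
  have hd0 : 0 < d := Nat.pos_of_ne_zero hd.ne_zero
  have hp1 : ∀ {p : ℕ}, p.Prime → ‖F32 s p‖ < 1 := by
    intro p hp
    show ‖(p:ℝ) ^ (-s)‖ < 1
    rw [Real.norm_of_nonneg (Real.rpow_nonneg (Nat.cast_nonneg p) _)]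
    exact Real.rpow_lt_one_of_one_lt_of_neg (by exact_mod_cast hp.one_lt) (by linarith)
  have hsum := (EulerProduct.summable_and_hasSum_factoredNumbers_prod_filter_prime_geometric (f := F32 s) hp1 d.primeFactors).2
  replace hsum := (hasSum_subtype_iff_indicator (f := fun m : ℕ => F32 s m)).1 hsum
  have hfil : d.primeFactors.filter Nat.Prime = d.primeFactors :=
    Finset.filter_true_of_mem fun p hp => Nat.prime_of_mem_primeFactors hp
  rw [hfil] at hsum
  have hval : (d:ℝ) ^ (-s) * ∏ p ∈ d.primeFactors, (1 - F32 s p)⁻¹ = g32 s d := by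
    unfold g32 J32
    rw [if_pos hd, ArithmeticFunction.prodPrimeFactors_apply hd.ne_zero, ← Finset.prod_inv_distrib]
    nth_rewrite 1 [← Nat.prod_primeFactors_of_squarefree hd]
    rw [Nat.cast_prod, ← Real.finsetProd_rpow _ _ (fun i _ => Nat.cast_nonneg i), ← Finset.prod_mul_distrib]
    refine Finset.prod_congr rfl fun p hp => ?_
    have hp' := Nat.prime_of_mem_primeFactors hp
    have h2 := pf32 hs hp'
    have h3 : 0 < (p:ℝ) ^ s := by linarith
    show (p:ℝ) ^ (-s) * (1 - (p:ℝ) ^ (-s))⁻¹ = _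
    rw [Real.rpow_neg (Nat.cast_nonneg p)]
    have h4 : 1 - ((p:ℝ) ^ s)⁻¹ = ((p:ℝ) ^ s - 1) / (p:ℝ) ^ s := by field_simp
    rw [h4, inv_div]
    field_simp
  rw [← hval]
  have hinj : Set.InjOn (fun n : ℕ => n / d)
      ((Icc 1 X).filter (fun n => ∏ p ∈ n.primeFactors, p = d) : Finset ℕ) := by
    intro x hx y hy hxy
    rw [Finset.mem_coe, Finset.mem_filter, Finset.mem_Icc] at hx hy
    have hx1 : d ∣ x := by rw [← hx.2]; exact Nat.prod_primeFactors_dvd x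
    have hy1 : d ∣ y := by rw [← hy.2]; exact Nat.prod_primeFactors_dvd y
    have hxy' : x / d = y / d := hxy
    rw [← Nat.mul_div_cancel' hx1, ← Nat.mul_div_cancel' hy1, hxy']
  have hle := sum_le_hasSum (((Icc 1 X).filter (fun n => ∏ p ∈ n.primeFactors, p = d)).image (fun n => n / d))
    (fun i _ => Set.indicator_nonneg (fun x _ => Real.rpow_nonneg (Nat.cast_nonneg x) _) i) hsum
  rw [Finset.sum_image hinj] at hle
  refine le_trans (le_of_eq ?_) (mul_le_mul_of_nonneg_left hle (Real.rpow_nonneg (Nat.cast_nonneg d) _))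
  rw [Finset.mul_sum]
  refine Finset.sum_congr rfl fun n hn => ?_
  rw [Finset.mem_filter, Finset.mem_Icc] at hn
  have hn1 : d ∣ n := by rw [← hn.2]; exact Nat.prod_primeFactors_dvd n
  obtain ⟨m, rfl⟩ := hn1
  have hm0 : m ≠ 0 := by
    rintro rfl
    simp at hn
  have hmem : m ∈ Nat.factoredNumbers d.primeFactors := by
    rw [Nat.mem_factoredNumbers_iff_primeFactors_subset]
    refine ⟨hm0, ?_⟩
    intro p hp
    have hp' := Nat.prime_of_mem_primeFactors hp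
    rw [Nat.mem_primeFactors]
    refine ⟨hp', ?_, hd.ne_zero⟩
    have h5 : p ∈ (d * m).primeFactors := by
      rw [Nat.mem_primeFactors]
      exact ⟨hp', dvd_mul_of_dvd_right (Nat.dvd_of_mem_primeFactors hp) d, Nat.mul_ne_zero hd.ne_zero hm0⟩
    rw [← hn.2]
    exact Finset.dvd_prod_of_mem (fun p => p) h5
  rw [Nat.mul_div_cancel_left m hd0, Set.indicator_of_mem hmem]
  show _ = (d:ℝ) ^ (-s) * (m:ℝ) ^ (-s)
  rw [← Real.mul_rpow (Nat.cast_nonneg d) (Nat.cast_nonneg m), Nat.cast_mul]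

private lemma sumC32 {X : ℕ} {s : ℝ} (hs : 1 < s) : ∑ n ∈ Icc 1 X, (n:ℝ) ^ (-s) ≤ V32 s X := by
  have hmap : ∀ n ∈ Icc 1 X, (∏ p ∈ n.primeFactors, p) ∈ Icc 1 X := by
    intro n hn
    rw [Finset.mem_Icc] at hn ⊢
    have h1 := Nat.prod_primeFactors_dvd n
    have h2 : 0 < n := hn.1
    exact ⟨Nat.pos_of_dvd_of_pos h1 h2, (Nat.le_of_dvd h2 h1).trans hn.2⟩
  rw [← Finset.sum_fiberwise_of_maps_to hmap]
  exact Finset.sum_le_sum fun d _ => fiber32 hs d

private noncomputable def b32 (s : ℝ) (X h : ℕ) : ℝ :=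
  (ArithmeticFunction.moebius h : ℝ) * (h:ℝ) ^ s / V32 s X * ∑ d ∈ (Icc 1 X).filter (fun d => h ∣ d), g32 s d

private lemma b_one32 {X : ℕ} (hX : 1 ≤ X) {s : ℝ} (hs : 1 < s) : b32 s X 1 = 1 := by
  unfold b32
  have hV := V_pos32 hX hs
  rw [Finset.filter_true_of_mem (fun d _ => one_dvd d)]
  simp only [ArithmeticFunction.moebius_apply_one, Nat.cast_one, Real.one_rpow, Int.cast_one, one_mul]
  exact div_mul_cancel₀ 1 hV.ne'

private lemma b_le32 {X : ℕ} (hX : 1 ≤ X) {s : ℝ} (hs : 1 < s) (h : ℕ) : |b32 s X h| ≤ 1 := by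
  have hV := V_pos32 hX hs
  by_cases hh : Squarefree h
  swap
  · unfold b32
    rw [ArithmeticFunction.moebius_eq_zero_of_not_squarefree hh]
    simp
  have h0 : 0 < h := Nat.pos_of_ne_zero hh.ne_zero
  have hS := sumB32 (X := X) hs h0
  rw [sum_g32 hs hh] at hS
  unfold b32
  rw [sumA32 h0]
  set S := ∑ m ∈ (Icc 1 (X / h)).filter (fun m => Nat.Coprime h m), g32 s m with hSd
  have hS0 : 0 ≤ S := Finset.sum_nonneg fun i _ => g_nonneg32 hs i
  have hg0 := g_nonneg32 hs h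
  have hr0 : (0:ℝ) ≤ (h:ℝ) ^ s := Real.rpow_nonneg (Nat.cast_nonneg h) _
  rw [abs_mul, abs_div, abs_mul, abs_of_nonneg hr0, abs_of_pos hV, abs_of_nonneg (mul_nonneg hg0 hS0)]
  have hmu : |((ArithmeticFunction.moebius h : ℤ) : ℝ)| ≤ 1 := by
    have := ArithmeticFunction.abs_moebius_le_one (n := h)
    exact_mod_cast this
  rw [div_mul_eq_mul_div, div_le_one hV]
  calc |((ArithmeticFunction.moebius h : ℤ) : ℝ)| * (h:ℝ) ^ s * (g32 s h * S)
      ≤ 1 * (h:ℝ) ^ s * (g32 s h * S) := by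
        apply mul_le_mul_of_nonneg_right _ (mul_nonneg hg0 hS0)
        exact mul_le_mul_of_nonneg_right hmu hr0
    _ = (h:ℝ) ^ s * g32 s h * S := by ring
    _ ≤ V32 s X := hS

private lemma sum_mu32 {d e : ℕ} (hd : Squarefree d) :
    ∑ h ∈ d.divisors.filter (fun h => e ∣ h), ((ArithmeticFunction.moebius h : ℤ) : ℝ) =
      if e = d then ((ArithmeticFunction.moebius e : ℤ) : ℝ) else 0 := by
  by_cases hed : e ∣ d
  swap
  · rw [if_neg (fun h : e = d => hed (h ▸ dvd_rfl)), Finset.filter_eq_empty_iff.2, Finset.sum_empty]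
    intro h hh h2
    exact hed (h2.trans (Nat.dvd_of_mem_divisors hh))
  obtain ⟨c, rfl⟩ := hed
  have he0 : 0 < e := Nat.pos_of_ne_zero fun h => by simp [h] at hd
  have hc0 : c ≠ 0 := fun h => by simp [h] at hd
  have e1 : ∑ h ∈ (e * c).divisors.filter (fun h => e ∣ h), ((ArithmeticFunction.moebius h : ℤ) : ℝ) =
      ∑ m ∈ c.divisors, ((ArithmeticFunction.moebius (e * m) : ℤ) : ℝ) := by
    symm
    refine Finset.sum_nbij' (fun m => e * m) (fun h => h / e) ?_ ?_ ?_ ?_ ?_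
    · intro m hm
      rw [Finset.mem_filter, Nat.mem_divisors]
      exact ⟨⟨Nat.mul_dvd_mul_left e (Nat.dvd_of_mem_divisors hm), Nat.mul_ne_zero he0.ne' hc0⟩, Dvd.intro _ rfl⟩
    · intro h hh
      rw [Finset.mem_filter, Nat.mem_divisors] at hh
      obtain ⟨⟨h1, _⟩, m, rfl⟩ := hh
      show e * m / e ∈ _
      rw [Nat.mul_div_cancel_left m he0, Nat.mem_divisors]
      exact ⟨Nat.dvd_of_mul_dvd_mul_left he0 h1, hc0⟩
    · intro m _
      exact Nat.mul_div_cancel_left m he0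
    · intro h hh
      rw [Finset.mem_filter] at hh
      exact Nat.mul_div_cancel' hh.2
    · intro m _; rfl
  rw [e1]
  have e2 : ∀ m ∈ c.divisors, ((ArithmeticFunction.moebius (e * m) : ℤ) : ℝ) =
      ((ArithmeticFunction.moebius e : ℤ) : ℝ) * ((ArithmeticFunction.moebius m : ℤ) : ℝ) := by
    intro m hm
    have h1 : Squarefree (e * m) := hd.squarefree_of_dvd (Nat.mul_dvd_mul_left e (Nat.dvd_of_mem_divisors hm))
    rw [ArithmeticFunction.isMultiplicative_moebius.map_mul_of_coprime (Nat.coprime_of_squarefree_mul h1)]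
    push_cast
    rfl
  rw [Finset.sum_congr rfl e2, ← Finset.mul_sum]
  have e3 : ∑ m ∈ c.divisors, ((ArithmeticFunction.moebius m : ℤ) : ℝ) = if c = 1 then 1 else 0 := by
    have h1 : ∑ m ∈ c.divisors, ArithmeticFunction.moebius m = if c = 1 then 1 else 0 := by
      have h2 := congrArg (fun f : ArithmeticFunction ℤ => f c) ArithmeticFunction.moebius_mul_coe_zeta
      simp only [ArithmeticFunction.coe_mul_zeta_apply, ArithmeticFunction.one_apply] at h2
      exact h2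
    rw [← Int.cast_sum, h1]
    split_ifs <;> simp
  rw [e3]
  by_cases hc : c = 1
  · subst hc
    simp
  · rw [if_neg hc, if_neg, mul_zero]
    intro h
    apply hc
    have : e * 1 = e * c := by omega
    exact (Nat.eq_of_mul_eq_mul_left he0 this).symm

private lemma y_eq32 {X : ℕ} (hX : 1 ≤ X) {s : ℝ} (hs : 1 < s) {e : ℕ} (he : e ∈ Icc 1 X) :
    ∑ h ∈ Icc 1 X, (if e ∣ h then b32 s X h * (h:ℝ) ^ (-s) else 0) =
      ((ArithmeticFunction.moebius e : ℤ) : ℝ) * g32 s e / V32 s X := by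
  have hV := V_pos32 hX hs
  have e1 : ∀ h ∈ Icc 1 X, (if e ∣ h then b32 s X h * (h:ℝ) ^ (-s) else 0) =
      (V32 s X)⁻¹ * ∑ d ∈ Icc 1 X, (if h ∣ d ∧ e ∣ h then ((ArithmeticFunction.moebius h : ℤ) : ℝ) * g32 s d else 0) := by
    intro h hh
    rw [Finset.mem_Icc] at hh
    have hpos : (0:ℝ) < (h:ℝ) ^ s := Real.rpow_pos_of_pos (by exact_mod_cast hh.1) _
    split_ifs with h1
    · unfold b32
      rw [Real.rpow_neg (Nat.cast_nonneg h), Finset.sum_filter]
      have e2 : ∀ d ∈ Icc 1 X, (if h ∣ d ∧ e ∣ h then ((ArithmeticFunction.moebius h : ℤ) : ℝ) * g32 s d else 0) =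
          ((ArithmeticFunction.moebius h : ℤ) : ℝ) * (if h ∣ d then g32 s d else 0) := by
        intro d _
        by_cases h2 : h ∣ d
        · rw [if_pos ⟨h2, h1⟩, if_pos h2]
        · rw [if_neg (fun h3 => h2 h3.1), if_neg h2, mul_zero]
      rw [Finset.sum_congr rfl e2, ← Finset.mul_sum]
      field_simp
    · rw [Finset.sum_eq_zero, mul_zero]
      intro d _
      rw [if_neg (fun h3 => h1 h3.2)]
  rw [Finset.sum_congr rfl e1, ← Finset.mul_sum, Finset.sum_comm]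
  have e3 : ∀ d ∈ Icc 1 X, ∑ h ∈ Icc 1 X,
      (if h ∣ d ∧ e ∣ h then ((ArithmeticFunction.moebius h : ℤ) : ℝ) * g32 s d else 0) =
      if e = d then ((ArithmeticFunction.moebius e : ℤ) : ℝ) * g32 s e else 0 := by
    intro d hd
    rw [Finset.mem_Icc] at hd
    by_cases hsq : Squarefree d
    · rw [← Finset.sum_filter]
      have e4 : (Icc 1 X).filter (fun h => h ∣ d ∧ e ∣ h) = d.divisors.filter (fun h => e ∣ h) := by
        ext h
        rw [Finset.mem_filter, Finset.mem_filter, Finset.mem_Icc, Nat.mem_divisors]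
        constructor
        · rintro ⟨_, h2, h3⟩
          exact ⟨⟨h2, hsq.ne_zero⟩, h3⟩
        · rintro ⟨⟨h2, _⟩, h3⟩
          exact ⟨⟨Nat.pos_of_dvd_of_pos h2 hd.1, (Nat.le_of_dvd hd.1 h2).trans hd.2⟩, h2, h3⟩
      rw [e4, ← Finset.sum_mul, sum_mu32 hsq]
      split_ifs with h5
      · rw [h5]
      · rw [zero_mul]
    · have hg : g32 s d = 0 := by unfold g32; rw [if_neg hsq]
      rw [Finset.sum_eq_zero]
      · split_ifs with h5
        · rw [h5, hg, mul_zero]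
        · rfl
      · intro h _
        rw [hg, mul_zero, ite_self]
  rw [Finset.sum_congr rfl e3, Finset.sum_ite_eq, if_pos he]
  ring

private lemma term32 {X : ℕ} {s : ℝ} {h k : ℕ} (hh : h ∈ Icc 1 X) (hk : k ∈ Icc 1 X) :
    b32 s X h * b32 s X k * (Nat.lcm h k : ℝ) ^ (-s) =
      ∑ e ∈ Icc 1 X, J32 s e * ((if e ∣ h then b32 s X h * (h:ℝ) ^ (-s) else 0) *
        (if e ∣ k then b32 s X k * (k:ℝ) ^ (-s) else 0)) := by
  rw [Finset.mem_Icc] at hh hk
  by_cases h1 : Squarefree h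
  swap
  · have hb : b32 s X h = 0 := by
      unfold b32
      rw [ArithmeticFunction.moebius_eq_zero_of_not_squarefree h1]
      simp
    simp [hb]
  by_cases h2 : Squarefree k
  swap
  · have hb : b32 s X k = 0 := by
      unfold b32
      rw [ArithmeticFunction.moebius_eq_zero_of_not_squarefree h2]
      simp
    simp [hb]
  have hg : Squarefree (Nat.gcd h k) := h1.squarefree_of_dvd (Nat.gcd_dvd_left h k)
  have hg0 : 0 < Nat.gcd h k := Nat.pos_of_ne_zero hg.ne_zero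
  have hl0 : 0 < Nat.lcm h k := Nat.lcm_pos hh.1 hk.1
  have e1 : ∀ e ∈ Icc 1 X, J32 s e * ((if e ∣ h then b32 s X h * (h:ℝ) ^ (-s) else 0) *
        (if e ∣ k then b32 s X k * (k:ℝ) ^ (-s) else 0)) =
      if e ∣ Nat.gcd h k then J32 s e * (b32 s X h * (h:ℝ) ^ (-s) * (b32 s X k * (k:ℝ) ^ (-s))) else 0 := by
    intro e _
    by_cases a1 : e ∣ h
    · by_cases a2 : e ∣ k
      · rw [if_pos a1, if_pos a2, if_pos (Nat.dvd_gcd a1 a2)]
      · rw [if_neg a2, if_neg (fun a3 : e ∣ Nat.gcd h k => a2 (a3.trans (Nat.gcd_dvd_right h k)))]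
        ring
    · rw [if_neg a1, if_neg (fun a3 : e ∣ Nat.gcd h k => a1 (a3.trans (Nat.gcd_dvd_left h k)))]
      ring
  have e2 : (Icc 1 X).filter (fun e => e ∣ Nat.gcd h k) = (Nat.gcd h k).divisors := by
    ext e
    rw [Finset.mem_filter, Finset.mem_Icc, Nat.mem_divisors]
    constructor
    · rintro ⟨_, a⟩
      exact ⟨a, hg.ne_zero⟩
    · rintro ⟨a, _⟩
      exact ⟨⟨Nat.pos_of_dvd_of_pos a hg0, (Nat.le_of_dvd hg0 a).trans ((Nat.gcd_le_left k hh.1).trans hh.2)⟩, a⟩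
  rw [Finset.sum_congr rfl e1, ← Finset.sum_filter, e2, ← Finset.sum_mul, sum_J32 hg]
  have hgr : (0:ℝ) < (Nat.gcd h k : ℝ) := by exact_mod_cast hg0
  have hlr : (0:ℝ) < (Nat.lcm h k : ℝ) := by exact_mod_cast hl0
  have e3 : (Nat.gcd h k : ℝ) * (Nat.lcm h k : ℝ) = (h:ℝ) * (k:ℝ) := by exact_mod_cast Nat.gcd_mul_lcm h k
  have e4 : (Nat.lcm h k : ℝ) ^ (-s) = (Nat.gcd h k : ℝ) ^ s * ((h:ℝ) ^ (-s) * (k:ℝ) ^ (-s)) := by
    rw [← Real.mul_rpow (Nat.cast_nonneg h) (Nat.cast_nonneg k), ← e3, Real.mul_rpow hgr.le hlr.le, ← mul_assoc,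
      ← Real.rpow_add hgr]
    simp
  rw [e4]
  ring

theorem selberg {X : ℕ} (hX : 1 ≤ X) {s : ℝ} (hs : 1 < s) :
    ∃ b : ℕ → ℝ, b 1 = 1 ∧ (∀ h, |b h| ≤ 1) ∧
      ∑ h ∈ Finset.Icc 1 X, ∑ k ∈ Finset.Icc 1 X, b h * b k * (Nat.lcm h k : ℝ) ^ (-s) ≤
        1 / ∑ n ∈ Finset.Icc 1 X, (n : ℝ) ^ (-s) := by
  refine ⟨b32 s X, b_one32 hX hs, b_le32 hX hs, ?_⟩
  have hV := V_pos32 hX hs
  have hS : 0 < ∑ n ∈ Icc 1 X, (n:ℝ) ^ (-s) := by
    refine Finset.sum_pos (fun n hn => ?_) ⟨1, Finset.mem_Icc.2 ⟨le_rfl, hX⟩⟩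
    rw [Finset.mem_Icc] at hn
    exact Real.rpow_pos_of_pos (by exact_mod_cast hn.1) _
  have e1 : ∑ h ∈ Icc 1 X, ∑ k ∈ Icc 1 X, b32 s X h * b32 s X k * (Nat.lcm h k : ℝ) ^ (-s) =
      ∑ e ∈ Icc 1 X, J32 s e * ((∑ h ∈ Icc 1 X, (if e ∣ h then b32 s X h * (h:ℝ) ^ (-s) else 0)) *
        ∑ k ∈ Icc 1 X, (if e ∣ k then b32 s X k * (k:ℝ) ^ (-s) else 0)) := by
    calc ∑ h ∈ Icc 1 X, ∑ k ∈ Icc 1 X, b32 s X h * b32 s X k * (Nat.lcm h k : ℝ) ^ (-s)
        = ∑ h ∈ Icc 1 X, ∑ k ∈ Icc 1 X, ∑ e ∈ Icc 1 X, J32 s e *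
          ((if e ∣ h then b32 s X h * (h:ℝ) ^ (-s) else 0) * (if e ∣ k then b32 s X k * (k:ℝ) ^ (-s) else 0)) :=
          Finset.sum_congr rfl fun h hh => Finset.sum_congr rfl fun k hk => term32 hh hk
      _ = ∑ h ∈ Icc 1 X, ∑ e ∈ Icc 1 X, ∑ k ∈ Icc 1 X, J32 s e *
          ((if e ∣ h then b32 s X h * (h:ℝ) ^ (-s) else 0) * (if e ∣ k then b32 s X k * (k:ℝ) ^ (-s) else 0)) :=
          Finset.sum_congr rfl fun h _ => Finset.sum_comm
      _ = ∑ e ∈ Icc 1 X, ∑ h ∈ Icc 1 X, ∑ k ∈ Icc 1 X, J32 s e *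
          ((if e ∣ h then b32 s X h * (h:ℝ) ^ (-s) else 0) * (if e ∣ k then b32 s X k * (k:ℝ) ^ (-s) else 0)) :=
          Finset.sum_comm
      _ = _ := by
          refine Finset.sum_congr rfl fun e _ => ?_
          rw [Finset.sum_mul_sum, Finset.mul_sum]
          refine Finset.sum_congr rfl fun h _ => ?_
          rw [Finset.mul_sum]
  have e2 : ∀ e ∈ Icc 1 X, J32 s e * ((∑ h ∈ Icc 1 X, (if e ∣ h then b32 s X h * (h:ℝ) ^ (-s) else 0)) *
        ∑ k ∈ Icc 1 X, (if e ∣ k then b32 s X k * (k:ℝ) ^ (-s) else 0)) = g32 s e / V32 s X ^ 2 := by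
    intro e he
    rw [y_eq32 hX hs he]
    by_cases hsq : Squarefree e
    · have hmu : ((ArithmeticFunction.moebius e : ℤ) : ℝ) * ((ArithmeticFunction.moebius e : ℤ) : ℝ) = 1 := by
        have h1 := ArithmeticFunction.moebius_sq_eq_one_of_squarefree hsq
        have h2 : (ArithmeticFunction.moebius e) * (ArithmeticFunction.moebius e) = 1 := by rw [← sq]; exact h1
        exact_mod_cast h2
      have hJ := J_pos32 hs hsq.ne_zero
      have hg : J32 s e * g32 s e = 1 := by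
        unfold g32
        rw [if_pos hsq]
        exact mul_inv_cancel₀ hJ.ne'
      calc J32 s e * (((ArithmeticFunction.moebius e : ℤ) : ℝ) * g32 s e / V32 s X *
            (((ArithmeticFunction.moebius e : ℤ) : ℝ) * g32 s e / V32 s X))
          = (((ArithmeticFunction.moebius e : ℤ) : ℝ) * ((ArithmeticFunction.moebius e : ℤ) : ℝ)) *
            (J32 s e * g32 s e) * g32 s e / V32 s X ^ 2 := by ring
        _ = g32 s e / V32 s X ^ 2 := by rw [hmu, hg]; ring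
    · have hg : g32 s e = 0 := by unfold g32; rw [if_neg hsq]
      rw [hg]
      simp
  rw [e1, Finset.sum_congr rfl e2, ← Finset.sum_div]
  have e3 : (∑ e ∈ Icc 1 X, g32 s e) / V32 s X ^ 2 = 1 / V32 s X := by
    show V32 s X / V32 s X ^ 2 = 1 / V32 s X
    field_simp
  rw [e3]
  exact one_div_le_one_div_of_le hS (sumC32 hs)

end Pool.Agent.Helper57.ED
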