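import Pool.Agent.Helper57.ED.RhB

/-!
# ED-SMA: mean square on the line against the integral of `|fu|²`

`g(v) = fu X b z (e^v) e^{-σv}`, `z = l - iτ`. Scaling in `mellin_rho` gives, for `s = σ + it`,
`ζ(s) Mo X b s/(s+z) = ∫_0^∞ fu(u) u^{-s-1} du = ∫ g(v) e^{-itv} dv = FT g (-t)`, and
`PW (l+σ) (t-τ) = ((l+σ)/π)/‖s+z‖²`. `LH.planch` (in `M/B.lean`) for `g` on `[-R, R]`:
`∫_{-R}^R ‖FT g‖² ≤ 2π ∫ ‖g‖²`, and `∫ ‖g‖² dv = ∫_0^∞ ‖fu‖² u^{-2σ-1} du` (`u = e^v`).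
Integrability of `‖g‖²` and `g`: `norm_rho_le` for large `u`, `rho_small` for small `u`. Model: `LH.second_moment` in `M/D.lean`.
-/

open MeasureTheory Set Filter Topology Complex
open Pool.Agent.Helper57.Zeta Pool.Agent.Helper57.LH

namespace Pool.Agent.Helper57.ED

private lemma exp_image34 : Real.exp '' (univ : Set ℝ) = Ioi 0 := by
  rw [image_univ, Real.range_exp]

private lemma cov34 {E : Type*} [NormedAddCommGroup E] [NormedSpace ℝ E] (F : ℝ → E) :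
    ∫ u in Ioi (0:ℝ), F u = ∫ v, Real.exp v • F (Real.exp v) := by
  rw [← exp_image34, integral_image_eq_integral_abs_deriv_smul MeasurableSet.univ
    (fun x _ => (Real.hasDerivAt_exp x).hasDerivWithinAt) Real.exp_injective.injOn, setIntegral_univ]
  refine integral_congr_ae (Eventually.of_forall fun v => ?_)
  simp only
  rw [abs_of_pos (Real.exp_pos v)]

private lemma covI34 {E : Type*} [NormedAddCommGroup E] [NormedSpace ℝ E] (F : ℝ → E) :
    IntegrableOn F (Ioi 0) ↔ Integrable (fun v => Real.exp v • F (Real.exp v)) := by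
  rw [← exp_image34, integrableOn_image_iff_integrableOn_abs_deriv_smul MeasurableSet.univ
    (fun x _ => (Real.hasDerivAt_exp x).hasDerivWithinAt) Real.exp_injective.injOn, integrableOn_univ]
  refine integrable_congr (Eventually.of_forall fun v => ?_)
  simp only
  rw [abs_of_pos (Real.exp_pos v)]

private lemma scale34 {s z : ℂ} {h : ℕ} (hh : 1 ≤ h) {u : ℝ} (hu : 0 < u) :
    rho z (u / h) * (u : ℂ) ^ (-s - 1) =
      (h : ℂ) ^ (-s - 1) * (fun x : ℝ => rho z x * (x : ℂ) ^ (-s - 1)) ((h : ℝ)⁻¹ * u) := by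
  have hh0 : (0:ℝ) < h := by exact_mod_cast hh
  have e1 : (u : ℂ) = ((h : ℝ) : ℂ) * (((h : ℝ)⁻¹ * u : ℝ) : ℂ) := by
    rw [← Complex.ofReal_mul, mul_inv_cancel_left₀ hh0.ne']
  have e2 : (u : ℂ) ^ (-s - 1) = ((h : ℝ) : ℂ) ^ (-s - 1) * (((h : ℝ)⁻¹ * u : ℝ) : ℂ) ^ (-s - 1) := by
    conv_lhs => rw [e1]
    exact Complex.mul_cpow_ofReal_nonneg hh0.le (by positivity) _
  simp only
  rw [e2, show u / (h : ℝ) = (h : ℝ)⁻¹ * u by rw [div_eq_inv_mul]]
  push_cast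
  ring

private lemma mellin_one34 {z : ℂ} (hz : 0 < z.re) {s : ℂ} (hs : 0 < s.re) (hs1 : s.re < 1) {h : ℕ}
    (hh : 1 ≤ h) :
    IntegrableOn (fun u : ℝ => rho z (u / h) * (u : ℂ) ^ (-s - 1)) (Ioi 0) ∧
    ∫ u in Ioi (0:ℝ), rho z (u / h) * (u : ℂ) ^ (-s - 1) =
      (h : ℂ) ^ (-s) * (riemannZeta s / (s + z)) := by
  have hh0 : (0:ℝ) < h := by exact_mod_cast hh
  have hhi : (0:ℝ) < (h : ℝ)⁻¹ := inv_pos.2 hh0
  set F : ℝ → ℂ := fun x : ℝ => rho z x * (x : ℂ) ^ (-s - 1) with hF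
  have hI : IntegrableOn F (Ioi 0) := integrable_rho hz hs hs1
  have hI2 : IntegrableOn (fun u => F ((h : ℝ)⁻¹ * u)) (Ioi 0) := by
    rw [integrableOn_Ioi_comp_mul_left_iff F 0 hhi, mul_zero]
    exact hI
  have heq : EqOn (fun u : ℝ => (h : ℂ) ^ (-s - 1) * F ((h : ℝ)⁻¹ * u))
      (fun u : ℝ => rho z (u / h) * (u : ℂ) ^ (-s - 1)) (Ioi 0) := fun u hu =>
    (scale34 hh hu).symm
  constructor
  · have h1 : IntegrableOn (fun u : ℝ => (h : ℂ) ^ (-s - 1) * F ((h : ℝ)⁻¹ * u)) (Ioi 0) :=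
      hI2.const_mul _
    exact h1.congr_fun heq measurableSet_Ioi
  · rw [← setIntegral_congr_fun measurableSet_Ioi heq, integral_const_mul,
      integral_comp_mul_left_Ioi F 0 hhi, mul_zero, hF, mellin_rho hz hs hs1, inv_inv,
      Complex.real_smul, ← mul_assoc]
    congr 1
    have hne : (h : ℂ) ≠ 0 := by exact_mod_cast hh0.ne'
    rw [Complex.cpow_sub _ _ hne, Complex.cpow_one]
    push_cast
    field_simp

private lemma mellin_fu34 (X : ℕ) (b : ℕ → ℝ) {z : ℂ} (hz : 0 < z.re) {s : ℂ} (hs : 0 < s.re)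
    (hs1 : s.re < 1) :
    IntegrableOn (fun u : ℝ => fu X b z u * (u : ℂ) ^ (-s - 1)) (Ioi 0) ∧
    ∫ u in Ioi (0:ℝ), fu X b z u * (u : ℂ) ^ (-s - 1) =
      riemannZeta s * Mo X b s / (s + z) := by
  have e : ∀ u : ℝ, fu X b z u * (u : ℂ) ^ (-s - 1) =
      ∑ h ∈ Finset.Icc 1 X, (b h : ℂ) * (rho z (u / h) * (u : ℂ) ^ (-s - 1)) := by
    intro u
    unfold fu
    rw [Finset.sum_mul]
    exact Finset.sum_congr rfl fun h _ => by ring
  have hI : ∀ h ∈ Finset.Icc 1 X, IntegrableOn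
      (fun u : ℝ => (b h : ℂ) * (rho z (u / h) * (u : ℂ) ^ (-s - 1))) (Ioi 0) := fun h hh =>
    (mellin_one34 hz hs hs1 (Finset.mem_Icc.1 hh).1).1.const_mul _
  constructor
  · simp_rw [e]
    exact integrable_finsetSum _ hI
  · simp_rw [e]
    rw [integral_finsetSum _ hI]
    unfold Mo
    rw [mul_div_assoc, Finset.sum_div, Finset.mul_sum]
    refine Finset.sum_congr rfl fun h hh => ?_
    rw [integral_const_mul, (mellin_one34 hz hs hs1 (Finset.mem_Icc.1 hh).1).2]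
    ring

private lemma measurable_fu34 (X : ℕ) (b : ℕ → ℝ) (z : ℂ) : Measurable (fu X b z) := by
  unfold fu
  exact Finset.measurable_fun_sum _ fun h _ =>
    measurable_const.mul ((measurable_rho z).comp (measurable_id.div_const _))

private lemma fu_bound34 (X : ℕ) (b : ℕ → ℝ) {z : ℂ} (hz : 0 < z.re) :
    ∃ C : ℝ, 0 ≤ C ∧ ∀ u : ℝ, 0 < u → ‖fu X b z u‖ ≤ C := by
  refine ⟨∑ h ∈ Finset.Icc 1 X, |b h| * (1 + ‖z‖ / z.re),
    Finset.sum_nonneg fun h _ => by positivity, fun u hu => ?_⟩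
  unfold fu
  refine (norm_sum_le _ _).trans (Finset.sum_le_sum fun h hh => ?_)
  rw [norm_mul, Complex.norm_real, Real.norm_eq_abs]
  have hh0 : (0:ℝ) < h := by exact_mod_cast (Finset.mem_Icc.1 hh).1
  exact mul_le_mul_of_nonneg_left (norm_rho_le hz (by positivity)) (abs_nonneg _)

private lemma fu_small34 (X : ℕ) (b : ℕ → ℝ) {z : ℂ} (hz : 0 < z.re) :
    ∃ C : ℝ, 0 ≤ C ∧ ∀ u : ℝ, 0 < u → u < 1 → ‖fu X b z u‖ ≤ C * u := by
  refine ⟨∑ h ∈ Finset.Icc 1 X, |b h|, Finset.sum_nonneg fun h _ => abs_nonneg _, fun u hu hu1 => ?_⟩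
  unfold fu
  rw [Finset.sum_mul]
  refine (norm_sum_le _ _).trans (Finset.sum_le_sum fun h hh => ?_)
  rw [norm_mul, Complex.norm_real, Real.norm_eq_abs]
  have hh1 : (1:ℝ) ≤ h := by exact_mod_cast (Finset.mem_Icc.1 hh).1
  have hh0 : (0:ℝ) < h := by linarith
  refine mul_le_mul_of_nonneg_left ?_ (abs_nonneg _)
  have h1 : u / h ≤ u := div_le_self hu.le hh1
  rw [rho_small z (lt_of_le_of_lt h1 hu1), norm_neg, norm_div, Complex.norm_real,
    Real.norm_of_nonneg (by positivity)]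
  have h2 : 1 ≤ ‖z + 1‖ := by
    refine le_trans ?_ (Complex.re_le_norm _)
    rw [Complex.add_re, Complex.one_re]
    linarith
  rw [div_le_iff₀ (by linarith)]
  calc u / h ≤ u := h1
    _ = u * 1 := (mul_one u).symm
    _ ≤ u * ‖z + 1‖ := mul_le_mul_of_nonneg_left h2 hu.le

private lemma integrable_sq34 (X : ℕ) (b : ℕ → ℝ) {z : ℂ} (hz : 0 < z.re) {σ : ℝ} (hσ : 0 < σ)
    (hσ1 : σ < 1) :
    IntegrableOn (fun u : ℝ => ‖fu X b z u‖ ^ 2 * u ^ (-2 * σ - 1)) (Ioi 0) := by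
  have hmeas : Measurable (fun u : ℝ => ‖fu X b z u‖ ^ 2 * u ^ (-2 * σ - 1)) :=
    ((measurable_fu34 X b z).norm.pow_const 2).mul (measurable_id.pow_const _)
  obtain ⟨C, hC, hC2⟩ := fu_bound34 X b hz
  obtain ⟨D, hD, hD2⟩ := fu_small34 X b hz
  rw [← Ioc_union_Ioi_eq_Ioi (zero_le_one : (0:ℝ) ≤ 1)]
  refine IntegrableOn.union ?_ ?_
  · rw [integrableOn_Ioc_iff_integrableOn_Ioo]
    have h1 : IntegrableOn (fun u : ℝ => D ^ 2 * u ^ (1 - 2 * σ)) (Ioo 0 1) := by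
      refine Integrable.const_mul ?_ _
      rw [← IntegrableOn, ← integrableOn_Ioc_iff_integrableOn_Ioo,
        ← intervalIntegrable_iff_integrableOn_Ioc_of_le zero_le_one]
      exact intervalIntegral.intervalIntegrable_rpow' (by linarith)
    refine h1.mono' hmeas.aestronglyMeasurable ?_
    refine (ae_restrict_iff' measurableSet_Ioo).2 (Eventually.of_forall fun u hu => ?_)
    have h2 := hD2 u hu.1 hu.2
    have h3 : ‖fu X b z u‖ ^ 2 ≤ (D * u) ^ 2 := pow_le_pow_left₀ (norm_nonneg _) h2 2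
    have h4 : 0 ≤ u ^ (-2 * σ - 1) := Real.rpow_nonneg hu.1.le _
    rw [Real.norm_of_nonneg (by positivity)]
    calc ‖fu X b z u‖ ^ 2 * u ^ (-2 * σ - 1) ≤ (D * u) ^ 2 * u ^ (-2 * σ - 1) :=
          mul_le_mul_of_nonneg_right h3 h4
      _ = D ^ 2 * (u ^ (2:ℝ) * u ^ (-2 * σ - 1)) := by
          rw [Real.rpow_two]
          ring
      _ = D ^ 2 * u ^ (1 - 2 * σ) := by
          rw [← Real.rpow_add hu.1]
          congr 2
          ring
  · have h1 : IntegrableOn (fun u : ℝ => C ^ 2 * u ^ (-2 * σ - 1)) (Ioi 1) :=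
      (integrableOn_Ioi_rpow_of_lt (by linarith) zero_lt_one).const_mul _
    refine h1.mono' hmeas.aestronglyMeasurable ?_
    refine (ae_restrict_iff' measurableSet_Ioi).2 (Eventually.of_forall fun u hu => ?_)
    have hu0 : (0:ℝ) < u := lt_trans zero_lt_one hu
    have h3 : ‖fu X b z u‖ ^ 2 ≤ C ^ 2 := pow_le_pow_left₀ (norm_nonneg _) (hC2 u hu0) 2
    have h4 : 0 ≤ u ^ (-2 * σ - 1) := Real.rpow_nonneg hu0.le _
    rw [Real.norm_of_nonneg (by positivity)]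
    exact mul_le_mul_of_nonneg_right h3 h4

/-- the function on the line -/
private noncomputable def gg34 (X : ℕ) (b : ℕ → ℝ) (z : ℂ) (σ : ℝ) (v : ℝ) : ℂ :=
  fu X b z (Real.exp v) * ((Real.exp (-σ * v) : ℝ) : ℂ)

private lemma gg_sq34 (X : ℕ) (b : ℕ → ℝ) (z : ℂ) (σ : ℝ) (v : ℝ) :
    ‖gg34 X b z σ v‖ ^ 2 =
      Real.exp v • (‖fu X b z (Real.exp v)‖ ^ 2 * Real.exp v ^ (-2 * σ - 1)) := by
  unfold gg34
  have e : Real.exp (-σ * v) ^ 2 = Real.exp v * Real.exp v ^ (-2 * σ - 1) := by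
    rw [← Real.exp_nat_mul, ← Real.exp_mul, ← Real.exp_add]
    congr 1
    push_cast
    ring
  rw [norm_mul, Complex.norm_real, Real.norm_of_nonneg (Real.exp_pos _).le, mul_pow, e,
    smul_eq_mul]
  ring

private lemma FT_gg34 (X : ℕ) (b : ℕ → ℝ) {z : ℂ} (hz : 0 < z.re) {σ : ℝ} (hσ : 0 < σ)
    (hσ1 : σ < 1) (t : ℝ) :
    Integrable (gg34 X b z σ) ∧ FT (gg34 X b z σ) (-t) =
      riemannZeta (σ + t * I) * Mo X b (σ + t * I) / (σ + t * I + z) := by
  have key : ∀ t v : ℝ, Real.exp v • (fu X b z (Real.exp v) *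
      ((Real.exp v : ℝ) : ℂ) ^ (-(σ + t * I : ℂ) - 1)) =
      Complex.exp (Complex.I * ((-t : ℝ) : ℂ) * v) * gg34 X b z σ v := by
    intro t v
    unfold gg34
    have hne : (((Real.exp v : ℝ)) : ℂ) ≠ 0 := by exact_mod_cast (Real.exp_pos _).ne'
    rw [Complex.real_smul, Complex.cpow_def_of_ne_zero hne, ← Complex.ofReal_log (Real.exp_pos _).le,
      Real.log_exp]
    push_cast
    rw [mul_left_comm, ← Complex.exp_add, mul_left_comm, ← Complex.exp_add]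
    congr 2
    ring
  have hs : ∀ t : ℝ, 0 < (σ + t * I : ℂ).re ∧ (σ + t * I : ℂ).re < 1 := by
    intro t
    simp [hσ, hσ1]
  constructor
  · have h := (mellin_fu34 X b hz (hs 0).1 (hs 0).2).1
    rw [covI34] at h
    refine h.congr (Eventually.of_forall fun v => ?_)
    simp only
    rw [key 0 v]
    simp
  · have h := (mellin_fu34 X b hz (hs t).1 (hs t).2).2
    rw [← h, cov34]
    unfold FT
    refine integral_congr_ae (Eventually.of_forall fun v => ?_)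
    simp only
    rw [key t v]

theorem secmom (X : ℕ) (b : ℕ → ℝ) {σ l τ R : ℝ} (hσ : 0 < σ) (hσ1 : σ < 1) (hl : 0 < l) (hR : 0 < R) :
    ∫ t in (-R)..R, PW (l + σ) (t - τ) * ‖riemannZeta (σ + t * I) * Mo X b (σ + t * I)‖ ^ 2 ≤
      2 * (l + σ) * ∫ u in Ioi (0:ℝ), ‖fu X b (l - τ * I) u‖ ^ 2 * u ^ (-2 * σ - 1) := by
  set z : ℂ := l - τ * I with hz
  have hzr : z.re = l := by simp [hz]
  have hz0 : 0 < z.re := by rw [hzr]; exact hl
  have hg := (FT_gg34 X b hz0 hσ hσ1 0).1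
  have hg2 : Integrable (fun v => ‖gg34 X b z σ v‖ ^ 2) := by
    have h := integrable_sq34 X b hz0 hσ hσ1
    rw [covI34] at h
    exact h.congr (Eventually.of_forall fun v => (gg_sq34 X b z σ v).symm)
  have hI2 : ∫ v, ‖gg34 X b z σ v‖ ^ 2 =
      ∫ u in Ioi (0:ℝ), ‖fu X b z u‖ ^ 2 * u ^ (-2 * σ - 1) := by
    rw [cov34]
    exact integral_congr_ae (Eventually.of_forall fun v => gg_sq34 X b z σ v)
  have hpl := planch hg hg2 (a := -R) (b := R) (by linarith)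
  have hW : 0 < l + σ := by linarith
  have hpt : ∀ t : ℝ, PW (l + σ) (t - τ) * ‖riemannZeta (σ + t * I) * Mo X b (σ + t * I)‖ ^ 2 =
      (l + σ) / Real.pi * ‖FT (gg34 X b z σ) (-t)‖ ^ 2 := by
    intro t
    rw [(FT_gg34 X b hz0 hσ hσ1 t).2, norm_div, div_pow]
    have e : ‖(σ + t * I + z : ℂ)‖ ^ 2 = (l + σ) ^ 2 + (t - τ) ^ 2 := by
      rw [← Complex.normSq_eq_norm_sq, Complex.normSq_apply]
      simp [hz]
      ring
    rw [e]
    unfold PW
    have h1 : 0 < (l + σ) ^ 2 + (t - τ) ^ 2 := by positivity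
    have := Real.pi_pos
    field_simp
  simp_rw [hpt]
  rw [intervalIntegral.integral_const_mul]
  have hneg : ∫ t in (-R)..R, ‖FT (gg34 X b z σ) (-t)‖ ^ 2 =
      ∫ t in (-R)..R, ‖FT (gg34 X b z σ) t‖ ^ 2 := by
    have := intervalIntegral.integral_comp_neg (a := -R) (b := R)
      (fun t => ‖FT (gg34 X b z σ) t‖ ^ 2)
    rw [this, neg_neg]
  rw [hneg]
  calc (l + σ) / Real.pi * ∫ t in (-R)..R, ‖FT (gg34 X b z σ) t‖ ^ 2
      ≤ (l + σ) / Real.pi * (2 * Real.pi * ∫ v, ‖gg34 X b z σ v‖ ^ 2) :=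
        mul_le_mul_of_nonneg_left hpl (by positivity)
    _ = _ := by
        rw [hI2]
        have := Real.pi_pos
        field_simp

end Pool.Agent.Helper57.ED
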