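import Pool.Agent.Helper57.ED.CoA
import Pool.Agent.Helper57.ED.SmA
import Pool.Agent.Helper57.ED.GcA
import Pool.Agent.Helper57.ED.SeA

/-!
# ED-SEC: the mollified second moment
-/

open MeasureTheory Set Filter Topology Complex

namespace Pool.Agent.Helper57.ED

/-- mollified second moment, explicit in all parameters; the weights depend on `X` and `σ` only. -/
theorem secmom_raw {X : ℕ} (hX : 1 ≤ X) {σ : ℝ} (hσ : 1 / 2 < σ) (hσ1 : σ ≤ 3 / 4) :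
    ∃ b : ℕ → ℝ, b 1 = 1 ∧ (∀ h, |b h| ≤ 1) ∧ ∀ l τ R : ℝ, 1 ≤ l → 0 < R →
      ∫ t in (-R)..R, PW (l + σ) (t - τ) * ‖riemannZeta (σ + t * I) * Mo X b (σ + t * I)‖ ^ 2 ≤
        zs σ / (∑ n ∈ Finset.Icc 1 X, (n : ℝ) ^ (-(2 * σ))) +
          (X : ℝ) ^ 2 * (15 * (1 + |τ| / l) / (l * (2 * σ - 1))) := by
  obtain ⟨b, hb1, hb, hbs⟩ := selberg hX (s := 2 * σ) (by linarith)
  refine ⟨b, hb1, hb, fun l τ R hl hR => ?_⟩
  obtain ⟨c, hc0, hc⟩ := corr (τ := τ) hl hσ hσ1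
  have hz : 0 < ((l : ℂ) - τ * I).re := by simp; linarith
  have hs' : 0 < 2 * σ - 1 := by linarith
  have hl0 : 0 < l := by linarith
  refine (secmom X b (by linarith) (by linarith) hl0 hR).trans ?_
  rw [expand X b hz (by linarith) (by linarith), Finset.mul_sum]
  set E := 15 * (1 + |τ| / l) / (l * (2 * σ - 1)) with hE
  have hE0 : 0 ≤ E := by positivity
  have h1 : ∀ h ∈ Finset.Icc 1 X, 2 * (l + σ) * ∑ k ∈ Finset.Icc 1 X, b h * b k * Cc (l - τ * I) σ h k ≤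
      ∑ k ∈ Finset.Icc 1 X, (b h * b k * (zs σ * (Nat.lcm h k : ℝ) ^ (-(2 * σ))) -
        c * ((b h / h) * (b k / k) * (Nat.gcd h k : ℝ) ^ (2 - 2 * σ)) + E) := by
    intro h hh
    rw [Finset.mul_sum]
    refine Finset.sum_le_sum fun k hk => ?_
    have hh1 := (Finset.mem_Icc.mp hh).1
    have hk1 := (Finset.mem_Icc.mp hk).1
    have h2 := hc h k hh1 hk1
    have hhR : (0:ℝ) < h := by exact_mod_cast hh1
    have hkR : (0:ℝ) < k := by exact_mod_cast hk1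
    have hgR : (0:ℝ) < Nat.gcd h k := by exact_mod_cast Nat.gcd_pos_of_pos_left _ hh1
    have hPR : (0:ℝ) < Nat.lcm h k := by exact_mod_cast Nat.lcm_pos hh1 hk1
    have hgP : (Nat.gcd h k : ℝ) * Nat.lcm h k = h * k := by exact_mod_cast Nat.gcd_mul_lcm h k
    have e1 : (Nat.gcd h k : ℝ) ^ (1 - 2 * σ) / Nat.lcm h k = (Nat.gcd h k : ℝ) ^ (2 - 2 * σ) / (h * k) := by
      rw [← hgP, show (2 - 2 * σ) = (1 - 2 * σ) + 1 by ring, Real.rpow_add_one hgR.ne']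
      field_simp
    rw [e1, show (-2 * σ) = -(2 * σ) by ring] at h2
    set V := 2 * (l + σ) * Cc (l - τ * I) σ h k
    set U := zs σ * (Nat.lcm h k : ℝ) ^ (-(2 * σ)) - c * ((Nat.gcd h k : ℝ) ^ (2 - 2 * σ) / (h * k))
    have e2 : 2 * (l + σ) * (b h * b k * Cc (l - τ * I) σ h k) = b h * b k * V := by ring
    have e3 : b h * b k * (zs σ * (Nat.lcm h k : ℝ) ^ (-(2 * σ))) -
        c * ((b h / h) * (b k / k) * (Nat.gcd h k : ℝ) ^ (2 - 2 * σ)) + E = b h * b k * U + E := by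
      simp only [U]
      field_simp
    rw [e2, e3]
    have h3 : |b h * b k| ≤ 1 := by
      rw [abs_mul]
      exact mul_le_one₀ (hb h) (abs_nonneg _) (hb k)
    have h4 : b h * b k * (V - U) ≤ E := by
      calc b h * b k * (V - U) ≤ |b h * b k * (V - U)| := le_abs_self _
        _ = |b h * b k| * |V - U| := abs_mul _ _
        _ ≤ 1 * E := mul_le_mul h3 h2 (abs_nonneg _) zero_le_one
        _ = E := one_mul _
    linarith
  refine (Finset.sum_le_sum h1).trans ?_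
  have h5 : ∑ h ∈ Finset.Icc 1 X, ∑ k ∈ Finset.Icc 1 X, (b h * b k * (zs σ * (Nat.lcm h k : ℝ) ^ (-(2 * σ))) -
        c * ((b h / h) * (b k / k) * (Nat.gcd h k : ℝ) ^ (2 - 2 * σ)) + E) =
      zs σ * ∑ h ∈ Finset.Icc 1 X, ∑ k ∈ Finset.Icc 1 X, b h * b k * (Nat.lcm h k : ℝ) ^ (-(2 * σ)) -
      c * ∑ h ∈ Finset.Icc 1 X, ∑ k ∈ Finset.Icc 1 X, (b h / h) * (b k / k) * (Nat.gcd h k : ℝ) ^ (2 - 2 * σ) +
      (X : ℝ) ^ 2 * E := by
    simp only [Finset.sum_add_distrib, Finset.sum_sub_distrib, Finset.mul_sum, Finset.sum_const, Nat.card_Icc,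
      Nat.add_sub_cancel, nsmul_eq_mul]
    have : ∀ h k : ℕ, b h * b k * (zs σ * (Nat.lcm h k : ℝ) ^ (-(2 * σ))) =
      zs σ * (b h * b k * (Nat.lcm h k : ℝ) ^ (-(2 * σ))) := fun h k => by ring
    simp only [this]
    ring
  rw [h5]
  have h6 := gcd_form_nonneg (α := 2 - 2 * σ) (by linarith) X (fun h => b h / h)
  have h7 : 0 ≤ zs σ := tsum_nonneg fun n => by positivity
  have h9 : zs σ * ∑ h ∈ Finset.Icc 1 X, ∑ k ∈ Finset.Icc 1 X, b h * b k * (Nat.lcm h k : ℝ) ^ (-(2 * σ)) ≤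
      zs σ / ∑ n ∈ Finset.Icc 1 X, (n : ℝ) ^ (-(2 * σ)) := by
    rw [div_eq_mul_one_div]
    exact mul_le_mul_of_nonneg_left hbs h7
  have h10 := mul_nonneg hc0 h6
  linarith

/-- the first form of the bound. -/
theorem secmom_fin {X : ℕ} (hX : 1 ≤ X) {σ : ℝ} (hσ : 1 / 2 < σ) (hσ1 : σ ≤ 3 / 4) :
    ∃ b : ℕ → ℝ, b 1 = 1 ∧ (∀ h, |b h| ≤ 1) ∧ ∀ l τ R : ℝ, 1 ≤ l → 0 < R →
      ∫ t in (-R)..R, PW (l + σ) (t - τ) * ‖riemannZeta (σ + t * I) * Mo X b (σ + t * I)‖ ^ 2 ≤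
        2 * σ / (1 - ((X : ℝ) + 1) ^ (-(2 * σ - 1))) + (X : ℝ) ^ 2 * (15 * (1 + |τ| / l) / (l * (2 * σ - 1))) := by
  obtain ⟨b, hb1, hb, h⟩ := secmom_raw hX hσ hσ1
  refine ⟨b, hb1, hb, fun l τ R hl hR => (h l τ R hl hR).trans ?_⟩
  have h8 := zs_ratio hσ hX
  linarith

end Pool.Agent.Helper57.ED
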