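import Pool.Agent.Helper57.ED.RhA

/-!
# ED-SMB: expansion of the square, and the truncated correlations

* `integrable_cc`: `‖ρ_z(u/h) ρ_z(u/k)‖ ≤ (1+‖z‖/Re z)²` for `u ≥ 1/2`, and `ρ_z(u/h) = -(u/h)/(z+1)` for `u < 1 ≤ h`; `0 < σ < 1`.
* `expand`: finite sum, `‖∑‖² = ∑∑ Re(...)`.
* `cc_lim`: with `∫_0^N → ∫_0^∞` (`intervalIntegral_tendsto_integral_Ioi` or `tendsto_setIntegral_of_monotone`) and
  `‖ρ ρ‖ N^{-2σ} → 0`.
-/

open MeasureTheory Set Filter Topology Complex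

namespace Pool.Agent.Helper57.ED

private lemma norm_rr80 {z : ℂ} (hz : 0 < z.re) {h k : ℕ} (hh : 1 ≤ h) (hk : 1 ≤ k) {u : ℝ} (hu : 0 < u) :
    |(rho z (u / h) * (starRingEnd ℂ) (rho z (u / k))).re| ≤ (1 + ‖z‖ / z.re) ^ 2 := by
  have hh' : (0:ℝ) < h := by exact_mod_cast hh
  have hk' : (0:ℝ) < k := by exact_mod_cast hk
  calc |(rho z (u / h) * (starRingEnd ℂ) (rho z (u / k))).re|
      ≤ ‖rho z (u / h) * (starRingEnd ℂ) (rho z (u / k))‖ := Complex.abs_re_le_norm _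
    _ = ‖rho z (u / h)‖ * ‖rho z (u / k)‖ := by rw [norm_mul, Complex.norm_conj]
    _ ≤ (1 + ‖z‖ / z.re) * (1 + ‖z‖ / z.re) :=
        mul_le_mul (norm_rho_le hz (by positivity)) (norm_rho_le hz (by positivity)) (norm_nonneg _)
          (by positivity)
    _ = (1 + ‖z‖ / z.re) ^ 2 := by ring

private lemma norm_small80 {z : ℂ} (hz : 0 < z.re) {h : ℕ} (hh : 1 ≤ h) {u : ℝ} (hu : 0 < u) (hu1 : u < 1) :
    ‖rho z (u / h)‖ ≤ u := by
  have hh' : (1:ℝ) ≤ h := by exact_mod_cast hh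
  have h0 : (0:ℝ) < h := by linarith
  have h1 : u / h ≤ u := div_le_self hu.le hh'
  have hp : 0 < u / h := by positivity
  have h2 : u / h < 1 := by linarith
  rw [rho_small z h2, norm_neg, norm_div, Complex.norm_real, Real.norm_of_nonneg hp.le]
  have h3 : 1 ≤ ‖z + 1‖ := by
    have h4 := Complex.abs_re_le_norm (z + 1)
    have h5 : (z + 1).re = z.re + 1 := by simp
    rw [h5, abs_of_pos (by linarith)] at h4
    linarith
  exact (div_le_self hp.le h3).trans h1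

private lemma small_rr80 {z : ℂ} (hz : 0 < z.re) {h k : ℕ} (hh : 1 ≤ h) (hk : 1 ≤ k) {u : ℝ} (hu : 0 < u)
    (hu1 : u < 1) :
    |(rho z (u / h) * (starRingEnd ℂ) (rho z (u / k))).re| ≤ (1 + ‖z‖ / z.re) ^ 2 * u ^ 2 := by
  have hB : (1:ℝ) ≤ (1 + ‖z‖ / z.re) ^ 2 := by
    have : 0 ≤ ‖z‖ / z.re := by positivity
    nlinarith
  calc |(rho z (u / h) * (starRingEnd ℂ) (rho z (u / k))).re|
      ≤ ‖rho z (u / h) * (starRingEnd ℂ) (rho z (u / k))‖ := Complex.abs_re_le_norm _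
    _ = ‖rho z (u / h)‖ * ‖rho z (u / k)‖ := by rw [norm_mul, Complex.norm_conj]
    _ ≤ u * u :=
        mul_le_mul (norm_small80 hz hh hu hu1) (norm_small80 hz hk hu hu1) (norm_nonneg _) hu.le
    _ = 1 * u ^ 2 := by ring
    _ ≤ (1 + ‖z‖ / z.re) ^ 2 * u ^ 2 := by
        apply mul_le_mul_of_nonneg_right hB (by positivity)

private lemma meas_cc80 (z : ℂ) (σ : ℝ) (h k : ℕ) :
    Measurable (fun u : ℝ => (rho z (u / h) * (starRingEnd ℂ) (rho z (u / k))).re * u ^ (-2 * σ - 1)) := by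
  have h1 : Measurable (fun u : ℝ => rho z (u / h)) := (measurable_rho z).comp (measurable_id.div_const _)
  have h2 : Measurable (fun u : ℝ => rho z (u / k)) := (measurable_rho z).comp (measurable_id.div_const _)
  have h3 : Measurable (fun u : ℝ => (starRingEnd ℂ) (rho z (u / k))) :=
    Complex.continuous_conj.measurable.comp h2
  exact (Complex.measurable_re.comp (h1.mul h3)).mul (measurable_id.pow_const _)

theorem integrable_cc {z : ℂ} (hz : 0 < z.re) {σ : ℝ} (hσ : 0 < σ) (hσ1 : σ < 1) {h k : ℕ} (hh : 1 ≤ h) (hk : 1 ≤ k) :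
    IntegrableOn (fun u : ℝ => (rho z (u / h) * (starRingEnd ℂ) (rho z (u / k))).re * u ^ (-2 * σ - 1)) (Ioi 0) := by
  have hm := meas_cc80 z σ h k
  have hset : Ioi (0:ℝ) = Ioc 0 1 ∪ Ioi 1 := (Ioc_union_Ioi_eq_Ioi zero_le_one).symm
  rw [hset]
  apply IntegrableOn.union
  · have hg : IntegrableOn (fun u : ℝ => (1 + ‖z‖ / z.re) ^ 2 * u ^ (1 - 2 * σ)) (Ioc 0 1) := by
      have := (intervalIntegral.intervalIntegrable_rpow' (a := 0) (b := 1) (r := 1 - 2 * σ) (by linarith)).1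
      exact this.const_mul _
    refine Integrable.mono' hg hm.aestronglyMeasurable ?_
    refine (ae_restrict_iff' measurableSet_Ioc).mpr (Eventually.of_forall fun u hu => ?_)
    have hu0 : 0 < u := hu.1
    rw [Real.norm_eq_abs, abs_mul, abs_of_pos (Real.rpow_pos_of_pos hu0 _)]
    rcases lt_or_eq_of_le hu.2 with h1 | h1
    · have h2 : u ^ (1 - 2 * σ) = u ^ 2 * u ^ (-2 * σ - 1) := by
        rw [← Real.rpow_natCast u 2, ← Real.rpow_add hu0]
        congr 1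
        push_cast
        ring
      rw [h2, ← mul_assoc]
      exact mul_le_mul_of_nonneg_right (small_rr80 hz hh hk hu0 h1) (Real.rpow_pos_of_pos hu0 _).le
    · subst h1
      rw [Real.one_rpow, Real.one_rpow, mul_one, mul_one]
      exact norm_rr80 hz hh hk one_pos
  · have hg : IntegrableOn (fun u : ℝ => (1 + ‖z‖ / z.re) ^ 2 * u ^ (-2 * σ - 1)) (Ioi 1) := by
      have := integrableOn_Ioi_rpow_of_lt (a := -2 * σ - 1) (by linarith) (c := 1) one_pos
      exact this.const_mul _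
    refine Integrable.mono' hg hm.aestronglyMeasurable ?_
    refine (ae_restrict_iff' measurableSet_Ioi).mpr (Eventually.of_forall fun u hu => ?_)
    have hu0 : 0 < u := lt_trans one_pos hu
    rw [Real.norm_eq_abs, abs_mul, abs_of_pos (Real.rpow_pos_of_pos hu0 _)]
    exact mul_le_mul_of_nonneg_right (norm_rr80 hz hh hk hu0) (Real.rpow_pos_of_pos hu0 _).le

private lemma sq80 (X : ℕ) (b : ℕ → ℝ) (z : ℂ) (u : ℝ) :
    ‖fu X b z u‖ ^ 2 = ∑ h ∈ Finset.Icc 1 X, ∑ k ∈ Finset.Icc 1 X,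
      b h * b k * (rho z (u / h) * (starRingEnd ℂ) (rho z (u / k))).re := by
  have h1 : ((‖fu X b z u‖ ^ 2 : ℝ) : ℂ) = fu X b z u * (starRingEnd ℂ) (fu X b z u) := by
    rw [Complex.mul_conj, Complex.normSq_eq_norm_sq]
  have h2 : ‖fu X b z u‖ ^ 2 = (fu X b z u * (starRingEnd ℂ) (fu X b z u)).re := by
    rw [← h1, Complex.ofReal_re]
  rw [h2]
  unfold fu
  rw [map_sum, Finset.sum_mul_sum, Complex.re_sum]
  refine Finset.sum_congr rfl fun h _ => ?_
  rw [Complex.re_sum]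
  refine Finset.sum_congr rfl fun k _ => ?_
  rw [map_mul, Complex.conj_ofReal]
  have : (b h : ℂ) * rho z (u / h) * ((b k : ℂ) * (starRingEnd ℂ) (rho z (u / k))) =
      ((b h * b k : ℝ) : ℂ) * (rho z (u / h) * (starRingEnd ℂ) (rho z (u / k))) := by
    push_cast
    ring
  rw [this, Complex.re_ofReal_mul]

theorem expand (X : ℕ) (b : ℕ → ℝ) {z : ℂ} (hz : 0 < z.re) {σ : ℝ} (hσ : 0 < σ) (hσ1 : σ < 1) :
    ∫ u in Ioi (0:ℝ), ‖fu X b z u‖ ^ 2 * u ^ (-2 * σ - 1) =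
      ∑ h ∈ Finset.Icc 1 X, ∑ k ∈ Finset.Icc 1 X, b h * b k * Cc z σ h k := by
  have h0 : ∀ u : ℝ, ‖fu X b z u‖ ^ 2 * u ^ (-2 * σ - 1) =
      ∑ h ∈ Finset.Icc 1 X, ∑ k ∈ Finset.Icc 1 X,
        b h * b k * ((rho z (u / h) * (starRingEnd ℂ) (rho z (u / k))).re * u ^ (-2 * σ - 1)) := by
    intro u
    rw [sq80, Finset.sum_mul]
    refine Finset.sum_congr rfl fun h _ => ?_
    rw [Finset.sum_mul]
    refine Finset.sum_congr rfl fun k _ => ?_
    ring
  simp only [h0]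
  rw [integral_finsetSum]
  · refine Finset.sum_congr rfl fun h hh => ?_
    rw [integral_finsetSum]
    · refine Finset.sum_congr rfl fun k hk => ?_
      rw [integral_const_mul]
      rfl
    · intro k hk
      exact (integrable_cc hz hσ hσ1 (Finset.mem_Icc.mp hh).1 (Finset.mem_Icc.mp hk).1).const_mul _
  · intro h hh
    apply integrable_finsetSum
    intro k hk
    exact (integrable_cc hz hσ hσ1 (Finset.mem_Icc.mp hh).1 (Finset.mem_Icc.mp hk).1).const_mul _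

theorem cc_lim {z : ℂ} (hz : 0 < z.re) {σ : ℝ} (hσ : 0 < σ) (hσ1 : σ < 1) {h k : ℕ} (hh : 1 ≤ h) (hk : 1 ≤ k) (W : ℝ) :
    Tendsto (fun N : ℕ =>
      2 * W * (∫ u in Ioc (0:ℝ) N, (rho z (u / h) * (starRingEnd ℂ) (rho z (u / k))).re * u ^ (-2 * σ - 1)) +
        (rho z (N / h) * (starRingEnd ℂ) (rho z (N / k))).re * (N : ℝ) ^ (-2 * σ)) atTop (𝓝 (2 * W * Cc z σ h k)) := by
  have h1 : Tendsto (fun N : ℕ =>
      ∫ u in Ioc (0:ℝ) N, (rho z (u / h) * (starRingEnd ℂ) (rho z (u / k))).re * u ^ (-2 * σ - 1)) atTop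
      (𝓝 (Cc z σ h k)) := by
    have := intervalIntegral_tendsto_integral_Ioi (0:ℝ) (integrable_cc hz hσ hσ1 hh hk)
      (tendsto_natCast_atTop_atTop (R := ℝ))
    refine this.congr fun N => ?_
    rw [intervalIntegral.integral_of_le (Nat.cast_nonneg N)]
  have h2 : Tendsto (fun N : ℕ =>
      (rho z (N / h) * (starRingEnd ℂ) (rho z (N / k))).re * (N : ℝ) ^ (-2 * σ)) atTop (𝓝 0) := by
    have h3 : Tendsto (fun N : ℕ => (1 + ‖z‖ / z.re) ^ 2 * (N : ℝ) ^ (-(2 * σ))) atTop (𝓝 0) := by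
      have h4 := (tendsto_rpow_neg_atTop (y := 2 * σ) (by linarith)).comp (tendsto_natCast_atTop_atTop (R := ℝ))
      have h5 := h4.const_mul ((1 + ‖z‖ / z.re) ^ 2)
      rw [mul_zero] at h5
      exact h5
    refine squeeze_zero_norm' ?_ h3
    filter_upwards [eventually_gt_atTop 0] with N hN
    have hN' : (0:ℝ) < N := by exact_mod_cast hN
    rw [Real.norm_eq_abs, abs_mul, abs_of_pos (Real.rpow_pos_of_pos hN' _)]
    rw [show -(2 * σ) = -2 * σ by ring]
    exact mul_le_mul_of_nonneg_right (norm_rr80 hz hh hk hN') (Real.rpow_pos_of_pos hN' _).le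
  have h6 := (h1.const_mul (2 * W)).add h2
  rw [add_zero] at h6
  exact h6

end Pool.Agent.Helper57.ED
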